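import Pool.Agent.Lib.MP_216314_pr.SL.Def

/-!
# SL/SHf: elementary facts on `SH`, `H`, `W0`

Proof. `SH` has derivative `(1 + v^2)^(-2/3)` (continuous integrand). `H(A) = SH(sqrt(A(A+2)))`, `1 + A(A+2) = (A+1)^2`, so
`H'(A) = ((A+1)^2)^(-2/3) * (2(A+1)) / (2 sqrt(A(A+2))) = (A+1)^(-4/3+1) / sqrt(A(A+2)) = 1 / W0(A)`. `log W0 = (1/2) log A + (1/2) log (A+2) + (1/3) log (A+1)`, so `W0' = qq W0`.
`(1+y^2)^(-2/3) <= y^(-4/3)` is integrable on `[1, oo)`, bounded by 1 on `[0,1]`; `SH v -> SHinf` (`intervalIntegral_tendsto_integral_Ioi`).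
-/

set_option autoImplicit false

noncomputable section

namespace SL

open Filter Topology MeasureTheory

theorem SHf_cont : Continuous (fun y : ℝ => (1 + y ^ 2) ^ (-(2 / 3) : ℝ)) := by
  refine Continuous.rpow_const (by fun_prop) (fun y => Or.inl ?_)
  positivity

theorem SH_hd (v : ℝ) : HasDerivAt SH ((1 + v ^ 2) ^ (-(2 / 3) : ℝ)) v := by
  have h := intervalIntegral.integral_hasDerivAt_right (a := (0 : ℝ)) (b := v)
    (SHf_cont.intervalIntegrable 0 v) (SHf_cont.stronglyMeasurableAtFilter volume (𝓝 v)) SHf_cont.continuousAt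
  exact h

theorem SH_zero : SH 0 = 0 := by
  simp [SH]

theorem SHint : IntegrableOn (fun y : ℝ => (1 + y ^ 2) ^ (-(2 / 3) : ℝ)) (Set.Ioi 0) := by
  rw [← Set.Ioc_union_Ioi_eq_Ioi (zero_le_one' ℝ)]
  refine IntegrableOn.union ?_ ?_
  · exact (SHf_cont.continuousOn.integrableOn_Icc).mono_set Set.Ioc_subset_Icc_self
  · have h := integrableOn_Ioi_rpow_of_lt (a := (-(4 / 3) : ℝ)) (by norm_num) (c := 1) one_pos
    refine h.mono' SHf_cont.aestronglyMeasurable ?_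
    filter_upwards [ae_restrict_mem measurableSet_Ioi] with y hy
    have hy1 : (1 : ℝ) < y := hy
    have h1 : y ^ 2 ≤ 1 + y ^ 2 := by linarith
    rw [Real.norm_eq_abs, abs_of_pos (Real.rpow_pos_of_pos (by positivity) _)]
    have h2 : (1 + y ^ 2) ^ (-(2 / 3) : ℝ) ≤ (y ^ 2) ^ (-(2 / 3) : ℝ) :=
      Real.rpow_le_rpow_of_nonpos (by positivity) h1 (by norm_num)
    have h3 : (y ^ 2 : ℝ) ^ (-(2 / 3) : ℝ) = y ^ (-(4 / 3) : ℝ) := by
      rw [← Real.rpow_natCast, ← Real.rpow_mul (by positivity)]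
      norm_num
    rw [← h3]
    exact h2

theorem SH_lim : Tendsto SH atTop (𝓝 SHinf) := by
  have h := intervalIntegral_tendsto_integral_Ioi (0 : ℝ) SHint (tendsto_id (α := ℝ) (x := atTop))
  exact h

theorem SHf_pos (y : ℝ) : 0 < (1 + y ^ 2) ^ (-(2 / 3) : ℝ) :=
  Real.rpow_pos_of_pos (by positivity) _

theorem SHf_mono : StrictMono SH := by
  refine strictMono_of_deriv_pos (fun y => ?_)
  rw [(SH_hd y).deriv]
  exact SHf_pos y

theorem SHinf_pos : 0 < SHinf := by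
  have h1 : SH 1 ≤ SHinf := by
    refine ge_of_tendsto SH_lim ?_
    filter_upwards [eventually_ge_atTop (1 : ℝ)] with y hy
    exact SHf_mono.monotone hy
  have h2 : SH 0 < SH 1 := SHf_mono one_pos
  rw [SH_zero] at h2
  linarith

theorem W0_pos {A : ℝ} (hA : 0 < A) : 0 < W0 A := by
  unfold W0
  positivity

theorem SHf_sqrt_hd {A : ℝ} (hA : 0 < A) :
    HasDerivAt (fun A : ℝ => Real.sqrt (A * (A + 2))) ((A + 1) / Real.sqrt (A * (A + 2))) A := by
  have h1 : HasDerivAt (fun A : ℝ => A * (A + 2)) (1 * (A + 2) + A * 1) A :=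
    (hasDerivAt_id A).mul ((hasDerivAt_id A).add_const 2)
  have h2 := h1.sqrt (by positivity)
  have h3 : (1 * (A + 2) + A * 1) / (2 * Real.sqrt (A * (A + 2))) = (A + 1) / Real.sqrt (A * (A + 2)) := by
    have : Real.sqrt (A * (A + 2)) ≠ 0 := by positivity
    field_simp
    ring
  rw [← h3]
  exact h2

theorem W0_hd {A : ℝ} (hA : 0 < A) : HasDerivAt W0 (qq A * W0 A) A := by
  have h1 := SHf_sqrt_hd hA
  have h2 : HasDerivAt (fun A : ℝ => (A + 1) ^ (1 / 3 : ℝ)) (1 * (1 / 3 : ℝ) * (A + 1) ^ ((1 / 3 : ℝ) - 1)) A :=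
    ((hasDerivAt_id A).add_const 1).rpow_const (Or.inl (by simp only [id]; positivity))
  have h3 := h1.mul h2
  have h4 : (A + 1) ^ ((1 / 3 : ℝ) - 1) = (A + 1) ^ (1 / 3 : ℝ) / (A + 1) := by
    rw [Real.rpow_sub_one (by positivity)]
  have h5 : (A + 1) / Real.sqrt (A * (A + 2)) * (A + 1) ^ (1 / 3 : ℝ) +
      Real.sqrt (A * (A + 2)) * (1 * (1 / 3 : ℝ) * (A + 1) ^ ((1 / 3 : ℝ) - 1)) = qq A * W0 A := by
    rw [h4]
    unfold qq W0
    have hs : Real.sqrt (A * (A + 2)) ≠ 0 := by positivity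
    have hs2 : Real.sqrt (A * (A + 2)) ^ 2 = A * (A + 2) := Real.sq_sqrt (by positivity)
    generalize Real.sqrt (A * (A + 2)) = s at hs hs2 ⊢
    generalize (A + 1) ^ (1 / 3 : ℝ) = r
    have hA1 : A + 1 ≠ 0 := by positivity
    have hA2 : A + 2 ≠ 0 := by positivity
    have hA0 : A ≠ 0 := hA.ne'
    field_simp
    rw [hs2]
    ring
  rw [← h5]
  exact h3

theorem H_hd {A : ℝ} (hA : 0 < A) : HasDerivAt H (1 / W0 A) A := by
  have h1 := SHf_sqrt_hd hA
  have h2 := (SH_hd (Real.sqrt (A * (A + 2)))).comp A h1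
  have h3 : (1 + Real.sqrt (A * (A + 2)) ^ 2) ^ (-(2 / 3) : ℝ) * ((A + 1) / Real.sqrt (A * (A + 2))) = 1 / W0 A := by
    rw [Real.sq_sqrt (by positivity)]
    have e1 : 1 + A * (A + 2) = (A + 1) ^ 2 := by ring
    rw [e1]
    have e2 : ((A + 1) ^ 2 : ℝ) ^ (-(2 / 3) : ℝ) = (A + 1) ^ (-(1 / 3) - 1 : ℝ) := by
      rw [← Real.rpow_natCast, ← Real.rpow_mul (by positivity)]
      norm_num
    rw [e2, Real.rpow_sub_one (by positivity), Real.rpow_neg (by positivity)]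
    unfold W0
    have hs : Real.sqrt (A * (A + 2)) ≠ 0 := by positivity
    have hr : (A + 1) ^ (1 / 3 : ℝ) ≠ 0 := by positivity
    have hA1 : A + 1 ≠ 0 := by positivity
    field_simp
  rw [← h3]
  exact h2

theorem H_mono {A B : ℝ} (hA : 0 < A) (h : A < B) : H A < H B := by
  refine SHf_mono ?_
  refine Real.sqrt_lt_sqrt (by positivity) ?_
  nlinarith

/-- `H(2a/(1-a)) = SH(2 sqrt a / (1-a))` -/
theorem H_eq {a : ℝ} (h0 : 0 < a) (h1 : a < 1) : H (2 * a / (1 - a)) = SH (2 * Real.sqrt a / (1 - a)) := by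
  unfold H
  congr 1
  have h2 : (0 : ℝ) < 1 - a := by linarith
  have e1 : 2 * a / (1 - a) * (2 * a / (1 - a) + 2) = (2 * Real.sqrt a / (1 - a)) ^ 2 := by
    rw [div_pow, mul_pow, Real.sq_sqrt h0.le]
    field_simp
    ring
  rw [e1, Real.sqrt_sq (by positivity)]

end SL
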