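import Pool.Agent.Lib.MP_216314_pr.SL.Rd
import Pool.Agent.Lib.MP_216314_pr.SL.SHf

/-!
# SL/Aff: `Lam` is affine in `H` (paper 6.4)

Proof. Fix `A1 > 1` and the compact interval `J = [A0, A1]`, `A0 < 1`, `A0 > 0`. For `e in (0, 1]` put `c_e = l1 e 1 * W0 1`. The function `A -> l1 e A * W0 A` has derivative
`W0 A (l2 e A + qq A * l1 e A) = W0 A / (A (A+2)) * (int om Xi)` (`l1_hd`, `W0_hd`, `ibp1`), bounded by `K1 (e + eta e)` on `J` (`om_bd`). By the mean value inequality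
(`Convex.norm_image_sub_le_of_norm_hasDerivWithin_le` on `J`): `|l1 e A W0 A - c_e| <= K2 (e + eta e)` on `J`. Then `A -> l0 e A - c_e * H A` has derivative
`l1 e A - c_e / W0 A = (l1 e A W0 A - c_e) / W0 A`, bounded by `K3 (e + eta e)`: `|l0 e A - l0 e 1 - c_e (H A - H 1)| <= K4 (e + eta e)` for `A in J`. This is `aff_e`.
Let `e -> 0+`: with `A = 2`: `c_e (H 2 - H 1) -> Lam 2 - Lam 1`, so `c_e -> c := (Lam 2 - Lam 1) / (H 2 - H 1)`; for general `A > 0` (choose `J` containing `A, 1, 2`):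
`Lam A - Lam 1 = c (H A - H 1)` (uniqueness of limits).
-/

set_option autoImplicit false

noncomputable section

namespace SL

open Filter Topology MeasureTheory

private theorem Aff_phi_hd {e A : ℝ} (he : 0 < e) (hA : 0 < A) :
    HasDerivAt (fun A => l1 e A * W0 A) (W0 A / (A * (A + 2)) * ∫ t : ℝ, om e t * ID Xi A t) A := by
  have h1 := (l1_hd he hA).mul (W0_hd hA)
  have h2 : W0 A / (A * (A + 2)) * (∫ t : ℝ, om e t * ID Xi A t) =
      l2 e A * W0 A + l1 e A * (qq A * W0 A) := by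
    rw [← ibp1 he hA]
    have h3 : A * (A + 2) ≠ 0 := by positivity
    field_simp
  rw [h2]
  exact h1

private theorem Aff_bd {A0 A1 : ℝ} (h0 : 0 < A0) : ∃ C : ℝ, 0 < C ∧ ∀ A ∈ Set.Icc A0 A1,
    |W0 A / (A * (A + 2))| ≤ C ∧ |1 / W0 A| ≤ C := by
  have hW : ContinuousOn W0 (Set.Icc A0 A1) := fun A hA =>
    (W0_hd (lt_of_lt_of_le h0 hA.1)).continuousAt.continuousWithinAt
  have hne : ∀ A ∈ Set.Icc A0 A1, A * (A + 2) ≠ 0 := by
    intro A hA
    have : 0 < A := lt_of_lt_of_le h0 hA.1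
    positivity
  have h1 : ContinuousOn (fun A => W0 A / (A * (A + 2))) (Set.Icc A0 A1) :=
    hW.div (by fun_prop) hne
  have h2 : ContinuousOn (fun A => 1 / W0 A) (Set.Icc A0 A1) :=
    continuousOn_const.div hW fun A hA => (W0_pos (lt_of_lt_of_le h0 hA.1)).ne'
  obtain ⟨C1, hC1⟩ := isCompact_Icc.exists_bound_of_continuousOn h1
  obtain ⟨C2, hC2⟩ := isCompact_Icc.exists_bound_of_continuousOn h2
  refine ⟨|C1| + |C2| + 1, by positivity, fun A hA => ⟨?_, ?_⟩⟩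
  · have := hC1 A hA
    rw [Real.norm_eq_abs] at this
    have h3 := le_abs_self C1
    have h4 := abs_nonneg C2
    linarith
  · have := hC2 A hA
    rw [Real.norm_eq_abs] at this
    have h3 := le_abs_self C2
    have h4 := abs_nonneg C1
    linarith

theorem aff_e {A0 A1 : ℝ} (h0 : 0 < A0) (h1 : A0 ≤ 1) (h2 : 1 ≤ A1) : ∃ K : ℝ, 0 < K ∧ ∀ e : ℝ, 0 < e → e ≤ 1 →
    ∀ A ∈ Set.Icc A0 A1, |l0 e A - l0 e 1 - l1 e 1 * W0 1 * (H A - H 1)| ≤ K * (e + eta e) := by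
  obtain ⟨K, hK, hom⟩ := om_bd (A1 := A1) h0
  obtain ⟨C, hC, hCb⟩ := Aff_bd (A1 := A1) h0
  have hJ : Convex ℝ (Set.Icc A0 A1) := convex_Icc A0 A1
  have h1J : (1 : ℝ) ∈ Set.Icc A0 A1 := ⟨h1, h2⟩
  refine ⟨C * (C * K * (A1 - A0)) * (A1 - A0) + 1, ?_, fun e he he1 A hA => ?_⟩
  · have : 0 ≤ A1 - A0 := by linarith
    positivity
  have hT : 0 ≤ e + eta e := add_nonneg he.le (eta_nonneg he)
  have hd : 0 ≤ A1 - A0 := by linarith
  have hstep1 : ∀ B ∈ Set.Icc A0 A1,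
      |l1 e B * W0 B - l1 e 1 * W0 1| ≤ C * K * (A1 - A0) * (e + eta e) := by
    intro B hB
    have hm := Convex.norm_image_sub_le_of_norm_hasDerivWithin_le
      (f := fun A => l1 e A * W0 A)
      (f' := fun A => W0 A / (A * (A + 2)) * ∫ t : ℝ, om e t * ID Xi A t)
      (C := C * (K * (e + eta e))) (s := Set.Icc A0 A1) (x := 1) (y := B)
      (fun x hx => (Aff_phi_hd he (lt_of_lt_of_le h0 hx.1)).hasDerivWithinAt)
      (fun x hx => by
        rw [norm_mul, Real.norm_eq_abs, Real.norm_eq_abs]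
        exact mul_le_mul (hCb x hx).1 (hom e he he1 x hx) (abs_nonneg _) hC.le)
      hJ h1J hB
    rw [Real.norm_eq_abs, Real.norm_eq_abs] at hm
    have hB1 : |B - 1| ≤ A1 - A0 := by
      rw [abs_le]
      constructor
      · linarith [hB.1]
      · linarith [hB.2]
    calc |l1 e B * W0 B - l1 e 1 * W0 1| ≤ C * (K * (e + eta e)) * |B - 1| := hm
      _ ≤ C * (K * (e + eta e)) * (A1 - A0) := mul_le_mul_of_nonneg_left hB1 (by positivity)
      _ = C * K * (A1 - A0) * (e + eta e) := by ring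
  have hm := Convex.norm_image_sub_le_of_norm_hasDerivWithin_le
    (f := fun A => l0 e A - l1 e 1 * W0 1 * H A)
    (f' := fun A => l1 e A - l1 e 1 * W0 1 * (1 / W0 A))
    (C := C * (C * K * (A1 - A0) * (e + eta e))) (s := Set.Icc A0 A1) (x := 1) (y := A)
    (fun x hx => ((l0_hd he (lt_of_lt_of_le h0 hx.1)).sub
      ((H_hd (lt_of_lt_of_le h0 hx.1)).const_mul _)).hasDerivWithinAt)
    (fun x hx => by
      have hx0 : 0 < x := lt_of_lt_of_le h0 hx.1
      have hW := (W0_pos hx0).ne'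
      have h3 : l1 e x - l1 e 1 * W0 1 * (1 / W0 x) =
          1 / W0 x * (l1 e x * W0 x - l1 e 1 * W0 1) := by
        field_simp
      show ‖l1 e x - l1 e 1 * W0 1 * (1 / W0 x)‖ ≤ _
      rw [h3, norm_mul, Real.norm_eq_abs, Real.norm_eq_abs]
      exact mul_le_mul (hCb x hx).2 (hstep1 x hx) (abs_nonneg _) hC.le)
    hJ h1J hA
  rw [Real.norm_eq_abs, Real.norm_eq_abs] at hm
  have hB1 : |A - 1| ≤ A1 - A0 := by
    rw [abs_le]
    constructor
    · linarith [hA.1]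
    · linarith [hA.2]
  have h4 : l0 e A - l0 e 1 - l1 e 1 * W0 1 * (H A - H 1) =
      (l0 e A - l1 e 1 * W0 1 * H A) - (l0 e 1 - l1 e 1 * W0 1 * H 1) := by ring
  rw [h4]
  calc |(l0 e A - l1 e 1 * W0 1 * H A) - (l0 e 1 - l1 e 1 * W0 1 * H 1)|
      ≤ C * (C * K * (A1 - A0) * (e + eta e)) * |A - 1| := hm
    _ ≤ C * (C * K * (A1 - A0) * (e + eta e)) * (A1 - A0) :=
        mul_le_mul_of_nonneg_left hB1 (by positivity)
    _ = C * (C * K * (A1 - A0)) * (A1 - A0) * (e + eta e) := by ring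
    _ ≤ (C * (C * K * (A1 - A0)) * (A1 - A0) + 1) * (e + eta e) := by
        rw [add_mul, one_mul]
        linarith

theorem Lam_aff : ∃ c : ℝ, ∀ A : ℝ, 0 < A → Lam A = Lam 1 + c * (H A - H 1) := by
  have hlim : ∀ A : ℝ, 0 < A → Tendsto (fun e => l0 e A - l0 e 1 - l1 e 1 * W0 1 * (H A - H 1))
      (𝓝[>] 0) (𝓝 0) := by
    intro A hA
    obtain ⟨K, hK, hb⟩ := aff_e (A0 := min A 1) (A1 := max A 1) (lt_min hA one_pos)
      (min_le_right _ _) (le_max_right _ _)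
    have h1 : Tendsto (fun e : ℝ => K * (e + eta e)) (𝓝[>] 0) (𝓝 0) := by
      have h2 : Tendsto (fun e : ℝ => e) (𝓝[>] 0) (𝓝 0) := tendsto_nhdsWithin_of_tendsto_nhds tendsto_id
      have h3 := (h2.add eta_lim).const_mul K
      rw [add_zero, mul_zero] at h3
      exact h3
    refine squeeze_zero_norm' ?_ h1
    have h4 : Set.Ioc (0 : ℝ) 1 ∈ 𝓝[>] (0 : ℝ) := Ioc_mem_nhdsGT one_pos
    filter_upwards [h4] with e he
    rw [Real.norm_eq_abs]
    exact hb e he.1 he.2 A ⟨min_le_left _ _, le_max_left _ _⟩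
  have hH : 0 < H 2 - H 1 := by
    have := H_mono one_pos (one_lt_two)
    linarith
  have hc : Tendsto (fun e => l1 e 1 * W0 1) (𝓝[>] 0) (𝓝 ((Lam 2 - Lam 1) / (H 2 - H 1))) := by
    have h1 := ((l0_lim (A := 2) two_pos).sub (l0_lim (A := 1) one_pos)).sub (hlim 2 two_pos)
    rw [sub_zero] at h1
    have h2 := h1.div_const (H 2 - H 1)
    refine h2.congr fun e => ?_
    rw [div_eq_iff hH.ne']
    ring
  refine ⟨(Lam 2 - Lam 1) / (H 2 - H 1), fun A hA => ?_⟩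
  have h1 := ((l0_lim hA).sub (l0_lim (A := 1) one_pos)).sub (hc.mul_const (H A - H 1))
  have h2 := tendsto_nhds_unique h1 (hlim A hA)
  linarith

end SL
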