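import Pool.Agent.Lib.MP_216314_pr.SL.Res
import Pool.Agent.Lib.MP_216314_pr.CZ.Yf

/-!
# `EE k n` as an integral of a function without a pole at `z^3 = -1`
-/

set_option autoImplicit false

noncomputable section

namespace SL

open Complex Polynomial

theorem be_ne (m : ℕ) : CDH.be m ≠ 0 := by
  unfold CDH.be
  rw [Finset.prod_ne_zero_iff]
  intro j _
  have h1 : (3 * ((j : ℂ) + 1)) ≠ 0 := CDH.ne3 j
  have h2 : (3 * ((j : ℂ) + 1) + 1) ≠ 0 := by
    have : (3 * ((j : ℂ) + 1) + 1) = ((3 * j + 4 : ℕ) : ℂ) := by push_cast; ring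
    rw [this, Nat.cast_ne_zero]
    omega
  exact one_div_ne_zero (mul_ne_zero h1 h2)

/-- `al_i be_{m-i} / be_m` -/
def wC (m i : ℕ) : ℂ := CDH.al i * CDH.be (m - i) / CDH.be m

def Pm (m : ℕ) : Polynomial ℂ := ∑ i ∈ Finset.range (m + 1), C (wC m i) * X ^ (3 * i)

def Qm (m : ℕ) : Polynomial ℂ := ∑ i ∈ Finset.range (m + 1), C (wC m i) * X ^ (3 * (m - i) + 1)

theorem E_pow (a : ℤ) (j : ℕ) : CDH.E a ^ j = CDH.E (a * (j : ℤ)) := by
  induction j with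
  | zero => rw [pow_zero, Nat.cast_zero, mul_zero, CDH.E_zero]
  | succ j ih => rw [pow_succ, ih, CDH.E_mul]; congr 1; push_cast; ring

theorem aeval_mono (w : ℂ) (j : ℕ) : aeval (CDH.E (-2)) (C w * X ^ j) =
    PowerSeries.C w * CDH.E (-2 * (j : ℤ)) := by
  rw [map_mul, map_pow, aeval_X, aeval_C, E_pow, PowerSeries.algebraMap_apply, Algebra.algebraMap_self_apply]

theorem U_eq (m : ℕ) : CDH.U m = PowerSeries.C (CDH.be m) * CDH.E (3 * m + 1) * aeval (CDH.E (-2)) (Pm m) := by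
  unfold CDH.U Pm
  rw [Finset.Nat.sum_antidiagonal_eq_sum_range_succ (fun i j => PowerSeries.C (CDH.al i * CDH.be j) *
    CDH.E (3 * ((j : ℤ) - i) + 1)), map_sum, Finset.mul_sum]
  refine Finset.sum_congr rfl (fun i hi => ?_)
  have hi' : i ≤ m := Nat.lt_succ_iff.mp (Finset.mem_range.mp hi)
  rw [aeval_mono]
  have h1 : PowerSeries.C (CDH.al i * CDH.be (m - i)) = PowerSeries.C (CDH.be m) * PowerSeries.C (wC m i) := by
    rw [← map_mul]
    congr 1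
    unfold wC
    have := be_ne m
    field_simp
  have h2 : CDH.E (3 * (((m - i : ℕ) : ℤ) - i) + 1) = CDH.E (3 * m + 1) * CDH.E (-2 * ((3 * i : ℕ) : ℤ)) := by
    rw [CDH.E_mul]
    congr 1
    push_cast [Nat.cast_sub hi']
    ring
  rw [h1, h2]
  ring

theorem V_eq (m : ℕ) : CDH.V m = -(PowerSeries.C (CDH.be m) * CDH.E (3 * m + 1) * aeval (CDH.E (-2)) (Qm m)) := by
  unfold CDH.V Qm
  rw [Finset.Nat.sum_antidiagonal_eq_sum_range_succ (fun i j => PowerSeries.C (CDH.al i * CDH.be j) *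
    CDH.E (-(3 * ((j : ℤ) - i) + 1))), map_sum, Finset.mul_sum]
  congr 1
  refine Finset.sum_congr rfl (fun i hi => ?_)
  have hi' : i ≤ m := Nat.lt_succ_iff.mp (Finset.mem_range.mp hi)
  rw [aeval_mono]
  have h1 : PowerSeries.C (CDH.al i * CDH.be (m - i)) = PowerSeries.C (CDH.be m) * PowerSeries.C (wC m i) := by
    rw [← map_mul]
    congr 1
    unfold wC
    have := be_ne m
    field_simp
  have h2 : CDH.E (-(3 * (((m - i : ℕ) : ℤ) - i) + 1)) = CDH.E (3 * m + 1) * CDH.E (-2 * ((3 * (m - i) + 1 : ℕ) : ℤ)) := by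
    rw [CDH.E_mul]
    congr 1
    push_cast [Nat.cast_sub hi']
    ring
  rw [h1, h2]
  ring

theorem W_eq (a b : ℂ) (m : ℕ) : CDH.W a b m =
    PowerSeries.C (CDH.be m) * CDH.E (3 * m + 1) * aeval (CDH.E (-2)) (C a * Pm m - C b * Qm m) := by
  unfold CDH.W
  rw [U_eq, V_eq, map_sub, map_mul, map_mul, aeval_C, aeval_C, PowerSeries.algebraMap_apply,
    PowerSeries.algebraMap_apply, Algebra.algebraMap_self_apply, Algebra.algebraMap_self_apply]
  ring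

theorem P_root {m : ℕ} {x : ℂ} (hx : x ^ 3 = -1) : (Pm m).eval x = ∑ i ∈ Finset.range (m + 1), wC m i * (-1) ^ i := by
  unfold Pm
  rw [eval_finsetSum]
  refine Finset.sum_congr rfl (fun i _ => ?_)
  rw [eval_mul, eval_pow, eval_X, eval_C, pow_mul, hx]

theorem Q_root {m : ℕ} {x : ℂ} (hx : x ^ 3 = -1) : (Qm m).eval x =
    (-1) ^ m * x * ∑ i ∈ Finset.range (m + 1), wC m i * (-1) ^ i := by
  unfold Qm
  rw [eval_finsetSum, Finset.mul_sum]
  refine Finset.sum_congr rfl (fun i hi => ?_)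
  have hi' : i ≤ m := Nat.lt_succ_iff.mp (Finset.mem_range.mp hi)
  rw [eval_mul, eval_pow, eval_X, eval_C, pow_succ, pow_mul, hx]
  have h1 : (-1 : ℂ) ^ m = (-1) ^ (m - i) * (-1) ^ i := by rw [← pow_add, Nat.sub_add_cancel hi']
  have h2 : (-1 : ℂ) ^ i * (-1) ^ i = 1 := by rw [← mul_pow]; simp
  rw [h1]
  linear_combination (-(wC m i * (-1) ^ (m - i) * x)) * h2

theorem th_inv : CDH.th⁻¹ = 1 - CDH.th := by
  have h1 := CDH.th_ne
  have h2 := CDH.th_sq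
  field_simp
  linear_combination h2

theorem th_inv3 : CDH.th⁻¹ ^ 3 = -1 := by
  rw [inv_pow, CDH.th_cube]
  norm_num

def N1 (m : ℕ) : Polynomial ℂ := C CDH.th * Pm m - C CDH.th⁻¹ * Qm m
def N4 (m : ℕ) : Polynomial ℂ := C (CDH.th ^ 2) * Pm m - C (CDH.th ^ 2)⁻¹ * Qm m
def NB (m : ℕ) : Polynomial ℂ := Pm m - Qm m

theorem N1_root {m : ℕ} (hm : Odd m) : (N1 m).eval CDH.th⁻¹ = 0 := by
  unfold N1
  rw [eval_sub, eval_mul, eval_mul, eval_C, eval_C, P_root th_inv3, Q_root th_inv3, hm.neg_one_pow]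
  have h1 := CDH.th_sq
  rw [th_inv]
  linear_combination (∑ i ∈ Finset.range (m + 1), wC m i * (-1) ^ i) * h1

theorem N4_root {m : ℕ} (hm : Odd m) : (N4 m).eval CDH.th = 0 := by
  unfold N4
  rw [eval_sub, eval_mul, eval_mul, eval_C, eval_C, P_root CDH.th_cube, Q_root CDH.th_cube, hm.neg_one_pow]
  have h1 := CDH.th_cube
  have h0 := CDH.th_ne
  field_simp
  linear_combination (∑ i ∈ Finset.range (m + 1), wC m i * (-1) ^ i) * h1

def M1 (m : ℕ) : Polynomial ℂ := N1 m /ₘ (X - C CDH.th⁻¹)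
def M4 (m : ℕ) : Polynomial ℂ := N4 m /ₘ (X - C CDH.th)

theorem M1_eq {m : ℕ} (hm : Odd m) : (X - C CDH.th⁻¹) * M1 m = N1 m :=
  mul_divByMonic_eq_iff_isRoot.mpr (N1_root hm)

theorem M4_eq {m : ℕ} (hm : Odd m) : (X - C CDH.th) * M4 m = N4 m :=
  mul_divByMonic_eq_iff_isRoot.mpr (N4_root hm)

/-- the numerator -/
def NN (c L n : ℕ) : Polynomial ℂ := C (-1 / 2) * (M1 c * M4 L * NB (n + 1) * NB n * (1 - X))

theorem xh_eq : CZ.xh - 1 = CDH.E 2 * ((CDH.E (-2) - PowerSeries.C CDH.th) * (CDH.E (-2) - PowerSeries.C CDH.th⁻¹)) := by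
  have h1 : CDH.E 2 * CDH.E (-2) = 1 := CDH.E_ne 2
  have h2 : PowerSeries.C CDH.th * PowerSeries.C CDH.th⁻¹ = (1 : PowerSeries ℂ) := by
    rw [← map_mul, mul_inv_cancel₀ CDH.th_ne, map_one]
  have h3 : PowerSeries.C CDH.th + PowerSeries.C CDH.th⁻¹ = (1 : PowerSeries ℂ) := by
    rw [← map_add, th_inv, ← map_one (PowerSeries.C (R := ℂ))]
    congr 1
    ring
  unfold CZ.xh
  have e : CDH.E 2 * ((CDH.E (-2) - PowerSeries.C CDH.th) * (CDH.E (-2) - PowerSeries.C CDH.th⁻¹)) =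
      CDH.E 2 * CDH.E (-2) * CDH.E (-2) - CDH.E 2 * CDH.E (-2) * (PowerSeries.C CDH.th + PowerSeries.C CDH.th⁻¹) +
        CDH.E 2 * (PowerSeries.C CDH.th * PowerSeries.C CDH.th⁻¹) := by ring
  rw [e, h1, h2, h3]
  ring

theorem NN_eq {c L n : ℕ} (hc : Odd c) (hL : Odd L) (hcL : L = c + 2 * (n + 1)) :
    aeval (CDH.E (-2)) (NN c L n) * CDH.E (6 * L) =
      PowerSeries.C (-1 / 2 * (CDH.be c * CDH.be L * CDH.be (n + 1) * CDH.be n)⁻¹) *
        (CDH.Aw c * CDH.Cw L * CDH.Bw (n + 1) * CDH.Bw n * (CZ.qh * CZ.xi)) := by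
  have hM1 : aeval (CDH.E (-2)) (N1 c) = (CDH.E (-2) - PowerSeries.C CDH.th⁻¹) * aeval (CDH.E (-2)) (M1 c) := by
    rw [← M1_eq hc, map_mul, map_sub, aeval_X, aeval_C, PowerSeries.algebraMap_apply, Algebra.algebraMap_self_apply]
  have hM4 : aeval (CDH.E (-2)) (N4 L) = (CDH.E (-2) - PowerSeries.C CDH.th) * aeval (CDH.E (-2)) (M4 L) := by
    rw [← M4_eq hL, map_mul, map_sub, aeval_X, aeval_C, PowerSeries.algebraMap_apply, Algebra.algebraMap_self_apply]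
  have hA : CDH.Aw c = PowerSeries.C (CDH.be c) * CDH.E (3 * c + 1) *
      ((CDH.E (-2) - PowerSeries.C CDH.th⁻¹) * aeval (CDH.E (-2)) (M1 c)) := by
    rw [← hM1]; exact W_eq _ _ c
  have hC : CDH.Cw L = PowerSeries.C (CDH.be L) * CDH.E (3 * L + 1) *
      ((CDH.E (-2) - PowerSeries.C CDH.th) * aeval (CDH.E (-2)) (M4 L)) := by
    rw [← hM4]; exact W_eq _ _ L
  have hB : ∀ m, CDH.Bw m = PowerSeries.C (CDH.be m) * CDH.E (3 * m + 1) * aeval (CDH.E (-2)) (NB m) := by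
    intro m
    have h := W_eq 1 1 m
    rw [C_1, one_mul, one_mul] at h
    exact h
  have hq : CZ.qh = CDH.E 1 * (1 - CDH.E (-2)) := by
    unfold CZ.qh
    rw [mul_sub, mul_one, CDH.E_mul]
    rfl
  have hx := CZ.t_mul_xi
  rw [xh_eq] at hx
  have hbe : PowerSeries.C (-1 / 2 * (CDH.be c * CDH.be L * CDH.be (n + 1) * CDH.be n)⁻¹) *
      (PowerSeries.C (CDH.be c) * PowerSeries.C (CDH.be L) * PowerSeries.C (CDH.be (n + 1)) * PowerSeries.C (CDH.be n)) =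
      PowerSeries.C (-1 / 2) := by
    rw [← map_mul, ← map_mul, ← map_mul, ← map_mul]
    congr 1
    have h1 := be_ne c
    have h2 := be_ne L
    have h3 := be_ne (n + 1)
    have h4 := be_ne n
    field_simp
  have hE : CDH.E (3 * c + 1) * CDH.E (3 * L + 1) * CDH.E (3 * ((n + 1 : ℕ) : ℤ) + 1) * CDH.E (3 * n + 1) * CDH.E 1 =
      CDH.E 2 * CDH.E (6 * L) := by
    simp only [CDH.E_mul]
    congr 1
    rw [hcL]
    push_cast
    ring
  have hN : aeval (CDH.E (-2)) (NN c L n) = PowerSeries.C (-1 / 2) * (aeval (CDH.E (-2)) (M1 c) *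
      aeval (CDH.E (-2)) (M4 L) * aeval (CDH.E (-2)) (NB (n + 1)) * aeval (CDH.E (-2)) (NB n) * (1 - CDH.E (-2))) := by
    unfold NN
    rw [map_mul, map_mul, map_mul, map_mul, map_mul, map_sub, map_one, aeval_X, aeval_C, PowerSeries.algebraMap_apply,
      Algebra.algebraMap_self_apply]
  rw [hN, hA, hC, hB, hB, hq, ← hbe]
  generalize aeval (CDH.E (-2)) (M1 c) = m1
  generalize aeval (CDH.E (-2)) (M4 L) = m4
  generalize aeval (CDH.E (-2)) (NB (n + 1)) = b1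
  generalize aeval (CDH.E (-2)) (NB n) = b2
  generalize PowerSeries.C (-1 / 2 * (CDH.be c * CDH.be L * CDH.be (n + 1) * CDH.be n)⁻¹) = k0
  generalize PowerSeries.C (CDH.be c) = k1
  generalize PowerSeries.C (CDH.be L) = k2
  generalize PowerSeries.C (CDH.be (n + 1)) = k3
  generalize PowerSeries.C (CDH.be n) = k4
  generalize CDH.E (-2) - PowerSeries.C CDH.th⁻¹ = x1 at hx ⊢
  generalize CDH.E (-2) - PowerSeries.C CDH.th = x2 at hx ⊢
  generalize CZ.xi = xi at hx ⊢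
  generalize CDH.E 2 = e2 at hx hE ⊢
  generalize CDH.E (3 * (c : ℤ) + 1) = e3 at hE ⊢
  generalize CDH.E (3 * (L : ℤ) + 1) = e4 at hE ⊢
  generalize CDH.E (3 * ((n + 1 : ℕ) : ℤ) + 1) = e5 at hE ⊢
  generalize CDH.E (3 * (n : ℤ) + 1) = e6 at hE ⊢
  generalize CDH.E 1 = e1 at hE ⊢
  generalize CDH.E (6 * (L : ℤ)) = e7 at hE ⊢
  generalize CDH.E (-2) = e8 at *
  linear_combination (-(k0 * (k1 * k2 * k3 * k4) * m1 * m4 * b1 * b2 * (1 - e8) * e7)) * hx -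
    (k0 * (k1 * k2 * k3 * k4) * m1 * m4 * b1 * b2 * (1 - e8) * x1 * x2 * xi) * hE

/-- `EE` as an integral over the boundary of the rectangle -/
theorem EE_RI {T Y : ℝ} (hT : 0 < T) (hY : 0 < Y) (hY2 : Y < 2 * Real.pi / 3) {k n : ℕ} (hk : Even k) :
    RI T Y (fun h => (NN (k + 1) (k + 1 + 2 * (n + 1)) n).eval (exp (-h)) /
      (1 - exp (-(3 * h))) ^ (2 * (k + 1 + 2 * (n + 1)))) = 2 * Real.pi * I * CZ.EE k n := by
  have hc : Odd (k + 1) := hk.add_one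
  have hL : Odd (k + 1 + 2 * (n + 1)) := hc.add_even ⟨n + 1, by ring⟩
  rw [RI_poly hT hY hY2 _ (by omega), NN_eq hc hL rfl, CDH.rs_C]
  unfold CZ.EE CZ.RE
  rw [show 2 * (k + 1 + 2 * (n + 1)) - 1 = 2 * (k + 2 * (n + 1)) + 1 by omega]

end SL
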