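import Pool.Agent.Lib.MP_216314_pr_CDH.Beta

/-!
# SL/C3: `FF (k + 1) 1 → 1` (paper 7.3)
-/

set_option autoImplicit false

noncomputable section

namespace SL

open Filter Topology CDH

theorem C3_cube (i : ℕ) : (vv i / VV i) ^ 3 * ((i : ℝ) + 1) ≤ 1 := by
  induction i with
  | zero => rw [vv_zero, VV_zero]; norm_num
  | succ i ih =>
    have h1 := vv_succ i
    have h2 := VV_succ i
    have p1 := VV_pos i
    have p2 := VV_pos (i + 1)
    have q1 := vv_pos i
    have hi : (0 : ℝ) ≤ i := Nat.cast_nonneg i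
    have e : vv (i + 1) / VV (i + 1) = (vv i / VV i) * ((1 / 3 + (i : ℝ)) / (2 / 3 + i)) := by
      have e1 : vv (i + 1) = (1 / 3 + (i : ℝ)) * vv i / (i + 1) := by
        rw [eq_div_iff (by positivity)]
        linear_combination h1
      have e2 : VV (i + 1) = (2 / 3 + (i : ℝ)) * VV i / (i + 1) := by
        rw [eq_div_iff (by positivity)]
        linear_combination h2
      rw [e1, e2]
      field_simp
    rw [e, mul_pow]
    have h3 : ((1 / 3 + (i : ℝ)) / (2 / 3 + i)) ^ 3 * (((i + 1 : ℕ) : ℝ) + 1) ≤ (i : ℝ) + 1 := by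
      rw [div_pow, div_mul_eq_mul_div, div_le_iff₀ (by positivity)]
      push_cast
      nlinarith [mul_nonneg hi hi, mul_nonneg (mul_nonneg hi hi) hi, mul_nonneg (mul_nonneg hi hi) (mul_nonneg hi hi)]
    have h4 : 0 ≤ (vv i / VV i) ^ 3 := by positivity
    calc (vv i / VV i) ^ 3 * ((1 / 3 + (i : ℝ)) / (2 / 3 + i)) ^ 3 * (((i + 1 : ℕ) : ℝ) + 1)
        = (vv i / VV i) ^ 3 * (((1 / 3 + (i : ℝ)) / (2 / 3 + i)) ^ 3 * (((i + 1 : ℕ) : ℝ) + 1)) := by ring
      _ ≤ (vv i / VV i) ^ 3 * ((i : ℝ) + 1) := mul_le_mul_of_nonneg_left h3 h4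
      _ ≤ 1 := ih

theorem C3_rho : Tendsto (fun i : ℕ => vv i / VV i) atTop (𝓝 0) := by
  have h3 : Tendsto (fun i : ℕ => (vv i / VV i) ^ 3) atTop (𝓝 0) := by
    refine squeeze_zero (fun i => ?_) (fun i => ?_) tendsto_one_div_add_atTop_nhds_zero_nat
    · have := vv_pos i
      have := VV_pos i
      positivity
    · rw [le_div_iff₀ (by positivity)]
      exact C3_cube i
  have h4 : Tendsto (fun i : ℕ => ((vv i / VV i) ^ 3) ^ (1 / 3 : ℝ)) atTop (𝓝 ((0 : ℝ) ^ (1 / 3 : ℝ))) :=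
    ((Real.continuousAt_rpow_const 0 (1 / 3) (Or.inr (by norm_num))).tendsto).comp h3
  rw [Real.zero_rpow (by norm_num)] at h4
  refine h4.congr fun i => ?_
  have h5 : 0 ≤ vv i / VV i := (div_pos (vv_pos i) (VV_pos i)).le
  rw [← Real.rpow_natCast, ← Real.rpow_mul h5]
  norm_num

theorem C3_FF (k : ℕ) : FF (k + 1) 1 = 1 - (vv (k + 2) * vv 1 + vv (k + 3)) / VV (k + 3) := by
  have h := GG_full (k + 3)
  have h1 : GG (k + 3) (k + 3 + 1) = GG (k + 3) (k + 2) + vv (k + 2) * vv 1 + vv (k + 3) := by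
    unfold GG
    rw [Finset.sum_range_succ _ (k + 3), Finset.sum_range_succ _ (k + 2), show k + 3 - (k + 3) = 0 by omega,
      show k + 3 - (k + 2) = 1 by omega, vv_zero, mul_one]
  have hp := VV_pos (k + 3)
  show GG (k + 1 + 1 + 1) (k + 1 + 1) / VV (k + 1 + 1 + 1) = _
  rw [eq_sub_iff_add_eq, ← add_div, div_eq_one_iff_eq hp.ne']
  rw [← h, h1]
  show GG (k + 3) (k + 2) + _ = _
  ring

theorem FF_one : Tendsto (fun k : ℕ => FF (k + 1) 1) atTop (𝓝 1) := by
  have hv1 : vv 1 = 1 / 3 := by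
    have := vv_succ 0
    rw [vv_zero] at this
    norm_num at this
    linarith
  have t1 : Tendsto (fun k : ℕ => vv (k + 2) / VV (k + 2)) atTop (𝓝 0) := C3_rho.comp (tendsto_add_atTop_nat 2)
  have t2 : Tendsto (fun k : ℕ => vv (k + 3) / VV (k + 3)) atTop (𝓝 0) := C3_rho.comp (tendsto_add_atTop_nat 3)
  have t3 : Tendsto (fun k : ℕ => (vv (k + 2) * vv 1 + vv (k + 3)) / VV (k + 3)) atTop (𝓝 0) := by
    have t4 : Tendsto (fun k : ℕ => vv (k + 2) / VV (k + 2) + vv (k + 3) / VV (k + 3)) atTop (𝓝 0) := by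
      have := t1.add t2
      rwa [add_zero] at this
    refine squeeze_zero (fun k => ?_) (fun k => ?_) t4
    · have a1 := vv_pos (k + 2)
      have a2 := vv_pos (k + 3)
      have a3 := VV_pos (k + 3)
      rw [hv1]
      positivity
    · rw [add_div, hv1]
      have a1 := vv_pos (k + 2)
      have a3 := VV_pos (k + 3)
      have a4 := VV_pos (k + 2)
      have h2 := VV_succ (k + 2)
      have h5 : VV (k + 2) ≤ 3 * VV (k + 3) := by
        push_cast at h2
        have hk : (0 : ℝ) ≤ k := Nat.cast_nonneg k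
        have h6 : ((k : ℝ) + 2 + 1) * VV (k + 2) ≤ 3 * (((k : ℝ) + 2 + 1) * VV (k + 2 + 1)) := by
          rw [h2]
          nlinarith
        have h7 : ((k : ℝ) + 2 + 1) * VV (k + 2) ≤ ((k : ℝ) + 2 + 1) * (3 * VV (k + 2 + 1)) := by linarith
        exact le_of_mul_le_mul_left h7 (by positivity)
      have h6 : vv (k + 2) * (1 / 3) / VV (k + 3) ≤ vv (k + 2) / VV (k + 2) := by
        rw [div_le_div_iff₀ a3 a4]
        nlinarith
      linarith
  have t5 := (tendsto_const_nhds (x := (1 : ℝ))).sub t3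
  rw [sub_zero] at t5
  exact t5.congr fun k => (C3_FF k).symm

end SL
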