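import Pool.Agent.Lib.MP_216314_pr.SL.D1b

/-!
# SL/D1: the relation of `EI` and `Lam`

Proof. For `0 < a < 1` put `b = (1-a)/2 > 0`, `A = a / b = 2a/(1-a)`, `A + 2 = 1/b`. `DD a b x = ` the expression `ID Ph A s` at `exp (-s) = b x`, i.e. `s = t - log b` for `x = exp (-t)`:
`DD a b (exp (-t)) = ID Ph A (t - log b)` (`Real.exp_sub`, `Real.exp_log`; `a * exp(-t) = A * (b * exp (-t))`, `exp (-t) = (A+2) * (b * exp (-t))`).
Then translation invariance `MeasureTheory.integral_sub_right_eq_self`.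
-/

set_option autoImplicit false

noncomputable section

namespace SL

open Filter Topology

theorem D1_pt {a : ℝ} (h0 : 0 < a) (h1 : a < 1) (t : ℝ) :
    DD a ((1 - a) / 2) (Real.exp (-t)) = ID Ph (2 * a / (1 - a)) (t - Real.log ((1 - a) / 2)) := by
  have hb : 0 < (1 - a) / 2 := by linarith
  have h1a : (1 - a) ≠ 0 := by linarith
  have hE : Real.exp (-(t - Real.log ((1 - a) / 2))) = (1 - a) / 2 * Real.exp (-t) := by
    rw [show -(t - Real.log ((1 - a) / 2)) = Real.log ((1 - a) / 2) + (-t) by ring, Real.exp_add,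
      Real.exp_log hb]
  have e1 : 2 * a / (1 - a) * ((1 - a) / 2 * Real.exp (-t)) = a * Real.exp (-t) := by
    field_simp
  have e2 : (2 * a / (1 - a) + 2) * ((1 - a) / 2 * Real.exp (-t)) = Real.exp (-t) := by
    field_simp
    ring
  unfold DD ID Ph
  rw [hE, e1, e2]

theorem EI_Lam {a : ℝ} (h0 : 0 < a) (h1 : a < 1) : EI a = 1 / 3 - 2 / (3 * Real.pi) * Lam (2 * a / (1 - a)) := by
  unfold EI Lam
  rw [MeasureTheory.integral_congr_ae (Filter.Eventually.of_forall (fun t => D1_pt h0 h1 t)),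
    MeasureTheory.integral_sub_right_eq_self (fun t => ID Ph (2 * a / (1 - a)) t) (Real.log ((1 - a) / 2))]

end SL
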