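import Pool.Agent.Lib.MP_216314_pr.SL.Id0

/-!
# SL/IdM: identity (I2) of the paper (5.3): the `t` derivative of `mm`

Proof. `hh p A t = G p (A x) / (2 A x)`: `d/dt hh p A t = hh p A t / 3 + 2 A x F p (A x)` (product rule, `F_t, G_t, ex_t`), same for `hh q (A+2)`, `hh r 1`. Then product rule and
compare with `-(Xi - nn)` by `field_simp; ring` (substitute `G = 2 A x hh`; `cP, cQ, cR, qq` unfolded, `A, A+1, A+2, x` nonzero). Checked exactly by computer.
-/

set_option autoImplicit false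

noncomputable section

namespace SL

open Filter Topology

theorem hh_t (p : ℂ) {A : ℝ} (hA : 0 < A) (t : ℝ) :
    HasDerivAt (fun t => hh p A t) (hh p A t / 3 + 2 * A * Real.exp (-t) * F p (A * Real.exp (-t))) t := by
  have hx : (Real.exp (-t) : ℂ) ≠ 0 := by exact_mod_cast (Real.exp_pos (-t)).ne'
  have hAc : (A : ℂ) ≠ 0 := by exact_mod_cast hA.ne'
  have g1 := G_t p hA t
  have e := ex_t t
  have h := g1.div (e.const_mul (2 * (A : ℂ))) (mul_ne_zero (mul_ne_zero (by norm_num) hAc) hx)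
  refine (HasDerivAt.congr_deriv (f := fun t => hh p A t) h ?_)
  simp only [hh]
  generalize (Real.exp (-t) : ℂ) = x at *
  generalize F p (A * Real.exp (-t)) = a1
  generalize G p (A * Real.exp (-t)) = b1
  generalize (A : ℂ) = B at *
  field_simp
  ring

theorem mm_dt (p q r : ℂ) {A : ℝ} (hA : 0 < A) (t : ℝ) :
    HasDerivAt (fun t => mm p q r A t) (-(Xi p q r A t - nn p q r A t)) t := by
  have hA2 : 0 < A + 2 := by linarith
  have f1 := F_t p hA t
  have f4 := F_t q hA2 t
  have f := F_t1 r t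
  have hP := hh_t p hA t
  have hQ := hh_t q hA2 t
  have hR := hh_t r one_pos t
  rw [one_mul] at hR
  have hx : (Real.exp (-t) : ℂ) ≠ 0 := by exact_mod_cast (Real.exp_pos (-t)).ne'
  have hAc : (A : ℂ) ≠ 0 := by exact_mod_cast hA.ne'
  have hL : (A : ℂ) + 2 ≠ 0 := by exact_mod_cast hA2.ne'
  have hM : (A : ℂ) + 1 ≠ 0 := by
    have : (0 : ℝ) < A + 1 := by linarith
    exact_mod_cast this.ne'
  have hG1 : G p (A * Real.exp (-t)) = 2 * A * Real.exp (-t) * hh p A t := by
    rw [hh, mul_div_cancel₀ _ (mul_ne_zero (mul_ne_zero (by norm_num) hAc) hx)]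
  have hG4 : G q ((A + 2) * Real.exp (-t)) = 2 * ((A : ℂ) + 2) * Real.exp (-t) * hh q (A + 2) t := by
    rw [hh, Complex.ofReal_add, Complex.ofReal_ofNat,
      mul_div_cancel₀ _ (mul_ne_zero (mul_ne_zero (by norm_num) hL) hx)]
  have hG : G r (Real.exp (-t)) = 2 * Real.exp (-t) * hh r 1 t := by
    rw [hh, Complex.ofReal_one, one_mul, mul_one,
      mul_div_cancel₀ _ (mul_ne_zero (by norm_num) hx)]
  have h0 := ((f1.mul f4).mul (f.pow 2)).mul_const ((cP A : ℂ) + cQ A)
  have h2 := (((((hP.mul hQ).neg).mul (f.pow 2)).mul_const ((cP A : ℂ) + cQ A)).add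
    (((f1.mul f4).mul (hR.pow 2)).mul_const ((cP A : ℂ) - cQ A))).add
    (((f.const_mul (cR A : ℂ)).mul hR).mul ((hP.mul f4).add (f1.mul hQ)))
  have h4 := (((hP.mul hQ).neg).mul (hR.pow 2)).mul_const ((cP A : ℂ) - cQ A)
  refine (HasDerivAt.congr_deriv (f := fun t => mm p q r A t) ((h0.add h2).add h4) ?_)
  simp only [Xi, nn, dd2, dd4, Ph, PhA, cP, cQ, cR, Pi.mul_apply, Pi.add_apply, Pi.pow_apply,
    Pi.div_apply, Pi.neg_apply, hG1, hG4, hG, Complex.ofReal_add, Complex.ofReal_mul,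
    Complex.ofReal_div, Complex.ofReal_pow, Complex.ofReal_one, Complex.ofReal_ofNat]
  generalize (Real.exp (-t) : ℂ) = x at *
  generalize F p (A * Real.exp (-t)) = a1
  generalize F q ((A + 2) * Real.exp (-t)) = a4
  generalize F r (Real.exp (-t)) = a
  generalize hh p A t = b1
  generalize hh q (A + 2) t = b4
  generalize hh r 1 t = b
  generalize (A : ℂ) = B at *
  field_simp
  ring

end SL
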