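import Pool.Agent.Lib.MP_216314_pr.SL.Id0

/-!
# SL/IdX: identity (I1) of the paper (5.3): the `t` derivative of `Xi`

Proof. Product rule with `F_t, G_t, F_t1, G_t1, ex_t` of Id0 (`F q ((A+2) e^{-t})`: apply `F_t` with `A + 2`), then compare: with `f1 = F p (A x)`, `G1 = G p (A x)`, `f4, G4` (argument `(A+2) x`),
`f, G` (argument `x`), `x = e^{-t}`, `L = A+2`, `M = A+1` the claim is the polynomial identity (checked exactly by computer)
`x dXi/dx = A L (PhAA + qq PhA)` where `x d/dx f1 = G1`, `x d/dx G1 = (2/3) G1 - 4 A^2 x^2 f1`, `x d/dx G4 = (2/3) G4 - 4 L^2 x^2 f4`, `x d/dx G = (2/3) G - 4 x^2 f`, `x d/dx x = x`.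
Generalize the six values and `x` (nonzero), then `field_simp; ring`. `A, A+1, A+2` nonzero.
-/

set_option autoImplicit false

noncomputable section

namespace SL

open Filter Topology

theorem Xi_dt (p q r : ℂ) {A : ℝ} (hA : 0 < A) (t : ℝ) :
    HasDerivAt (fun t => Xi p q r A t) (-(A * (A + 2) * (PhAA p q r A t + qq A * PhA p q r A t))) t := by
  have hA2 : 0 < A + 2 := by linarith
  have f1 := F_t p hA t
  have g1 := G_t p hA t
  have f4 := F_t q hA2 t
  have g4 := G_t q hA2 t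
  have f := F_t1 r t
  have g := G_t1 r t
  have e := ex_t t
  have hx : (Real.exp (-t) : ℂ) ≠ 0 := by exact_mod_cast (Real.exp_pos (-t)).ne'
  have hAc : (A : ℂ) ≠ 0 := by exact_mod_cast hA.ne'
  have hL : (A : ℂ) + 2 ≠ 0 := by exact_mod_cast hA2.ne'
  have hM : (A : ℂ) + 1 ≠ 0 := by
    have : (0 : ℝ) < A + 1 := by linarith
    exact_mod_cast this.ne'
  have hPh := (f1.mul f4).mul (f.pow 2)
  have hS := ((g1.mul f4).div_const (A : ℂ)).add ((f1.mul g4).div_const ((A : ℂ) + 2))
  have hPhA := hS.mul (f.pow 2)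
  have h4 := (((f.mul g).mul g1).mul g4).div ((e.pow 2).const_mul (4 * (A : ℂ) * ((A : ℂ) + 2)))
    (mul_ne_zero (mul_ne_zero (mul_ne_zero (by norm_num) hAc) hL) (pow_ne_zero 2 hx))
  have h5 := (hS.const_mul (1 / (2 * ((A : ℂ) + 1)))).mul
    (((g.pow 2).div ((e.pow 2).const_mul (4 : ℂ))
      (mul_ne_zero (by norm_num) (pow_ne_zero 2 hx))).add (f.pow 2))
  have h := ((((hPh.div_const 3).add (hPhA.const_mul ((A : ℂ) + 1))).sub
    (((f.mul g).mul f1).mul f4)).add h4).sub h5
  refine (HasDerivAt.congr_deriv (f := fun t => Xi p q r A t) h ?_)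
  simp only [PhAA, qq, PhA, Pi.mul_apply, Pi.add_apply, Pi.pow_apply, Pi.div_apply]
  push_cast
  generalize (Real.exp (-t) : ℂ) = x at *
  generalize F p (A * Real.exp (-t)) = a1
  generalize G p (A * Real.exp (-t)) = b1
  generalize F q ((A + 2) * Real.exp (-t)) = a4
  generalize G q ((A + 2) * Real.exp (-t)) = b4
  generalize F r (Real.exp (-t)) = a
  generalize G r (Real.exp (-t)) = b
  generalize (A : ℂ) = B at *
  field_simp
  ring

end SL
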