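import Pool.Agent.Lib.MP_216314_pr.SL.IdA
import Pool.Agent.Lib.MP_216314_pr.SL.IdX
import Pool.Agent.Lib.MP_216314_pr.SL.IdM

/-!
# SL/Id: continuity in `t`

Proof. `F_t, G_t, F_t1, G_t1` give continuity of the factors (`HasDerivAt.continuousAt`), `Real.exp (-t) <> 0`; everything is a polynomial / quotient with nonvanishing denominators.
-/

set_option autoImplicit false

noncomputable section

namespace SL

open Filter Topology

private theorem Id_F (p : ℂ) {B : ℝ} (hB : 0 < B) :
    Continuous (fun t : ℝ => F p (B * Real.exp (-t))) :=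
  continuous_iff_continuousAt.2 fun t => (F_t p hB t).continuousAt

private theorem Id_G (p : ℂ) {B : ℝ} (hB : 0 < B) :
    Continuous (fun t : ℝ => G p (B * Real.exp (-t))) :=
  continuous_iff_continuousAt.2 fun t => (G_t p hB t).continuousAt

private theorem Id_x : Continuous (fun t : ℝ => (Real.exp (-t) : ℂ)) :=
  continuous_iff_continuousAt.2 fun t => (ex_t t).continuousAt

private theorem Id_x0 (t : ℝ) : (Real.exp (-t) : ℂ) ≠ 0 :=
  Complex.ofReal_ne_zero.2 (Real.exp_pos _).ne'

private theorem Id_h (p : ℂ) {B : ℝ} (hB : 0 < B) : Continuous (fun t : ℝ => hh p B t) := by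
  unfold hh
  refine (Id_G p hB).div (continuous_const.mul Id_x) fun t => ?_
  exact mul_ne_zero (mul_ne_zero two_ne_zero (Complex.ofReal_ne_zero.2 hB.ne')) (Id_x0 t)

private theorem Id_dd (p q r : ℂ) {A : ℝ} (hA : 0 < A) :
    Continuous (fun t => Ph p q r A t) ∧ Continuous (fun t => dd0 p q r A t) ∧
      Continuous (fun t => dd2 p q r A t) ∧ Continuous (fun t => dd4 p q r A t) := by
  have hA2 : 0 < A + 2 := by linarith
  have f1 := Id_F p hA
  have f4 := Id_F q hA2
  have f : Continuous (fun t : ℝ => F r (Real.exp (-t))) :=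
    continuous_iff_continuousAt.2 fun t => (F_t1 r t).continuousAt
  have h1 := Id_h p hA
  have h4 := Id_h q hA2
  have h := Id_h r one_pos
  have hP : Continuous (fun t => Ph p q r A t) := (f1.mul f4).mul (f.pow 2)
  refine ⟨hP, hP.mul continuous_const, ?_, ?_⟩
  · unfold dd2
    exact ((((h1.mul h4).neg.mul (f.pow 2)).mul continuous_const).add
      (((f1.mul f4).mul (h.pow 2)).mul continuous_const)).add
      (((continuous_const.mul f).mul h).mul ((h1.mul f4).add (f1.mul h4)))
  · unfold dd4
    exact ((h1.mul h4).neg.mul (h.pow 2)).mul continuous_const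

theorem cont_t (p q r : ℂ) {A : ℝ} (hA : 0 < A) :
    Continuous (fun t => Ph p q r A t) ∧ Continuous (fun t => PhA p q r A t) ∧
      Continuous (fun t => PhAA p q r A t) ∧ Continuous (fun t => Xi p q r A t) ∧
      Continuous (fun t => mm p q r A t) ∧ Continuous (fun t => nn p q r A t) := by
  have hA2 : 0 < A + 2 := by linarith
  have f1 := Id_F p hA
  have f4 := Id_F q hA2
  have g1 := Id_G p hA
  have g4 := Id_G q hA2
  have f : Continuous (fun t : ℝ => F r (Real.exp (-t))) :=
    continuous_iff_continuousAt.2 fun t => (F_t1 r t).continuousAt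
  have g : Continuous (fun t : ℝ => G r (Real.exp (-t))) :=
    continuous_iff_continuousAt.2 fun t => (G_t1 r t).continuousAt
  obtain ⟨hP, hd0, hd2, hd4⟩ := Id_dd p q r hA
  have hA' : (A : ℂ) ≠ 0 := Complex.ofReal_ne_zero.2 hA.ne'
  have hA2' : (A : ℂ) + 2 ≠ 0 := by
    have h := Complex.ofReal_ne_zero.2 hA2.ne'
    rwa [Complex.ofReal_add, Complex.ofReal_ofNat] at h
  have hPA : Continuous (fun t => PhA p q r A t) :=
    (((g1.mul f4).div_const _).add ((f1.mul g4).div_const _)).mul (f.pow 2)
  refine ⟨hP, hPA, ?_, ?_, (hd0.add hd2).add hd4,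
    ((hP.div_const _).add (continuous_const.mul hd2)).add (continuous_const.mul hd4)⟩
  · unfold PhAA
    exact (((((g1.neg.div_const _).sub ((continuous_const.mul (Id_x.pow 2)).mul f1)).mul f4).add
      (((continuous_const.mul g1).mul g4).div_const _)).add
      (f1.mul ((g4.neg.div_const _).sub ((continuous_const.mul (Id_x.pow 2)).mul f4)))).mul
      (f.pow 2)
  · unfold Xi
    refine (((((hP.div_const _).add (continuous_const.mul hPA)).sub
      (((f.mul g).mul f1).mul f4)).add
      ((((f.mul g).mul g1).mul g4).div (continuous_const.mul (Id_x.pow 2)) fun t => ?_)).sub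
      ((continuous_const.mul (((g1.mul f4).div_const _).add ((f1.mul g4).div_const _))).mul
        (((g.pow 2).div (continuous_const.mul (Id_x.pow 2)) fun t => ?_).add (f.pow 2))))
    · exact mul_ne_zero (mul_ne_zero (mul_ne_zero (show (4 : ℂ) ≠ 0 by norm_num) hA') hA2') (pow_ne_zero 2 (Id_x0 t))
    · exact mul_ne_zero (show (4 : ℂ) ≠ 0 by norm_num) (pow_ne_zero 2 (Id_x0 t))

end SL
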