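import Pool.Agent.Lib.MP_216314_pr.SL.PairB
import Pool.Agent.Lib.MP_216314_pr.SL.Id

/-!
# SL/D1a: bounds of the integrands (paper 5.6, 7.1)

Proof of `ID_Ph_bd`. `t <= 0`: `FG_bd` four times (`(p,[A0,A1])`, `(q,[A0+2,A1+2])` with `A + 2`, `(r,[1,1])`): `|F| <= K e^{t/6}`. `t >= 0`: by `F_sub`, `F p (A x) = U(A x) + O(e^{-2t/3})`, all factors bounded,
so `Ph p q r A t = U(A x) U((A+2) x) U(x)^2 + O(e^{-2t/3})` (telescoping the product), and the product of the `U` is real: its imaginary part is 0.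
Proof of `DD_bd`: `t >= 0`: the same with the arguments `a x, x, b x` (`0 <= a, b <= 1`, use `F_sub` with `A1 = 1`, `e^{-2t/3} <= e^{-t/3}`). `t <= 0` (`x >= 1`): `F_bd`: `|F q x| <= K x^(-1/6)`;
if `a >= 1/2`: `|F p (a x)| <= K (a x)^(-1/6) <= K 2^(1/6) x^(-1/6)` and `|F r (b x)| <= K` (also when `b = 0`: `F r 0 = 1` by `U_zero, V_zero`): total `K x^(-1/3) = K e^{t/3}`;
else `b = (1-a)/2 >= 1/4`: `|F r (b x)|^2 <= K x^(-1/3)`, `|F p (a x)| <= K` (also for `a = 0`), total `x^(-1/2) <= x^(-1/3)`.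
-/

set_option autoImplicit false

noncomputable section

namespace SL

open Filter Topology

theorem D1a_K (A1 : ℝ) : ∃ K : ℝ, 1 ≤ K ∧ ∀ o : ℂ, (o = 1 ∨ o = -th ∨ o = -th⁻¹) →
    ∀ A : ℝ, 0 ≤ A → A ≤ A1 → ∀ t : ℝ, 0 ≤ t →
      ‖F o (A * Real.exp (-t)) - (U (A * Real.exp (-t)) : ℂ)‖ ≤ K * Real.exp (-(2 / 3 * t)) ∧
        |U (A * Real.exp (-t))| ≤ K ∧ ‖F o (A * Real.exp (-t))‖ ≤ K := by
  obtain ⟨K1, h1, b1⟩ := F_sub 1 (A1 := A1)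
  obtain ⟨K2, h2, b2⟩ := F_sub (-th) (A1 := A1)
  obtain ⟨K3, h3, b3⟩ := F_sub (-th⁻¹) (A1 := A1)
  refine ⟨K1 + K2 + K3 + 1, by linarith, ?_⟩
  rintro o (rfl | rfl | rfl) A hA hA1 t ht
  · have hb := b1 A hA hA1 t ht
    have he := Real.exp_pos (-(2 / 3 * t))
    exact ⟨hb.1.trans (mul_le_mul_of_nonneg_right (by linarith) he.le), by linarith [hb.2.1],
      by linarith [hb.2.2]⟩
  · have hb := b2 A hA hA1 t ht
    have he := Real.exp_pos (-(2 / 3 * t))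
    exact ⟨hb.1.trans (mul_le_mul_of_nonneg_right (by linarith) he.le), by linarith [hb.2.1],
      by linarith [hb.2.2]⟩
  · have hb := b3 A hA hA1 t ht
    have he := Real.exp_pos (-(2 / 3 * t))
    exact ⟨hb.1.trans (mul_le_mul_of_nonneg_right (by linarith) he.le), by linarith [hb.2.1],
      by linarith [hb.2.2]⟩

theorem D1a_F0 (o : ℂ) : F o 0 = 1 := by
  unfold F
  rw [U_zero, V_zero]
  simp

theorem D1a_KF : ∃ K : ℝ, 1 ≤ K ∧ ∀ o : ℂ, (o = 1 ∨ o = -th ∨ o = -th⁻¹) →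
    (∀ y : ℝ, 0 ≤ y → ‖F o y‖ ≤ K) ∧ (∀ y : ℝ, 0 < y → ‖F o y‖ ≤ K * y ^ (-(1 / 6) : ℝ)) := by
  obtain ⟨K1, h1, b1⟩ := F_bd 1
  obtain ⟨K2, h2, b2⟩ := F_bd (-th)
  obtain ⟨K3, h3, b3⟩ := F_bd (-th⁻¹)
  refine ⟨K1 + K2 + K3 + 1, by linarith, ?_⟩
  have key : ∀ (o : ℂ) (k : ℝ), 0 < k → k ≤ K1 + K2 + K3 →
      (∀ y : ℝ, 0 < y → ‖F o y‖ ≤ k ∧ ‖F o y‖ ≤ k * y ^ (-(1 / 6) : ℝ)) →
      (∀ y : ℝ, 0 ≤ y → ‖F o y‖ ≤ K1 + K2 + K3 + 1) ∧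
        (∀ y : ℝ, 0 < y → ‖F o y‖ ≤ (K1 + K2 + K3 + 1) * y ^ (-(1 / 6) : ℝ)) := by
    intro o k hk hk1 hb
    constructor
    · intro y hy
      rcases hy.eq_or_lt with h | h
      · rw [← h, D1a_F0, norm_one]
        linarith
      · linarith [(hb y h).1]
    · intro y hy
      have hp : 0 < y ^ (-(1 / 6) : ℝ) := Real.rpow_pos_of_pos hy _
      exact (hb y hy).2.trans (mul_le_mul_of_nonneg_right (by linarith) hp.le)
  rintro o (rfl | rfl | rfl)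
  · exact key 1 K1 h1 (by linarith) b1
  · exact key (-th) K2 h2 (by linarith) b2
  · exact key (-th⁻¹) K3 h3 (by linarith) b3

theorem D1a_prod {z1 z2 z3 : ℂ} {c1 c2 c3 : ℝ} (h1 : ‖z1‖ ≤ c1) (h2 : ‖z2‖ ≤ c2) (h3 : ‖z3‖ ≤ c3) :
    |(z1 * z2 * z3 ^ 2).im| ≤ c1 * c2 * c3 ^ 2 := by
  refine (Complex.abs_im_le_norm _).trans ?_
  rw [norm_mul, norm_mul, norm_pow]
  have hz1 := norm_nonneg z1
  have hz2 := norm_nonneg z2
  have hz3 := norm_nonneg z3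
  have hc1 : 0 ≤ c1 := hz1.trans h1
  have hc2 : 0 ≤ c2 := hz2.trans h2
  gcongr

theorem D1a_tel {z1 z2 z3 : ℂ} {u1 u2 u3 K d : ℝ} (hd : 0 ≤ d)
    (h1 : ‖z1 - (u1 : ℂ)‖ ≤ K * d ∧ |u1| ≤ K ∧ ‖z1‖ ≤ K)
    (h2 : ‖z2 - (u2 : ℂ)‖ ≤ K * d ∧ |u2| ≤ K ∧ ‖z2‖ ≤ K)
    (h3 : ‖z3 - (u3 : ℂ)‖ ≤ K * d ∧ |u3| ≤ K ∧ ‖z3‖ ≤ K) :
    |(z1 * z2 * z3 ^ 2).im| ≤ 4 * K ^ 4 * d := by
  have e1 : (z1 * z2 * z3 ^ 2).im = (z1 * z2 * z3 ^ 2 - ((u1 * u2 * u3 ^ 2 : ℝ) : ℂ)).im := by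
    rw [Complex.sub_im, Complex.ofReal_im, sub_zero]
  have e2 : z1 * z2 * z3 ^ 2 - ((u1 * u2 * u3 ^ 2 : ℝ) : ℂ) =
      (z1 - u1) * z2 * z3 ^ 2 + (u1 : ℂ) * (z2 - u2) * z3 ^ 2 + (u1 : ℂ) * (u2 : ℂ) * ((z3 - u3) * (z3 + u3)) := by
    push_cast
    ring
  have hK : 0 ≤ K := (abs_nonneg u1).trans h1.2.1
  have n1 : ‖(u1 : ℂ)‖ ≤ K := by rw [Complex.norm_real]; exact h1.2.1
  have n2 : ‖(u2 : ℂ)‖ ≤ K := by rw [Complex.norm_real]; exact h2.2.1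
  have n3 : ‖(u3 : ℂ)‖ ≤ K := by rw [Complex.norm_real]; exact h3.2.1
  rw [e1]
  refine (Complex.abs_im_le_norm _).trans ?_
  rw [e2]
  have a1 : ‖(z1 - u1) * z2 * z3 ^ 2‖ ≤ (K * d) * K * K ^ 2 := by
    rw [norm_mul, norm_mul, norm_pow]
    have := h1.1
    have := h2.2.2
    have := h3.2.2
    gcongr
  have a2 : ‖(u1 : ℂ) * (z2 - u2) * z3 ^ 2‖ ≤ K * (K * d) * K ^ 2 := by
    rw [norm_mul, norm_mul, norm_pow]
    have := h2.1
    have := h3.2.2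
    gcongr
  have a3 : ‖(u1 : ℂ) * (u2 : ℂ) * ((z3 - u3) * (z3 + u3))‖ ≤ K * K * ((K * d) * (K + K)) := by
    rw [norm_mul, norm_mul, norm_mul]
    have h4 := h3.1
    have h5 : ‖z3 + (u3 : ℂ)‖ ≤ K + K := (norm_add_le _ _).trans (add_le_add h3.2.2 n3)
    gcongr
  have t1 := norm_add_le ((z1 - u1) * z2 * z3 ^ 2 + (u1 : ℂ) * (z2 - u2) * z3 ^ 2)
    ((u1 : ℂ) * (u2 : ℂ) * ((z3 - u3) * (z3 + u3)))
  have t2 := norm_add_le ((z1 - u1) * z2 * z3 ^ 2) ((u1 : ℂ) * (z2 - u2) * z3 ^ 2)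
  have e3 : 4 * K ^ 4 * d = (K * d) * K * K ^ 2 + K * (K * d) * K ^ 2 + K * K * ((K * d) * (K + K)) := by ring
  rw [e3]
  linarith

theorem D1a_half {z w : ℂ} {c : ℝ} (h1 : |z.im| ≤ c) (h2 : |w.im| ≤ c) : |1 / 2 * (z - w).im| ≤ c := by
  rw [Complex.sub_im, abs_le]
  have a1 := abs_le.1 h1
  have a2 := abs_le.1 h2
  constructor <;> linarith [a1.1, a1.2, a2.1, a2.2]

theorem D1a_pw {c al : ℝ} (hc : 0 < c) (h : c ≤ al) (t : ℝ) :
    (al * Real.exp (-t)) ^ (-(1 / 6) : ℝ) ≤ c ^ (-(1 / 6) : ℝ) * Real.exp (1 / 6 * t) := by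
  have he := Real.exp_pos (-t)
  have h1 : (al * Real.exp (-t)) ^ (-(1 / 6) : ℝ) ≤ (c * Real.exp (-t)) ^ (-(1 / 6) : ℝ) :=
    Real.rpow_le_rpow_of_nonpos (by positivity) (mul_le_mul_of_nonneg_right h he.le) (by norm_num)
  refine h1.trans (le_of_eq ?_)
  rw [Real.mul_rpow hc.le he.le, ← Real.exp_mul]
  congr 2
  ring

theorem D1a_64 : (1 / 64 : ℝ) ^ (-(1 / 6) : ℝ) = 2 := by
  have h : (1 / 64 : ℝ) = (2 : ℝ) ^ (-6 : ℝ) := by
    rw [Real.rpow_neg (by norm_num), show (6 : ℝ) = ((6 : ℕ) : ℝ) by norm_num, Real.rpow_natCast]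
    norm_num
  rw [h, ← Real.rpow_mul (by norm_num)]
  norm_num

theorem D1a_pw2 {al : ℝ} (h : 1 / 64 ≤ al) (t : ℝ) :
    (al * Real.exp (-t)) ^ (-(1 / 6) : ℝ) ≤ 2 * Real.exp (1 / 6 * t) := by
  have h1 := D1a_pw (c := 1 / 64) (by norm_num) h t
  rwa [D1a_64] at h1

theorem ID_Ph_bd {A0 A1 : ℝ} (h0 : 0 < A0) : ∃ K : ℝ, 0 < K ∧ ∀ A ∈ Set.Icc A0 A1, ∀ t : ℝ,
    |ID Ph A t| ≤ K * Real.exp (-(2 / 3 * |t|)) := by
  obtain ⟨K, hK, b⟩ := D1a_K (|A1| + 2)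
  obtain ⟨L, hL, c⟩ := D1a_KF
  have hA0 : 0 < A0 ^ (-(1 / 6) : ℝ) := Real.rpow_pos_of_pos h0 _
  refine ⟨4 * K ^ 4 + (L * A0 ^ (-(1 / 6) : ℝ)) * (2 * L) * (2 * L) ^ 2, by positivity, fun A hA t => ?_⟩
  have hAp : 0 < A := lt_of_lt_of_le h0 hA.1
  have hA1 : A ≤ |A1| := hA.2.trans (le_abs_self A1)
  have m1 : (1 : ℂ) = 1 ∨ (1 : ℂ) = -th ∨ (1 : ℂ) = -th⁻¹ := Or.inl rfl
  have m2 : (-th : ℂ) = 1 ∨ (-th : ℂ) = -th ∨ (-th : ℂ) = -th⁻¹ := Or.inr (Or.inl rfl)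
  have m3 : (-th⁻¹ : ℂ) = 1 ∨ (-th⁻¹ : ℂ) = -th ∨ (-th⁻¹ : ℂ) = -th⁻¹ := Or.inr (Or.inr rfl)
  have hM : 0 < (L * A0 ^ (-(1 / 6) : ℝ)) * (2 * L) * (2 * L) ^ 2 := by positivity
  rcases le_total 0 t with ht | ht
  · have hpos : ∀ p q r : ℂ, (p = 1 ∨ p = -th ∨ p = -th⁻¹) → (q = 1 ∨ q = -th ∨ q = -th⁻¹) →
        (r = 1 ∨ r = -th ∨ r = -th⁻¹) → |(Ph p q r A t).im| ≤ 4 * K ^ 4 * Real.exp (-(2 / 3 * t)) := by
      intro p q r hp hq hr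
      have c1 := b p hp A hAp.le (by linarith) t ht
      have c2 := b q hq (A + 2) (by linarith) (by linarith) t ht
      have c3 := b r hr 1 (by norm_num) (by linarith [abs_nonneg A1]) t ht
      rw [one_mul] at c3
      unfold Ph
      exact D1a_tel (Real.exp_pos _).le c1 c2 c3
    have h := D1a_half (hpos 1 (-th) (-th⁻¹) m1 m2 m3) (hpos (-th⁻¹) 1 (-th) m3 m1 m2)
    rw [abs_of_nonneg ht]
    unfold ID
    refine h.trans (mul_le_mul_of_nonneg_right (by linarith) (Real.exp_pos _).le)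
  · have hneg : ∀ p q r : ℂ, (p = 1 ∨ p = -th ∨ p = -th⁻¹) → (q = 1 ∨ q = -th ∨ q = -th⁻¹) →
        (r = 1 ∨ r = -th ∨ r = -th⁻¹) → |(Ph p q r A t).im| ≤
          (L * A0 ^ (-(1 / 6) : ℝ)) * (2 * L) * (2 * L) ^ 2 * Real.exp (2 / 3 * t) := by
      intro p q r hp hq hr
      have he := Real.exp_pos (-t)
      have c1 : ‖F p (A * Real.exp (-t))‖ ≤ (L * A0 ^ (-(1 / 6) : ℝ)) * Real.exp (1 / 6 * t) := by
        refine ((c p hp).2 _ (by positivity)).trans ?_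
        have := mul_le_mul_of_nonneg_left (D1a_pw h0 hA.1 t) (by linarith : (0 : ℝ) ≤ L)
        linarith
      have c2 : ‖F q ((A + 2) * Real.exp (-t))‖ ≤ (2 * L) * Real.exp (1 / 6 * t) := by
        refine ((c q hq).2 _ (by positivity)).trans ?_
        have := mul_le_mul_of_nonneg_left (D1a_pw2 (al := A + 2) (by linarith) t) (by linarith : (0 : ℝ) ≤ L)
        linarith
      have c3 : ‖F r (Real.exp (-t))‖ ≤ (2 * L) * Real.exp (1 / 6 * t) := by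
        refine ((c r hr).2 _ (by positivity)).trans ?_
        have h2 := D1a_pw2 (al := 1) (by norm_num) t
        rw [one_mul] at h2
        have := mul_le_mul_of_nonneg_left h2 (by linarith : (0 : ℝ) ≤ L)
        linarith
      unfold Ph
      refine (D1a_prod c1 c2 c3).trans (le_of_eq ?_)
      have e4 : Real.exp (2 / 3 * t) = Real.exp (1 / 6 * t) ^ 4 := by
        rw [← Real.exp_nat_mul]
        congr 1
        push_cast
        ring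
      rw [e4]
      ring
    have h := D1a_half (hneg 1 (-th) (-th⁻¹) m1 m2 m3) (hneg (-th⁻¹) 1 (-th) m3 m1 m2)
    rw [abs_of_nonpos ht]
    unfold ID
    have e5 : -(2 / 3 * -t) = 2 / 3 * t := by ring
    rw [e5]
    refine h.trans (mul_le_mul_of_nonneg_right ?_ (Real.exp_pos _).le)
    have : 0 ≤ 4 * K ^ 4 := by positivity
    linarith

theorem DD_bd : ∃ K : ℝ, 0 < K ∧ ∀ a ∈ Set.Icc (0 : ℝ) 1, ∀ t : ℝ,
    |DD a ((1 - a) / 2) (Real.exp (-t))| ≤ K * Real.exp (-(1 / 3 * |t|)) := by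
  obtain ⟨K, hK, b⟩ := D1a_K 1
  obtain ⟨L, hL, c⟩ := D1a_KF
  refine ⟨4 * K ^ 4 + 4 * L ^ 4, by positivity, fun a ha t => ?_⟩
  have ha0 : 0 ≤ a := ha.1
  have ha1 : a ≤ 1 := ha.2
  have m1 : (1 : ℂ) = 1 ∨ (1 : ℂ) = -th ∨ (1 : ℂ) = -th⁻¹ := Or.inl rfl
  have m2 : (-th : ℂ) = 1 ∨ (-th : ℂ) = -th ∨ (-th : ℂ) = -th⁻¹ := Or.inr (Or.inl rfl)
  have m3 : (-th⁻¹ : ℂ) = 1 ∨ (-th⁻¹ : ℂ) = -th ∨ (-th⁻¹ : ℂ) = -th⁻¹ := Or.inr (Or.inr rfl)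
  rcases le_total 0 t with ht | ht
  · have hpos : ∀ p q r : ℂ, (p = 1 ∨ p = -th ∨ p = -th⁻¹) → (q = 1 ∨ q = -th ∨ q = -th⁻¹) →
        (r = 1 ∨ r = -th ∨ r = -th⁻¹) →
        |(F p (a * Real.exp (-t)) * F q (Real.exp (-t)) * F r ((1 - a) / 2 * Real.exp (-t)) ^ 2).im| ≤
          4 * K ^ 4 * Real.exp (-(2 / 3 * t)) := by
      intro p q r hp hq hr
      have c1 := b p hp a ha0 ha1 t ht
      have c2 := b q hq 1 (by norm_num) le_rfl t ht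
      have c3 := b r hr ((1 - a) / 2) (by linarith) (by linarith) t ht
      rw [one_mul] at c2
      exact D1a_tel (Real.exp_pos _).le c1 c2 c3
    have h := D1a_half (hpos 1 (-th) (-th⁻¹) m1 m2 m3) (hpos (-th⁻¹) 1 (-th) m3 m1 m2)
    rw [abs_of_nonneg ht]
    unfold DD
    have hexp : Real.exp (-(2 / 3 * t)) ≤ Real.exp (-(1 / 3 * t)) := Real.exp_le_exp.2 (by linarith)
    calc _ ≤ 4 * K ^ 4 * Real.exp (-(2 / 3 * t)) := h
      _ ≤ 4 * K ^ 4 * Real.exp (-(1 / 3 * t)) := mul_le_mul_of_nonneg_left hexp (by positivity)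
      _ ≤ (4 * K ^ 4 + 4 * L ^ 4) * Real.exp (-(1 / 3 * t)) :=
        mul_le_mul_of_nonneg_right (by linarith [show 0 ≤ 4 * L ^ 4 by positivity]) (Real.exp_pos _).le
  · have he := Real.exp_pos (-t)
    have hL0 : 0 ≤ L := by linarith
    have hE0 := Real.exp_pos (1 / 6 * t)
    have e3 : Real.exp (1 / 3 * t) = Real.exp (1 / 6 * t) ^ 2 := by
      rw [← Real.exp_nat_mul]
      congr 1
      push_cast
      ring
    have hneg : ∀ p q r : ℂ, (p = 1 ∨ p = -th ∨ p = -th⁻¹) → (q = 1 ∨ q = -th ∨ q = -th⁻¹) →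
        (r = 1 ∨ r = -th ∨ r = -th⁻¹) →
        |(F p (a * Real.exp (-t)) * F q (Real.exp (-t)) * F r ((1 - a) / 2 * Real.exp (-t)) ^ 2).im| ≤
          4 * L ^ 4 * Real.exp (1 / 3 * t) := by
      intro p q r hp hq hr
      rcases le_total (1 / 2) a with h | h
      · have c1 : ‖F p (a * Real.exp (-t))‖ ≤ (2 * L) * Real.exp (1 / 6 * t) := by
          refine ((c p hp).2 _ (mul_pos (by linarith) he)).trans ?_
          have := mul_le_mul_of_nonneg_left (D1a_pw2 (al := a) (by linarith) t) hL0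
          linarith
        have c2 : ‖F q (Real.exp (-t))‖ ≤ (2 * L) * Real.exp (1 / 6 * t) := by
          refine ((c q hq).2 _ (by positivity)).trans ?_
          have h2 := D1a_pw2 (al := 1) (by norm_num) t
          rw [one_mul] at h2
          have := mul_le_mul_of_nonneg_left h2 hL0
          linarith
        have c3 : ‖F r ((1 - a) / 2 * Real.exp (-t))‖ ≤ L := (c r hr).1 _ (by
          have : 0 ≤ (1 - a) / 2 := by linarith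
          positivity)
        refine (D1a_prod c1 c2 c3).trans (le_of_eq ?_)
        rw [e3]
        ring
      · have hb : (1 / 64 : ℝ) ≤ (1 - a) / 2 := by linarith
        have c1 : ‖F p (a * Real.exp (-t))‖ ≤ L := (c p hp).1 _ (by positivity)
        have c2 : ‖F q (Real.exp (-t))‖ ≤ L := (c q hq).1 _ (by positivity)
        have c3 : ‖F r ((1 - a) / 2 * Real.exp (-t))‖ ≤ (2 * L) * Real.exp (1 / 6 * t) := by
          refine ((c r hr).2 _ (mul_pos (by linarith) he)).trans ?_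
          have := mul_le_mul_of_nonneg_left (D1a_pw2 (al := (1 - a) / 2) hb t) hL0
          linarith
        refine (D1a_prod c1 c2 c3).trans (le_of_eq ?_)
        rw [e3]
        ring
    have h := D1a_half (hneg 1 (-th) (-th⁻¹) m1 m2 m3) (hneg (-th⁻¹) 1 (-th) m3 m1 m2)
    rw [abs_of_nonpos ht]
    unfold DD
    have e5 : -(1 / 3 * -t) = 1 / 3 * t := by ring
    rw [e5]
    refine h.trans (mul_le_mul_of_nonneg_right ?_ (Real.exp_pos _).le)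
    have : 0 ≤ 4 * K ^ 4 := by positivity
    linarith

end SL
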