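import Pool.Agent.Lib.MP_216314_pr.SL.D1a

/-!
# SL/D1b: continuity of `EI` on `[0, 1]` (paper 7.1)

Proof. `DD_cont`: `F p` is continuous on `[0, oo)` (`U_cont`, `V_cont`), the arguments `a x`, `(1-a)/2 x` are `>= 0`. `DD_meas`: the same, in `t`. `int_abs`: split at 0, `integrable_exp_neg...`
(`integrableOn_exp_mul_Ioi`-type lemmas, or `integrable_of_summable`..; simplest: `exp(-k|t|) <= ` on both half lines, `IntegrableOn.union`). `EI_cont`: dominated convergence
(`MeasureTheory.continuousWithinAt_of_dominated` / `continuousOn_of_dominated`) with `DD_bd`.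
-/

set_option autoImplicit false

noncomputable section

namespace SL

open Filter Topology

theorem D1b_F (o : ℂ) : ContinuousOn (F o) (Set.Ici 0) := by
  have hU : ContinuousOn (fun y : ℝ => (U y : ℂ)) (Set.Ici 0) :=
    (Complex.continuous_ofReal.comp U_cont).continuousOn
  have hV : ContinuousOn (fun y : ℝ => (V y : ℂ)) (Set.Ici 0) :=
    Complex.continuous_ofReal.comp_continuousOn V_cont
  exact hU.add (continuousOn_const.mul hV)

theorem DD_cont (x : ℝ) (hx : 0 < x) : ContinuousOn (fun a => DD a ((1 - a) / 2) x) (Set.Icc 0 1) := by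
  have h1 : ∀ o : ℂ, ContinuousOn (fun a : ℝ => F o (a * x)) (Set.Icc 0 1) := by
    intro o
    refine (D1b_F o).comp (by fun_prop) ?_
    intro a ha
    exact mul_nonneg ha.1 hx.le
  have h2 : ∀ o : ℂ, ContinuousOn (fun a : ℝ => F o ((1 - a) / 2 * x)) (Set.Icc 0 1) := by
    intro o
    refine (D1b_F o).comp (by fun_prop) ?_
    intro a ha
    have := ha.2
    exact mul_nonneg (by linarith) hx.le
  have h3 : ContinuousOn (fun a : ℝ => F 1 (a * x) * F (-th) x * F (-th⁻¹) ((1 - a) / 2 * x) ^ 2 -
      F (-th⁻¹) (a * x) * F 1 x * F (-th) ((1 - a) / 2 * x) ^ 2) (Set.Icc 0 1) :=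
    (((h1 1).mul continuousOn_const).mul ((h2 (-th⁻¹)).pow 2)).sub
      (((h1 (-th⁻¹)).mul continuousOn_const).mul ((h2 (-th)).pow 2))
  exact continuousOn_const.mul (Complex.continuous_im.comp_continuousOn h3)

theorem DD_meas (a : ℝ) (ha : a ∈ Set.Icc (0 : ℝ) 1) : Continuous (fun t : ℝ => DD a ((1 - a) / 2) (Real.exp (-t))) := by
  have key : ∀ (o : ℂ) (c : ℝ), 0 ≤ c → Continuous (fun t : ℝ => F o (c * Real.exp (-t))) := by
    intro o c hc
    refine (D1b_F o).comp_continuous (by fun_prop) ?_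
    intro t
    exact mul_nonneg hc (Real.exp_pos _).le
  have key1 : ∀ (o : ℂ), Continuous (fun t : ℝ => F o (Real.exp (-t))) := by
    intro o
    refine (D1b_F o).comp_continuous (by fun_prop) ?_
    intro t
    exact (Real.exp_pos _).le
  have hb : 0 ≤ (1 - a) / 2 := by
    have := ha.2
    linarith
  have h3 : Continuous (fun t : ℝ => F 1 (a * Real.exp (-t)) * F (-th) (Real.exp (-t)) *
      F (-th⁻¹) ((1 - a) / 2 * Real.exp (-t)) ^ 2 -
      F (-th⁻¹) (a * Real.exp (-t)) * F 1 (Real.exp (-t)) * F (-th) ((1 - a) / 2 * Real.exp (-t)) ^ 2) :=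
    (((key 1 a ha.1).mul (key1 _)).mul ((key _ _ hb).pow 2)).sub
      (((key _ a ha.1).mul (key1 _)).mul ((key _ _ hb).pow 2))
  exact continuous_const.mul (Complex.continuous_im.comp h3)

/-- `exp (-k |t|)` is integrable -/
theorem int_abs {k : ℝ} (hk : 0 < k) : MeasureTheory.Integrable (fun t : ℝ => Real.exp (-(k * |t|))) := by
  have h1 : MeasureTheory.IntegrableOn (fun t : ℝ => Real.exp (-(k * |t|))) (Set.Iic 0) := by
    refine (integrableOn_exp_mul_Iic hk 0).congr_fun ?_ measurableSet_Iic
    intro t ht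
    show Real.exp (k * t) = Real.exp (-(k * |t|))
    rw [abs_of_nonpos ht]
    ring_nf
  have h2 : MeasureTheory.IntegrableOn (fun t : ℝ => Real.exp (-(k * |t|))) (Set.Ioi 0) := by
    refine (integrableOn_exp_mul_Ioi (a := -k) (by linarith) 0).congr_fun ?_ measurableSet_Ioi
    intro t ht
    show Real.exp (-k * t) = Real.exp (-(k * |t|))
    rw [abs_of_pos ht]
    ring_nf
  have h3 := h1.union h2
  rw [Set.Iic_union_Ioi] at h3
  exact MeasureTheory.integrableOn_univ.1 h3

/-- `EI` is continuous on `[0, 1]` (dominated convergence) -/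
theorem EI_cont : ContinuousOn EI (Set.Icc 0 1) := by
  obtain ⟨K, hK, hb⟩ := DD_bd
  have h : ContinuousOn (fun a : ℝ => ∫ t : ℝ, DD a ((1 - a) / 2) (Real.exp (-t))) (Set.Icc 0 1) := by
    refine MeasureTheory.continuousOn_of_dominated
      (bound := fun t : ℝ => K * Real.exp (-(1 / 3 * |t|))) ?_ ?_ ?_ ?_
    · intro a ha
      exact (DD_meas a ha).aestronglyMeasurable
    · intro a ha
      refine Filter.Eventually.of_forall ?_
      intro t
      rw [Real.norm_eq_abs]
      exact hb a ha t
    · exact (int_abs (by norm_num : (0 : ℝ) < 1 / 3)).const_mul K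
    · refine Filter.Eventually.of_forall ?_
      intro t
      exact DD_cont (Real.exp (-t)) (Real.exp_pos _)
  exact continuousOn_const.sub (continuousOn_const.mul h)

end SL
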