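import Mathlib

/-!
# Schramm's formula, the limit: definitions (helper99)

Paper: `/team-store/PAPER_MP_216314_pr_SchrammLimit.md`, sections 4, 5, 6.
-/

set_option autoImplicit false

noncomputable section

namespace SL

open Complex Filter Topology

/-- `al_i` (real version of `CDH.al`) -/
def ar (i : ℕ) : ℝ := ∏ j ∈ Finset.range i, (1 / (3 * ((j : ℝ) + 1) * (3 * ((j : ℝ) + 1) - 1)))

/-- `be_i` (real version of `CDH.be`) -/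
def br (i : ℕ) : ℝ := ∏ j ∈ Finset.range i, (1 / (3 * ((j : ℝ) + 1) * (3 * ((j : ℝ) + 1) + 1)))

/-- `lim_m (al_m / be_m) m^(-2/3)` -/
def kap : ℝ := Real.Gamma (2 / 3) / Real.Gamma (4 / 3)

/-- `U(x) = 0F1(; 2/3; -x^2)` -/
def U (x : ℝ) : ℝ := ∑' i : ℕ, (-1) ^ i * ar i * (3 * x) ^ (2 * i)

/-- `x U'(x)` -/
def U1 (x : ℝ) : ℝ := ∑' i : ℕ, (-1) ^ i * ar i * (2 * i) * (3 * x) ^ (2 * i)

/-- `0F1(; 4/3; -x^2)` -/
def V0 (x : ℝ) : ℝ := ∑' j : ℕ, (-1) ^ j * br j * (3 * x) ^ (2 * j)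

def V01 (x : ℝ) : ℝ := ∑' j : ℕ, (-1) ^ j * br j * (2 * j + 2 / 3) * (3 * x) ^ (2 * j)

/-- `V(x) = kap x^(2/3) 0F1(; 4/3; -x^2)` -/
def V (x : ℝ) : ℝ := kap * x ^ (2 / 3 : ℝ) * V0 x

/-- `x V'(x)` -/
def V1 (x : ℝ) : ℝ := kap * x ^ (2 / 3 : ℝ) * V01 x

/-- `e^{i pi/3}` (the same term as `CDH.th`) -/
def th : ℂ := Complex.exp (Real.pi / 3 * Complex.I)

/-- the solution `U + o V` -/
def F (o : ℂ) (y : ℝ) : ℂ := (U y : ℂ) + o * (V y : ℂ)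

/-- its Euler derivative `y d/dy` -/
def G (o : ℂ) (y : ℝ) : ℂ := (U1 y : ℂ) + o * (V1 y : ℂ)

/-- the limit of the integrand, `a + 2 b = 1` (4.2) -/
def DD (a b x : ℝ) : ℝ :=
  1 / 2 * (F 1 (a * x) * F (-th) x * F (-th⁻¹) (b * x) ^ 2 - F (-th⁻¹) (a * x) * F 1 x * F (-th) (b * x) ^ 2).im

/-- the limit of `E(c, n)` when `c / L -> a` (4.3) -/
def EI (a : ℝ) : ℝ := 1 / 3 - 2 / (3 * Real.pi) * ∫ t : ℝ, DD a ((1 - a) / 2) (Real.exp (-t))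

/-! ## section 5: expressions in `(A, t)`, `x = e^{-t}`, `L = A + 2`, `M = A + 1`, parameters `p, q, r` of the three solutions -/

def Ph (p q r : ℂ) (A t : ℝ) : ℂ :=
  F p (A * Real.exp (-t)) * F q ((A + 2) * Real.exp (-t)) * F r (Real.exp (-t)) ^ 2

def PhA (p q r : ℂ) (A t : ℝ) : ℂ :=
  (G p (A * Real.exp (-t)) * F q ((A + 2) * Real.exp (-t)) / A +
    F p (A * Real.exp (-t)) * G q ((A + 2) * Real.exp (-t)) / (A + 2)) * F r (Real.exp (-t)) ^ 2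

def PhAA (p q r : ℂ) (A t : ℝ) : ℂ :=
  ((-G p (A * Real.exp (-t)) / (3 * A ^ 2) - 4 * (Real.exp (-t) : ℂ) ^ 2 * F p (A * Real.exp (-t))) *
      F q ((A + 2) * Real.exp (-t)) +
    2 * G p (A * Real.exp (-t)) * G q ((A + 2) * Real.exp (-t)) / (A * (A + 2)) +
    F p (A * Real.exp (-t)) * (-G q ((A + 2) * Real.exp (-t)) / (3 * (A + 2) ^ 2) -
      4 * (Real.exp (-t) : ℂ) ^ 2 * F q ((A + 2) * Real.exp (-t)))) * F r (Real.exp (-t)) ^ 2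

/-- the potential `1/(2A) + 1/(2L) + 1/(3M)` -/
def qq (A : ℝ) : ℝ := 1 / (2 * A) + 1 / (2 * (A + 2)) + 1 / (3 * (A + 1))

def Xi (p q r : ℂ) (A t : ℝ) : ℂ :=
  Ph p q r A t / 3 + (A + 1) * PhA p q r A t -
    F r (Real.exp (-t)) * G r (Real.exp (-t)) * F p (A * Real.exp (-t)) * F q ((A + 2) * Real.exp (-t)) +
    F r (Real.exp (-t)) * G r (Real.exp (-t)) * G p (A * Real.exp (-t)) * G q ((A + 2) * Real.exp (-t)) /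
      (4 * A * (A + 2) * (Real.exp (-t) : ℂ) ^ 2) -
    1 / (2 * (A + 1)) * (G p (A * Real.exp (-t)) * F q ((A + 2) * Real.exp (-t)) / A +
      F p (A * Real.exp (-t)) * G q ((A + 2) * Real.exp (-t)) / (A + 2)) *
      (G r (Real.exp (-t)) ^ 2 / (4 * (Real.exp (-t) : ℂ) ^ 2) + F r (Real.exp (-t)) ^ 2)

/-- `h = G / (2 A x)` -/
def hh (p : ℂ) (A t : ℝ) : ℂ := G p (A * Real.exp (-t)) / (2 * A * Real.exp (-t))

def cP (A : ℝ) : ℝ := A * (A + 2) / (4 * (A + 1) ^ 2)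
def cQ (A : ℝ) : ℝ := ((A + 1) ^ 2 + 1) / (4 * (A * (A + 2)))
def cR (A : ℝ) : ℝ := (A + 1) / (A * (A + 2))

def dd0 (p q r : ℂ) (A t : ℝ) : ℂ := Ph p q r A t * (cP A + cQ A)

def dd2 (p q r : ℂ) (A t : ℝ) : ℂ :=
  -(hh p A t * hh q (A + 2) t) * F r (Real.exp (-t)) ^ 2 * (cP A + cQ A) +
    F p (A * Real.exp (-t)) * F q ((A + 2) * Real.exp (-t)) * hh r 1 t ^ 2 * (cP A - cQ A) +
    cR A * F r (Real.exp (-t)) * hh r 1 t *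
      (hh p A t * F q ((A + 2) * Real.exp (-t)) + F p (A * Real.exp (-t)) * hh q (A + 2) t)

def dd4 (p q r : ℂ) (A t : ℝ) : ℂ := -(hh p A t * hh q (A + 2) t) * hh r 1 t ^ 2 * (cP A - cQ A)

def mm (p q r : ℂ) (A t : ℝ) : ℂ := dd0 p q r A t + dd2 p q r A t + dd4 p q r A t

def nn (p q r : ℂ) (A t : ℝ) : ℂ := Ph p q r A t / 3 + 2 / 3 * dd2 p q r A t + 4 / 3 * dd4 p q r A t

/-- the combination of the two rays -/
def ID (Z : ℂ → ℂ → ℂ → ℝ → ℝ → ℂ) (A t : ℝ) : ℝ :=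
  1 / 2 * (Z 1 (-th) (-th⁻¹) A t - Z (-th⁻¹) 1 (-th) A t).im

/-- `Lam(A) = int_R D1(A; e^{-t}) dt` -/
def Lam (A : ℝ) : ℝ := ∫ t : ℝ, ID Ph A t

/-! ## section 6 -/

def chi (e t : ℝ) : ℝ := Real.exp (-(e * Real.exp (-t)))

/-- the derivative of `chi` in `t` -/
def om (e t : ℝ) : ℝ := e * Real.exp (-t) * chi e t

def l0 (e A : ℝ) : ℝ := ∫ t : ℝ, chi e t * ID Ph A t
def l1 (e A : ℝ) : ℝ := ∫ t : ℝ, chi e t * ID PhA A t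
def l2 (e A : ℝ) : ℝ := ∫ t : ℝ, chi e t * ID PhAA A t

def W0 (A : ℝ) : ℝ := Real.sqrt (A * (A + 2)) * (A + 1) ^ (1 / 3 : ℝ)

/-- `int_0^v (1 + y^2)^(-2/3) dy` -/
def SH (v : ℝ) : ℝ := ∫ y in (0 : ℝ)..v, (1 + y ^ 2) ^ (-(2 / 3) : ℝ)

def H (A : ℝ) : ℝ := SH (Real.sqrt (A * (A + 2)))

/-- `int_0^oo (1 + y^2)^(-2/3) dy` -/
def SHinf : ℝ := ∫ y in Set.Ioi (0 : ℝ), (1 + y ^ 2) ^ (-(2 / 3) : ℝ)

/-- the error term of 6.3 -/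
def eta (e : ℝ) : ℝ := ∫ t in Set.Iic (0 : ℝ),
  (2 * (e * Real.exp (-t)) + (e * Real.exp (-t)) ^ 2) * Real.exp (-(e * Real.exp (-t))) * Real.exp (2 / 3 * t)

end SL
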