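import Pool.Agent.Lib.MP_216314_pr.SL.Fac

/-!
# SL/Dom: the uniform bounds of the integrand (paper 3.6)

Notation: `c = k+1`, `L = k+2n+3`, `N = n+1`. In all cases `|DDn| ≤ (1/2)(‖Fr₊‖ + ‖Fr₋‖) * 2 e^{2s/3}/(4 sinh s cosh s)` (`DDn_eq`, `‖e^{2s/3} + th e^{-2s/3}‖ ≤ 2 e^{2s/3}`, `|im z| ≤ ‖z‖`),
`‖Fz o m s‖ ≤ |pm m s| + |rm m s|` for `‖o‖ = 1`.

(i) `dom_small`: `k` even, `0 < s ≤ 1`. `4 sinh s cosh s ≥ 4 s`, `e^{2s/3} ≤ 2`. `pm_small`, `rm_small`: `‖Fz o m s‖ ≤ 8 (m+1)^(-1/6)`.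
 `Fr₊ = (pm c + rm c) ..`: `c` odd: `|pm c + rm c| ≤ 20 s^(1/6)` (`pr_odd`), the factor `L`: `≤ 8 (L+1)^(-1/6) ≤ 8 L^(-1/6)`, the factors `N`, `n`: `≤ 8`. Product `≤ 20*8*8*8 s^(1/6) L^(-1/6)`.
 `Fr₋`: the factor of index `L` is `pm L + rm L` and `L` is odd: `≤ 20 s^(1/6)`; the factors of index `c`, `N`: `8 (c+1)^(-1/6) * 8 (N+1)^(-1/6) ≤ 64 ((c+1)(N+1))^(-1/6) ≤ 64 L^(-1/6)`
 because `(c+1)(N+1) = (k+2)(n+2) ≥ k + 2n + 3 = L`; the factor `n`: `≤ 8`. So `|DDn| ≤ K s^(1/6) L^(-1/6)/s = K L^(-1/6) s^(-5/6)`.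

(ii) `dom_large`: `s ≥ 1`. `4 sinh s cosh s = e^{2s} - e^{-2s} ≥ e^{2s}/2`. So `|DDn| ≤ 2 (‖Fr₊‖ + ‖Fr₋‖) e^{-4s/3}`.
 Case `s ≤ log L`: use `pm_b1`, `rm_b1`: `‖Fz o m s‖ ≤ 4 (m+1)^(-1/6) e^{s/2}` and `ser_b3`: `‖Fz o m s‖ ≤ 2 K3 e^{s/3}`.
   If `4 (n+1) ≥ L`: the factors `L`, `N`, `n` by the first: `(L+1)^(-1/6) ≤ L^(-1/6)`, `(N+1)^(-1/6), (n+1)^(-1/6) ≤ (L/4)^(-1/6) ≤ 2 L^(-1/6)`; the factor `c` by the second:
   `‖Fr‖ ≤ K L^(-1/2) e^{3s/2 + s/3}`, `|DDn| ≤ K L^(-1/2) e^{s/2} = K e^{-(log L - s)/2} ≤ K e^{-(log L - s)/3}`.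
   Otherwise `4 (n+1) < L = k + 1 + 2(n+1)`, so `c = k+1 > L/2`: the factors `c`, `L` by the first, `N`, `n` by the second: `‖Fr‖ ≤ K L^(-1/3) e^{s + 2s/3}`, `|DDn| ≤ K L^(-1/3) e^{s/3} = K e^{-(log L - s)/3}`.
 Case `s ≥ log L`: all indices `m ∈ {c, L, N, n}` satisfy `m + 1 ≤ 2 L`... more precisely `m ≤ L` so `(m+1) e^{-s} ≤ (L+1)/L ≤ 2`: `ser_b2`. Put `rho = L e^{-s} ≤ 1`:
   `|pm m s| ≤ K e^{s/3}`, `|rm m s| ≤ K (m+1)^(2/3) e^{-s/3} ≤ 2 K rho^(2/3) e^{s/3}` (as `(m+1)^(2/3) ≤ (2L)^(2/3)`, `L^(2/3) e^{-s/3} = rho^(2/3) e^{s/3}`).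
   Expand `Fr₊ = (p_c + o1 r_c)(..)(..)(..)`: `Fr₊ - p_c p_L p_N p_n` is a sum of products each with at least one `r`: norm `≤ K rho^(2/3) e^{4s/3}`; same for `Fr₋`. The term
   `p_c p_L p_N p_n (e^{2s/3} + th e^{-2s/3}) - p_c p_L p_N p_n (e^{2s/3} + th⁻¹ e^{-2s/3})` has norm `≤ K e^{4s/3} 2 e^{-2s/3}`. Hence
   `|DDn| ≤ K (rho^(2/3) e^{4s/3} e^{2s/3} + e^{4s/3 - 2s/3}) e^{-2s} = K (rho^(2/3) + e^{-4s/3})`, and `e^{-4s/3} = (rho/L)^(4/3) ≤ rho^(1/3)`, `rho^(2/3) ≤ rho^(1/3) = e^{-(s - log L)/3}`.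
-/

set_option autoImplicit false

noncomputable section

namespace SL

open Filter Topology MeasureTheory

/-- real part of the length `L` -/
theorem Dom_Lpos (k n : ℕ) : (1 : ℝ) ≤ (k : ℝ) + 2 * n + 3 := by
  have h1 : (0 : ℝ) ≤ k := Nat.cast_nonneg k
  have h2 : (0 : ℝ) ≤ n := Nat.cast_nonneg n
  linarith

theorem Dom_Fz {o : ℂ} (ho : ‖o‖ = 1) (m : ℕ) (s : ℝ) : ‖Fz o m s‖ ≤ |pm m s| + |rm m s| := by
  unfold Fz
  refine le_trans (norm_add_le _ _) ?_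
  rw [norm_mul, ho, one_mul, Complex.norm_real, Complex.norm_real, Real.norm_eq_abs, Real.norm_eq_abs]

theorem Dom_Fz1 (m : ℕ) (s : ℝ) : ‖Fz 1 m s‖ = |pm m s + rm m s| := by
  unfold Fz
  rw [one_mul, ← Complex.ofReal_add, Complex.norm_real, Real.norm_eq_abs]

theorem Dom_X {o : ℂ} (ho : ‖o‖ = 1) {s : ℝ} (hs : 0 ≤ s) :
    ‖((Real.exp (2 * s / 3) : ℝ) : ℂ) + o * ((Real.exp (-(2 * s / 3)) : ℝ) : ℂ)‖ ≤ 2 * Real.exp (2 * s / 3) := by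
  refine le_trans (norm_add_le _ _) ?_
  rw [norm_mul, ho, one_mul, Complex.norm_real, Complex.norm_real, Real.norm_eq_abs, Real.norm_eq_abs,
    abs_of_pos (Real.exp_pos _), abs_of_pos (Real.exp_pos _)]
  have : Real.exp (-(2 * s / 3)) ≤ Real.exp (2 * s / 3) := Real.exp_le_exp.mpr (by linarith)
  linarith

theorem Dom_nth : ‖-th‖ = 1 := by rw [norm_neg, norm_th]

theorem Dom_nthi : ‖-th⁻¹‖ = 1 := by rw [norm_neg, norm_th_inv]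

/-- the basic bound -/
theorem Dom_base (k n : ℕ) {s : ℝ} (hs : 0 < s) : |DDn (k + 1) (n + 1) s| ≤
    (‖Fr 1 (-th) (-th⁻¹) k n s‖ + ‖Fr (-th⁻¹) 1 (-th) k n s‖) * Real.exp (2 * s / 3) / (4 * Real.sinh s * Real.cosh s) := by
  have hsh : 0 < Real.sinh s := Real.sinh_pos_iff.mpr hs
  have hch : 0 < Real.cosh s := Real.cosh_pos s
  rw [DDn_eq k n hs, abs_div, abs_of_pos (by positivity : 0 < 4 * Real.sinh s * Real.cosh s)]
  apply div_le_div_of_nonneg_right _ (by positivity)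
  refine le_trans (Complex.abs_im_le_norm _) ?_
  have X1 := Dom_X norm_th hs.le
  have X2 := Dom_X norm_th_inv hs.le
  rw [norm_mul, show ‖(1 / 2 : ℂ)‖ = 1 / 2 from by norm_num]
  have h1 : ‖Fr 1 (-th) (-th⁻¹) k n s * ((Real.exp (2 * s / 3) : ℂ) + th * (Real.exp (-(2 * s / 3)) : ℂ)) -
      Fr (-th⁻¹) 1 (-th) k n s * ((Real.exp (2 * s / 3) : ℂ) + th⁻¹ * (Real.exp (-(2 * s / 3)) : ℂ))‖ ≤
      ‖Fr 1 (-th) (-th⁻¹) k n s‖ * (2 * Real.exp (2 * s / 3)) + ‖Fr (-th⁻¹) 1 (-th) k n s‖ * (2 * Real.exp (2 * s / 3)) := by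
    refine le_trans (norm_sub_le _ _) ?_
    rw [norm_mul, norm_mul]
    exact add_le_add (mul_le_mul_of_nonneg_left X1 (norm_nonneg _)) (mul_le_mul_of_nonneg_left X2 (norm_nonneg _))
  linarith

theorem Dom_r {m : ℕ} {L : ℝ} (hL : 0 < L) (h : L ≤ 4 * ((m : ℝ) + 1)) :
    ((m : ℝ) + 1) ^ (-(1 / 6) : ℝ) ≤ 2 * Real.exp (-(Real.log L / 6)) := by
  have h4 : (0 : ℝ) < L / 4 := by positivity
  have e1 : ((m : ℝ) + 1) ^ (-(1 / 6) : ℝ) ≤ (L / 4) ^ (-(1 / 6) : ℝ) :=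
    Real.rpow_le_rpow_of_nonpos h4 (by linarith) (by norm_num)
  have e2 : (L / 4) ^ (-(1 / 6) : ℝ) = L ^ (-(1 / 6) : ℝ) / (4 : ℝ) ^ (-(1 / 6) : ℝ) := Real.div_rpow hL.le (by norm_num) _
  have e3 : (1 / 2 : ℝ) ≤ (4 : ℝ) ^ (-(1 / 6) : ℝ) := by
    have : (4 : ℝ) ^ (-(1 / 2) : ℝ) ≤ (4 : ℝ) ^ (-(1 / 6) : ℝ) :=
      Real.rpow_le_rpow_of_exponent_le (by norm_num) (by norm_num)
    refine le_trans (le_of_eq ?_) this
    rw [show (4 : ℝ) = 2 ^ (2 : ℝ) from by norm_num, ← Real.rpow_mul (by norm_num)]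
    norm_num
  have e4 : L ^ (-(1 / 6) : ℝ) = Real.exp (-(Real.log L / 6)) := by
    rw [Real.rpow_def_of_pos hL]
    ring_nf
  have e5 : (0 : ℝ) < L ^ (-(1 / 6) : ℝ) := Real.rpow_pos_of_pos hL _
  rw [e2] at e1
  refine le_trans e1 ?_
  rw [← e4, div_le_iff₀ (lt_of_lt_of_le (by norm_num) e3)]
  nlinarith

theorem Dom_L {L : ℝ} (hL : 0 < L) : L ^ (-(1 / 6) : ℝ) = Real.exp (-(Real.log L / 6)) := by
  rw [Real.rpow_def_of_pos hL]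
  ring_nf

/-- product of four bounds -/
theorem Dom_prod {o1 o4 ob : ℂ} {k n : ℕ} {s a b c d : ℝ} (h1 : ‖Fz o1 (k + 1) s‖ ≤ a)
    (h2 : ‖Fz o4 (k + 2 * n + 3) s‖ ≤ b) (h3 : ‖Fz ob (n + 1) s‖ ≤ c) (h4 : ‖Fz ob n s‖ ≤ d) :
    ‖Fr o1 o4 ob k n s‖ ≤ a * b * c * d := by
  unfold Fr
  rw [norm_mul, norm_mul, norm_mul]
  have a0 := le_trans (norm_nonneg _) h1
  have b0 := le_trans (norm_nonneg _) h2
  have c0 := le_trans (norm_nonneg _) h3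
  exact mul_le_mul (mul_le_mul (mul_le_mul h1 h2 (norm_nonneg _) a0) h3 (norm_nonneg _) (mul_nonneg a0 b0)) h4
    (norm_nonneg _) (mul_nonneg (mul_nonneg a0 b0) c0)

theorem dom_small : ∃ K : ℝ, 0 < K ∧ ∀ (k n : ℕ), Even k → ∀ s : ℝ, 0 < s → s ≤ 1 →
    |DDn (k + 1) (n + 1) s| ≤ K * ((k : ℝ) + 2 * n + 3) ^ (-(1 / 6) : ℝ) * s ^ (-(5 / 6) : ℝ) := by
  refine ⟨15360, by norm_num, ?_⟩
  intro k n hk s hs hs1
  have hL := Dom_Lpos k n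
  have hL0 : (0 : ℝ) < (k : ℝ) + 2 * n + 3 := by linarith
  have hk0 : (0 : ℝ) ≤ k := Nat.cast_nonneg k
  have hn0 : (0 : ℝ) ≤ n := Nat.cast_nonneg n
  have habs : |s| ≤ 1 := by rw [abs_of_pos hs]; exact hs1
  have hF : ∀ (o : ℂ), ‖o‖ = 1 → ∀ m : ℕ, ‖Fz o m s‖ ≤ 8 * ((m : ℝ) + 1) ^ (-(1 / 6) : ℝ) := by
    intro o ho m
    have h1 := Dom_Fz ho m s
    have h2 := pm_small m habs
    have h3 := rm_small m habs
    linarith
  have hle1 : ∀ m : ℕ, ((m : ℝ) + 1) ^ (-(1 / 6) : ℝ) ≤ 1 := by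
    intro m
    apply Real.rpow_le_one_of_one_le_of_nonpos _ (by norm_num)
    have : (0 : ℝ) ≤ m := Nat.cast_nonneg m
    linarith
  have hF8 : ∀ (o : ℂ), ‖o‖ = 1 → ∀ m : ℕ, ‖Fz o m s‖ ≤ 8 := by
    intro o ho m
    have h1 := hF o ho m
    have h2 := hle1 m
    linarith
  have hs6 : 0 < s ^ (1 / 6 : ℝ) := Real.rpow_pos_of_pos hs _
  set R : ℝ := ((k : ℝ) + 2 * n + 3) ^ (-(1 / 6) : ℝ) with hR
  have hR0 : 0 < R := Real.rpow_pos_of_pos hL0 _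
  -- the upper ray
  have U1 : ‖Fz 1 (k + 1) s‖ ≤ 20 * s ^ (1 / 6 : ℝ) := by
    rw [Dom_Fz1]
    exact pr_odd (Even.add_one hk) hs.le hs1
  have U2 : ‖Fz (-th) (k + 2 * n + 3) s‖ ≤ 8 * R := by
    refine le_trans (hF _ Dom_nth _) ?_
    apply mul_le_mul_of_nonneg_left _ (by norm_num)
    apply Real.rpow_le_rpow_of_nonpos hL0 _ (by norm_num)
    push_cast
    linarith
  have P1 := Dom_prod U1 U2 (hF8 _ Dom_nthi (n + 1)) (hF8 _ Dom_nthi n)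
  -- the lower ray
  have V2 : ‖Fz 1 (k + 2 * n + 3) s‖ ≤ 20 * s ^ (1 / 6 : ℝ) := by
    rw [Dom_Fz1]
    apply pr_odd _ hs.le hs1
    obtain ⟨j, hj⟩ := hk
    exact ⟨j + n + 1, by omega⟩
  have P2 := Dom_prod (hF _ Dom_nthi (k + 1)) V2 (hF _ Dom_nth (n + 1)) (hF8 _ Dom_nth n)
  have hcn : (((k + 1 : ℕ) : ℝ) + 1) ^ (-(1 / 6) : ℝ) * (((n + 1 : ℕ) : ℝ) + 1) ^ (-(1 / 6) : ℝ) ≤ R := by
    rw [← Real.mul_rpow (by positivity) (by positivity)]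
    apply Real.rpow_le_rpow_of_nonpos hL0 _ (by norm_num)
    push_cast
    nlinarith [mul_nonneg hk0 hn0]
  have P2' : ‖Fr (-th⁻¹) 1 (-th) k n s‖ ≤ 10240 * s ^ (1 / 6 : ℝ) * R := by
    refine le_trans P2 ?_
    have h := mul_le_mul_of_nonneg_left hcn (by positivity : (0 : ℝ) ≤ 10240 * s ^ (1 / 6 : ℝ))
    refine le_trans (le_of_eq ?_) h
    ring
  have P1' : ‖Fr 1 (-th) (-th⁻¹) k n s‖ ≤ 10240 * s ^ (1 / 6 : ℝ) * R := by
    refine le_trans P1 (le_of_eq ?_)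
    ring
  have hexp : Real.exp (2 * s / 3) ≤ 3 := by
    have h1 : Real.exp (2 * s / 3) ≤ Real.exp 1 := Real.exp_le_exp.mpr (by linarith)
    have h2 := Real.exp_one_lt_d9
    linarith
  have hden : s ≤ Real.sinh s * Real.cosh s := by
    have h1 : s ≤ Real.sinh s := Real.self_le_sinh_iff.mpr hs.le
    have h2 := Real.one_le_cosh s
    nlinarith
  refine le_trans (Dom_base k n hs) ?_
  have hnum : (‖Fr 1 (-th) (-th⁻¹) k n s‖ + ‖Fr (-th⁻¹) 1 (-th) k n s‖) * Real.exp (2 * s / 3) ≤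
      (20480 * s ^ (1 / 6 : ℝ) * R) * 3 := by
    apply mul_le_mul _ hexp (Real.exp_pos _).le (by positivity)
    linarith
  have hd0 : 0 < 4 * Real.sinh s * Real.cosh s := by nlinarith
  rw [div_le_iff₀ hd0]
  refine le_trans hnum ?_
  have hs56 : s ^ (-(5 / 6) : ℝ) * s = s ^ (1 / 6 : ℝ) := by
    rw [← Real.rpow_add_one hs.ne']
    norm_num
  have hs5 : 0 < s ^ (-(5 / 6) : ℝ) := Real.rpow_pos_of_pos hs _
  rw [← hs56]
  have h9 : 0 ≤ 15360 * R * s ^ (-(5 / 6) : ℝ) := by positivity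
  nlinarith [mul_le_mul_of_nonneg_left hden h9]

/-- for `s >= 1` -/
theorem Dom_den {s : ℝ} (hs : 1 ≤ s) : Real.exp (2 * s) / 2 ≤ 4 * Real.sinh s * Real.cosh s := by
  have e : 4 * Real.sinh s * Real.cosh s = Real.exp (2 * s) - Real.exp (-(2 * s)) := by
    have h := Real.sinh_two_mul s
    have h2 := Real.sinh_eq (2 * s)
    linarith
  rw [e]
  have h1 : Real.exp (-(2 * s)) ≤ 1 / 2 * Real.exp (2 * s) := by
    have h3 : Real.exp (-(2 * s)) ≤ 1 := by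
      rw [Real.exp_le_one_iff]; linarith
    have h4 : 2 * s + 1 ≤ Real.exp (2 * s) := Real.add_one_le_exp _
    linarith
  linarith

theorem Dom_base2 (k n : ℕ) {s : ℝ} (hs : 1 ≤ s) : |DDn (k + 1) (n + 1) s| ≤
    2 * (‖Fr 1 (-th) (-th⁻¹) k n s‖ + ‖Fr (-th⁻¹) 1 (-th) k n s‖) * Real.exp (-(4 * s / 3)) := by
  refine le_trans (Dom_base k n (by linarith)) ?_
  have hd := Dom_den hs
  have hE : 0 < Real.exp (2 * s) := Real.exp_pos _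
  rw [div_le_iff₀ (by linarith)]
  set Z : ℝ := ‖Fr 1 (-th) (-th⁻¹) k n s‖ + ‖Fr (-th⁻¹) 1 (-th) k n s‖ with hZ
  have hZ0 : 0 ≤ Z := by positivity
  have e : Real.exp (2 * s / 3) = Real.exp (-(4 * s / 3)) * Real.exp (2 * s) := by
    rw [← Real.exp_add]
    ring_nf
  rw [e]
  have h9 : 0 ≤ 2 * Z * Real.exp (-(4 * s / 3)) := by positivity
  nlinarith [mul_le_mul_of_nonneg_left hd h9]

theorem Dom_b1 {o : ℂ} (ho : ‖o‖ = 1) {m : ℕ} {s L : ℝ} (hs : 0 ≤ s) (hL : 0 < L) (h : L ≤ 4 * ((m : ℝ) + 1)) :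
    ‖Fz o m s‖ ≤ 8 * Real.exp (-(Real.log L / 6)) * Real.exp (s / 2) := by
  have h1 := Dom_Fz ho m s
  have h2 := pm_b1 m hs
  have h3 := rm_b1 m hs
  have h4 := mul_le_mul_of_nonneg_right (Dom_r hL h) (Real.exp_pos (s / 2)).le
  nlinarith

theorem dom_mid : ∃ K : ℝ, 0 < K ∧ ∀ (k n : ℕ) (s : ℝ), 1 ≤ s → s ≤ Real.log ((k : ℝ) + 2 * n + 3) →
    |DDn (k + 1) (n + 1) s| ≤ K * Real.exp (-(Real.log ((k : ℝ) + 2 * n + 3) - s) / 3) := by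
  obtain ⟨K, hK, hb⟩ := ser_b3
  refine ⟨4096 * K + 1024 * K ^ 2, by positivity, ?_⟩
  intro k n s hs hsl
  have hL := Dom_Lpos k n
  have hL0 : (0 : ℝ) < (k : ℝ) + 2 * n + 3 := by linarith
  have hk0 : (0 : ℝ) ≤ k := Nat.cast_nonneg k
  have hn0 : (0 : ℝ) ≤ n := Nat.cast_nonneg n
  have hs0 : 0 ≤ s := by linarith
  set l : ℝ := Real.log ((k : ℝ) + 2 * n + 3) with hl
  have b3 : ∀ (o : ℂ), ‖o‖ = 1 → ∀ m : ℕ, ‖Fz o m s‖ ≤ 2 * K * Real.exp (s / 3) := by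
    intro o ho m
    have h1 := Dom_Fz ho m s
    have h2 := hb m s hs0
    linarith [h2.1, h2.2]
  have b1 : ∀ (o : ℂ), ‖o‖ = 1 → ∀ m : ℕ, (k : ℝ) + 2 * n + 3 ≤ 4 * ((m : ℝ) + 1) →
      ‖Fz o m s‖ ≤ 8 * Real.exp (-(l / 6)) * Real.exp (s / 2) := by
    intro o ho m hm
    exact Dom_b1 ho hs0 hL0 hm
  refine le_trans (Dom_base2 k n hs) ?_
  have hEl : 0 < Real.exp (-(l - s) / 3) := Real.exp_pos _
  by_cases hc : (k : ℝ) + 2 * n + 3 ≤ 4 * ((n : ℝ) + 1)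
  · have g2 : ∀ o : ℂ, ‖o‖ = 1 → ‖Fz o (k + 2 * n + 3) s‖ ≤ 8 * Real.exp (-(l / 6)) * Real.exp (s / 2) := by
      intro o ho
      apply b1 o ho
      push_cast
      linarith
    have g3 : ∀ o : ℂ, ‖o‖ = 1 → ‖Fz o (n + 1) s‖ ≤ 8 * Real.exp (-(l / 6)) * Real.exp (s / 2) := by
      intro o ho
      apply b1 o ho
      push_cast
      linarith
    have g4 : ∀ o : ℂ, ‖o‖ = 1 → ‖Fz o n s‖ ≤ 8 * Real.exp (-(l / 6)) * Real.exp (s / 2) := by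
      intro o ho
      exact b1 o ho n hc
    have P1 := Dom_prod (b3 1 (by norm_num) (k + 1)) (g2 _ Dom_nth) (g3 _ Dom_nthi) (g4 _ Dom_nthi)
    have P2 := Dom_prod (b3 _ Dom_nthi (k + 1)) (g2 1 (by norm_num)) (g3 _ Dom_nth) (g4 _ Dom_nth)
    have e : 2 * K * Real.exp (s / 3) * (8 * Real.exp (-(l / 6)) * Real.exp (s / 2)) *
        (8 * Real.exp (-(l / 6)) * Real.exp (s / 2)) * (8 * Real.exp (-(l / 6)) * Real.exp (s / 2)) *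
        Real.exp (-(4 * s / 3)) = 1024 * K * Real.exp (-(l - s) / 2) := by
      have e1 : Real.exp (-(l - s) / 2) = Real.exp (s / 3) * (Real.exp (-(l / 6)) * Real.exp (s / 2)) *
        (Real.exp (-(l / 6)) * Real.exp (s / 2)) * (Real.exp (-(l / 6)) * Real.exp (s / 2)) * Real.exp (-(4 * s / 3)) := by
        simp only [← Real.exp_add]
        ring_nf
      rw [e1]
      ring
    have h1 : 2 * (‖Fr 1 (-th) (-th⁻¹) k n s‖ + ‖Fr (-th⁻¹) 1 (-th) k n s‖) * Real.exp (-(4 * s / 3)) ≤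
        4096 * K * Real.exp (-(l - s) / 2) := by
      have h2 := mul_le_mul_of_nonneg_right (add_le_add P1 P2) (Real.exp_pos (-(4 * s / 3))).le
      rw [← two_mul, mul_assoc 2, e] at h2
      linarith
    have h3 : Real.exp (-(l - s) / 2) ≤ Real.exp (-(l - s) / 3) := Real.exp_le_exp.mpr (by linarith)
    have h4 : 0 ≤ 4096 * K := by positivity
    have h5 := mul_le_mul_of_nonneg_left h3 h4
    have h6 : 0 ≤ 1024 * K ^ 2 * Real.exp (-(l - s) / 3) := by positivity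
    linarith
  · rw [not_le] at hc
    have g1 : ∀ o : ℂ, ‖o‖ = 1 → ‖Fz o (k + 1) s‖ ≤ 8 * Real.exp (-(l / 6)) * Real.exp (s / 2) := by
      intro o ho
      apply b1 o ho
      push_cast
      linarith
    have g2 : ∀ o : ℂ, ‖o‖ = 1 → ‖Fz o (k + 2 * n + 3) s‖ ≤ 8 * Real.exp (-(l / 6)) * Real.exp (s / 2) := by
      intro o ho
      apply b1 o ho
      push_cast
      linarith
    have P1 := Dom_prod (g1 1 (by norm_num)) (g2 _ Dom_nth) (b3 _ Dom_nthi (n + 1)) (b3 _ Dom_nthi n)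
    have P2 := Dom_prod (g1 _ Dom_nthi) (g2 1 (by norm_num)) (b3 _ Dom_nth (n + 1)) (b3 _ Dom_nth n)
    have e : 8 * Real.exp (-(l / 6)) * Real.exp (s / 2) * (8 * Real.exp (-(l / 6)) * Real.exp (s / 2)) *
        (2 * K * Real.exp (s / 3)) * (2 * K * Real.exp (s / 3)) *
        Real.exp (-(4 * s / 3)) = 256 * K ^ 2 * Real.exp (-(l - s) / 3) := by
      have e1 : Real.exp (-(l - s) / 3) = (Real.exp (-(l / 6)) * Real.exp (s / 2)) *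
        (Real.exp (-(l / 6)) * Real.exp (s / 2)) * Real.exp (s / 3) * Real.exp (s / 3) * Real.exp (-(4 * s / 3)) := by
        simp only [← Real.exp_add]
        ring_nf
      rw [e1]
      ring
    have h1 : 2 * (‖Fr 1 (-th) (-th⁻¹) k n s‖ + ‖Fr (-th⁻¹) 1 (-th) k n s‖) * Real.exp (-(4 * s / 3)) ≤
        1024 * K ^ 2 * Real.exp (-(l - s) / 3) := by
      have h2 := mul_le_mul_of_nonneg_right (add_le_add P1 P2) (Real.exp_pos (-(4 * s / 3))).le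
      rw [← two_mul, mul_assoc 2, e] at h2
      linarith
    have h6 : 0 ≤ 4096 * K * Real.exp (-(l - s) / 3) := by positivity
    linarith

/-- telescoping of a product of four -/
theorem Dom_tel {f1 f2 f3 f4 p1 p2 p3 p4 : ℂ} {a d : ℝ} (hd : 0 ≤ d) (ha : 0 ≤ a)
    (h1 : ‖p1‖ ≤ a) (h2 : ‖p2‖ ≤ a) (h3 : ‖p3‖ ≤ a)
    (g1 : ‖f1 - p1‖ ≤ 2 * a * d) (g2 : ‖f2 - p2‖ ≤ 2 * a * d) (g3 : ‖f3 - p3‖ ≤ 2 * a * d) (g4 : ‖f4 - p4‖ ≤ 2 * a * d)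
    (k2 : ‖f2‖ ≤ 3 * a) (k3 : ‖f3‖ ≤ 3 * a) (k4 : ‖f4‖ ≤ 3 * a) :
    ‖f1 * f2 * f3 * f4 - p1 * p2 * p3 * p4‖ ≤ 80 * a ^ 4 * d := by
  have e : f1 * f2 * f3 * f4 - p1 * p2 * p3 * p4 = (f1 - p1) * (f2 * (f3 * f4)) + p1 * ((f2 - p2) * (f3 * f4)) +
      p1 * (p2 * ((f3 - p3) * f4)) + p1 * (p2 * (p3 * (f4 - p4))) := by ring
  have ad : 0 ≤ 2 * a * d := by positivity
  have a3 : 0 ≤ 3 * a := by positivity
  have t34 : ‖f3 * f4‖ ≤ 3 * a * (3 * a) := by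
    rw [norm_mul]; exact mul_le_mul k3 k4 (norm_nonneg _) a3
  have t1 : ‖(f1 - p1) * (f2 * (f3 * f4))‖ ≤ 2 * a * d * (3 * a * (3 * a * (3 * a))) := by
    rw [norm_mul]
    refine mul_le_mul g1 ?_ (norm_nonneg _) ad
    rw [norm_mul]
    exact mul_le_mul k2 t34 (norm_nonneg _) a3
  have t2 : ‖p1 * ((f2 - p2) * (f3 * f4))‖ ≤ a * (2 * a * d * (3 * a * (3 * a))) := by
    rw [norm_mul]
    refine mul_le_mul h1 ?_ (norm_nonneg _) ha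
    rw [norm_mul]
    exact mul_le_mul g2 t34 (norm_nonneg _) ad
  have t3 : ‖p1 * (p2 * ((f3 - p3) * f4))‖ ≤ a * (a * (2 * a * d * (3 * a))) := by
    rw [norm_mul]
    refine mul_le_mul h1 ?_ (norm_nonneg _) ha
    rw [norm_mul]
    refine mul_le_mul h2 ?_ (norm_nonneg _) ha
    rw [norm_mul]
    exact mul_le_mul g3 k4 (norm_nonneg _) ad
  have t4 : ‖p1 * (p2 * (p3 * (f4 - p4)))‖ ≤ a * (a * (a * (2 * a * d))) := by
    rw [norm_mul]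
    refine mul_le_mul h1 ?_ (norm_nonneg _) ha
    rw [norm_mul]
    refine mul_le_mul h2 ?_ (norm_nonneg _) ha
    rw [norm_mul]
    exact mul_le_mul h3 g4 (norm_nonneg _) ha
  rw [e]
  have n1 := norm_add_le ((f1 - p1) * (f2 * (f3 * f4)) + p1 * ((f2 - p2) * (f3 * f4)) +
      p1 * (p2 * ((f3 - p3) * f4))) (p1 * (p2 * (p3 * (f4 - p4))))
  have n2 := norm_add_le ((f1 - p1) * (f2 * (f3 * f4)) + p1 * ((f2 - p2) * (f3 * f4)))
      (p1 * (p2 * ((f3 - p3) * f4)))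
  have n3 := norm_add_le ((f1 - p1) * (f2 * (f3 * f4))) (p1 * ((f2 - p2) * (f3 * f4)))
  have tot : 2 * a * d * (3 * a * (3 * a * (3 * a))) + a * (2 * a * d * (3 * a * (3 * a))) +
      a * (a * (2 * a * d * (3 * a))) + a * (a * (a * (2 * a * d))) = 80 * a ^ 4 * d := by ring
  linarith

theorem dom_tail : ∃ K : ℝ, 0 < K ∧ ∀ (k n : ℕ) (s : ℝ), 1 ≤ s → Real.log ((k : ℝ) + 2 * n + 3) ≤ s →
    |DDn (k + 1) (n + 1) s| ≤ K * Real.exp (-(s - Real.log ((k : ℝ) + 2 * n + 3)) / 3) := by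
  obtain ⟨K, hK, hb⟩ := ser_b2
  refine ⟨322 * K ^ 4, by positivity, ?_⟩
  intro k n s hs hsl
  have hL := Dom_Lpos k n
  have hL0 : (0 : ℝ) < (k : ℝ) + 2 * n + 3 := by linarith
  have hk0 : (0 : ℝ) ≤ k := Nat.cast_nonneg k
  have hn0 : (0 : ℝ) ≤ n := Nat.cast_nonneg n
  have hs0 : 0 ≤ s := by linarith
  have hs1 : 0 < s := by linarith
  set l : ℝ := Real.log ((k : ℝ) + 2 * n + 3) with hl
  have hl0 : 0 ≤ l := Real.log_nonneg hL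
  have hLe : (k : ℝ) + 2 * n + 3 = Real.exp l := (Real.exp_log hL0).symm
  have hLs : ((k : ℝ) + 2 * n + 3) * Real.exp (-s) ≤ 1 := by
    rw [hLe, ← Real.exp_add, Real.exp_le_one_iff]
    linarith
  set a : ℝ := K * Real.exp (s / 3) with ha
  set d : ℝ := Real.exp (-(2 / 3 * (s - l))) with hd
  have ha0 : 0 ≤ a := by positivity
  have hd0 : 0 ≤ d := (Real.exp_pos _).le
  have hd1 : d ≤ 1 := by
    rw [hd, Real.exp_le_one_iff]; linarith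
  have hm : ∀ m : ℕ, (m : ℝ) ≤ (k : ℝ) + 2 * n + 3 → |pm m s| ≤ a ∧ |rm m s| ≤ 2 * a * d := by
    intro m hm
    have h1 : ((m : ℝ) + 1) ≤ 2 * ((k : ℝ) + 2 * n + 3) := by linarith
    have h2 : ((m : ℝ) + 1) * Real.exp (-s) ≤ 2 := by
      have := mul_le_mul_of_nonneg_right h1 (Real.exp_pos (-s)).le
      nlinarith
    obtain ⟨b1, b2⟩ := hb m s hs0 h2
    refine ⟨b1, le_trans b2 ?_⟩
    have h3 : ((m : ℝ) + 1) ^ (2 / 3 : ℝ) ≤ (2 * ((k : ℝ) + 2 * n + 3)) ^ (2 / 3 : ℝ) :=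
      Real.rpow_le_rpow (by positivity) h1 (by norm_num)
    have h4 : (2 * ((k : ℝ) + 2 * n + 3)) ^ (2 / 3 : ℝ) = (2 : ℝ) ^ (2 / 3 : ℝ) * Real.exp (2 / 3 * l) := by
      rw [Real.mul_rpow (by norm_num) hL0.le, hLe, ← Real.exp_mul]
      ring_nf
    have h5 : (2 : ℝ) ^ (2 / 3 : ℝ) ≤ 2 := by
      calc (2 : ℝ) ^ (2 / 3 : ℝ) ≤ (2 : ℝ) ^ (1 : ℝ) := Real.rpow_le_rpow_of_exponent_le (by norm_num) (by norm_num)
        _ = 2 := Real.rpow_one 2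
    have h6 : ((m : ℝ) + 1) ^ (2 / 3 : ℝ) ≤ 2 * Real.exp (2 / 3 * l) := by
      rw [h4] at h3
      exact le_trans h3 (mul_le_mul_of_nonneg_right h5 (Real.exp_pos _).le)
    have h7 := mul_le_mul_of_nonneg_right h6 (Real.exp_pos (-s / 3)).le
    have h8 := mul_le_mul_of_nonneg_left h7 hK.le
    refine le_trans h8 (le_of_eq ?_)
    rw [ha, hd]
    have e1 : Real.exp (2 / 3 * l) * Real.exp (-s / 3) = Real.exp (s / 3) * Real.exp (-(2 / 3 * (s - l))) := by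
      rw [← Real.exp_add, ← Real.exp_add]
      ring_nf
    calc K * (2 * Real.exp (2 / 3 * l) * Real.exp (-s / 3)) = 2 * K * (Real.exp (2 / 3 * l) * Real.exp (-s / 3)) := by ring
      _ = 2 * K * (Real.exp (s / 3) * Real.exp (-(2 / 3 * (s - l)))) := by rw [e1]
      _ = 2 * (K * Real.exp (s / 3)) * Real.exp (-(2 / 3 * (s - l))) := by ring
  have hp : ∀ m : ℕ, (m : ℝ) ≤ (k : ℝ) + 2 * n + 3 → ‖((pm m s : ℝ) : ℂ)‖ ≤ a := by
    intro m h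
    rw [Complex.norm_real, Real.norm_eq_abs]
    exact (hm m h).1
  have hg : ∀ (o : ℂ), ‖o‖ = 1 → ∀ m : ℕ, (m : ℝ) ≤ (k : ℝ) + 2 * n + 3 → ‖Fz o m s - ((pm m s : ℝ) : ℂ)‖ ≤ 2 * a * d := by
    intro o ho m h
    unfold Fz
    rw [add_sub_cancel_left, norm_mul, ho, one_mul, Complex.norm_real, Real.norm_eq_abs]
    exact (hm m h).2
  have hf : ∀ (o : ℂ), ‖o‖ = 1 → ∀ m : ℕ, (m : ℝ) ≤ (k : ℝ) + 2 * n + 3 → ‖Fz o m s‖ ≤ 3 * a := by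
    intro o ho m h
    have h1 := Dom_Fz ho m s
    obtain ⟨h2, h3⟩ := hm m h
    have h4 : 2 * a * d ≤ 2 * a := by nlinarith
    linarith
  have i1 : ((k + 1 : ℕ) : ℝ) ≤ (k : ℝ) + 2 * n + 3 := by push_cast; linarith
  have i2 : ((k + 2 * n + 3 : ℕ) : ℝ) ≤ (k : ℝ) + 2 * n + 3 := by push_cast; linarith
  have i3 : ((n + 1 : ℕ) : ℝ) ≤ (k : ℝ) + 2 * n + 3 := by push_cast; linarith
  have i4 : ((n : ℕ) : ℝ) ≤ (k : ℝ) + 2 * n + 3 := by linarith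
  have n1 : ‖(1 : ℂ)‖ = 1 := by norm_num
  set P : ℂ := ((pm (k + 1) s : ℝ) : ℂ) * ((pm (k + 2 * n + 3) s : ℝ) : ℂ) * ((pm (n + 1) s : ℝ) : ℂ) * ((pm n s : ℝ) : ℂ)
    with hP
  have T1 : ‖Fr 1 (-th) (-th⁻¹) k n s - P‖ ≤ 80 * a ^ 4 * d :=
    Dom_tel hd0 ha0 (hp _ i1) (hp _ i2) (hp _ i3) (hg _ n1 _ i1) (hg _ Dom_nth _ i2) (hg _ Dom_nthi _ i3)
      (hg _ Dom_nthi _ i4) (hf _ Dom_nth _ i2) (hf _ Dom_nthi _ i3) (hf _ Dom_nthi _ i4)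
  have T2 : ‖Fr (-th⁻¹) 1 (-th) k n s - P‖ ≤ 80 * a ^ 4 * d :=
    Dom_tel hd0 ha0 (hp _ i1) (hp _ i2) (hp _ i3) (hg _ Dom_nthi _ i1) (hg _ n1 _ i2) (hg _ Dom_nth _ i3)
      (hg _ Dom_nth _ i4) (hf _ n1 _ i2) (hf _ Dom_nth _ i3) (hf _ Dom_nth _ i4)
  have hPn : ‖P‖ ≤ a ^ 4 := by
    rw [hP, norm_mul, norm_mul, norm_mul]
    calc ‖((pm (k + 1) s : ℝ) : ℂ)‖ * ‖((pm (k + 2 * n + 3) s : ℝ) : ℂ)‖ * ‖((pm (n + 1) s : ℝ) : ℂ)‖ *
          ‖((pm n s : ℝ) : ℂ)‖ ≤ a * a * a * a := by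
          exact mul_le_mul (mul_le_mul (mul_le_mul (hp _ i1) (hp _ i2) (norm_nonneg _) ha0) (hp _ i3) (norm_nonneg _)
            (mul_nonneg ha0 ha0)) (hp _ i4) (norm_nonneg _) (mul_nonneg (mul_nonneg ha0 ha0) ha0)
      _ = a ^ 4 := by ring
  have X1 := Dom_X norm_th hs0
  have X2 := Dom_X norm_th_inv hs0
  have hsh : 0 < Real.sinh s := Real.sinh_pos_iff.mpr hs1
  have hch : 0 < Real.cosh s := Real.cosh_pos s
  have hden := Dom_den hs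
  have hE2 : 0 < Real.exp (2 * s) := Real.exp_pos _
  rw [DDn_eq k n hs1, abs_div, abs_of_pos (by positivity : 0 < 4 * Real.sinh s * Real.cosh s)]
  set XA : ℂ := (Real.exp (2 * s / 3) : ℂ) + th * (Real.exp (-(2 * s / 3)) : ℂ) with hXA
  set XB : ℂ := (Real.exp (2 * s / 3) : ℂ) + th⁻¹ * (Real.exp (-(2 * s / 3)) : ℂ) with hXB
  have hXd : ‖XA - XB‖ ≤ 2 * Real.exp (-(2 * s / 3)) := by
    have e : XA - XB = th * (Real.exp (-(2 * s / 3)) : ℂ) - th⁻¹ * (Real.exp (-(2 * s / 3)) : ℂ) := by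
      rw [hXA, hXB]; ring
    rw [e]
    refine le_trans (norm_sub_le _ _) ?_
    rw [norm_mul, norm_mul, norm_th, norm_th_inv, Complex.norm_real, Real.norm_eq_abs, abs_of_pos (Real.exp_pos _)]
    linarith
  have hmain : ‖Fr 1 (-th) (-th⁻¹) k n s * XA - Fr (-th⁻¹) 1 (-th) k n s * XB‖ ≤
      320 * a ^ 4 * d * Real.exp (2 * s / 3) + 2 * a ^ 4 * Real.exp (-(2 * s / 3)) := by
    have e : Fr 1 (-th) (-th⁻¹) k n s * XA - Fr (-th⁻¹) 1 (-th) k n s * XB =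
        (Fr 1 (-th) (-th⁻¹) k n s - P) * XA - (Fr (-th⁻¹) 1 (-th) k n s - P) * XB + P * (XA - XB) := by ring
    rw [e]
    have m1 := norm_add_le ((Fr 1 (-th) (-th⁻¹) k n s - P) * XA - (Fr (-th⁻¹) 1 (-th) k n s - P) * XB) (P * (XA - XB))
    have m2 := norm_sub_le ((Fr 1 (-th) (-th⁻¹) k n s - P) * XA) ((Fr (-th⁻¹) 1 (-th) k n s - P) * XB)
    have m3 : ‖(Fr 1 (-th) (-th⁻¹) k n s - P) * XA‖ ≤ 80 * a ^ 4 * d * (2 * Real.exp (2 * s / 3)) := by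
      rw [norm_mul]
      exact mul_le_mul T1 X1 (norm_nonneg _) (by positivity)
    have m4 : ‖(Fr (-th⁻¹) 1 (-th) k n s - P) * XB‖ ≤ 80 * a ^ 4 * d * (2 * Real.exp (2 * s / 3)) := by
      rw [norm_mul]
      exact mul_le_mul T2 X2 (norm_nonneg _) (by positivity)
    have m5 : ‖P * (XA - XB)‖ ≤ a ^ 4 * (2 * Real.exp (-(2 * s / 3))) := by
      rw [norm_mul]
      exact mul_le_mul hPn hXd (norm_nonneg _) (by positivity)
    linarith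
  have him : |(1 / 2 * (Fr 1 (-th) (-th⁻¹) k n s * XA - Fr (-th⁻¹) 1 (-th) k n s * XB)).im| ≤
      160 * a ^ 4 * d * Real.exp (2 * s / 3) + a ^ 4 * Real.exp (-(2 * s / 3)) := by
    refine le_trans (Complex.abs_im_le_norm _) ?_
    rw [norm_mul, show ‖(1 / 2 : ℂ)‖ = 1 / 2 from by norm_num]
    linarith
  have hfin : (160 * a ^ 4 * d * Real.exp (2 * s / 3) + a ^ 4 * Real.exp (-(2 * s / 3))) * 2 =
      K ^ 4 * (320 * d + 2 * Real.exp (-(4 * s / 3))) * Real.exp (2 * s) := by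
    have e4 : Real.exp (s / 3) ^ 4 = Real.exp (4 * s / 3) := by
      rw [← Real.exp_nat_mul]
      push_cast
      ring_nf
    have e5 : Real.exp (4 * s / 3) * Real.exp (2 * s / 3) = Real.exp (2 * s) := by
      rw [← Real.exp_add]
      ring_nf
    have e6 : Real.exp (4 * s / 3) * Real.exp (-(2 * s / 3)) = Real.exp (-(4 * s / 3)) * Real.exp (2 * s) := by
      rw [← Real.exp_add, ← Real.exp_add]
      ring_nf
    rw [ha, mul_pow, e4]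
    linear_combination (320 * K ^ 4 * d) * e5 + (2 * K ^ 4) * e6
  have hd3 : d ≤ Real.exp (-(s - l) / 3) := by
    rw [hd]
    apply Real.exp_le_exp.mpr
    linarith
  have he3 : Real.exp (-(4 * s / 3)) ≤ Real.exp (-(s - l) / 3) := by
    apply Real.exp_le_exp.mpr
    linarith
  rw [div_le_iff₀ (by positivity)]
  refine le_trans him ?_
  have hK4 : 0 ≤ K ^ 4 := by positivity
  have h10 : K ^ 4 * (320 * d + 2 * Real.exp (-(4 * s / 3))) ≤ 322 * K ^ 4 * Real.exp (-(s - l) / 3) := by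
    nlinarith [mul_le_mul_of_nonneg_left hd3 hK4, mul_le_mul_of_nonneg_left he3 hK4]
  have h11 : 0 ≤ 322 * K ^ 4 * Real.exp (-(s - l) / 3) := by positivity
  have h12 := mul_le_mul_of_nonneg_left hden h11
  have h13 := mul_le_mul_of_nonneg_right h10 hE2.le
  linarith

end SL
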