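import Pool.Agent.Lib.MP_216314_pr.SL.Ser

/-!
# SL/Fac: the integrand in normalised form (paper 3.6)

`DDn_eq`: in `Fp (k+1) (n+1) s` the four `um`, `vm` have indices `k+1`, `k+1+2(n+1) = k+2n+3`, `n+1`, `n` (sum `2 (k+2n+3) - 1`), and `um m s = pm m s * (2 cosh s)^m`;
the denominator is `2 sinh s (2 cosh s)^(2(k+2n+3))`, so the quotient is `1/2 Fr .. (e^{2s/3} + ..)/(2 sinh s 2 cosh s)`. The denominator is real, so it can be pulled out of `im`.
`|th| = |th⁻¹| = 1` (`Complex.norm_exp_ofReal_mul_I`).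
-/

set_option autoImplicit false

noncomputable section

namespace SL

open Filter Topology MeasureTheory

theorem norm_th : ‖th‖ = 1 := by
  have h : th = Complex.exp (((Real.pi / 3 : ℝ) : ℂ) * Complex.I) := by
    unfold th
    push_cast
    rfl
  rw [h, Complex.norm_exp_ofReal_mul_I]

theorem norm_th_inv : ‖th⁻¹‖ = 1 := by
  rw [norm_inv, norm_th, inv_one]

/-- `th^3 = -1`, `th^2 = th - 1`, `th^-1 = 1 - th` -/
theorem th_inv_eq : th⁻¹ = 1 - th := by
  have h : th = Complex.exp (((Real.pi / 3 : ℝ) : ℂ) * Complex.I) := by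
    unfold th
    push_cast
    rfl
  have h1 : th = ((1 / 2 : ℝ) : ℂ) + ((Real.sqrt 3 / 2 : ℝ) : ℂ) * Complex.I := by
    rw [h, Complex.exp_mul_I, ← Complex.ofReal_cos, ← Complex.ofReal_sin, Real.cos_pi_div_three,
      Real.sin_pi_div_three]
  have h3 : ((Real.sqrt 3 : ℝ) : ℂ) ^ 2 = 3 := by
    rw [← Complex.ofReal_pow, Real.sq_sqrt (by norm_num)]
    norm_num
  have h2 : th * (1 - th) = 1 := by
    rw [h1]
    push_cast
    linear_combination (1 / 4 : ℂ) * h3 - ((Real.sqrt 3 : ℝ) : ℂ) ^ 2 / 4 * Complex.I_sq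
  exact inv_eq_of_mul_eq_one_right h2

theorem DDn_eq (k n : ℕ) {s : ℝ} (hs : 0 < s) : DDn (k + 1) (n + 1) s =
    (1 / 2 * (Fr 1 (-th) (-th⁻¹) k n s * ((Real.exp (2 * s / 3) : ℂ) + th * (Real.exp (-(2 * s / 3)) : ℂ)) -
      Fr (-th⁻¹) 1 (-th) k n s * ((Real.exp (2 * s / 3) : ℂ) + th⁻¹ * (Real.exp (-(2 * s / 3)) : ℂ)))).im /
      (4 * Real.sinh s * Real.cosh s) := by
  have hS : Real.sinh s ≠ 0 := (Real.sinh_pos_iff.2 hs).ne'
  have hC : Real.cosh s ≠ 0 := (Real.cosh_pos s).ne'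
  have hS' : (Real.sinh s : ℂ) ≠ 0 := Complex.ofReal_ne_zero.2 hS
  have hC' : (Real.cosh s : ℂ) ≠ 0 := Complex.ofReal_ne_zero.2 hC
  obtain ⟨K, hK⟩ : ∃ K : ℂ, K = 2 * (Real.cosh s : ℂ) := ⟨_, rfl⟩
  have hK0 : K ≠ 0 := by
    rw [hK]
    exact mul_ne_zero two_ne_zero hC'
  have hu : ∀ m : ℕ, (um m s : ℂ) = (pm m s : ℂ) * K ^ m := by
    intro m
    unfold pm
    rw [hK, Complex.ofReal_div, Complex.ofReal_pow, Complex.ofReal_mul, Complex.ofReal_ofNat,
      div_mul_cancel₀]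
    exact pow_ne_zero m (mul_ne_zero two_ne_zero hC')
  have hv : ∀ m : ℕ, (vm m s : ℂ) = (rm m s : ℂ) * K ^ m := by
    intro m
    unfold rm
    rw [hK, Complex.ofReal_div, Complex.ofReal_pow, Complex.ofReal_mul, Complex.ofReal_ofNat,
      div_mul_cancel₀]
    exact pow_ne_zero m (mul_ne_zero two_ne_zero hC')
  have i1 : k + 1 + 2 * (n + 1) = k + 2 * n + 3 := by ring
  have i2 : n + 1 - 1 = n := Nat.add_sub_cancel n 1
  have hden : ((2 * Real.sinh s * (2 * Real.cosh s) ^ (2 * (k + 2 * n + 3)) : ℝ) : ℂ) =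
      2 * (Real.sinh s : ℂ) * (K ^ (k + 1) * K ^ (k + 2 * n + 3) * K ^ (n + 1) * K ^ n * K) := by
    have h1 : K ^ (k + 1) * K ^ (k + 2 * n + 3) * K ^ (n + 1) * K ^ n * K =
        K ^ (2 * (k + 2 * n + 3)) := by
      rw [← pow_add, ← pow_add, ← pow_add, ← pow_succ]
      congr 1
      ring
    rw [h1, hK]
    push_cast
    rfl
  have key : Fp (k + 1) (n + 1) s - Fm (k + 1) (n + 1) s =
      (1 / 2 * (Fr 1 (-th) (-th⁻¹) k n s * ((Real.exp (2 * s / 3) : ℂ) + th * (Real.exp (-(2 * s / 3)) : ℂ)) -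
        Fr (-th⁻¹) 1 (-th) k n s * ((Real.exp (2 * s / 3) : ℂ) + th⁻¹ * (Real.exp (-(2 * s / 3)) : ℂ)))) /
      ((4 * Real.sinh s * Real.cosh s : ℝ) : ℂ) := by
    have hd2 : ((4 * Real.sinh s * Real.cosh s : ℝ) : ℂ) = 2 * (Real.sinh s : ℂ) * K := by
      rw [hK]
      push_cast
      ring
    unfold Fp Fm Fr Fz
    rw [i1, i2, hden, hd2, hu (k + 1), hu (k + 2 * n + 3), hu (n + 1), hu n, hv (k + 1),
      hv (k + 2 * n + 3), hv (n + 1), hv n]
    have n1 : K ^ (k + 1) ≠ 0 := pow_ne_zero _ hK0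
    have n2 : K ^ (k + 2 * n + 3) ≠ 0 := pow_ne_zero _ hK0
    have n3 : K ^ (n + 1) ≠ 0 := pow_ne_zero _ hK0
    have n4 : K ^ n ≠ 0 := pow_ne_zero _ hK0
    generalize K ^ (k + 1) = c1 at n1 ⊢
    generalize K ^ (k + 2 * n + 3) = c2 at n2 ⊢
    generalize K ^ (n + 1) = c3 at n3 ⊢
    generalize K ^ n = c4 at n4 ⊢
    generalize (Real.exp (2 * s / 3) : ℂ) = e1
    generalize (Real.exp (-(2 * s / 3)) : ℂ) = e2
    generalize (Real.sinh s : ℂ) = S at hS' ⊢
    generalize th⁻¹ = t'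
    rw [div_sub_div_same, div_eq_div_iff (mul_ne_zero (mul_ne_zero two_ne_zero hS')
      (mul_ne_zero (mul_ne_zero (mul_ne_zero (mul_ne_zero n1 n2) n3) n4) hK0))
      (mul_ne_zero (mul_ne_zero two_ne_zero hS') hK0)]
    ring
  unfold DDn
  rw [key, Complex.div_ofReal_im]

/-- measurability, needed for the dominated convergence theorem -/
theorem DDn_meas (c n : ℕ) : Measurable (DDn c n) := by
  have h1 : ∀ m : ℕ, Measurable (um m) := by
    intro m
    unfold um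
    fun_prop
  have h2 : ∀ m : ℕ, Measurable (vm m) := by
    intro m
    unfold vm
    exact ((h1 m).comp measurable_neg).const_mul _
  have h3 : ∀ m : ℕ, Measurable (fun s => (um m s : ℂ)) := fun m =>
    Complex.measurable_ofReal.comp (h1 m)
  have h4 : ∀ m : ℕ, Measurable (fun s => (vm m s : ℂ)) := fun m =>
    Complex.measurable_ofReal.comp (h2 m)
  have h5 : Measurable (fun s : ℝ => (Real.exp (2 * s / 3) : ℂ)) :=
    Complex.measurable_ofReal.comp (by fun_prop)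
  have h6 : Measurable (fun s : ℝ => (Real.exp (-(2 * s / 3)) : ℂ)) :=
    Complex.measurable_ofReal.comp (by fun_prop)
  have h7 : Measurable (fun s : ℝ =>
      (((2 * Real.sinh s * (2 * Real.cosh s) ^ (2 * (c + 2 * n)) : ℝ)) : ℂ)) :=
    Complex.measurable_ofReal.comp (by fun_prop)
  unfold DDn
  refine Complex.measurable_im.comp (Measurable.sub ?_ ?_)
  · unfold Fp
    exact ((((((h3 c).add (h4 c)).const_mul _).mul ((h3 _).sub ((h4 _).const_mul _))).mul
      ((h3 _).sub ((h4 _).const_mul _))).mul ((h3 _).sub ((h4 _).const_mul _))).mul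
      (h5.add (h6.const_mul _)) |>.div h7
  · unfold Fm
    exact ((((((h3 c).sub ((h4 c).const_mul _)).const_mul _).mul ((h3 _).add (h4 _))).mul
      ((h3 _).sub ((h4 _).const_mul _))).mul ((h3 _).sub ((h4 _).const_mul _))).mul
      (h5.add (h6.const_mul _)) |>.div h7

end SL
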