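import Pool.Agent.Lib.MP_216314_pr.SL.LimB
import Pool.Agent.Lib.MP_216314_pr.SL.Dom

/-!
# SL/LimA: the limit of the integral (paper 4.3)

`int_s`: `|∫_{(0,1]} DDn| ≤ K L^(-1/6) ∫_0^1 s^(-5/6) ds = 6 K L^(-1/6) → 0` (`dom_small`; `integral_rpow`, `intervalIntegral`).
`int_l`: `∫_{(1,oo)} DDn(s) ds = ∫_R 1_{log L + t > 1} DDn (log L + t) dt` (translation invariance, `integral_add_left_eq_self` applied to the indicator function),
 dominated by `K exp (-|t|/3)` (`dom_mid` for `t ≤ 0`, `dom_tail` for `t ≥ 0`, one `K` = sum of the two), integrable on `R` (`integrable_exp_neg_abs` or split in `Ioi`/`Iic`: `integrableOn_exp_...`),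
 pointwise limit `DD a ((1-a)/2) (exp (-t))` because eventually `log L + t > 1` (`DDn_lim`): `tendsto_integral_filter_of_dominated_convergence`, measurability from `DDn_meas`.
`lim_int`: sum of the two: `∫_{Ioi 0} = ∫_{Ioc 0 1} + ∫_{Ioi 1}` (`setIntegral_union`, integrability from the bounds and measurability).
-/

set_option autoImplicit false

noncomputable section

namespace SL

open Filter Topology MeasureTheory

theorem LimA_exp : Integrable (fun t : ℝ => Real.exp (-|t| / 3)) := by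
  have h1 : IntegrableOn (fun t : ℝ => Real.exp (-|t| / 3)) (Set.Iic 0) := by
    refine (integrableOn_exp_mul_Iic (a := 1 / 3) (by norm_num) 0).congr_fun ?_ measurableSet_Iic
    intro t ht
    have ht' : t ≤ 0 := ht
    show Real.exp (1 / 3 * t) = Real.exp (-|t| / 3)
    rw [abs_of_nonpos ht']
    congr 1
    ring
  have h2 : IntegrableOn (fun t : ℝ => Real.exp (-|t| / 3)) (Set.Ioi 0) := by
    refine (integrableOn_exp_mul_Ioi (a := -(1 / 3)) (by norm_num) 0).congr_fun ?_ measurableSet_Ioi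
    intro t ht
    have ht' : 0 < t := ht
    show Real.exp (-(1 / 3) * t) = Real.exp (-|t| / 3)
    rw [abs_of_pos ht']
    congr 1
    ring
  have h3 := h1.union h2
  rw [Set.Iic_union_Ioi, integrableOn_univ] at h3
  exact h3

theorem LimA_rpow : IntegrableOn (fun s : ℝ => s ^ (-(5 / 6) : ℝ)) (Set.Ioc 0 1) := by
  have h1 := intervalIntegral.intervalIntegrable_rpow' (a := 0) (b := 1)
    (by norm_num : (-1 : ℝ) < -(5 / 6))
  exact (intervalIntegrable_iff_integrableOn_Ioc_of_le zero_le_one).1 h1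

/-- one bound for the whole half line -/
theorem LimA_bd : ∃ K : ℝ, 0 < K ∧ ∀ (k n : ℕ) (s : ℝ), 1 < s →
    |DDn (k + 1) (n + 1) s| ≤ K * Real.exp (-|s - Real.log ((k : ℝ) + 2 * n + 3)| / 3) := by
  obtain ⟨K1, h1, h1'⟩ := dom_mid
  obtain ⟨K2, h2, h2'⟩ := dom_tail
  refine ⟨K1 + K2, by positivity, fun k n s hs => ?_⟩
  have he := Real.exp_pos (-|s - Real.log ((k : ℝ) + 2 * n + 3)| / 3)
  rcases le_total s (Real.log ((k : ℝ) + 2 * n + 3)) with h | h
  · have h3 := h1' k n s hs.le h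
    have h4 : -(Real.log ((k : ℝ) + 2 * n + 3) - s) / 3 =
        -|s - Real.log ((k : ℝ) + 2 * n + 3)| / 3 := by
      rw [abs_of_nonpos (sub_nonpos.2 h)]
      ring
    rw [h4] at h3
    nlinarith
  · have h3 := h2' k n s hs.le h
    have h4 : -(s - Real.log ((k : ℝ) + 2 * n + 3)) / 3 =
        -|s - Real.log ((k : ℝ) + 2 * n + 3)| / 3 := by
      rw [abs_of_nonneg (sub_nonneg.2 h)]
    rw [h4] at h3
    nlinarith

theorem int_s {ι : Type} (l : Filter ι) (k n : ι → ℕ) (hk : ∀ j, Even (k j))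
    (hL : Tendsto (fun j => (k j : ℝ) + 2 * n j + 3) l atTop) :
    Tendsto (fun j => ∫ s in Set.Ioc (0 : ℝ) 1, DDn (k j + 1) (n j + 1) s) l (𝓝 0) := by
  obtain ⟨K, hK, hd⟩ := dom_small
  have hpow : Tendsto (fun j => ((k j : ℝ) + 2 * n j + 3) ^ (-(1 / 6) : ℝ)) l (𝓝 0) :=
    (tendsto_rpow_neg_atTop (by norm_num : (0 : ℝ) < 1 / 6)).comp hL
  have hlim : Tendsto (fun j => (K * ∫ s in Set.Ioc (0 : ℝ) 1, s ^ (-(5 / 6) : ℝ)) *
      ((k j : ℝ) + 2 * n j + 3) ^ (-(1 / 6) : ℝ)) l (𝓝 0) := by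
    have h1 := hpow.const_mul (K * ∫ s in Set.Ioc (0 : ℝ) 1, s ^ (-(5 / 6) : ℝ))
    rw [mul_zero] at h1
    exact h1
  refine squeeze_zero_norm (fun j => ?_) hlim
  have h1 : ‖∫ s in Set.Ioc (0 : ℝ) 1, DDn (k j + 1) (n j + 1) s‖ ≤
      ∫ s in Set.Ioc (0 : ℝ) 1, (K * ((k j : ℝ) + 2 * n j + 3) ^ (-(1 / 6) : ℝ)) *
        s ^ (-(5 / 6) : ℝ) := by
    refine norm_integral_le_of_norm_le (LimA_rpow.const_mul _) ?_
    refine (ae_restrict_iff' measurableSet_Ioc).2 (Eventually.of_forall fun s hs => ?_)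
    rw [Real.norm_eq_abs]
    exact hd (k j) (n j) (hk j) s hs.1 hs.2
  refine h1.trans (le_of_eq ?_)
  rw [integral_const_mul]
  ring

theorem int_l {ι : Type} (l : Filter ι) [l.IsCountablyGenerated] (k n : ι → ℕ)
    (hL : Tendsto (fun j => (k j : ℝ) + 2 * n j + 3) l atTop)
    {a : ℝ} (ha : Tendsto (fun j => ((k j : ℝ) + 1) / ((k j : ℝ) + 2 * n j + 3)) l (𝓝 a)) :
    Tendsto (fun j => ∫ s in Set.Ioi (1 : ℝ), DDn (k j + 1) (n j + 1) s) l
      (𝓝 (∫ t : ℝ, DD a ((1 - a) / 2) (Real.exp (-t)))) := by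
  obtain ⟨K, hK, hd⟩ := LimA_bd
  have hF : ∀ j, ∫ s in Set.Ioi (1 : ℝ), DDn (k j + 1) (n j + 1) s =
      ∫ t : ℝ, (Set.Ioi (1 : ℝ)).indicator (DDn (k j + 1) (n j + 1))
        (Real.log ((k j : ℝ) + 2 * n j + 3) + t) := by
    intro j
    rw [integral_add_left_eq_self (fun t => (Set.Ioi (1 : ℝ)).indicator
      (DDn (k j + 1) (n j + 1)) t), integral_indicator measurableSet_Ioi]
  have hF' : (fun j => ∫ s in Set.Ioi (1 : ℝ), DDn (k j + 1) (n j + 1) s) = fun j =>
      ∫ t : ℝ, (Set.Ioi (1 : ℝ)).indicator (DDn (k j + 1) (n j + 1))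
        (Real.log ((k j : ℝ) + 2 * n j + 3) + t) := funext hF
  rw [hF']
  refine tendsto_integral_filter_of_dominated_convergence (fun t => K * Real.exp (-|t| / 3))
    (Eventually.of_forall fun j => ?_) (Eventually.of_forall fun j => ?_) (LimA_exp.const_mul K)
    (Eventually.of_forall fun t => ?_)
  · exact (((DDn_meas _ _).indicator measurableSet_Ioi).comp
      (measurable_const_add _)).aestronglyMeasurable
  · refine Eventually.of_forall fun t => ?_
    by_cases ht : Real.log ((k j : ℝ) + 2 * n j + 3) + t ∈ Set.Ioi (1 : ℝ)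
    · rw [Set.indicator_of_mem ht, Real.norm_eq_abs]
      have h1 := hd (k j) (n j) _ ht
      rw [add_sub_cancel_left] at h1
      exact h1
    · rw [Set.indicator_of_notMem ht, norm_zero]
      have := Real.exp_pos (-|t| / 3)
      positivity
  · have hlog : Tendsto (fun j => Real.log ((k j : ℝ) + 2 * n j + 3) + t) l atTop :=
      tendsto_atTop_add_const_right l t (Real.tendsto_log_atTop.comp hL)
    refine (DDn_lim l k n hL ha t).congr' ?_
    filter_upwards [hlog.eventually_gt_atTop 1] with j hj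
    rw [Set.indicator_of_mem (show _ ∈ Set.Ioi (1 : ℝ) from hj)]

theorem int_split (k n : ℕ) (hk : Even k) : ∫ s in Set.Ioi (0 : ℝ), DDn (k + 1) (n + 1) s =
    (∫ s in Set.Ioc (0 : ℝ) 1, DDn (k + 1) (n + 1) s) + ∫ s in Set.Ioi (1 : ℝ), DDn (k + 1) (n + 1) s := by
  obtain ⟨K1, hK1, hd1⟩ := dom_small
  obtain ⟨K, hK, hd⟩ := LimA_bd
  have h1 : IntegrableOn (DDn (k + 1) (n + 1)) (Set.Ioc 0 1) := by
    refine Integrable.mono' (LimA_rpow.const_mul (K1 * ((k : ℝ) + 2 * n + 3) ^ (-(1 / 6) : ℝ)))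
      (DDn_meas _ _).aestronglyMeasurable ?_
    refine (ae_restrict_iff' measurableSet_Ioc).2 (Eventually.of_forall fun s hs => ?_)
    rw [Real.norm_eq_abs]
    exact hd1 k n hk s hs.1 hs.2
  have h2 : IntegrableOn (DDn (k + 1) (n + 1)) (Set.Ioi 1) := by
    have h3 : Integrable (fun s : ℝ => K * Real.exp (-|s - Real.log ((k : ℝ) + 2 * n + 3)| / 3)) :=
      (LimA_exp.comp_sub_right (Real.log ((k : ℝ) + 2 * n + 3))).const_mul K
    refine Integrable.mono' h3.integrableOn (DDn_meas _ _).aestronglyMeasurable ?_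
    refine (ae_restrict_iff' measurableSet_Ioi).2 (Eventually.of_forall fun s hs => ?_)
    rw [Real.norm_eq_abs]
    exact hd k n s hs
  rw [← Set.Ioc_union_Ioi_eq_Ioi (zero_le_one' ℝ)]
  exact setIntegral_union (Set.Ioc_disjoint_Ioi le_rfl) measurableSet_Ioi h1 h2

theorem lim_int {ι : Type} (l : Filter ι) [l.IsCountablyGenerated] (k n : ι → ℕ) (hk : ∀ j, Even (k j))
    (hL : Tendsto (fun j => (k j : ℝ) + 2 * n j + 3) l atTop)
    {a : ℝ} (ha : Tendsto (fun j => ((k j : ℝ) + 1) / ((k j : ℝ) + 2 * n j + 3)) l (𝓝 a)) :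
    Tendsto (fun j => 1 / 3 - 2 / (3 * Real.pi) * ∫ s in Set.Ioi (0 : ℝ), DDn (k j + 1) (n j + 1) s) l
      (𝓝 (EI a)) := by
  have h := (int_s l k n hk hL).add (int_l l k n hL ha)
  rw [zero_add] at h
  unfold EI
  refine tendsto_const_nhds.sub (tendsto_const_nhds.mul (h.congr fun j => ?_))
  exact (int_split (k j) (n j) (hk j)).symm

end SL
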