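import Pool.Agent.Lib.MP_216314_pr.SL.Main
import Pool.Agent.Lib.MP_216314_pr.SL.LimA
import Pool.Agent.Lib.MP_216314_pr.SL.C3
import Pool.Agent.Lib.MP_216314_pr.CZ.Yf

/-!
# SL/FinA: the limit of the exact formula, from the integral formula and the two boundary values
-/

set_option autoImplicit false

noncomputable section

namespace SL

open Filter Topology MeasureTheory

/-- the integral formula for `CZ.EE` -/
def RayF : Prop := ∀ k n : ℕ, Even k →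
  CZ.EE k n = (((1 / 3 - 2 / (3 * Real.pi) * ∫ s in Set.Ioi (0 : ℝ), DDn (k + 1) (n + 1) s : ℝ)) : ℂ)

theorem thmA_of (h : RayF) {ι : Type} (l : Filter ι) [l.IsCountablyGenerated] (k n : ι → ℕ) (hk : ∀ j, Even (k j))
    (hL : Tendsto (fun j => (k j : ℝ) + 2 * n j + 3) l atTop)
    {a : ℝ} (ha : Tendsto (fun j => ((k j : ℝ) + 1) / ((k j : ℝ) + 2 * n j + 3)) l (𝓝 a)) :
    Tendsto (fun j => CZ.EE (k j) (n j)) l (𝓝 ((EI a : ℝ) : ℂ)) := by
  have h1 := (Complex.continuous_ofReal.tendsto (EI a)).comp (lim_int l k n hk hL ha)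
  refine h1.congr fun j => ?_
  exact (h (k j) (n j) (hk j)).symm

theorem EI_zero_of (h : RayF) (h0 : Tendsto (fun n => CZ.EE 0 n) atTop (𝓝 0)) : EI 0 = 0 := by
  have hL : Tendsto (fun j : ℕ => (((0 : ℕ) : ℝ)) + 2 * (j : ℝ) + 3) atTop atTop := by
    refine tendsto_atTop_add_const_right _ _ ?_
    refine tendsto_atTop_add_const_left _ _ ?_
    exact tendsto_natCast_atTop_atTop.const_mul_atTop (by norm_num)
  have ha : Tendsto (fun j : ℕ => (((0 : ℕ) : ℝ) + 1) / (((0 : ℕ) : ℝ) + 2 * (j : ℝ) + 3)) atTop (𝓝 0) :=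
    tendsto_const_nhds.div_atTop hL
  have h1 := thmA_of h atTop (fun _ => 0) (fun j => j) (fun _ => ⟨0, rfl⟩) hL ha
  have h2 := tendsto_nhds_unique h1 h0
  exact_mod_cast h2

theorem EI_one_of (h : RayF) (h1 : ∀ k : ℕ, Even k → CZ.EE k 0 = ((CDH.FF (k + 1) 1 : ℝ) : ℂ)) : EI 1 = 1 := by
  have hL0 : Tendsto (fun j : ℕ => (((2 * j : ℕ) : ℝ))) atTop atTop :=
    tendsto_natCast_atTop_atTop.comp (tendsto_id.const_mul_atTop' (by norm_num))
  have hL : Tendsto (fun j : ℕ => (((2 * j : ℕ) : ℝ)) + 2 * ((0 : ℕ) : ℝ) + 3) atTop atTop := by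
    refine tendsto_atTop_add_const_right _ _ ?_
    exact tendsto_atTop_add_const_right _ _ hL0
  have ha : Tendsto (fun j : ℕ => (((2 * j : ℕ) : ℝ) + 1) / (((2 * j : ℕ) : ℝ) + 2 * ((0 : ℕ) : ℝ) + 3)) atTop (𝓝 1) := by
    have h2 : Tendsto (fun j : ℕ => 1 - 2 / ((((2 * j : ℕ) : ℝ)) + 2 * ((0 : ℕ) : ℝ) + 3)) atTop (𝓝 (1 - 0)) :=
      tendsto_const_nhds.sub (tendsto_const_nhds.div_atTop hL)
    rw [sub_zero] at h2
    refine h2.congr fun j => ?_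
    have h3 : (((2 * j : ℕ) : ℝ)) + 2 * ((0 : ℕ) : ℝ) + 3 ≠ 0 := by positivity
    rw [eq_div_iff h3, sub_mul, div_mul_cancel₀ _ h3]
    push_cast
    ring
  have h2 := thmA_of h atTop (fun j => 2 * j) (fun _ => 0) (fun j => even_two_mul j) hL ha
  have h3 : Tendsto (fun j : ℕ => CZ.EE (2 * j) 0) atTop (𝓝 ((1 : ℝ) : ℂ)) := by
    have h4 : Tendsto (fun j : ℕ => ((CDH.FF (2 * j + 1) 1 : ℝ) : ℂ)) atTop (𝓝 ((1 : ℝ) : ℂ)) :=
      (Complex.continuous_ofReal.tendsto 1).comp (FF_one.comp (tendsto_id.const_mul_atTop' (by norm_num)))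
    exact h4.congr fun j => (h1 (2 * j) (even_two_mul j)).symm
  have h5 := tendsto_nhds_unique h2 h3
  exact_mod_cast h5

/-- SCHRAMM'S FORMULA at level of the exact formula -/
theorem limit_of (h : RayF) (h0 : Tendsto (fun n => CZ.EE 0 n) atTop (𝓝 0))
    (h1 : ∀ k : ℕ, Even k → CZ.EE k 0 = ((CDH.FF (k + 1) 1 : ℝ) : ℂ)) {ι : Type} (l : Filter ι)
    [l.IsCountablyGenerated] (k n : ι → ℕ) (hk : ∀ j, Even (k j))
    (hL : Tendsto (fun j => (k j : ℝ) + 2 * n j + 3) l atTop) {a : ℝ} (ha0 : 0 < a) (ha1 : a < 1)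
    (ha : Tendsto (fun j => ((k j : ℝ) + 1) / ((k j : ℝ) + 2 * n j + 3)) l (𝓝 a)) :
    Tendsto (fun j => CZ.EE (k j) (n j)) l (𝓝 ((SH (2 * Real.sqrt a / (1 - a)) / SHinf : ℝ) : ℂ)) := by
  have h2 := thmA_of h l k n hk hL ha
  rwa [EI_schramm (EI_zero_of h h0) (EI_one_of h h1) ha0 ha1] at h2

end SL
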