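import Pool.Agent.Lib.MP_216314_pr.SL.RayA

/-!
# Symmetry of the integrand, behaviour at infinity, the formula on the rays
-/

set_option autoImplicit false

noncomputable section

namespace SL

open Complex Filter Topology MeasureTheory Polynomial

theorem um_neg (m : ℕ) (s : ℝ) : um m (-s) = (-1) ^ m * vm m s := by
  unfold vm
  rw [← mul_assoc, ← mul_pow]
  simp

theorem vm_neg (m : ℕ) (s : ℝ) : vm m (-s) = (-1) ^ m * um m s := by
  unfold vm
  rw [neg_neg]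

theorem conj_th : (starRingEnd ℂ) CDH.th = CDH.th⁻¹ := by
  unfold CDH.th
  rw [← Complex.exp_conj, ← Complex.exp_neg]
  congr 1
  rw [map_mul, map_div₀, Complex.conj_ofReal, Complex.conj_I, map_ofNat]
  ring

theorem conj_thi : (starRingEnd ℂ) CDH.th⁻¹ = CDH.th := by
  rw [map_inv₀, conj_th, inv_inv]

theorem thi_sq : CDH.th⁻¹ * CDH.th⁻¹ = -CDH.th := by
  have := CDH.th_cube
  have h0 := CDH.th_ne
  field_simp
  linear_combination this

theorem Fp_neg {k n : ℕ} (hk : Even k) (s : ℝ) :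
    Fp (k + 1) (n + 1) (-s) = -(starRingEnd ℂ) (Fp (k + 1) (n + 1) s) := by
  have hc : Odd (k + 1) := hk.add_one
  have hL : Odd (k + 1 + 2 * (n + 1)) := hc.add_even ⟨n + 1, by ring⟩
  have hn : (-1 : ℂ) ^ (n + 1) * (-1) ^ n = -1 := by
    rw [pow_succ, mul_right_comm, ← mul_pow]
    simp
  have h0 := CDH.th_ne
  have h1 : CDH.th⁻¹ * CDH.th = 1 := inv_mul_cancel₀ h0
  have h2 := thi_sq
  unfold Fp
  rw [th_eq, Nat.add_sub_cancel]
  simp only [map_div₀, map_mul, map_add, map_sub, Complex.conj_ofReal, conj_th, conj_thi, map_one, map_ofNat,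
    um_neg, vm_neg, hc.neg_one_pow, hL.neg_one_pow, Real.sinh_neg, Real.cosh_neg]
  have e1 : 2 * -s / 3 = -(2 * s / 3) := by ring
  rw [e1, neg_neg]
  push_cast
  have e2 : (2 * -Complex.sinh (s : ℂ) * (2 * Complex.cosh (s : ℂ)) ^ (2 * (k + 1 + 2 * (n + 1)))) =
    -(2 * Complex.sinh (s : ℂ) * (2 * Complex.cosh (s : ℂ)) ^ (2 * (k + 1 + 2 * (n + 1)))) := by ring
  rw [e2, div_neg]
  congr 2
  set uc := (um (k + 1) s : ℂ)
  set vc := (vm (k + 1) s : ℂ)
  set uL := (um (k + 1 + 2 * (n + 1)) s : ℂ)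
  set vL := (vm (k + 1 + 2 * (n + 1)) s : ℂ)
  set un := (um (n + 1) s : ℂ)
  set vn := (vm (n + 1) s : ℂ)
  set u0 := (um n s : ℂ)
  set v0 := (vm n s : ℂ)
  set ep := cexp (2 * (s : ℂ) / 3)
  set em := cexp (-(2 * (s : ℂ) / 3))
  have a1 : (-1 * vL - CDH.th * (-1 * uL)) = CDH.th * (uL - CDH.th⁻¹ * vL) := by linear_combination vL * h1
  have a2 : ((-1 : ℂ) ^ (n + 1) * vn - CDH.th⁻¹ * ((-1) ^ (n + 1) * un)) = -((-1) ^ (n + 1) * CDH.th⁻¹ * (un - CDH.th * vn)) := by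
    linear_combination (-((-1) ^ (n + 1) * vn)) * h1
  have a3 : ((-1 : ℂ) ^ n * v0 - CDH.th⁻¹ * ((-1) ^ n * u0)) = -((-1) ^ n * CDH.th⁻¹ * (u0 - CDH.th * v0)) := by
    linear_combination (-((-1) ^ n * v0)) * h1
  have a4 : em + CDH.th * ep = CDH.th * (ep + CDH.th⁻¹ * em) := by linear_combination (-em) * h1
  rw [a1, a2, a3, a4]
  have a5 : (-1 : ℂ) ^ (n + 1) * (-1) ^ n * (CDH.th * CDH.th * (CDH.th⁻¹ * CDH.th⁻¹)) = -1 := by
    rw [hn]
    linear_combination (-CDH.th⁻¹ * CDH.th - 1) * h1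
  linear_combination (-(1 / 2 * (vc + uc) * (uL - CDH.th⁻¹ * vL) * (un - CDH.th * vn) * (u0 - CDH.th * v0) *
    (ep + CDH.th⁻¹ * em))) * a5

theorem Fm_neg {k n : ℕ} (hk : Even k) (s : ℝ) :
    Fm (k + 1) (n + 1) (-s) = -(starRingEnd ℂ) (Fm (k + 1) (n + 1) s) := by
  have hc : Odd (k + 1) := hk.add_one
  have hL : Odd (k + 1 + 2 * (n + 1)) := hc.add_even ⟨n + 1, by ring⟩
  have hn : (-1 : ℂ) ^ (n + 1) * (-1) ^ n = -1 := by
    rw [pow_succ, mul_right_comm, ← mul_pow]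
    simp
  have h0 := CDH.th_ne
  have h1 : CDH.th⁻¹ * CDH.th = 1 := inv_mul_cancel₀ h0
  unfold Fm
  rw [th_eq, Nat.add_sub_cancel]
  simp only [map_div₀, map_mul, map_add, map_sub, Complex.conj_ofReal, conj_th, conj_thi, map_one, map_ofNat,
    um_neg, vm_neg, hc.neg_one_pow, hL.neg_one_pow, Real.sinh_neg, Real.cosh_neg]
  have e1 : 2 * -s / 3 = -(2 * s / 3) := by ring
  rw [e1, neg_neg]
  push_cast
  have e2 : (2 * -Complex.sinh (s : ℂ) * (2 * Complex.cosh (s : ℂ)) ^ (2 * (k + 1 + 2 * (n + 1)))) =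
    -(2 * Complex.sinh (s : ℂ) * (2 * Complex.cosh (s : ℂ)) ^ (2 * (k + 1 + 2 * (n + 1)))) := by ring
  rw [e2, div_neg]
  congr 2
  set uc := (um (k + 1) s : ℂ)
  set vc := (vm (k + 1) s : ℂ)
  set uL := (um (k + 1 + 2 * (n + 1)) s : ℂ)
  set vL := (vm (k + 1 + 2 * (n + 1)) s : ℂ)
  set un := (um (n + 1) s : ℂ)
  set vn := (vm (n + 1) s : ℂ)
  set u0 := (um n s : ℂ)
  set v0 := (vm n s : ℂ)
  set ep := cexp (2 * (s : ℂ) / 3)
  set em := cexp (-(2 * (s : ℂ) / 3))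
  have a1 : (-1 * vc - CDH.th⁻¹ * (-1 * uc)) = CDH.th⁻¹ * (uc - CDH.th * vc) := by linear_combination vc * h1
  have a2 : ((-1 : ℂ) ^ (n + 1) * vn - CDH.th * ((-1) ^ (n + 1) * un)) = -((-1) ^ (n + 1) * CDH.th * (un - CDH.th⁻¹ * vn)) := by
    linear_combination (-((-1) ^ (n + 1) * vn)) * h1
  have a3 : ((-1 : ℂ) ^ n * v0 - CDH.th * ((-1) ^ n * u0)) = -((-1) ^ n * CDH.th * (u0 - CDH.th⁻¹ * v0)) := by
    linear_combination (-((-1) ^ n * v0)) * h1
  have a4 : em + CDH.th⁻¹ * ep = CDH.th⁻¹ * (ep + CDH.th * em) := by linear_combination (-em) * h1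
  rw [a1, a2, a3, a4]
  have a5 : (-1 : ℂ) ^ (n + 1) * (-1) ^ n * (CDH.th * CDH.th * (CDH.th⁻¹ * CDH.th⁻¹)) = -1 := by
    rw [hn]
    linear_combination (-CDH.th⁻¹ * CDH.th - 1) * h1
  linear_combination (-(1 / 2 * (uc - CDH.th * vc) * (vL + uL) * (un - CDH.th⁻¹ * vn) * (u0 - CDH.th⁻¹ * v0) *
    (ep + CDH.th * em))) * a5

/-- the difference of the two rays -/
def zc (k n : ℕ) (x : ℝ) : ℂ := FF k n (x + (Real.pi / 3 : ℝ) * I) - FF k n (x - (Real.pi / 3 : ℝ) * I)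

theorem zc_eq {k n : ℕ} (hk : Even k) {x : ℝ} (hx : x ≠ 0) :
    zc k n x = Fp (k + 1) (n + 1) (3 * x / 2) - Fm (k + 1) (n + 1) (3 * x / 2) := by
  have hs : 3 * x / 2 ≠ 0 := by
    intro h
    apply hx
    linarith
  have h1 := FF_plus (n := n) hk hs
  have h2 := FF_minus (n := n) hk hs
  have e : 2 * (3 * x / 2) / 3 = x := by ring
  rw [e] at h1 h2
  unfold zc
  rw [h1, h2]

theorem zc_neg {k n : ℕ} (hk : Even k) {x : ℝ} (hx : x ≠ 0) : zc k n (-x) = -(starRingEnd ℂ) (zc k n x) := by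
  rw [zc_eq hk hx, zc_eq hk (neg_ne_zero.mpr hx), show 3 * -x / 2 = -(3 * x / 2) by ring, Fp_neg hk, Fm_neg hk, map_sub]
  ring

theorem zc_im {k n : ℕ} (hk : Even k) {x : ℝ} (hx : x ≠ 0) : (zc k n x).im = DDn (k + 1) (n + 1) (3 * x / 2) := by
  rw [zc_eq hk hx]
  rfl

theorem den_top (x : ℝ) : (1 - exp (-(3 * ((x : ℂ) + (Real.pi / 3 : ℝ) * I)))) = ((1 + Real.exp (-(3 * x)) : ℝ) : ℂ) := by
  have e : exp (-(3 * ((x : ℂ) + (Real.pi / 3 : ℝ) * I))) = exp (-(3 * (x : ℂ))) * (exp (Real.pi * I))⁻¹ := by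
    rw [← Complex.exp_neg, ← Complex.exp_add]
    congr 1
    push_cast
    ring
  rw [e, Complex.exp_pi_mul_I]
  push_cast
  norm_num

theorem den_bot (x : ℝ) : (1 - exp (-(3 * ((x : ℂ) - (Real.pi / 3 : ℝ) * I)))) = ((1 + Real.exp (-(3 * x)) : ℝ) : ℂ) := by
  have e : exp (-(3 * ((x : ℂ) - (Real.pi / 3 : ℝ) * I))) = exp (-(3 * (x : ℂ))) * (exp (Real.pi * I)) := by
    rw [← Complex.exp_add]
    congr 1
    push_cast
    ring
  rw [e, Complex.exp_pi_mul_I]
  push_cast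
  ring

theorem den_ne (x : ℝ) : ((1 + Real.exp (-(3 * x)) : ℝ) : ℂ) ≠ 0 := by
  rw [Complex.ofReal_ne_zero]
  have := Real.exp_pos (-(3 * x))
  linarith

theorem zc_cont (k n : ℕ) : Continuous (zc k n) := by
  unfold zc FF
  refine Continuous.sub (Continuous.div ?_ ?_ ?_) (Continuous.div ?_ ?_ ?_)
  · exact (Polynomial.continuous _).comp (by fun_prop)
  · fun_prop
  · intro x
    rw [den_top]
    exact pow_ne_zero _ (den_ne x)
  · exact (Polynomial.continuous _).comp (by fun_prop)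
  · fun_prop
  · intro x
    rw [den_bot]
    exact pow_ne_zero _ (den_ne x)

theorem FF_cont {T Y : ℝ} (hT : 0 < T) (hY : 0 < Y) (hY2 : Y < 2 * Real.pi / 3) (k n : ℕ) :
    ContinuousOn (FF k n) (Bd T Y) := by
  unfold FF
  refine ContinuousOn.div ?_ ?_ ?_
  · exact ((Polynomial.continuous _).comp (by fun_prop)).continuousOn
  · exact Continuous.continuousOn (by fun_prop)
  · intro z hz
    have hz1 := dC_ne_Bd hT hY hY2 hz
    have e1 : dC z = exp (3 * z / 2) * (1 - exp (-(3 * z))) := by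
      unfold dC
      rw [mul_sub, mul_one, ← Complex.exp_add]
      congr 2
      ring
    refine pow_ne_zero _ (fun h => ?_)
    rw [e1, h, mul_zero] at hz1
    exact hz1 rfl

/-- the horizontal part -/
theorem horiz {k n : ℕ} (hk : Even k) {T : ℝ} (hT : 0 < T) :
    (∫ x : ℝ in (-T)..T, FF k n (x - (Real.pi / 3 : ℝ) * I)) - (∫ x : ℝ in (-T)..T, FF k n (x + (Real.pi / 3 : ℝ) * I)) =
      -2 * I * ((∫ x : ℝ in (0 : ℝ)..T, (zc k n x).im : ℝ) : ℂ) := by
  have hpi := Real.pi_pos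
  have hY : (0 : ℝ) < Real.pi / 3 := by positivity
  have hY2 : Real.pi / 3 < 2 * Real.pi / 3 := by linarith
  have hc := FF_cont hT hY hY2 k n
  rw [← intervalIntegral.integral_sub (ii_bot hT hY hc) (ii_top hT hY hc)]
  have h1 : ∫ x : ℝ in (-T)..T, (FF k n (x - (Real.pi / 3 : ℝ) * I) - FF k n (x + (Real.pi / 3 : ℝ) * I)) =
      -∫ x : ℝ in (-T)..T, zc k n x := by
    rw [← intervalIntegral.integral_neg]
    refine intervalIntegral.integral_congr (fun x _ => ?_)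
    unfold zc
    ring
  have i1 : ∀ a b : ℝ, IntervalIntegrable (zc k n) volume a b := fun a b => (zc_cont k n).intervalIntegrable a b
  rw [h1, ← intervalIntegral.integral_add_adjacent_intervals (i1 (-T) 0) (i1 0 T)]
  have h2 : ∫ x : ℝ in (-T)..0, zc k n x = ∫ x : ℝ in (0 : ℝ)..T, zc k n (-x) := by
    rw [intervalIntegral.integral_comp_neg (f := zc k n)]
    simp
  have h3 : ∫ x : ℝ in (0 : ℝ)..T, zc k n (-x) = ∫ x : ℝ in (0 : ℝ)..T, -(starRingEnd ℂ) (zc k n x) := by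
    refine intervalIntegral.integral_congr_ae ?_
    refine Filter.Eventually.of_forall (fun x hx => ?_)
    rw [Set.uIoc_of_le hT.le] at hx
    exact zc_neg hk hx.1.ne'
  have i2 : IntervalIntegrable (fun x => -(starRingEnd ℂ) (zc k n x)) volume 0 T := by
    apply Continuous.intervalIntegrable
    exact (Complex.continuous_conj.comp (zc_cont k n)).neg
  rw [h2, h3, ← intervalIntegral.integral_add i2 (i1 0 T)]
  have h4 : ∫ x : ℝ in (0 : ℝ)..T, (-(starRingEnd ℂ) (zc k n x) + zc k n x) =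
      ∫ x : ℝ in (0 : ℝ)..T, (2 * I) * (((zc k n x).im : ℝ) : ℂ) := by
    refine intervalIntegral.integral_congr (fun x _ => ?_)
    apply Complex.ext
    · simp
    · simp
      ring
  rw [h4, intervalIntegral.integral_const_mul, intervalIntegral.integral_ofReal]
  ring

/-- vertical sides -/
theorem vert {f : ℂ → ℂ} {c : ℂ} {Y : ℝ} (hY : 0 < Y) {l : Filter ℝ} {τ : ℝ → ℝ}
    (hf : Tendsto f (comap Complex.re l) (𝓝 c)) (hτ : Tendsto τ atTop l)
    (hint : ∀ T : ℝ, 0 < T → IntervalIntegrable (fun y : ℝ => f (τ T + y * I)) volume (-Y) Y) :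
    Tendsto (fun T : ℝ => ∫ y : ℝ in (-Y)..Y, f (τ T + y * I)) atTop (𝓝 (2 * Y * c)) := by
  rw [Metric.tendsto_atTop]
  intro ε hε
  have h1 : ∀ᶠ h in comap Complex.re l, dist (f h) c < ε / (4 * Y) :=
    Metric.tendsto_nhds.mp hf (ε / (4 * Y)) (by positivity)
  rw [Filter.eventually_comap] at h1
  have h2 := (hτ.eventually h1).and (eventually_gt_atTop 0)
  obtain ⟨T0, hT0⟩ := Filter.eventually_atTop.mp h2
  refine ⟨T0, fun T hT => ?_⟩
  obtain ⟨h3, h4⟩ := hT0 T hT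
  have e1 : (∫ y : ℝ in (-Y)..Y, f (τ T + y * I)) - 2 * Y * c = ∫ y : ℝ in (-Y)..Y, (f (τ T + y * I) - c) := by
    rw [intervalIntegral.integral_sub (hint T h4) (continuous_const.intervalIntegrable _ _), intervalIntegral.integral_const]
    have : ((Y - -Y : ℝ) • c : ℂ) = 2 * Y * c := by
      rw [Complex.real_smul]
      push_cast
      ring
    rw [this]
  rw [dist_eq_norm, e1]
  have h5 : ‖∫ y : ℝ in (-Y)..Y, (f (τ T + y * I) - c)‖ ≤ ε / (4 * Y) * |Y - -Y| := by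
    apply intervalIntegral.norm_integral_le_of_norm_le_const
    intro y _
    have := h3 (τ T + y * I) (by simp)
    rw [dist_eq_norm] at this
    exact this.le
  have h6 : |Y - -Y| = 2 * Y := by rw [abs_of_pos (by linarith)]; ring
  rw [h6] at h5
  have h7 : ε / (4 * Y) * (2 * Y) = ε / 2 := by field_simp; norm_num
  rw [h7] at h5
  linarith

theorem P_at_zero (m : ℕ) : (Pm m).eval 0 = 1 := by
  unfold Pm
  rw [eval_finsetSum, Finset.sum_eq_single 0]
  · rw [eval_mul, eval_pow, eval_X, eval_C, mul_zero, pow_zero, mul_one]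
    unfold wC
    rw [CDH.al_zero, Nat.sub_zero, one_mul, div_self (be_ne m)]
  · intro i _ hi
    rw [eval_mul, eval_pow, eval_X, zero_pow (by omega), mul_zero]
  · intro h
    exact absurd (Finset.mem_range.mpr (Nat.succ_pos m)) h

theorem Q_at_zero (m : ℕ) : (Qm m).eval 0 = 0 := by
  unfold Qm
  rw [eval_finsetSum]
  refine Finset.sum_eq_zero (fun i _ => ?_)
  rw [eval_mul, eval_pow, eval_X, zero_pow (by omega), mul_zero]

theorem rev_P (m : ℕ) {x y : ℂ} (h : x * y = 1) : (Pm m).eval x = x ^ (3 * m + 1) * (Qm m).eval y := by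
  unfold Pm Qm
  rw [eval_finsetSum, eval_finsetSum, Finset.mul_sum]
  refine Finset.sum_congr rfl (fun i hi => ?_)
  have hi' : i ≤ m := Nat.lt_succ_iff.mp (Finset.mem_range.mp hi)
  rw [eval_mul, eval_pow, eval_X, eval_C, eval_mul, eval_pow, eval_X, eval_C]
  have e : x ^ (3 * m + 1) = x ^ (3 * i) * x ^ (3 * (m - i) + 1) := by
    rw [← pow_add]
    congr 1
    omega
  have e2 : x ^ (3 * (m - i) + 1) * y ^ (3 * (m - i) + 1) = 1 := by rw [← mul_pow, h, one_pow]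
  rw [e]
  linear_combination (-(wC m i * x ^ (3 * i))) * e2

theorem rev_Q (m : ℕ) {x y : ℂ} (h : x * y = 1) : (Qm m).eval x = x ^ (3 * m + 1) * (Pm m).eval y := by
  unfold Pm Qm
  rw [eval_finsetSum, eval_finsetSum, Finset.mul_sum]
  refine Finset.sum_congr rfl (fun i hi => ?_)
  have hi' : i ≤ m := Nat.lt_succ_iff.mp (Finset.mem_range.mp hi)
  rw [eval_mul, eval_pow, eval_X, eval_C, eval_mul, eval_pow, eval_X, eval_C]
  have e : x ^ (3 * m + 1) = x ^ (3 * i) * x ^ (3 * (m - i) + 1) := by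
    rw [← pow_add]
    congr 1
    omega
  have e2 : x ^ (3 * i) * y ^ (3 * i) = 1 := by rw [← mul_pow, h, one_pow]
  rw [e]
  linear_combination (-(wC m i * x ^ (3 * (m - i) + 1))) * e2

/-- `FF` in terms of `w = e^{-h}` -/
def Psi (k n : ℕ) (w : ℂ) : ℂ := (NN (k + 1) (k + 1 + 2 * (n + 1)) n).eval w / (1 - w ^ 3) ^ (2 * (k + 1 + 2 * (n + 1)))

theorem FF_Psi (k n : ℕ) (h : ℂ) : FF k n h = Psi k n (exp (-h)) := by
  unfold FF Psi
  rw [← Complex.exp_nat_mul]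
  congr 3
  push_cast
  ring_nf

theorem Psi_zero {k n : ℕ} (hk : Even k) : Psi k n 0 = 1 / 2 := by
  have hc : Odd (k + 1) := hk.add_one
  have hL : Odd (k + 1 + 2 * (n + 1)) := hc.add_even ⟨n + 1, by ring⟩
  have h := NN_mul hc hL n 0
  unfold N1 N4 NB at h
  simp only [eval_sub, eval_mul, eval_C, P_at_zero, Q_at_zero] at h
  unfold Psi
  have h3 := CDH.th_cube
  have e : eval 0 (NN (k + 1) (k + 1 + 2 * (n + 1)) n) = 1 / 2 := by
    linear_combination h - 1 / 2 * h3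
  rw [e]
  simp

theorem Psi_diff (k n : ℕ) : DifferentiableAt ℂ (Psi k n) 0 := by
  unfold Psi
  refine DifferentiableAt.div (Polynomial.differentiableAt _) (by fun_prop) ?_
  simp

theorem FF_top {k n : ℕ} (hk : Even k) : Tendsto (FF k n) (comap Complex.re atTop) (𝓝 (1 / 2)) := by
  have h1 : Tendsto (fun h : ℂ => exp (-h)) (comap Complex.re atTop) (𝓝 0) := by
    rw [tendsto_zero_iff_norm_tendsto_zero]
    simp only [Complex.norm_exp, Complex.neg_re]
    exact Real.tendsto_exp_neg_atTop_nhds_zero.comp tendsto_comap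
  have h2 := (Psi_diff k n).continuousAt.tendsto.comp h1
  rw [Psi_zero hk] at h2
  exact h2.congr (fun h => (FF_Psi k n h).symm)

/-- `FF` in terms of `y = e^h` -/
def Psr (k n : ℕ) (y : ℂ) : ℂ :=
  -1 / 2 * ((CDH.th * (Qm (k + 1)).eval y - CDH.th⁻¹ * (Pm (k + 1)).eval y) *
    (CDH.th ^ 2 * (Qm (k + 1 + 2 * (n + 1))).eval y - (CDH.th ^ 2)⁻¹ * (Pm (k + 1 + 2 * (n + 1))).eval y) *
    ((Qm (n + 1)).eval y - (Pm (n + 1)).eval y) * ((Qm n).eval y - (Pm n).eval y)) * (y ^ 2 - 1) /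
    ((y ^ 3 + 1) * (y ^ 3 - 1) ^ (2 * (k + 1 + 2 * (n + 1))))

theorem FF_Psr {k n : ℕ} (hk : Even k) {h : ℂ} (hh : h.re < 0) : FF k n h = Psr k n (exp h) := by
  have hc : Odd (k + 1) := hk.add_one
  have hL : Odd (k + 1 + 2 * (n + 1)) := hc.add_even ⟨n + 1, by ring⟩
  have hxy : exp (-h) * exp h = 1 := by rw [← Complex.exp_add]; simp
  have hny : ‖exp h‖ < 1 := by
    rw [Complex.norm_exp]
    have := Real.exp_lt_exp.mpr hh
    rwa [Real.exp_zero] at this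
  have hny3 : ‖exp h ^ 3‖ < 1 := by
    rw [norm_pow]
    exact pow_lt_one₀ (norm_nonneg _) hny (by norm_num)
  have hN := NN_mul hc hL n (exp (-h))
  unfold N1 N4 NB at hN
  simp only [eval_sub, eval_mul, eval_C, rev_P _ hxy, rev_Q _ hxy] at hN
  rw [FF_Psi]
  unfold Psi Psr
  generalize exp (-h) = x at hxy hN ⊢
  generalize exp h = y at hxy hny3 hN ⊢
  have hx0 : x ≠ 0 := left_ne_zero_of_mul_eq_one hxy
  have hy0 : y ≠ 0 := right_ne_zero_of_mul_eq_one hxy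
  have y1 : y ^ 3 + 1 ≠ 0 := by
    intro h0
    have : y ^ 3 = -1 := by linear_combination h0
    rw [this] at hny3
    simp at hny3
  have y2 : y ^ 3 - 1 ≠ 0 := by
    intro h0
    have : y ^ 3 = 1 := by linear_combination h0
    rw [this] at hny3
    simp at hny3
  have hxy3 : x ^ 3 * y ^ 3 = 1 := by rw [← mul_pow, hxy, one_pow]
  have x1 : 1 + x ^ 3 = x ^ 3 * (y ^ 3 + 1) := by linear_combination -hxy3
  have x2 : 1 - x ^ 3 = x ^ 3 * (y ^ 3 - 1) := by linear_combination -hxy3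
  have x3 : 1 - x ^ 2 = x ^ 2 * (y ^ 2 - 1) := by
    have : x ^ 2 * y ^ 2 = 1 := by rw [← mul_pow, hxy, one_pow]
    linear_combination -this
  rw [x1, x3] at hN
  rw [x2, mul_pow, div_eq_div_iff (mul_ne_zero (pow_ne_zero _ (pow_ne_zero _ hx0)) (pow_ne_zero _ y2))
    (mul_ne_zero y1 (pow_ne_zero _ y2))]
  have e1 : x ^ (3 * (k + 1) + 1) * x ^ (3 * (k + 1 + 2 * (n + 1)) + 1) * x ^ (3 * (n + 1) + 1) * x ^ (3 * n + 1) * x ^ 2 =
      (x ^ 3) ^ (2 * (k + 1 + 2 * (n + 1))) * x ^ 3 := by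
    rw [← pow_mul, ← pow_add, ← pow_add, ← pow_add, ← pow_add, ← pow_add]
    congr 1
    ring
  have hx3 : x ^ 3 ≠ 0 := pow_ne_zero _ hx0
  apply mul_left_cancel₀ hx3
  generalize (x ^ 3) ^ (2 * (k + 1 + 2 * (n + 1))) = X6 at e1 ⊢
  generalize (y ^ 3 - 1) ^ (2 * (k + 1 + 2 * (n + 1))) = Y6
  generalize x ^ (3 * (k + 1) + 1) = a1 at hN e1
  generalize x ^ (3 * (k + 1 + 2 * (n + 1)) + 1) = a2 at hN e1
  generalize x ^ (3 * (n + 1) + 1) = a3 at hN e1
  generalize x ^ (3 * n + 1) = a4 at hN e1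
  generalize eval x (NN (k + 1) (k + 1 + 2 * (n + 1)) n) = NV at hN ⊢
  generalize eval y (Qm (k + 1)) = q1 at hN ⊢
  generalize eval y (Pm (k + 1)) = p1 at hN ⊢
  generalize eval y (Qm (k + 1 + 2 * (n + 1))) = q2 at hN ⊢
  generalize eval y (Pm (k + 1 + 2 * (n + 1))) = p2 at hN ⊢
  generalize eval y (Qm (n + 1)) = q3 at hN ⊢
  generalize eval y (Pm (n + 1)) = p3 at hN ⊢
  generalize eval y (Qm n) = q4 at hN ⊢
  generalize eval y (Pm n) = p4 at hN ⊢
  linear_combination Y6 * hN + (-1 / 2 * ((CDH.th * q1 - CDH.th⁻¹ * p1) * (CDH.th ^ 2 * q2 - (CDH.th ^ 2)⁻¹ * p2) *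
    (q3 - p3) * (q4 - p4)) * (y ^ 2 - 1) * Y6) * e1

theorem FF_bot {k n : ℕ} (hk : Even k) : Tendsto (FF k n) (comap Complex.re atBot) (𝓝 (-1 / 2)) := by
  have h1 : Tendsto (fun h : ℂ => exp h) (comap Complex.re atBot) (𝓝 0) := by
    rw [tendsto_zero_iff_norm_tendsto_zero]
    simp only [Complex.norm_exp]
    exact Real.tendsto_exp_atBot.comp tendsto_comap
  have h2 : ContinuousAt (Psr k n) 0 := by
    unfold Psr
    refine ContinuousAt.div (by fun_prop) (by fun_prop) ?_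
    simp
  have h3 : Psr k n 0 = -1 / 2 := by
    unfold Psr
    rw [P_at_zero, Q_at_zero, P_at_zero, Q_at_zero, P_at_zero, Q_at_zero, P_at_zero, Q_at_zero]
    have h4 := th_inv3
    have h5 : (CDH.th ^ 2)⁻¹ = CDH.th⁻¹ ^ 2 := by rw [inv_pow]
    have h6 : ((0 : ℂ) ^ 3 - 1) ^ (2 * (k + 1 + 2 * (n + 1))) = 1 := by
      rw [pow_mul]
      norm_num
    rw [h5, h6]
    simp only [mul_zero, zero_sub, mul_one, ne_eq, OfNat.ofNat_ne_zero, not_false_eq_true, zero_pow, zero_add, div_one]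
    linear_combination (1 / 2) * h4
  have h4 := h2.tendsto.comp h1
  rw [h3] at h4
  refine h4.congr' ?_
  have h5 : ∀ᶠ h : ℂ in comap Complex.re atBot, h.re < 0 := by
    rw [Filter.eventually_comap]
    filter_upwards [eventually_lt_atBot 0] with t ht h hh
    rw [hh]
    exact ht
  filter_upwards [h5] with h hh
  exact (FF_Psr hk hh).symm

theorem zc_O (k n : ℕ) : (zc k n) =O[atTop] (fun x : ℝ => Real.exp (-1 * x)) := by
  have h0 := (Psi_diff k n).isBigO_sub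
  have t1 : Tendsto (fun x : ℝ => exp (-((x : ℂ) + (Real.pi / 3 : ℝ) * I))) atTop (𝓝 0) := by
    rw [tendsto_zero_iff_norm_tendsto_zero]
    simp only [Complex.norm_exp]
    simp
    exact Real.tendsto_exp_atBot
  have t2 : Tendsto (fun x : ℝ => exp (-((x : ℂ) - (Real.pi / 3 : ℝ) * I))) atTop (𝓝 0) := by
    rw [tendsto_zero_iff_norm_tendsto_zero]
    simp only [Complex.norm_exp]
    simp
    exact Real.tendsto_exp_atBot
  have h1 := h0.comp_tendsto t1
  have h2 := h0.comp_tendsto t2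
  have e1 : (fun x : ℝ => Psi k n (exp (-((x : ℂ) + (Real.pi / 3 : ℝ) * I))) - Psi k n 0) =O[atTop]
      (fun x : ℝ => Real.exp (-1 * x)) := by
    refine h1.trans (Asymptotics.IsBigO.of_bound 1 (Filter.Eventually.of_forall (fun x => ?_)))
    simp [Complex.norm_exp]
  have e2 : (fun x : ℝ => Psi k n (exp (-((x : ℂ) - (Real.pi / 3 : ℝ) * I))) - Psi k n 0) =O[atTop]
      (fun x : ℝ => Real.exp (-1 * x)) := by
    refine h2.trans (Asymptotics.IsBigO.of_bound 1 (Filter.Eventually.of_forall (fun x => ?_)))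
    simp [Complex.norm_exp]
  refine (e1.sub e2).congr_left (fun x => ?_)
  unfold zc
  rw [FF_Psi, FF_Psi]
  ring

theorem g_int (k n : ℕ) : IntegrableOn (fun x : ℝ => (zc k n x).im) (Set.Ioi 0) := by
  refine integrable_of_isBigO_exp_neg (b := 1) one_pos
    ((Complex.continuous_im.comp (zc_cont k n)).continuousOn) ?_
  refine Asymptotics.IsBigO.trans ?_ (zc_O k n)
  exact Asymptotics.IsBigO.of_bound 1 (Filter.Eventually.of_forall (fun x => by
    rw [one_mul, Real.norm_eq_abs]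
    exact Complex.abs_im_le_norm _))

/-- MAIN (paper 2.6) -/
theorem ray {k n : ℕ} (hk : Even k) :
    CZ.EE k n = ((1 / 3 - 2 / (3 * Real.pi) * ∫ s in Set.Ioi (0 : ℝ), DDn (k + 1) (n + 1) s : ℝ) : ℂ) := by
  have hpi := Real.pi_pos
  have hY : (0 : ℝ) < Real.pi / 3 := by positivity
  have hY2 : Real.pi / 3 < 2 * Real.pi / 3 := by linarith
  have h1 : ∀ T : ℝ, 0 < T → -2 * I * ((∫ x : ℝ in (0 : ℝ)..T, (zc k n x).im : ℝ) : ℂ) +
      I * (∫ y : ℝ in (-(Real.pi / 3))..(Real.pi / 3), FF k n (T + y * I)) -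
      I * (∫ y : ℝ in (-(Real.pi / 3))..(Real.pi / 3), FF k n ((-T : ℝ) + y * I)) = 2 * Real.pi * I * CZ.EE k n := by
    intro T hT
    rw [← EE_RI hT hY hY2 hk (n := n), ← horiz hk hT]
    unfold RI FF
    push_cast
    rfl
  have v1 := vert hY (FF_top (n := n) hk) tendsto_id (fun T hT => ii_right hT hY (FF_cont hT hY hY2 k n))
  have v2 := vert hY (FF_bot (n := n) hk) tendsto_neg_atTop_atBot (fun T hT => by
    have := ii_left hT hY (FF_cont hT hY hY2 k n)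
    push_cast
    exact this)
  have g1 := intervalIntegral_tendsto_integral_Ioi 0 (g_int k n) tendsto_id
  have g2 : Tendsto (fun T : ℝ => ((∫ x : ℝ in (0 : ℝ)..T, (zc k n x).im : ℝ) : ℂ)) atTop
      (𝓝 ((∫ x in Set.Ioi (0 : ℝ), (zc k n x).im : ℝ) : ℂ)) :=
    (Complex.continuous_ofReal.tendsto _).comp g1
  have h2 := ((g2.const_mul (-2 * I)).add (v1.const_mul I)).sub (v2.const_mul I)
  have h3 : Tendsto (fun _ : ℝ => 2 * Real.pi * I * CZ.EE k n) atTop (𝓝 (2 * Real.pi * I * CZ.EE k n)) :=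
    tendsto_const_nhds
  have h4 := tendsto_nhds_unique (h3.congr' (by
    filter_upwards [eventually_gt_atTop 0] with T hT
    exact (h1 T hT).symm)) h2
  have h5 : ∫ s in Set.Ioi (0 : ℝ), DDn (k + 1) (n + 1) s = 3 / 2 * ∫ x in Set.Ioi (0 : ℝ), (zc k n x).im := by
    have e1 : ∫ x in Set.Ioi (0 : ℝ), (zc k n x).im = ∫ x in Set.Ioi (0 : ℝ), DDn (k + 1) (n + 1) (3 / 2 * x) := by
      refine setIntegral_congr_fun measurableSet_Ioi (fun x hx => ?_)
      have := zc_im (n := n) hk (ne_of_gt (Set.mem_Ioi.mp hx))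
      rw [show 3 * x / 2 = 3 / 2 * x by ring] at this
      exact this
    rw [e1, integral_comp_mul_left_Ioi (fun s => DDn (k + 1) (n + 1) s) 0 (by norm_num : (0 : ℝ) < 3 / 2)]
    rw [mul_zero, smul_eq_mul]
    ring
  rw [h5]
  have hpi' : (Real.pi : ℂ) ≠ 0 := by exact_mod_cast hpi.ne'
  have hI := Complex.I_ne_zero
  push_cast
  push_cast at h4
  generalize ((∫ x in Set.Ioi (0 : ℝ), (zc k n x).im : ℝ) : ℂ) = J at h4 ⊢
  field_simp
  have h6 : I * (6 * (Real.pi : ℂ) * CZ.EE k n - 2 * Real.pi + 6 * J) = 0 := by linear_combination 3 * h4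
  rcases mul_eq_zero.mp h6 with h7 | h7
  · exact absurd h7 hI
  · linear_combination h7 / 2

end SL
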