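import Pool.Agent.Lib.MP_216314_pr.SL.FinA
import Pool.Agent.Lib.MP_216314_pr.SL.RayB
import Pool.Agent.Lib.MP_216314_pr.CZ.Fr
import Pool.Agent.Lib.MP_216314_pr.CZ.Ft

/-!
# SL/FinB: Schramm's formula at the level of the exact formula
-/

set_option autoImplicit false

noncomputable section

namespace SL

open Filter Topology MeasureTheory

theorem rayF : RayF := fun _ _ hk => ray hk

theorem thmA {ι : Type} (l : Filter ι) [l.IsCountablyGenerated] (k n : ι → ℕ) (hk : ∀ j, Even (k j))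
    (hL : Tendsto (fun j => (k j : ℝ) + 2 * n j + 3) l atTop)
    {a : ℝ} (ha : Tendsto (fun j => ((k j : ℝ) + 1) / ((k j : ℝ) + 2 * n j + 3)) l (𝓝 a)) :
    Tendsto (fun j => CZ.EE (k j) (n j)) l (𝓝 ((EI a : ℝ) : ℂ)) :=
  thmA_of rayF l k n hk hL ha

theorem EI_zero : EI 0 = 0 := EI_zero_of rayF CZ.EE_one_tendsto

theorem EI_one : EI 1 = 1 := EI_one_of rayF fun _ hk => CZ.EE_zero hk

/-- THEOREM: `E(c, n) → SH(2 √a / (1 - a)) / SHinf` when `c/(c + 2n) → a` -/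
theorem schramm_limit {ι : Type} (l : Filter ι) [l.IsCountablyGenerated] (k n : ι → ℕ) (hk : ∀ j, Even (k j))
    (hL : Tendsto (fun j => (k j : ℝ) + 2 * n j + 3) l atTop) {a : ℝ} (ha0 : 0 < a) (ha1 : a < 1)
    (ha : Tendsto (fun j => ((k j : ℝ) + 1) / ((k j : ℝ) + 2 * n j + 3)) l (𝓝 a)) :
    Tendsto (fun j => CZ.EE (k j) (n j)) l (𝓝 ((SH (2 * Real.sqrt a / (1 - a)) / SHinf : ℝ) : ℂ)) :=
  limit_of rayF CZ.EE_one_tendsto (fun _ hk => CZ.EE_zero hk) l k n hk hL ha0 ha1 ha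

/-- `E(c, n)` is real -/
theorem EE_real {k n : ℕ} (hk : Even k) : ∃ r : ℝ, CZ.EE k n = (r : ℂ) := ⟨_, ray hk⟩

end SL
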