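import Pool.Agent.Lib.MP_216314_pr.SL.FinB

/-!
# SL/FinC: the value of `SHinf`
-/

set_option autoImplicit false

noncomputable section

namespace SL

open Filter Topology MeasureTheory

theorem beta_real {α β : ℝ} (hα : 0 < α) (hβ : 0 < β) :
    ∫ x in Set.Ioo (0 : ℝ) 1, x ^ (α - 1) * (1 - x) ^ (β - 1) = Real.Gamma α * Real.Gamma β / Real.Gamma (α + β) := by
  have h1 : (Complex.betaIntegral α β) = ((Real.Gamma α * Real.Gamma β / Real.Gamma (α + β) : ℝ) : ℂ) := by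
    rw [Complex.betaIntegral_eq_Gamma_mul_div _ _ (by simpa using hα) (by simpa using hβ)]
    push_cast
    rw [← Complex.Gamma_ofReal, ← Complex.Gamma_ofReal, ← Complex.Gamma_ofReal]
    push_cast
    rfl
  have h2 : (Complex.betaIntegral α β) = ((∫ x in Set.Ioo (0 : ℝ) 1, x ^ (α - 1) * (1 - x) ^ (β - 1) : ℝ) : ℂ) := by
    unfold Complex.betaIntegral
    rw [intervalIntegral.integral_of_le zero_le_one, integral_Ioc_eq_integral_Ioo, ← integral_complex_ofReal]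
    refine setIntegral_congr_fun measurableSet_Ioo fun x hx => ?_
    have hx0 : (0 : ℝ) ≤ x := hx.1.le
    have hx1 : (0 : ℝ) ≤ 1 - x := by linarith [hx.2]
    show (x : ℂ) ^ ((α : ℂ) - 1) * (1 - (x : ℂ)) ^ ((β : ℂ) - 1) = _
    push_cast
    rw [Complex.ofReal_cpow hx0, Complex.ofReal_cpow hx1]
    push_cast
    rfl
  rw [h1] at h2
  exact_mod_cast h2.symm

/-- `u ↦ √(1/u - 1)` -/
def FinC_f (u : ℝ) : ℝ := Real.sqrt (u⁻¹ - 1)

theorem FinC_w {u : ℝ} (hu : u ∈ Set.Ioo (0 : ℝ) 1) : 0 < u⁻¹ - 1 := by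
  have := one_lt_inv_iff₀.mpr hu
  linarith

theorem FinC_hd {u : ℝ} (hu : u ∈ Set.Ioo (0 : ℝ) 1) :
    HasDerivAt FinC_f (-(u ^ 2)⁻¹ / (2 * Real.sqrt (u⁻¹ - 1))) u := by
  have h1 : HasDerivAt (fun u : ℝ => u⁻¹ - 1) (-(u ^ 2)⁻¹) u := (hasDerivAt_inv hu.1.ne').sub_const 1
  exact h1.sqrt (FinC_w hu).ne'

theorem FinC_inj : Set.InjOn FinC_f (Set.Ioo (0 : ℝ) 1) := by
  intro u hu v hv h
  unfold FinC_f at h
  rw [Real.sqrt_inj (FinC_w hu).le (FinC_w hv).le] at h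
  exact inv_injective (by linarith)

theorem FinC_im : FinC_f '' (Set.Ioo (0 : ℝ) 1) = Set.Ioi 0 := by
  ext y
  constructor
  · rintro ⟨u, hu, rfl⟩
    exact Real.sqrt_pos.mpr (FinC_w hu)
  · intro hy
    have hy0 : (0 : ℝ) < y := hy
    have h1 : 1 < 1 + y ^ 2 := by have := pow_pos hy0 2; linarith
    refine ⟨(1 + y ^ 2)⁻¹, ⟨by positivity, inv_lt_one_of_one_lt₀ h1⟩, ?_⟩
    unfold FinC_f
    rw [inv_inv, add_sub_cancel_left, Real.sqrt_sq hy0.le]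

theorem SHinf_eq : SHinf = Real.sqrt Real.pi * Real.Gamma (1 / 6) / (2 * Real.Gamma (2 / 3)) := by
  unfold SHinf
  rw [← FinC_im, integral_image_eq_integral_abs_deriv_smul measurableSet_Ioo
    (fun u hu => (FinC_hd hu).hasDerivWithinAt) FinC_inj]
  have h1 : ∫ u in Set.Ioo (0 : ℝ) 1, |-(u ^ 2)⁻¹ / (2 * Real.sqrt (u⁻¹ - 1))| • (1 + FinC_f u ^ 2) ^ (-(2 / 3) : ℝ) =
      ∫ u in Set.Ioo (0 : ℝ) 1, 1 / 2 * (u ^ ((1 / 6 : ℝ) - 1) * (1 - u) ^ ((1 / 2 : ℝ) - 1)) := by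
    refine setIntegral_congr_fun measurableSet_Ioo fun u hu => ?_
    have hu0 : 0 < u := hu.1
    have hu1 : 0 < 1 - u := by linarith [hu.2]
    have hw := FinC_w hu
    show |-(u ^ 2)⁻¹ / (2 * Real.sqrt (u⁻¹ - 1))| * (1 + FinC_f u ^ 2) ^ (-(2 / 3) : ℝ) = _
    have e1 : |-(u ^ 2)⁻¹ / (2 * Real.sqrt (u⁻¹ - 1))| = (u ^ 2)⁻¹ / (2 * Real.sqrt (u⁻¹ - 1)) := by
      rw [neg_div, abs_neg, abs_of_pos]
      have := Real.sqrt_pos.mpr hw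
      positivity
    have e2 : 1 + FinC_f u ^ 2 = u⁻¹ := by
      unfold FinC_f
      rw [Real.sq_sqrt hw.le]
      ring
    have e3 : Real.sqrt (u⁻¹ - 1) = (1 - u) ^ (1 / 2 : ℝ) * u ^ (-(1 / 2) : ℝ) := by
      rw [show u⁻¹ - 1 = (1 - u) * u⁻¹ by field_simp, Real.sqrt_mul hu1.le, Real.sqrt_eq_rpow, Real.sqrt_inv,
        Real.sqrt_eq_rpow, Real.rpow_neg hu0.le]
    have e4 : (u⁻¹) ^ (-(2 / 3) : ℝ) = u ^ (2 / 3 : ℝ) := by
      rw [Real.inv_rpow hu0.le, Real.rpow_neg hu0.le, inv_inv]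
    have e5 : (u ^ 2)⁻¹ = u ^ (-2 : ℝ) := by
      rw [Real.rpow_neg hu0.le, Real.rpow_two]
    rw [e1, e2, e3, e4, e5]
    have e6 : u ^ (-2 : ℝ) * u ^ (2 / 3 : ℝ) = u ^ ((1 / 6 : ℝ) - 1) * u ^ (-(1 / 2) : ℝ) := by
      rw [← Real.rpow_add hu0, ← Real.rpow_add hu0]
      norm_num
    have e7 : (1 - u) ^ ((1 / 2 : ℝ) - 1) * (1 - u) ^ (1 / 2 : ℝ) = 1 := by
      rw [← Real.rpow_add hu1]
      norm_num
    have p1 : 0 < (1 - u) ^ (1 / 2 : ℝ) := Real.rpow_pos_of_pos hu1 _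
    have p2 : 0 < u ^ (-(1 / 2) : ℝ) := Real.rpow_pos_of_pos hu0 _
    rw [div_mul_eq_mul_div, div_eq_iff (by positivity), e6]
    linear_combination (-(u ^ ((1 / 6 : ℝ) - 1) * u ^ (-(1 / 2) : ℝ))) * e7
  rw [h1, integral_const_mul, beta_real (by norm_num) (by norm_num), Real.Gamma_one_half_eq,
    show (1 / 6 : ℝ) + 1 / 2 = 2 / 3 by norm_num]
  have hG : Real.Gamma (2 / 3) ≠ 0 := (Real.Gamma_pos_of_pos (by norm_num)).ne'
  field_simp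

/-- the limit in Schramm's form -/
theorem schramm_value (v : ℝ) : (1 + SH v / SHinf) / 2 =
    1 / 2 + Real.Gamma (2 / 3) / (Real.sqrt Real.pi * Real.Gamma (1 / 6)) *
      ∫ y in (0 : ℝ)..v, (1 + y ^ 2) ^ (-(2 / 3) : ℝ) := by
  rw [SHinf_eq]
  have h1 : Real.Gamma (1 / 6) ≠ 0 := (Real.Gamma_pos_of_pos (by norm_num)).ne'
  have h2 : Real.Gamma (2 / 3) ≠ 0 := (Real.Gamma_pos_of_pos (by norm_num)).ne'
  have h3 : Real.sqrt Real.pi ≠ 0 := (Real.sqrt_pos.mpr Real.pi_pos).ne'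
  show (1 + SH v / _) / 2 = 1 / 2 + _ * SH v
  field_simp

/-- the limit of `(1 + E)/2` -/
theorem schramm_limit' {ι : Type} (l : Filter ι) [l.IsCountablyGenerated] (k n : ι → ℕ) (hk : ∀ j, Even (k j))
    (hL : Tendsto (fun j => (k j : ℝ) + 2 * n j + 3) l atTop) {a : ℝ} (ha0 : 0 < a) (ha1 : a < 1)
    (ha : Tendsto (fun j => ((k j : ℝ) + 1) / ((k j : ℝ) + 2 * n j + 3)) l (𝓝 a)) :
    Tendsto (fun j => (1 + CZ.EE (k j) (n j)) / 2) l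
      (𝓝 (((1 / 2 + Real.Gamma (2 / 3) / (Real.sqrt Real.pi * Real.Gamma (1 / 6)) *
        ∫ y in (0 : ℝ)..(2 * Real.sqrt a / (1 - a)), (1 + y ^ 2) ^ (-(2 / 3) : ℝ) : ℝ)) : ℂ)) := by
  have h := ((tendsto_const_nhds (x := (1 : ℂ))).add (schramm_limit l k n hk hL ha0 ha1 ha)).div_const 2
  rw [← schramm_value]
  push_cast at h ⊢
  exact h

end SL
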