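import Pool.Agent.Lib.MP_216314_pr.SL.Pair

/-!
# SL/Id0: chain rules for `F p (A e^{-t})`, `G p (A e^{-t})`

Proof. `HasDerivAt.scomp`/`comp` of `F_hd`, `G_hd` with `t -> A * exp (-t)` (derivative `-A exp(-t)`, positive argument) and with `A -> A * exp (-t)` (derivative `exp (-t)`),
`A -> (A + 2) * exp (-t)` (derivative `exp (-t)`); then simplify (`field_simp`). Watch the casts `((A : Real) : Complex)`.
-/

set_option autoImplicit false

noncomputable section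

namespace SL

open Filter Topology

theorem Id0_exp (A t : ℝ) :
    HasDerivAt (fun t : ℝ => A * Real.exp (-t)) (-(A * Real.exp (-t))) t := by
  have h1 : HasDerivAt (fun t : ℝ => Real.exp (-t)) (Real.exp (-t) * -1) t :=
    (Real.hasDerivAt_exp (-t)).comp t (hasDerivAt_neg t)
  have h2 := h1.const_mul A
  have e : A * (Real.exp (-t) * -1) = -(A * Real.exp (-t)) := by ring
  rwa [e] at h2

theorem Id0_lin (e c A : ℝ) : HasDerivAt (fun A : ℝ => (A + c) * e) e A := by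
  have h1 := ((hasDerivAt_id A).add_const c).mul_const e
  rwa [one_mul] at h1

theorem Id0_F (p : ℂ) {g : ℝ → ℝ} {g' t : ℝ} (hg : HasDerivAt g g' t) (h0 : 0 < g t) :
    HasDerivAt (fun t => F p (g t)) ((g' : ℂ) * (G p (g t) / (g t : ℂ))) t := by
  have h1 := (F_hd p h0).scomp t hg
  rwa [Complex.real_smul] at h1

theorem Id0_G (p : ℂ) {g : ℝ → ℝ} {g' t : ℝ} (hg : HasDerivAt g g' t) (h0 : 0 < g t) :
    HasDerivAt (fun t => G p (g t)) ((g' : ℂ) * ((2 / 3 * G p (g t) -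
      4 * (g t : ℂ) ^ 2 * F p (g t)) / (g t : ℂ))) t := by
  have h1 := (G_hd p h0).scomp t hg
  rwa [Complex.real_smul] at h1

theorem Id0_pos {A : ℝ} (hA : 0 < A) (t : ℝ) : 0 < A * Real.exp (-t) :=
  mul_pos hA (Real.exp_pos _)

theorem Id0_ne (t : ℝ) : (Real.exp (-t) : ℂ) ≠ 0 := by
  exact_mod_cast (Real.exp_pos (-t)).ne'

theorem F_t (p : ℂ) {A : ℝ} (hA : 0 < A) (t : ℝ) :
    HasDerivAt (fun t => F p (A * Real.exp (-t))) (-G p (A * Real.exp (-t))) t := by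
  have h := Id0_F p (Id0_exp A t) (Id0_pos hA t)
  have hA' : (A : ℂ) ≠ 0 := by exact_mod_cast hA.ne'
  have he := Id0_ne t
  have e : ((-(A * Real.exp (-t)) : ℝ) : ℂ) * (G p (A * Real.exp (-t)) /
      ((A * Real.exp (-t) : ℝ) : ℂ)) = -G p (A * Real.exp (-t)) := by
    rw [Complex.ofReal_neg, Complex.ofReal_mul]
    field_simp
  rwa [e] at h

theorem G_t (p : ℂ) {A : ℝ} (hA : 0 < A) (t : ℝ) :
    HasDerivAt (fun t => G p (A * Real.exp (-t)))
      (-(2 / 3 * G p (A * Real.exp (-t)) - 4 * (A : ℂ) ^ 2 * (Real.exp (-t) : ℂ) ^ 2 * F p (A * Real.exp (-t)))) t := by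
  have h := Id0_G p (Id0_exp A t) (Id0_pos hA t)
  have hA' : (A : ℂ) ≠ 0 := by exact_mod_cast hA.ne'
  have he := Id0_ne t
  have e : ((-(A * Real.exp (-t)) : ℝ) : ℂ) * ((2 / 3 * G p (A * Real.exp (-t)) -
      4 * ((A * Real.exp (-t) : ℝ) : ℂ) ^ 2 * F p (A * Real.exp (-t))) /
      ((A * Real.exp (-t) : ℝ) : ℂ)) = -(2 / 3 * G p (A * Real.exp (-t)) -
        4 * (A : ℂ) ^ 2 * (Real.exp (-t) : ℂ) ^ 2 * F p (A * Real.exp (-t))) := by
    rw [Complex.ofReal_neg, Complex.ofReal_mul]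
    field_simp
  rwa [e] at h

theorem F_A (p : ℂ) {A : ℝ} (hA : 0 < A) (t : ℝ) :
    HasDerivAt (fun A => F p (A * Real.exp (-t))) (G p (A * Real.exp (-t)) / A) A := by
  have h0 := Id0_lin (Real.exp (-t)) 0 A
  simp only [add_zero] at h0
  have h := Id0_F p h0 (Id0_pos hA t)
  have hA' : (A : ℂ) ≠ 0 := by exact_mod_cast hA.ne'
  have he := Id0_ne t
  have e : ((Real.exp (-t) : ℝ) : ℂ) * (G p (A * Real.exp (-t)) /
      ((A * Real.exp (-t) : ℝ) : ℂ)) = G p (A * Real.exp (-t)) / A := by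
    rw [Complex.ofReal_mul]
    field_simp
  rwa [e] at h

theorem G_A (p : ℂ) {A : ℝ} (hA : 0 < A) (t : ℝ) :
    HasDerivAt (fun A => G p (A * Real.exp (-t)))
      ((2 / 3 * G p (A * Real.exp (-t)) - 4 * (A : ℂ) ^ 2 * (Real.exp (-t) : ℂ) ^ 2 * F p (A * Real.exp (-t))) / A) A := by
  have h0 := Id0_lin (Real.exp (-t)) 0 A
  simp only [add_zero] at h0
  have h := Id0_G p h0 (Id0_pos hA t)
  have hA' : (A : ℂ) ≠ 0 := by exact_mod_cast hA.ne'
  have he := Id0_ne t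
  have e : ((Real.exp (-t) : ℝ) : ℂ) * ((2 / 3 * G p (A * Real.exp (-t)) -
      4 * ((A * Real.exp (-t) : ℝ) : ℂ) ^ 2 * F p (A * Real.exp (-t))) /
      ((A * Real.exp (-t) : ℝ) : ℂ)) = (2 / 3 * G p (A * Real.exp (-t)) -
        4 * (A : ℂ) ^ 2 * (Real.exp (-t) : ℂ) ^ 2 * F p (A * Real.exp (-t))) / A := by
    rw [Complex.ofReal_mul]
    field_simp
  rwa [e] at h

theorem F_A2 (p : ℂ) {A : ℝ} (hA : 0 < A) (t : ℝ) :
    HasDerivAt (fun A => F p ((A + 2) * Real.exp (-t))) (G p ((A + 2) * Real.exp (-t)) / (A + 2)) A := by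
  have h0 := Id0_lin (Real.exp (-t)) 2 A
  have hA2 : 0 < A + 2 := by linarith
  have h := Id0_F p h0 (Id0_pos hA2 t)
  have hA' : (A : ℂ) + 2 ≠ 0 := by exact_mod_cast hA2.ne'
  have he := Id0_ne t
  have e : ((Real.exp (-t) : ℝ) : ℂ) * (G p ((A + 2) * Real.exp (-t)) /
      (((A + 2) * Real.exp (-t) : ℝ) : ℂ)) = G p ((A + 2) * Real.exp (-t)) / (A + 2) := by
    rw [Complex.ofReal_mul, Complex.ofReal_add, Complex.ofReal_ofNat]
    field_simp
  rwa [e] at h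

theorem G_A2 (p : ℂ) {A : ℝ} (hA : 0 < A) (t : ℝ) :
    HasDerivAt (fun A => G p ((A + 2) * Real.exp (-t)))
      ((2 / 3 * G p ((A + 2) * Real.exp (-t)) -
        4 * ((A : ℂ) + 2) ^ 2 * (Real.exp (-t) : ℂ) ^ 2 * F p ((A + 2) * Real.exp (-t))) / (A + 2)) A := by
  have h0 := Id0_lin (Real.exp (-t)) 2 A
  have hA2 : 0 < A + 2 := by linarith
  have h := Id0_G p h0 (Id0_pos hA2 t)
  have hA' : (A : ℂ) + 2 ≠ 0 := by exact_mod_cast hA2.ne'
  have he := Id0_ne t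
  have e : ((Real.exp (-t) : ℝ) : ℂ) * ((2 / 3 * G p ((A + 2) * Real.exp (-t)) -
      4 * (((A + 2) * Real.exp (-t) : ℝ) : ℂ) ^ 2 * F p ((A + 2) * Real.exp (-t))) /
      (((A + 2) * Real.exp (-t) : ℝ) : ℂ)) = (2 / 3 * G p ((A + 2) * Real.exp (-t)) -
        4 * ((A : ℂ) + 2) ^ 2 * (Real.exp (-t) : ℂ) ^ 2 * F p ((A + 2) * Real.exp (-t))) /
          (A + 2) := by
    rw [Complex.ofReal_mul, Complex.ofReal_add, Complex.ofReal_ofNat]
    field_simp
  rwa [e] at h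

/-- the case `A = 1` written without the factor -/
theorem F_t1 (p : ℂ) (t : ℝ) : HasDerivAt (fun t => F p (Real.exp (-t))) (-G p (Real.exp (-t))) t := by
  have h := F_t p one_pos t
  simp only [one_mul] at h
  exact h

theorem G_t1 (p : ℂ) (t : ℝ) :
    HasDerivAt (fun t => G p (Real.exp (-t)))
      (-(2 / 3 * G p (Real.exp (-t)) - 4 * (Real.exp (-t) : ℂ) ^ 2 * F p (Real.exp (-t)))) t := by
  have h := G_t p one_pos t
  simp only [one_mul, Complex.ofReal_one, one_pow, mul_one] at h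
  exact h

theorem ex_t (t : ℝ) : HasDerivAt (fun t : ℝ => (Real.exp (-t) : ℂ)) (-(Real.exp (-t) : ℂ)) t := by
  have h := (Id0_exp 1 t).ofReal_comp
  simp only [one_mul, Complex.ofReal_neg] at h
  exact h

end SL
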