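import Pool.Agent.Lib.MP_216314_pr.SL.Id0

/-!
# SL/IdA: the derivatives in `A` (paper 5.3)

Proof. Product rule with `F_A, G_A, F_A2, G_A2` of Id0; compare by `field_simp; ring` after generalizing the values of `F`, `G`. `A <> 0`, `A + 2 <> 0` (as complex numbers too).
-/

set_option autoImplicit false

noncomputable section

namespace SL

open Filter Topology

theorem IdA_cast (A : ℝ) : HasDerivAt (fun A : ℝ => (A : ℂ)) 1 A := by
  have h := (hasDerivAt_id A).ofReal_comp
  rw [Complex.ofReal_one] at h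
  exact h

theorem Ph_dA (p q r : ℂ) {A : ℝ} (hA : 0 < A) (t : ℝ) :
    HasDerivAt (fun A => Ph p q r A t) (PhA p q r A t) A := by
  unfold Ph PhA
  have h := ((F_A p hA t).mul (F_A2 q hA t)).mul_const (F r (Real.exp (-t)) ^ 2)
  refine h.congr_deriv ?_
  ring

theorem PhA_dA (p q r : ℂ) {A : ℝ} (hA : 0 < A) (t : ℝ) :
    HasDerivAt (fun A => PhA p q r A t) (PhAA p q r A t) A := by
  unfold PhA PhAA
  have hA0 : (A : ℂ) ≠ 0 := by
    exact_mod_cast hA.ne'
  have hA2 : (A : ℂ) + 2 ≠ 0 := by
    have h : A + 2 ≠ 0 := by positivity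
    exact_mod_cast h
  have c1 := IdA_cast A
  have c2 := c1.add_const (2 : ℂ)
  have h1 := ((G_A p hA t).mul (F_A2 q hA t)).div c1 hA0
  have h2 := ((F_A p hA t).mul (G_A2 q hA t)).div c2 hA2
  have h := (h1.add h2).mul_const (F r (Real.exp (-t)) ^ 2)
  refine h.congr_deriv ?_
  simp only [Pi.mul_apply]
  generalize F p (A * Real.exp (-t)) = a1
  generalize F q ((A + 2) * Real.exp (-t)) = a2
  generalize G p (A * Real.exp (-t)) = b1
  generalize G q ((A + 2) * Real.exp (-t)) = b2
  generalize F r (Real.exp (-t)) = c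
  generalize (Real.exp (-t) : ℂ) = x
  field_simp
  ring

end SL
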