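import Pool.Agent.Lib.MP_216314_pr.SL.PairB

/-!
# SL/IdB: bounds for the expressions (paper 5.4)

Proof. Products of the bounds of `FG_bd` (applied to `(p, [A0, A1])`, `(q, [A0 + 2, A1 + 2])` with `A + 2`, `(r, [1, 1])` with `A = 1`).
`t >= 0` (`x <= 1`): `|F| <= K`, `|G| <= K e^{-2t/3}`, `x^2 = e^{-2t} <= e^{-2t/3}`; in `Xi`: `|F G G G| / (4 A L x^2) <= K e^{-2t} e^{2t} = K`, `|G| |G|^2 / x^2 <= K`.
`t <= 0` (`x >= 1`): `|F| <= K e^{t/6}`, `|G| <= K e^{-5t/6}`: `Ph`: `e^{4t/6}`; `PhA`: `e^{-5t/6 + 3t/6} = e^{-t/3}`; `PhAA`: `e^{-5t/6+t/2} = e^{-t/3} <= e^{-4t/3}`,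
`x^2 F F F F`: `e^{-2t + 2t/3} = e^{-4t/3}`, `G G F F`: `e^{-5t/3+t/3} = e^{-4t/3}`; `Xi`: `F G F F`: `e^{-t/3}`; `F G G G / x^2`: `e^{t/6 - 15t/6 + 2t} = e^{-t/3}`;
`G F G^2 / x^2`: the same; `hh`: `|G| / (2 A x) <= K e^{-5t/6 + t} = K e^{t/6}`: so every term of `dd0, dd2, dd4` is `<= K e^{4t/6}`.
`cP, cQ, cR, 1/A, 1/(A+2), 1/(A+1), qq` are bounded on `[A0, A1]`, `A0 > 0`.
-/

set_option autoImplicit false

noncomputable section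

namespace SL

open Filter Topology

/-- `‖z‖ <= c K^n u^m` -/
def IdB_B (K u c : ℝ) (n : ℕ) (m : ℤ) (z : ℂ) : Prop := ‖z‖ ≤ c * K ^ n * u ^ m

theorem IdB_mul {K u c1 c2 : ℝ} {n1 n2 : ℕ} {m1 m2 : ℤ} {z1 z2 : ℂ} (hu : 0 < u)
    (h1 : IdB_B K u c1 n1 m1 z1) (h2 : IdB_B K u c2 n2 m2 z2) :
    IdB_B K u (c1 * c2) (n1 + n2) (m1 + m2) (z1 * z2) := by
  unfold IdB_B at *
  rw [norm_mul, pow_add, zpow_add₀ hu.ne']
  calc ‖z1‖ * ‖z2‖ ≤ (c1 * K ^ n1 * u ^ m1) * (c2 * K ^ n2 * u ^ m2) :=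
        mul_le_mul h1 h2 (norm_nonneg _) (le_trans (norm_nonneg _) h1)
    _ = c1 * c2 * (K ^ n1 * K ^ n2) * (u ^ m1 * u ^ m2) := by ring

theorem IdB_add {K u c1 c2 : ℝ} {n : ℕ} {m : ℤ} {z1 z2 : ℂ}
    (h1 : IdB_B K u c1 n m z1) (h2 : IdB_B K u c2 n m z2) :
    IdB_B K u (c1 + c2) n m (z1 + z2) := by
  unfold IdB_B at *
  calc ‖z1 + z2‖ ≤ ‖z1‖ + ‖z2‖ := norm_add_le _ _
    _ ≤ c1 * K ^ n * u ^ m + c2 * K ^ n * u ^ m := add_le_add h1 h2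
    _ = (c1 + c2) * K ^ n * u ^ m := by ring

theorem IdB_neg {K u c : ℝ} {n : ℕ} {m : ℤ} {z : ℂ}
    (h : IdB_B K u c n m z) : IdB_B K u c n m (-z) := by
  unfold IdB_B at *
  rwa [norm_neg]

theorem IdB_sub {K u c1 c2 : ℝ} {n : ℕ} {m : ℤ} {z1 z2 : ℂ}
    (h1 : IdB_B K u c1 n m z1) (h2 : IdB_B K u c2 n m z2) :
    IdB_B K u (c1 + c2) n m (z1 - z2) := by
  rw [sub_eq_add_neg]
  exact IdB_add h1 (IdB_neg h2)

theorem IdB_mono {K u c c' : ℝ} {n n' : ℕ} {m m' : ℤ} {z : ℂ} (hK : 1 ≤ K) (hu : 0 < u) (hu1 : u ≤ 1)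
    (h : IdB_B K u c n m z) (hc : c ≤ c') (hc0 : 0 ≤ c') (hn : n ≤ n') (hm : m' ≤ m) : IdB_B K u c' n' m' z := by
  unfold IdB_B at *
  have hK0 : 0 < K := lt_of_lt_of_le one_pos hK
  have e1 : K ^ n ≤ K ^ n' := pow_le_pow_right₀ hK hn
  have e2 : u ^ m ≤ u ^ m' := zpow_le_zpow_right_of_le_one₀ hu hu1 hm
  have e3 : (0 : ℝ) < u ^ m := zpow_pos hu m
  calc ‖z‖ ≤ c * K ^ n * u ^ m := h
    _ ≤ c' * K ^ n' * u ^ m' := by
      apply mul_le_mul _ e2 e3.le (mul_nonneg hc0 (pow_nonneg hK0.le _))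
      exact mul_le_mul hc e1 (pow_nonneg hK0.le _) hc0

/-- the data at one point -/
structure IdB_D (K u A : ℝ) (a b s : ℤ) (f1 g1 f4 g4 f g e : ℂ) : Prop where
  hK : 1 ≤ K
  hu : 0 < u
  hu1 : u ≤ 1
  hA : 0 < A
  iA : A⁻¹ ≤ K
  sA : A + 1 ≤ K
  F1 : IdB_B K u 1 1 a f1
  F4 : IdB_B K u 1 1 a f4
  F0 : IdB_B K u 1 1 a f
  G1 : IdB_B K u 1 1 b g1
  G4 : IdB_B K u 1 1 b g4
  G0 : IdB_B K u 1 1 b g
  E2 : IdB_B K u 1 0 s (e ^ 2)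
  E2i : IdB_B K u 1 0 (-s) ((e ^ 2)⁻¹)

theorem IdB_cst {K u : ℝ} {z : ℂ} {r : ℝ} (hz : ‖z‖ ≤ r * K) : IdB_B K u r 1 0 z := by
  unfold IdB_B
  simpa using hz

theorem IdB_iA {K u A : ℝ} {a b s : ℤ} {f1 g1 f4 g4 f g e : ℂ} (D : IdB_D K u A a b s f1 g1 f4 g4 f g e) :
    IdB_B K u 1 1 0 ((A : ℂ)⁻¹) := by
  apply IdB_cst
  rw [norm_inv, Complex.norm_real, Real.norm_eq_abs, abs_of_pos D.hA, one_mul]
  exact D.iA

theorem IdB_i2 {K u A : ℝ} {a b s : ℤ} {f1 g1 f4 g4 f g e : ℂ} (D : IdB_D K u A a b s f1 g1 f4 g4 f g e) :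
    IdB_B K u 1 1 0 (((A : ℂ) + 2)⁻¹) := by
  apply IdB_cst
  have hA := D.hA
  have h2 : ((A : ℂ) + 2) = ((A + 2 : ℝ) : ℂ) := by push_cast; ring
  rw [h2, norm_inv, Complex.norm_real, Real.norm_eq_abs, abs_of_pos (by linarith), one_mul]
  exact le_trans (inv_anti₀ hA (by linarith)) D.iA

theorem IdB_i1 {K u A : ℝ} {a b s : ℤ} {f1 g1 f4 g4 f g e : ℂ} (D : IdB_D K u A a b s f1 g1 f4 g4 f g e) :
    IdB_B K u 1 1 0 (((A : ℂ) + 1)⁻¹) := by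
  apply IdB_cst
  have hA := D.hA
  have h2 : ((A : ℂ) + 1) = ((A + 1 : ℝ) : ℂ) := by push_cast; ring
  rw [h2, norm_inv, Complex.norm_real, Real.norm_eq_abs, abs_of_pos (by linarith), one_mul]
  exact le_trans (inv_anti₀ hA (by linarith)) D.iA

theorem IdB_s1 {K u A : ℝ} {a b s : ℤ} {f1 g1 f4 g4 f g e : ℂ} (D : IdB_D K u A a b s f1 g1 f4 g4 f g e) :
    IdB_B K u 1 1 0 ((A : ℂ) + 1) := by
  apply IdB_cst
  have hA := D.hA
  have h2 : ((A : ℂ) + 1) = ((A + 1 : ℝ) : ℂ) := by push_cast; ring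
  rw [h2, Complex.norm_real, Real.norm_eq_abs, abs_of_pos (by linarith), one_mul]
  exact D.sA

theorem IdB_num {K u : ℝ} {z : ℂ} {r : ℝ} (hz : ‖z‖ ≤ r) : IdB_B K u r 0 0 z := by
  unfold IdB_B
  simpa using hz

/-- `Ph` -/
theorem IdB_Ph {K u A : ℝ} {a b s : ℤ} {f1 g1 f4 g4 f g e : ℂ} (D : IdB_D K u A a b s f1 g1 f4 g4 f g e) :
    IdB_B K u 1 4 (4 * a) (f1 * f4 * f ^ 2) := by
  have h := IdB_mul D.hu (IdB_mul D.hu D.F1 D.F4) (IdB_mul D.hu D.F0 D.F0)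
  rw [← sq f] at h
  apply IdB_mono D.hK D.hu D.hu1 h (by norm_num) (by norm_num) (by norm_num) (by linarith)

/-- `PhA` -/
theorem IdB_PhA {K u A : ℝ} {a b s : ℤ} {f1 g1 f4 g4 f g e : ℂ} (D : IdB_D K u A a b s f1 g1 f4 g4 f g e) :
    IdB_B K u 2 5 (3 * a + b) ((g1 * f4 / A + f1 * g4 / (A + 2)) * f ^ 2) := by
  have h1 := IdB_mul D.hu (IdB_mul D.hu D.G1 D.F4) (IdB_iA D)
  have h2 := IdB_mul D.hu (IdB_mul D.hu D.F1 D.G4) (IdB_i2 D)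
  rw [← div_eq_mul_inv] at h1 h2
  have h1' : IdB_B K u 1 3 (a + b) (g1 * f4 / A) :=
    IdB_mono D.hK D.hu D.hu1 h1 (by norm_num) (by norm_num) (by norm_num) (by linarith)
  have h2' : IdB_B K u 1 3 (a + b) (f1 * g4 / (A + 2)) :=
    IdB_mono D.hK D.hu D.hu1 h2 (by norm_num) (by norm_num) (by norm_num) (by linarith)
  have h := IdB_mul D.hu (IdB_add h1' h2') (IdB_mul D.hu D.F0 D.F0)
  rw [← sq f] at h
  apply IdB_mono D.hK D.hu D.hu1 h (by norm_num) (by norm_num) (by norm_num) (by linarith)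

/-- `PhAA` -/
theorem IdB_PhAA {K u A : ℝ} {a b s : ℤ} {f1 g1 f4 g4 f g e : ℂ} (D : IdB_D K u A a b s f1 g1 f4 g4 f g e)
    {m : ℤ} (h1m : m ≤ 3 * a + b) (h2m : m ≤ 2 * a + 2 * b) (h3m : m ≤ 4 * a + s) :
    IdB_B K u 12 8 m (((-g1 / (3 * A ^ 2) - 4 * e ^ 2 * f1) * f4 + 2 * g1 * g4 / (A * (A + 2)) +
      f1 * (-g4 / (3 * (A + 2) ^ 2) - 4 * e ^ 2 * f4)) * f ^ 2) := by
  have n3 : IdB_B K u 1 0 0 ((3 : ℂ)⁻¹) := IdB_num (by
    rw [norm_inv]; norm_num)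
  have n4 : IdB_B K u 4 0 0 (4 : ℂ) := IdB_num (by norm_num)
  have n2 : IdB_B K u 2 0 0 (2 : ℂ) := IdB_num (by norm_num)
  have ff := IdB_mul D.hu D.F0 D.F0
  rw [← sq f] at ff
  -- the monomials
  have t1 := IdB_mul D.hu (IdB_mul D.hu (IdB_mul D.hu (IdB_neg D.G1)
    (IdB_mul D.hu n3 (IdB_mul D.hu (IdB_iA D) (IdB_iA D)))) D.F4) ff
  have t2 := IdB_mul D.hu (IdB_mul D.hu (IdB_mul D.hu (IdB_mul D.hu n4 D.E2) D.F1) D.F4) ff
  have t3 := IdB_mul D.hu (IdB_mul D.hu (IdB_mul D.hu (IdB_mul D.hu n2 D.G1) D.G4)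
    (IdB_mul D.hu (IdB_iA D) (IdB_i2 D))) ff
  have t4 := IdB_mul D.hu (IdB_mul D.hu D.F1 (IdB_mul D.hu (IdB_neg D.G4)
    (IdB_mul D.hu n3 (IdB_mul D.hu (IdB_i2 D) (IdB_i2 D))))) ff
  have t5 := IdB_mul D.hu (IdB_mul D.hu D.F1 (IdB_mul D.hu (IdB_mul D.hu n4 D.E2) D.F4)) ff
  have s1 := IdB_mono (c' := 1) (n' := 8) (m' := m) D.hK D.hu D.hu1 t1 (by norm_num) (by norm_num) (by norm_num) (by linarith)
  have s2 := IdB_mono (c' := 4) (n' := 8) (m' := m) D.hK D.hu D.hu1 t2 (by norm_num) (by norm_num) (by norm_num) (by linarith)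
  have s3 := IdB_mono (c' := 2) (n' := 8) (m' := m) D.hK D.hu D.hu1 t3 (by norm_num) (by norm_num) (by norm_num) (by linarith)
  have s4 := IdB_mono (c' := 1) (n' := 8) (m' := m) D.hK D.hu D.hu1 t4 (by norm_num) (by norm_num) (by norm_num) (by linarith)
  have s5 := IdB_mono (c' := 4) (n' := 8) (m' := m) D.hK D.hu D.hu1 t5 (by norm_num) (by norm_num) (by norm_num) (by linarith)
  have key := IdB_sub (IdB_add (IdB_add (IdB_sub s1 s2) s3) s4) s5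
  have hE : (((-g1 / (3 * A ^ 2) - 4 * e ^ 2 * f1) * f4 + 2 * g1 * g4 / (A * (A + 2)) +
      f1 * (-g4 / (3 * (A + 2) ^ 2) - 4 * e ^ 2 * f4)) * f ^ 2) =
      -g1 * (3⁻¹ * ((A : ℂ)⁻¹ * (A : ℂ)⁻¹)) * f4 * f ^ 2 - 4 * e ^ 2 * f1 * f4 * f ^ 2 +
      2 * g1 * g4 * ((A : ℂ)⁻¹ * ((A : ℂ) + 2)⁻¹) * f ^ 2 +
      f1 * (-g4 * (3⁻¹ * (((A : ℂ) + 2)⁻¹ * ((A : ℂ) + 2)⁻¹))) * f ^ 2 -
      f1 * (4 * e ^ 2 * f4) * f ^ 2 := by
    simp only [div_eq_mul_inv, mul_inv, ← inv_pow]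
    ring
  rw [hE]
  exact IdB_mono D.hK D.hu D.hu1 key (by norm_num) (by norm_num) (by norm_num) (by linarith)

/-- `Xi` -/
theorem IdB_Xi {K u A : ℝ} {a b s : ℤ} {f1 g1 f4 g4 f g e : ℂ} (D : IdB_D K u A a b s f1 g1 f4 g4 f g e)
    {m : ℤ} (h1m : m ≤ 4 * a) (h2m : m ≤ 3 * a + b) (h3m : m ≤ a + 3 * b - s) :
    IdB_B K u 9 6 m (f1 * f4 * f ^ 2 / 3 + (A + 1) * ((g1 * f4 / A + f1 * g4 / (A + 2)) * f ^ 2) -
      f * g * f1 * f4 + f * g * g1 * g4 / (4 * A * (A + 2) * e ^ 2) -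
      1 / (2 * (A + 1)) * (g1 * f4 / A + f1 * g4 / (A + 2)) * (g ^ 2 / (4 * e ^ 2) + f ^ 2)) := by
  have n3 : IdB_B K u 1 0 0 ((3 : ℂ)⁻¹) := IdB_num (by
    rw [norm_inv]; norm_num)
  have n4 : IdB_B K u 1 0 0 ((4 : ℂ)⁻¹) := IdB_num (by
    rw [norm_inv]; norm_num)
  have n2 : IdB_B K u 1 0 0 ((2 : ℂ)⁻¹) := IdB_num (by
    rw [norm_inv]; norm_num)
  have ff := IdB_mul D.hu D.F0 D.F0
  have gg := IdB_mul D.hu D.G0 D.G0
  rw [← sq f] at ff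
  rw [← sq g] at gg
  have h1 := IdB_mul D.hu (IdB_mul D.hu D.G1 D.F4) (IdB_iA D)
  have h2 := IdB_mul D.hu (IdB_mul D.hu D.F1 D.G4) (IdB_i2 D)
  rw [← div_eq_mul_inv] at h1 h2
  have h1' : IdB_B K u 1 3 (a + b) (g1 * f4 / A) :=
    IdB_mono D.hK D.hu D.hu1 h1 (by norm_num) (by norm_num) (by norm_num) (by linarith)
  have h2' : IdB_B K u 1 3 (a + b) (f1 * g4 / (A + 2)) :=
    IdB_mono D.hK D.hu D.hu1 h2 (by norm_num) (by norm_num) (by norm_num) (by linarith)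
  have h12 := IdB_add h1' h2'
  have t1 := IdB_mul D.hu (IdB_Ph D) n3
  rw [← div_eq_mul_inv] at t1
  have t2 := IdB_mul D.hu (IdB_s1 D) (IdB_PhA D)
  have t3 := IdB_mul D.hu (IdB_mul D.hu (IdB_mul D.hu D.F0 D.G0) D.F1) D.F4
  have t4 := IdB_mul D.hu (IdB_mul D.hu (IdB_mul D.hu (IdB_mul D.hu D.F0 D.G0) D.G1) D.G4)
    (IdB_mul D.hu (IdB_mul D.hu (IdB_mul D.hu n4 (IdB_iA D)) (IdB_i2 D)) D.E2i)
  rw [← mul_inv, ← mul_inv, ← mul_inv, ← div_eq_mul_inv] at t4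
  have gE := IdB_mul D.hu gg (IdB_mul D.hu n4 D.E2i)
  have t5 := IdB_mul D.hu (IdB_mul D.hu (IdB_mul D.hu n2 (IdB_i1 D)) h12) gE
  have t6 := IdB_mul D.hu (IdB_mul D.hu (IdB_mul D.hu n2 (IdB_i1 D)) h12) ff
  have s1 := IdB_mono (c' := 1) (n' := 6) (m' := m) D.hK D.hu D.hu1 t1 (by norm_num) (by norm_num) (by norm_num) (by linarith)
  have s2 := IdB_mono (c' := 2) (n' := 6) (m' := m) D.hK D.hu D.hu1 t2 (by norm_num) (by norm_num) (by norm_num) (by linarith)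
  have s3 := IdB_mono (c' := 1) (n' := 6) (m' := m) D.hK D.hu D.hu1 t3 (by norm_num) (by norm_num) (by norm_num) (by linarith)
  have s4 := IdB_mono (c' := 1) (n' := 6) (m' := m) D.hK D.hu D.hu1 t4 (by norm_num) (by norm_num) (by norm_num) (by linarith)
  have s5 := IdB_mono (c' := 2) (n' := 6) (m' := m) D.hK D.hu D.hu1 t5 (by norm_num) (by norm_num) (by norm_num) (by linarith)
  have s6 := IdB_mono (c' := 2) (n' := 6) (m' := m) D.hK D.hu D.hu1 t6 (by norm_num) (by norm_num) (by norm_num) (by linarith)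
  have key := IdB_sub (IdB_sub (IdB_add (IdB_sub (IdB_add s1 s2) s3) s4) s5) s6
  have hE : (f1 * f4 * f ^ 2 / 3 + (A + 1) * ((g1 * f4 / A + f1 * g4 / (A + 2)) * f ^ 2) -
      f * g * f1 * f4 + f * g * g1 * g4 / (4 * A * (A + 2) * e ^ 2) -
      1 / (2 * (A + 1)) * (g1 * f4 / A + f1 * g4 / (A + 2)) * (g ^ 2 / (4 * e ^ 2) + f ^ 2)) =
      f1 * f4 * f ^ 2 / 3 + (A + 1) * ((g1 * f4 / A + f1 * g4 / (A + 2)) * f ^ 2) -
      f * g * f1 * f4 + f * g * g1 * g4 / (4 * A * (A + 2) * e ^ 2) -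
      2⁻¹ * ((A : ℂ) + 1)⁻¹ * (g1 * f4 / A + f1 * g4 / (A + 2)) * (g ^ 2 * (4⁻¹ * (e ^ 2)⁻¹)) -
      2⁻¹ * ((A : ℂ) + 1)⁻¹ * (g1 * f4 / A + f1 * g4 / (A + 2)) * f ^ 2 := by
    rw [show (1 : ℂ) / (2 * (A + 1)) = 2⁻¹ * ((A : ℂ) + 1)⁻¹ from by rw [one_div, mul_inv],
      show g ^ 2 / (4 * e ^ 2) = g ^ 2 * (4⁻¹ * (e ^ 2)⁻¹) from by rw [div_eq_mul_inv, mul_inv]]
    ring
  rw [hE]
  exact IdB_mono D.hK D.hu D.hu1 key (by norm_num) (by norm_num) (by norm_num) (by linarith)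

/-- the six monomials of `mm`, `nn` -/
theorem IdB_dd {K u A : ℝ} {a b s : ℤ} {f1 g1 f4 g4 f g e : ℂ} (D : IdB_D K u A a b s f1 g1 f4 g4 f g e)
    {h1 h4 h c1 c2 c3 : ℂ} (H1 : IdB_B K u 1 2 a h1) (H4 : IdB_B K u 1 2 a h4) (H0 : IdB_B K u 1 2 a h)
    (C1 : IdB_B K u 1 4 0 c1) (C2 : IdB_B K u 1 4 0 c2) (C3 : IdB_B K u 1 3 0 c3) :
    IdB_B K u 1 12 (4 * a) (f1 * f4 * f ^ 2 * c1) ∧
    IdB_B K u 4 12 (4 * a) (-(h1 * h4) * f ^ 2 * c1 + f1 * f4 * h ^ 2 * c2 + c3 * f * h * (h1 * f4 + f1 * h4)) ∧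
    IdB_B K u 1 12 (4 * a) (-(h1 * h4) * h ^ 2 * c2) := by
  have ff := IdB_mul D.hu D.F0 D.F0
  rw [← sq f] at ff
  have hh := IdB_mul D.hu H0 H0
  rw [← sq h] at hh
  have t0 := IdB_mul D.hu (IdB_Ph D) C1
  have t1 := IdB_mul D.hu (IdB_mul D.hu (IdB_neg (IdB_mul D.hu H1 H4)) ff) C1
  have t2 := IdB_mul D.hu (IdB_mul D.hu (IdB_mul D.hu D.F1 D.F4) hh) C2
  have t3 := IdB_mul D.hu (IdB_mul D.hu (IdB_mul D.hu C3 D.F0) H0) (IdB_mul D.hu H1 D.F4)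
  have t4 := IdB_mul D.hu (IdB_mul D.hu (IdB_mul D.hu C3 D.F0) H0) (IdB_mul D.hu D.F1 H4)
  have t5 := IdB_mul D.hu (IdB_mul D.hu (IdB_neg (IdB_mul D.hu H1 H4)) hh) C2
  have s0 := IdB_mono (c' := 1) (n' := 12) (m' := 4 * a) D.hK D.hu D.hu1 t0 (by norm_num) (by norm_num) (by norm_num) (by linarith)
  have s1 := IdB_mono (c' := 1) (n' := 12) (m' := 4 * a) D.hK D.hu D.hu1 t1 (by norm_num) (by norm_num) (by norm_num) (by linarith)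
  have s2 := IdB_mono (c' := 1) (n' := 12) (m' := 4 * a) D.hK D.hu D.hu1 t2 (by norm_num) (by norm_num) (by norm_num) (by linarith)
  have s3 := IdB_mono (c' := 1) (n' := 12) (m' := 4 * a) D.hK D.hu D.hu1 t3 (by norm_num) (by norm_num) (by norm_num) (by linarith)
  have s4 := IdB_mono (c' := 1) (n' := 12) (m' := 4 * a) D.hK D.hu D.hu1 t4 (by norm_num) (by norm_num) (by norm_num) (by linarith)
  have s5 := IdB_mono (c' := 1) (n' := 12) (m' := 4 * a) D.hK D.hu D.hu1 t5 (by norm_num) (by norm_num) (by norm_num) (by linarith)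
  refine ⟨s0, ?_, s5⟩
  have key := IdB_add (IdB_add (IdB_add s1 s2) s3) s4
  have hE : (-(h1 * h4) * f ^ 2 * c1 + f1 * f4 * h ^ 2 * c2 + c3 * f * h * (h1 * f4 + f1 * h4)) =
      -(h1 * h4) * f ^ 2 * c1 + f1 * f4 * h ^ 2 * c2 + c3 * f * h * (h1 * f4) + c3 * f * h * (f1 * h4) := by ring
  rw [hE]
  exact IdB_mono D.hK D.hu D.hu1 key (by norm_num) (by norm_num) (by norm_num) (by linarith)

/-- the real coefficients -/
theorem IdB_real {K u r : ℝ} {n : ℕ} (hr : |r| ≤ K ^ n) : IdB_B K u 1 n 0 ((r : ℝ) : ℂ) := by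
  unfold IdB_B
  rw [Complex.norm_real, Real.norm_eq_abs]
  simpa using hr

theorem IdB_cP {A : ℝ} (hA : 0 < A) : 0 ≤ cP A ∧ cP A ≤ 1 / 4 := by
  unfold cP
  constructor
  · positivity
  · rw [div_le_iff₀ (by positivity)]
    nlinarith

theorem IdB_cQ {K A : ℝ} (hK : 1 ≤ K) (hA : 0 < A) (iA : A⁻¹ ≤ K) (sA : A + 1 ≤ K) :
    0 ≤ cQ A ∧ cQ A ≤ K ^ 4 / 2 := by
  unfold cQ
  constructor
  · positivity
  · have i2 : (A + 2)⁻¹ ≤ K := le_trans (inv_anti₀ hA (by linarith)) iA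
    have e : ((A + 1) ^ 2 + 1) / (4 * (A * (A + 2))) = ((A + 1) ^ 2 + 1) / 4 * (A⁻¹ * (A + 2)⁻¹) := by
      field_simp
    rw [e]
    have hK0 : 0 < K := lt_of_lt_of_le one_pos hK
    have e1 : ((A + 1) ^ 2 + 1) / 4 ≤ K ^ 2 / 2 := by nlinarith
    have e2 : A⁻¹ * (A + 2)⁻¹ ≤ K * K := mul_le_mul iA i2 (by positivity) hK0.le
    calc ((A + 1) ^ 2 + 1) / 4 * (A⁻¹ * (A + 2)⁻¹) ≤ (K ^ 2 / 2) * (K * K) :=
          mul_le_mul e1 e2 (by positivity) (by positivity)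
      _ = K ^ 4 / 2 := by ring

theorem IdB_cR {K A : ℝ} (hK : 1 ≤ K) (hA : 0 < A) (iA : A⁻¹ ≤ K) (sA : A + 1 ≤ K) : |cR A| ≤ K ^ 3 := by
  unfold cR
  have i2 : (A + 2)⁻¹ ≤ K := le_trans (inv_anti₀ hA (by linarith)) iA
  have hK0 : 0 < K := lt_of_lt_of_le one_pos hK
  rw [abs_of_nonneg (by positivity), div_eq_mul_inv, mul_inv]
  calc (A + 1) * (A⁻¹ * (A + 2)⁻¹) ≤ K * (K * K) :=
        mul_le_mul sA (mul_le_mul iA i2 (by positivity) hK0.le) (by positivity) hK0.le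
    _ = K ^ 3 := by ring

theorem IdB_exp (x : ℝ) (n : ℤ) : Real.exp x ^ n = Real.exp (x * n) := by
  rw [Real.exp_mul, Real.rpow_intCast]

/-- the data for `t >= 0` -/
theorem IdB_pos (p q r : ℂ) {A0 A1 : ℝ} (h0 : 0 < A0) : ∃ K : ℝ, 1 ≤ K ∧ ∀ A ∈ Set.Icc A0 A1, ∀ t : ℝ, 0 ≤ t →
    IdB_D K (Real.exp (-(2 / 3 * t))) A 0 1 3 (F p (A * Real.exp (-t))) (G p (A * Real.exp (-t)))
      (F q ((A + 2) * Real.exp (-t))) (G q ((A + 2) * Real.exp (-t))) (F r (Real.exp (-t))) (G r (Real.exp (-t)))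
      ((Real.exp (-t) : ℝ) : ℂ) := by
  obtain ⟨K1, hK1, b1⟩ := FG_bd p (A0 := A0) (A1 := A1) h0
  obtain ⟨K2, hK2, b2⟩ := FG_bd q (A0 := A0 + 2) (A1 := A1 + 2) (by linarith)
  obtain ⟨K3, hK3, b3⟩ := FG_bd r (A0 := 1) (A1 := 1) one_pos
  refine ⟨1 + K1 + K2 + K3 + A0⁻¹ + |A1|, ?_, ?_⟩
  · have : 0 < A0⁻¹ := inv_pos.mpr h0
    have := abs_nonneg A1
    linarith
  intro A hA t ht
  obtain ⟨a1, a2⟩ := hA
  have hA0 : 0 < A := lt_of_lt_of_le h0 a1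
  have c1 := (b1 A ⟨a1, a2⟩ t).1 ht
  have c2 := (b2 (A + 2) ⟨by linarith, by linarith⟩ t).1 ht
  have c3 := (b3 1 ⟨le_refl _, le_refl _⟩ t).1 ht
  rw [one_mul] at c3
  have i0 : 0 < A0⁻¹ := inv_pos.mpr h0
  have i1 := abs_nonneg A1
  have i2 : A ≤ |A1| := le_trans a2 (le_abs_self _)
  have i3 : A⁻¹ ≤ A0⁻¹ := inv_anti₀ h0 a1
  have hu : 0 < Real.exp (-(2 / 3 * t)) := Real.exp_pos _
  have hEu : Real.exp (-t) ^ 2 = Real.exp (-(2 / 3 * t)) ^ (3 : ℤ) := by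
    rw [← Real.exp_nat_mul, zpow_ofNat, ← Real.exp_nat_mul]
    ring_nf
  refine ⟨by linarith, hu, ?_, hA0, by linarith, by linarith, ?_, ?_, ?_, ?_, ?_, ?_, ?_, ?_⟩
  · rw [Real.exp_le_one_iff]; linarith
  · unfold IdB_B; rw [zpow_zero, one_mul, pow_one, mul_one]; linarith [c1.1]
  · unfold IdB_B; rw [zpow_zero, one_mul, pow_one, mul_one]; linarith [c2.1]
  · unfold IdB_B; rw [zpow_zero, one_mul, pow_one, mul_one]; linarith [c3.1]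
  · unfold IdB_B; rw [zpow_one, one_mul, pow_one]
    exact le_trans c1.2 (mul_le_mul_of_nonneg_right (by linarith) hu.le)
  · unfold IdB_B; rw [zpow_one, one_mul, pow_one]
    exact le_trans c2.2 (mul_le_mul_of_nonneg_right (by linarith) hu.le)
  · unfold IdB_B; rw [zpow_one, one_mul, pow_one]
    exact le_trans c3.2 (mul_le_mul_of_nonneg_right (by linarith) hu.le)
  · unfold IdB_B
    rw [norm_pow, Complex.norm_real, Real.norm_eq_abs, abs_of_pos (Real.exp_pos _), hEu, pow_zero, one_mul, one_mul]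
  · unfold IdB_B
    rw [norm_inv, norm_pow, Complex.norm_real, Real.norm_eq_abs, abs_of_pos (Real.exp_pos _), hEu, pow_zero, one_mul,
      one_mul, ← zpow_neg]

/-- the data for `t <= 0` -/
theorem IdB_nonpos (p q r : ℂ) {A0 A1 : ℝ} (h0 : 0 < A0) : ∃ K : ℝ, 1 ≤ K ∧ ∀ A ∈ Set.Icc A0 A1, ∀ t : ℝ, t ≤ 0 →
    IdB_D K (Real.exp (1 / 6 * t)) A 1 (-5) (-12) (F p (A * Real.exp (-t))) (G p (A * Real.exp (-t)))
      (F q ((A + 2) * Real.exp (-t))) (G q ((A + 2) * Real.exp (-t))) (F r (Real.exp (-t))) (G r (Real.exp (-t)))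
      ((Real.exp (-t) : ℝ) : ℂ) := by
  obtain ⟨K1, hK1, b1⟩ := FG_bd p (A0 := A0) (A1 := A1) h0
  obtain ⟨K2, hK2, b2⟩ := FG_bd q (A0 := A0 + 2) (A1 := A1 + 2) (by linarith)
  obtain ⟨K3, hK3, b3⟩ := FG_bd r (A0 := 1) (A1 := 1) one_pos
  refine ⟨1 + K1 + K2 + K3 + A0⁻¹ + |A1|, ?_, ?_⟩
  · have : 0 < A0⁻¹ := inv_pos.mpr h0
    have := abs_nonneg A1
    linarith
  intro A hA t ht
  obtain ⟨a1, a2⟩ := hA
  have hA0 : 0 < A := lt_of_lt_of_le h0 a1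
  have c1 := (b1 A ⟨a1, a2⟩ t).2 ht
  have c2 := (b2 (A + 2) ⟨by linarith, by linarith⟩ t).2 ht
  have c3 := (b3 1 ⟨le_refl _, le_refl _⟩ t).2 ht
  rw [one_mul] at c3
  have i0 : 0 < A0⁻¹ := inv_pos.mpr h0
  have i1 := abs_nonneg A1
  have i2 : A ≤ |A1| := le_trans a2 (le_abs_self _)
  have i3 : A⁻¹ ≤ A0⁻¹ := inv_anti₀ h0 a1
  have hu : 0 < Real.exp (1 / 6 * t) := Real.exp_pos _
  have h5 : Real.exp (-(5 / 6 * t)) = Real.exp (1 / 6 * t) ^ (-5 : ℤ) := by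
    rw [IdB_exp]
    push_cast
    ring_nf
  have hEu : Real.exp (-t) ^ 2 = Real.exp (1 / 6 * t) ^ (-12 : ℤ) := by
    rw [← Real.exp_nat_mul, IdB_exp]
    push_cast
    ring_nf
  have h5p : 0 < Real.exp (1 / 6 * t) ^ (-5 : ℤ) := zpow_pos hu _
  rw [h5] at c1 c2 c3
  refine ⟨by linarith, hu, ?_, hA0, by linarith, by linarith, ?_, ?_, ?_, ?_, ?_, ?_, ?_, ?_⟩
  · rw [Real.exp_le_one_iff]; linarith
  · unfold IdB_B; rw [zpow_one, one_mul, pow_one]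
    exact le_trans c1.1 (mul_le_mul_of_nonneg_right (by linarith) hu.le)
  · unfold IdB_B; rw [zpow_one, one_mul, pow_one]
    exact le_trans c2.1 (mul_le_mul_of_nonneg_right (by linarith) hu.le)
  · unfold IdB_B; rw [zpow_one, one_mul, pow_one]
    exact le_trans c3.1 (mul_le_mul_of_nonneg_right (by linarith) hu.le)
  · unfold IdB_B; rw [one_mul, pow_one]
    exact le_trans c1.2 (mul_le_mul_of_nonneg_right (by linarith) h5p.le)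
  · unfold IdB_B; rw [one_mul, pow_one]
    exact le_trans c2.2 (mul_le_mul_of_nonneg_right (by linarith) h5p.le)
  · unfold IdB_B; rw [one_mul, pow_one]
    exact le_trans c3.2 (mul_le_mul_of_nonneg_right (by linarith) h5p.le)
  · unfold IdB_B
    rw [norm_pow, Complex.norm_real, Real.norm_eq_abs, abs_of_pos (Real.exp_pos _), hEu, pow_zero, one_mul, one_mul]
  · unfold IdB_B
    rw [norm_inv, norm_pow, Complex.norm_real, Real.norm_eq_abs, abs_of_pos (Real.exp_pos _), hEu, pow_zero, one_mul,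
      one_mul, ← zpow_neg]

/-- `G / (2 B x)` -/
theorem IdB_h {K u : ℝ} {B t : ℝ} {g : ℂ} (hK : 1 ≤ K) (hu : 0 < u) (hB : 0 < B) (iB : B⁻¹ ≤ K)
    (hE : Real.exp (-t) = u ^ (-6 : ℤ)) (hg : IdB_B K u 1 1 (-5) g) :
    IdB_B K u 1 2 1 (g / (2 * ((B : ℝ) : ℂ) * ((Real.exp (-t) : ℝ) : ℂ))) := by
  have hK0 : 0 < K := lt_of_lt_of_le one_pos hK
  unfold IdB_B at *
  rw [norm_div, norm_mul, norm_mul, Complex.norm_real, Complex.norm_real, Real.norm_eq_abs, Real.norm_eq_abs,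
    abs_of_pos hB, abs_of_pos (Real.exp_pos _), hE, show ‖(2 : ℂ)‖ = 2 from by norm_num, div_eq_mul_inv, mul_inv, mul_inv,
    ← zpow_neg, one_mul, zpow_one]
  rw [one_mul, pow_one] at hg
  have e1 : (u ^ (-5 : ℤ)) * u ^ (-(-6 : ℤ)) = u := by
    rw [← zpow_add₀ hu.ne']
    norm_num
  have hu6 : 0 < u ^ (-(-6 : ℤ)) := zpow_pos hu _
  have hiB : 0 < B⁻¹ := inv_pos.mpr hB
  calc ‖g‖ * (2⁻¹ * B⁻¹ * u ^ (-(-6 : ℤ))) ≤ (K * u ^ (-5 : ℤ)) * (1 * K * u ^ (-(-6 : ℤ))) := by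
        apply mul_le_mul hg _ (by positivity) (by positivity)
        apply mul_le_mul_of_nonneg_right _ hu6.le
        exact mul_le_mul (by norm_num) iB hiB.le (by norm_num)
    _ = K ^ 2 * ((u ^ (-5 : ℤ)) * u ^ (-(-6 : ℤ))) := by ring
    _ = K ^ 2 * u := by rw [e1]

theorem Id_bd_pos (p q r : ℂ) {A0 A1 : ℝ} (h0 : 0 < A0) : ∃ K : ℝ, 0 < K ∧ ∀ A ∈ Set.Icc A0 A1, ∀ t : ℝ, 0 ≤ t →
    ‖PhA p q r A t‖ ≤ K * Real.exp (-(2 / 3 * t)) ∧ ‖PhAA p q r A t‖ ≤ K * Real.exp (-(2 / 3 * t)) ∧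
      ‖Xi p q r A t‖ ≤ K := by
  obtain ⟨K, hK, hD⟩ := IdB_pos p q r (A0 := A0) (A1 := A1) h0
  have hK0 : 0 < K := lt_of_lt_of_le one_pos hK
  refine ⟨2 * K ^ 5 + 12 * K ^ 8 + 9 * K ^ 6, by positivity, ?_⟩
  intro A hA t ht
  have D := hD A hA t ht
  have hu := D.hu
  refine ⟨?_, ?_, ?_⟩
  · have h := IdB_PhA D
    unfold IdB_B at h
    rw [show (3 * 0 + 1 : ℤ) = 1 from by norm_num, zpow_one] at h
    refine le_trans (le_of_eq rfl) (le_trans h (mul_le_mul_of_nonneg_right ?_ hu.le))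
    have : 0 < K ^ 8 := by positivity
    have : 0 < K ^ 6 := by positivity
    linarith
  · have h := IdB_PhAA D (m := 1) (by norm_num) (by norm_num) (by norm_num)
    unfold IdB_B at h
    rw [zpow_one] at h
    refine le_trans (le_of_eq rfl) (le_trans h (mul_le_mul_of_nonneg_right ?_ hu.le))
    have : 0 < K ^ 5 := by positivity
    have : 0 < K ^ 6 := by positivity
    linarith
  · have h := IdB_Xi D (m := 0) (by norm_num) (by norm_num) (by norm_num)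
    unfold IdB_B at h
    rw [zpow_zero, mul_one] at h
    refine le_trans (le_of_eq rfl) (le_trans h ?_)
    have : 0 < K ^ 5 := by positivity
    have : 0 < K ^ 8 := by positivity
    linarith

theorem Id_bd_neg (p q r : ℂ) {A0 A1 : ℝ} (h0 : 0 < A0) : ∃ K : ℝ, 0 < K ∧ ∀ A ∈ Set.Icc A0 A1, ∀ t : ℝ, t ≤ 0 →
    ‖Ph p q r A t‖ ≤ K * Real.exp (2 / 3 * t) ∧ ‖PhA p q r A t‖ ≤ K * Real.exp (-(1 / 3 * t)) ∧
      ‖PhAA p q r A t‖ ≤ K * Real.exp (-(4 / 3 * t)) ∧ ‖Xi p q r A t‖ ≤ K * Real.exp (-(1 / 3 * t)) := by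
  obtain ⟨K, hK, hD⟩ := IdB_nonpos p q r (A0 := A0) (A1 := A1) h0
  have hK0 : 0 < K := lt_of_lt_of_le one_pos hK
  have k4 : 0 < K ^ 4 := by positivity
  have k5 : 0 < K ^ 5 := by positivity
  have k6 : 0 < K ^ 6 := by positivity
  have k8 : 0 < K ^ 8 := by positivity
  refine ⟨K ^ 4 + 2 * K ^ 5 + 12 * K ^ 8 + 9 * K ^ 6, by positivity, ?_⟩
  intro A hA t ht
  have D := hD A hA t ht
  have hu := D.hu
  have e4 : Real.exp (1 / 6 * t) ^ (4 : ℤ) = Real.exp (2 / 3 * t) := by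
    rw [IdB_exp]; push_cast; ring_nf
  have e2 : Real.exp (1 / 6 * t) ^ (-2 : ℤ) = Real.exp (-(1 / 3 * t)) := by
    rw [IdB_exp]; push_cast; ring_nf
  have e8 : Real.exp (1 / 6 * t) ^ (-8 : ℤ) = Real.exp (-(4 / 3 * t)) := by
    rw [IdB_exp]; push_cast; ring_nf
  refine ⟨?_, ?_, ?_, ?_⟩
  · have h := IdB_Ph D
    unfold IdB_B at h
    rw [show (4 * 1 : ℤ) = 4 from by norm_num, e4] at h
    refine le_trans (le_of_eq rfl) (le_trans h (mul_le_mul_of_nonneg_right ?_ (Real.exp_pos _).le))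
    linarith
  · have h := IdB_PhA D
    unfold IdB_B at h
    rw [show (3 * 1 + -5 : ℤ) = -2 from by norm_num, e2] at h
    refine le_trans (le_of_eq rfl) (le_trans h (mul_le_mul_of_nonneg_right ?_ (Real.exp_pos _).le))
    linarith
  · have h := IdB_PhAA D (m := -8) (by norm_num) (by norm_num) (by norm_num)
    unfold IdB_B at h
    rw [e8] at h
    refine le_trans (le_of_eq rfl) (le_trans h (mul_le_mul_of_nonneg_right ?_ (Real.exp_pos _).le))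
    linarith
  · have h := IdB_Xi D (m := -2) (by norm_num) (by norm_num) (by norm_num)
    unfold IdB_B at h
    rw [e2] at h
    refine le_trans (le_of_eq rfl) (le_trans h (mul_le_mul_of_nonneg_right ?_ (Real.exp_pos _).le))
    linarith

theorem mn_bd_neg (p q r : ℂ) {A0 A1 : ℝ} (h0 : 0 < A0) : ∃ K : ℝ, 0 < K ∧ ∀ A ∈ Set.Icc A0 A1, ∀ t : ℝ, t ≤ 0 →
    ‖mm p q r A t‖ ≤ K * Real.exp (2 / 3 * t) ∧ ‖nn p q r A t‖ ≤ K * Real.exp (2 / 3 * t) := by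
  obtain ⟨K, hK, hD⟩ := IdB_nonpos p q r (A0 := A0) (A1 := A1) h0
  have hK0 : 0 < K := lt_of_lt_of_le one_pos hK
  refine ⟨10 * K ^ 12, by positivity, ?_⟩
  intro A hA t ht
  have D := hD A hA t ht
  have hu := D.hu
  have hA0 : 0 < A := D.hA
  have e4 : Real.exp (1 / 6 * t) ^ (4 : ℤ) = Real.exp (2 / 3 * t) := by
    rw [IdB_exp]; push_cast; ring_nf
  have e6 : Real.exp (-t) = Real.exp (1 / 6 * t) ^ (-6 : ℤ) := by
    rw [IdB_exp]; push_cast; ring_nf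
  have H1 : IdB_B K (Real.exp (1 / 6 * t)) 1 2 1 (hh p A t) :=
    IdB_h hK hu hA0 D.iA e6 D.G1
  have H4 : IdB_B K (Real.exp (1 / 6 * t)) 1 2 1 (hh q (A + 2) t) :=
    IdB_h hK hu (by linarith) (le_trans (inv_anti₀ hA0 (by linarith)) D.iA) e6 D.G4
  have H0 : IdB_B K (Real.exp (1 / 6 * t)) 1 2 1 (hh r 1 t) := by
    have G0 := D.G0
    unfold hh
    rw [one_mul]
    exact IdB_h hK hu one_pos (by rw [inv_one]; exact hK) e6 G0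
  obtain ⟨cP0, cP1⟩ := IdB_cP hA0
  obtain ⟨cQ0, cQ1⟩ := IdB_cQ hK hA0 D.iA D.sA
  have hK4 : 1 ≤ K ^ 4 := one_le_pow₀ hK
  have C1 : IdB_B K (Real.exp (1 / 6 * t)) 1 4 0 ((cP A : ℂ) + (cQ A : ℂ)) := by
    rw [← Complex.ofReal_add]
    apply IdB_real
    rw [abs_le]
    constructor <;> linarith
  have C2 : IdB_B K (Real.exp (1 / 6 * t)) 1 4 0 ((cP A : ℂ) - (cQ A : ℂ)) := by
    rw [← Complex.ofReal_sub]
    apply IdB_real
    rw [abs_le]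
    constructor <;> linarith
  have C3 : IdB_B K (Real.exp (1 / 6 * t)) 1 3 0 (cR A : ℂ) := IdB_real (IdB_cR hK hA0 D.iA D.sA)
  obtain ⟨d0, d2, d4⟩ := IdB_dd D H1 H4 H0 C1 C2 C3
  have hPh : IdB_B K (Real.exp (1 / 6 * t)) 1 12 (4 * 1) (Ph p q r A t) :=
    IdB_mono D.hK D.hu D.hu1 (IdB_Ph D) (by norm_num) (by norm_num) (by norm_num) (by norm_num)
  have d0' : IdB_B K (Real.exp (1 / 6 * t)) 1 12 (4 * 1) (dd0 p q r A t) := d0
  have d2' : IdB_B K (Real.exp (1 / 6 * t)) 4 12 (4 * 1) (dd2 p q r A t) := d2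
  have d4' : IdB_B K (Real.exp (1 / 6 * t)) 1 12 (4 * 1) (dd4 p q r A t) := d4
  have n3 : IdB_B K (Real.exp (1 / 6 * t)) 1 0 0 ((3 : ℂ)⁻¹) := IdB_num (by
    rw [norm_inv]; norm_num)
  have n23 : IdB_B K (Real.exp (1 / 6 * t)) 1 0 0 ((2 : ℂ) / 3) := IdB_num (by
    rw [norm_div]; norm_num)
  have n43 : IdB_B K (Real.exp (1 / 6 * t)) 2 0 0 ((4 : ℂ) / 3) := IdB_num (by
    rw [norm_div]; norm_num)
  constructor
  · have h := IdB_add (IdB_add d0' d2') d4'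
    unfold IdB_B at h
    rw [show (4 * 1 : ℤ) = 4 from by norm_num, e4] at h
    refine le_trans (le_of_eq rfl) (le_trans h (mul_le_mul_of_nonneg_right ?_ (Real.exp_pos _).le))
    have : 0 < K ^ 12 := by positivity
    linarith
  · have t1 := IdB_mul D.hu hPh n3
    rw [← div_eq_mul_inv] at t1
    have t2 := IdB_mul D.hu n23 d2'
    have t4 := IdB_mul D.hu n43 d4'
    have s1 := IdB_mono (c' := 1) (n' := 12) (m' := 4) D.hK D.hu D.hu1 t1 (by norm_num) (by norm_num) (by norm_num) (by norm_num)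
    have s2 := IdB_mono (c' := 4) (n' := 12) (m' := 4) D.hK D.hu D.hu1 t2 (by norm_num) (by norm_num) (by norm_num) (by norm_num)
    have s4 := IdB_mono (c' := 2) (n' := 12) (m' := 4) D.hK D.hu D.hu1 t4 (by norm_num) (by norm_num) (by norm_num) (by norm_num)
    have h := IdB_add (IdB_add s1 s2) s4
    unfold IdB_B at h
    rw [e4] at h
    refine le_trans (le_of_eq rfl) (le_trans h (mul_le_mul_of_nonneg_right ?_ (Real.exp_pos _).le))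
    have : 0 < K ^ 12 := by positivity
    linarith

end SL
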