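import Pool.Agent.Lib.MP_216314_pr.SL.Ser

/-!
# SL/Kap: `ar m / br m ~ kap m^(2/3)`, `kap = Γ(2/3)/Γ(4/3)`

`ar m / br m = ∏_{j < m} (3(j+1)(3(j+1)+1))/(3(j+1)(3(j+1)-1)) = ∏_{j < m} (j + 4/3)/(j + 2/3)`.
Mathlib: `Real.GammaSeq s n = n^s * n! / ∏ j ∈ range (n+1), (s + j)`, `Real.GammaSeq_tendsto_Gamma s : Tendsto (GammaSeq s) atTop (𝓝 (Gamma s))`. So for `m ≥ 1`
`∏_{j ≤ m} (2/3 + j) = m^(2/3) m!/GammaSeq (2/3) m`, `∏_{j ≤ m} (4/3 + j) = m^(4/3) m!/GammaSeq (4/3) m`, and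
`(ar m / br m) m^(-2/3) = (GammaSeq (2/3) m / GammaSeq (4/3) m) * ((m + 2/3)/(m + 4/3)) → Γ(2/3)/Γ(4/3) = kap`.

`kap_lim`: along a filter `l` with `m j / L j → mu`, `L j → oo`: `(ar (m j)/br (m j)) * (L j)^(-2/3) → kap * mu^(2/3)`.
 `mu ≥ 0` (limit of nonnegative numbers). If `mu = 0`: `0 ≤ .. ≤ ((2 m j + 1)/L j)^(2/3) → 0` (`kap_bd`) and `0^(2/3) = 0`.
 If `mu > 0`: `m j → oo` (`m j = (m j/L j) * L j`), `m j ≥ 1` eventually and `.. = ((ar/br) (m j)^(-2/3)) * (m j / L j)^(2/3) → kap * mu^(2/3)`.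
-/

set_option autoImplicit false

noncomputable section

namespace SL

open Filter Topology MeasureTheory

theorem Kap_ar_pos (m : ℕ) : 0 < ar m := by
  unfold ar
  apply Finset.prod_pos
  intro j _
  have h : (0 : ℝ) ≤ j := Nat.cast_nonneg j
  have h1 : 0 < (3 * ((j : ℝ) + 1) - 1) := by nlinarith
  positivity

theorem Kap_br_pos (m : ℕ) : 0 < br m := by
  unfold br
  apply Finset.prod_pos
  intro j _
  positivity

theorem Kap_prod (m : ℕ) : ar m / br m * ∏ j ∈ Finset.range m, ((2 / 3 : ℝ) + j) =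
    ∏ j ∈ Finset.range m, ((4 / 3 : ℝ) + j) := by
  unfold ar br
  rw [← Finset.prod_div_distrib, ← Finset.prod_mul_distrib]
  apply Finset.prod_congr rfl
  intro j _
  have h : (0 : ℝ) ≤ j := Nat.cast_nonneg j
  have h1 : (3 * ((j : ℝ) + 1) - 1) ≠ 0 := by nlinarith
  have h2 : (3 * ((j : ℝ) + 1) + 1) ≠ 0 := by nlinarith
  have h3 : ((j : ℝ) + 1) ≠ 0 := by nlinarith
  field_simp
  ring

theorem Kap_seq (m : ℕ) (hm : m ≠ 0) :
    Real.GammaSeq (2 / 3) m / Real.GammaSeq (4 / 3) m * (((m : ℝ) + 2 / 3) / ((m : ℝ) + 4 / 3)) =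
      ar m / br m * (m : ℝ) ^ (-(2 / 3) : ℝ) := by
  have hm0 : (0 : ℝ) < m := Nat.cast_pos.mpr (Nat.pos_of_ne_zero hm)
  have hP := Kap_prod m
  have hA : (0 : ℝ) < ∏ j ∈ Finset.range m, ((2 / 3 : ℝ) + j) :=
    Finset.prod_pos (fun j _ => by positivity)
  have hB : (0 : ℝ) < ∏ j ∈ Finset.range m, ((4 / 3 : ℝ) + j) :=
    Finset.prod_pos (fun j _ => by positivity)
  have hf : (0 : ℝ) < (m.factorial : ℝ) := by exact_mod_cast Nat.factorial_pos m
  have hpow : (m : ℝ) ^ (2 / 3 : ℝ) / (m : ℝ) ^ (4 / 3 : ℝ) = (m : ℝ) ^ (-(2 / 3) : ℝ) := by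
    rw [← Real.rpow_sub hm0]
    norm_num
  have hr : ar m / br m = (∏ j ∈ Finset.range m, ((4 / 3 : ℝ) + j)) /
      ∏ j ∈ Finset.range m, ((2 / 3 : ℝ) + j) := by
    rw [eq_div_iff hA.ne']
    exact hP
  have hp2 : (0 : ℝ) < (m : ℝ) ^ (4 / 3 : ℝ) := Real.rpow_pos_of_pos hm0 _
  have h23 : (0 : ℝ) < (m : ℝ) + 2 / 3 := by positivity
  have h43 : (0 : ℝ) < (m : ℝ) + 4 / 3 := by positivity
  unfold Real.GammaSeq
  rw [Finset.prod_range_succ, Finset.prod_range_succ, hr, ← hpow]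
  generalize (∏ j ∈ Finset.range m, ((2 / 3 : ℝ) + j)) = P at *
  generalize (∏ j ∈ Finset.range m, ((4 / 3 : ℝ) + j)) = Q at *
  generalize (m : ℝ) ^ (2 / 3 : ℝ) = x at *
  generalize (m : ℝ) ^ (4 / 3 : ℝ) = y at *
  have h23' : (2 / 3 : ℝ) + m ≠ 0 := by positivity
  have h43' : (4 / 3 : ℝ) + m ≠ 0 := by positivity
  rw [add_comm (m : ℝ) (2 / 3), add_comm (m : ℝ) (4 / 3)]
  have hA' := hA.ne'
  have hB' := hB.ne'
  have hf' := hf.ne'
  have hy' := hp2.ne'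
  field_simp

theorem kap_nat : Tendsto (fun m : ℕ => ar m / br m * (m : ℝ) ^ (-(2 / 3) : ℝ)) atTop (𝓝 kap) := by
  have h1 : Tendsto (fun m : ℕ => Real.GammaSeq (2 / 3) m / Real.GammaSeq (4 / 3) m) atTop
      (𝓝 (Real.Gamma (2 / 3) / Real.Gamma (4 / 3))) :=
    (Real.GammaSeq_tendsto_Gamma _).div (Real.GammaSeq_tendsto_Gamma _)
      (Real.Gamma_pos_of_pos (by norm_num)).ne'
  have h2 : Tendsto (fun m : ℕ => ((m : ℝ) + 2 / 3) / ((m : ℝ) + 4 / 3)) atTop (𝓝 1) := by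
    have h3 : Tendsto (fun m : ℕ => 1 - (2 / 3) / ((m : ℝ) + 4 / 3)) atTop (𝓝 (1 - 0)) := by
      apply Tendsto.sub tendsto_const_nhds
      apply Tendsto.div_atTop tendsto_const_nhds
      exact tendsto_atTop_add_const_right _ _ tendsto_natCast_atTop_atTop
    rw [sub_zero] at h3
    refine h3.congr (fun m => ?_)
    have h4 : (m : ℝ) + 4 / 3 ≠ 0 := by positivity
    field_simp
    ring
  have h5 := h1.mul h2
  rw [mul_one] at h5
  refine h5.congr' ?_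
  filter_upwards [eventually_ne_atTop 0] with m hm
  exact Kap_seq m hm

theorem kap_lim {ι : Type} (l : Filter ι) (m : ι → ℕ) (L : ι → ℝ) (hL : Tendsto L l atTop) {mu : ℝ}
    (hm : Tendsto (fun j => (m j : ℝ) / L j) l (𝓝 mu)) :
    Tendsto (fun j => ar (m j) / br (m j) * (L j) ^ (-(2 / 3) : ℝ)) l (𝓝 (kap * mu ^ (2 / 3 : ℝ))) := by
  rcases l.eq_or_neBot with rfl | hne
  · exact tendsto_bot
  have hL0 : ∀ᶠ j in l, 0 < L j := hL.eventually_gt_atTop 0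
  have hmu : 0 ≤ mu := by
    refine ge_of_tendsto hm ?_
    filter_upwards [hL0] with j hj
    positivity
  have hcont : Continuous (fun x : ℝ => x ^ (2 / 3 : ℝ)) :=
    Real.continuous_rpow_const (by norm_num)
  rcases hmu.eq_or_lt with h0 | hpos
  · subst h0
    rw [Real.zero_rpow (by norm_num), mul_zero]
    have h1 : Tendsto (fun j => 2 * ((m j : ℝ) / L j) + 1 / L j) l (𝓝 (2 * 0 + 0)) := by
      apply Tendsto.add
      · exact hm.const_mul 2
      · exact Tendsto.div_atTop tendsto_const_nhds hL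
    have h2 : Tendsto (fun j => (2 * ((m j : ℝ) / L j) + 1 / L j) ^ (2 / 3 : ℝ)) l (𝓝 0) := by
      have h3 := (hcont.tendsto (2 * 0 + 0)).comp h1
      have h4 : (2 * 0 + 0 : ℝ) ^ (2 / 3 : ℝ) = 0 := by
        rw [mul_zero, add_zero, Real.zero_rpow (by norm_num)]
      rw [h4] at h3
      exact h3
    refine squeeze_zero' ?_ ?_ h2
    · filter_upwards [hL0] with j hj
      have ha : 0 < ar (m j) := Kap_ar_pos _
      have hb : 0 < br (m j) := Kap_br_pos _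
      have := Real.rpow_nonneg hj.le (-(2 / 3) : ℝ)
      positivity
    · filter_upwards [hL0] with j hj
      have h5 := kap_bd (m j)
      have h6 : 0 ≤ (L j) ^ (-(2 / 3) : ℝ) := Real.rpow_nonneg hj.le _
      refine (mul_le_mul_of_nonneg_right h5 h6).trans (le_of_eq ?_)
      have h7 : (2 * ((m j : ℝ) / L j) + 1 / L j) = (2 * (m j : ℝ) + 1) / L j := by
        field_simp
      rw [h7, Real.div_rpow (by positivity) hj.le, Real.rpow_neg hj.le]
      exact (div_eq_mul_inv _ _).symm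
  · have h1 : Tendsto (fun j => ((m j : ℝ) / L j) * L j) l atTop := hm.pos_mul_atTop hpos hL
    have h2 : Tendsto (fun j => (m j : ℝ)) l atTop := by
      refine h1.congr' ?_
      filter_upwards [hL0] with j hj
      rw [div_mul_cancel₀ _ hj.ne']
    have h3 : Tendsto m l atTop := tendsto_natCast_atTop_iff.mp h2
    have h4 := kap_nat.comp h3
    have h5 := (hcont.tendsto mu).comp hm
    have h6 := h4.mul h5
    refine h6.congr' ?_
    filter_upwards [hL0, h2.eventually_gt_atTop 0] with j hj hmj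
    show ar (m j) / br (m j) * ((m j : ℕ) : ℝ) ^ (-(2 / 3) : ℝ) * ((m j : ℝ) / L j) ^ (2 / 3 : ℝ) = _
    rw [Real.div_rpow hmj.le hj.le, Real.rpow_neg hj.le, Real.rpow_neg hmj.le]
    have h7 : (0 : ℝ) < (m j : ℝ) ^ (2 / 3 : ℝ) := Real.rpow_pos_of_pos hmj _
    have h8 : (0 : ℝ) < (L j) ^ (2 / 3 : ℝ) := Real.rpow_pos_of_pos hj _
    field_simp

end SL
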