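import Pool.Agent.Lib.MP_216314_pr.SL.Pt
import Pool.Agent.Lib.MP_216314_pr.SL.Fac

/-!
# SL/LimB: pointwise limit of the integrand (paper 4.2)

`L j = k j + 2 n j + 3 → oo`, `(k j + 1)/L j → a`, so `(n j + 1)/L j → (1-a)/2`, `n j / L j → (1-a)/2`, `L j/L j = 1 → 1` (here `((k j + 2 n j + 3 : ℕ) : ℝ) = L j`).
With `s_j = log (L j) + t` (eventually `> 0`): `Fz o (m j) s_j * exp (-s_j/3) → F o (mu e^{-t})` by `pt_p`, `pt_r`; so `Fr o1 o4 ob (k j) (n j) s_j * exp (-4 s_j/3)` tends to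
`F o1 (a x) F o4 x F ob (b x)^2`, `x = e^{-t}`, `b = (1-a)/2`. And by `DDn_eq`, `4 sinh s cosh s = e^{2s} - e^{-2s}`:
`DDn .. s = (1/2 (Fr₊ e^{-4s/3} (1 + th e^{-4s/3}) - Fr₋ e^{-4s/3} (1 + th⁻¹ e^{-4s/3}))).im / (1 - e^{-4s})` → `DD a b x` (as `s_j → oo`).
-/

set_option autoImplicit false

noncomputable section

namespace SL

open Filter Topology MeasureTheory

/-- limit of one factor -/
theorem LimB_Fz {ι : Type} (l : Filter ι) (m : ι → ℕ) (L : ι → ℝ) (hL : Tendsto L l atTop) {mu : ℝ}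
    (hm : Tendsto (fun j => (m j : ℝ) / L j) l (𝓝 mu)) (t : ℝ) (o : ℂ) :
    Tendsto (fun j => Fz o (m j) (Real.log (L j) + t) * ((Real.exp (-((Real.log (L j) + t) / 3)) : ℝ) : ℂ)) l
      (𝓝 (F o (mu * Real.exp (-t)))) := by
  have h1 := (Complex.continuous_ofReal.tendsto _).comp (pt_p l m L hL hm t)
  have h2 := (Complex.continuous_ofReal.tendsto _).comp (pt_r l m L hL hm t)
  have h := h1.add (h2.const_mul o)
  refine h.congr fun j => ?_
  simp only [Function.comp_apply]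
  unfold Fz
  push_cast
  ring

/-- limit of the product of four -/
theorem LimB_Fr {ι : Type} (l : Filter ι) (k n : ι → ℕ) (hL : Tendsto (fun j => (k j : ℝ) + 2 * n j + 3) l atTop)
    {a : ℝ} (ha : Tendsto (fun j => ((k j : ℝ) + 1) / ((k j : ℝ) + 2 * n j + 3)) l (𝓝 a)) (t : ℝ) (o1 o4 ob : ℂ) :
    Tendsto (fun j => Fr o1 o4 ob (k j) (n j) (Real.log ((k j : ℝ) + 2 * n j + 3) + t) *
      ((Real.exp (-(4 * (Real.log ((k j : ℝ) + 2 * n j + 3) + t) / 3)) : ℝ) : ℂ)) l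
      (𝓝 (F o1 (a * Real.exp (-t)) * F o4 (Real.exp (-t)) * F ob ((1 - a) / 2 * Real.exp (-t)) ^ 2)) := by
  have hpos : ∀ j, (0 : ℝ) < (k j : ℝ) + 2 * n j + 3 := fun j => by positivity
  have m1 : Tendsto (fun j => (((k j + 1 : ℕ)) : ℝ) / ((k j : ℝ) + 2 * n j + 3)) l (𝓝 a) := by
    refine ha.congr fun j => ?_
    push_cast
    rfl
  have m2 : Tendsto (fun j => (((k j + 2 * n j + 3 : ℕ)) : ℝ) / ((k j : ℝ) + 2 * n j + 3)) l (𝓝 1) := by
    refine tendsto_const_nhds.congr fun j => ?_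
    push_cast
    rw [div_self (hpos j).ne']
  have m3 : Tendsto (fun j => (((n j + 1 : ℕ)) : ℝ) / ((k j : ℝ) + 2 * n j + 3)) l (𝓝 ((1 - a) / 2)) := by
    have h := (ha.const_sub 1).div_const 2
    refine h.congr fun j => ?_
    have h0 := (hpos j).ne'
    push_cast
    field_simp
    ring
  have hinv : Tendsto (fun j => ((k j : ℝ) + 2 * n j + 3)⁻¹) l (𝓝 0) := tendsto_inv_atTop_zero.comp hL
  have m4 : Tendsto (fun j => ((n j : ℕ) : ℝ) / ((k j : ℝ) + 2 * n j + 3)) l (𝓝 ((1 - a) / 2)) := by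
    have h := m3.sub hinv
    rw [sub_zero] at h
    refine h.congr fun j => ?_
    have h0 := (hpos j).ne'
    push_cast
    field_simp
    ring
  have f1 := LimB_Fz l (fun j => k j + 1) (fun j => (k j : ℝ) + 2 * n j + 3) hL m1 t o1
  have f2 := LimB_Fz l (fun j => k j + 2 * n j + 3) (fun j => (k j : ℝ) + 2 * n j + 3) hL m2 t o4
  have f3 := LimB_Fz l (fun j => n j + 1) (fun j => (k j : ℝ) + 2 * n j + 3) hL m3 t ob
  have f4 := LimB_Fz l (fun j => n j) (fun j => (k j : ℝ) + 2 * n j + 3) hL m4 t ob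
  rw [one_mul] at f2
  have h := ((f1.mul f2).mul f3).mul f4
  rw [show F o1 (a * Real.exp (-t)) * F o4 (Real.exp (-t)) * F ob ((1 - a) / 2 * Real.exp (-t)) ^ 2 =
    F o1 (a * Real.exp (-t)) * F o4 (Real.exp (-t)) * F ob ((1 - a) / 2 * Real.exp (-t)) *
      F ob ((1 - a) / 2 * Real.exp (-t)) from by ring]
  refine h.congr fun j => ?_
  unfold Fr
  generalize hs : Real.log ((k j : ℝ) + 2 * n j + 3) + t = s
  have e : ((Real.exp (-(4 * s / 3)) : ℝ) : ℂ) = ((Real.exp (-(s / 3)) : ℝ) : ℂ) ^ 4 := by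
    rw [← Complex.ofReal_pow, ← Real.exp_nat_mul]
    push_cast
    ring_nf
  rw [e]
  ring

theorem LimB_eq (k n : ℕ) {s : ℝ} (hs : 0 < s) : DDn (k + 1) (n + 1) s =
    (1 / 2 * (Fr 1 (-th) (-th⁻¹) k n s * ((Real.exp (-(4 * s / 3)) : ℝ) : ℂ) * (1 + th * ((Real.exp (-(4 * s / 3)) : ℝ) : ℂ)) -
      Fr (-th⁻¹) 1 (-th) k n s * ((Real.exp (-(4 * s / 3)) : ℝ) : ℂ) * (1 + th⁻¹ * ((Real.exp (-(4 * s / 3)) : ℝ) : ℂ)))).im /
      (1 - Real.exp (-(4 * s))) := by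
  rw [DDn_eq k n hs]
  have hE : (0 : ℝ) < Real.exp (-(2 * s)) := Real.exp_pos _
  have hsh : 0 < Real.sinh s := Real.sinh_pos_iff.mpr hs
  have hch : 0 < Real.cosh s := Real.cosh_pos s
  have hden : (4 * Real.sinh s * Real.cosh s) * Real.exp (-(2 * s)) = 1 - Real.exp (-(4 * s)) := by
    have e : 4 * Real.sinh s * Real.cosh s = Real.exp (2 * s) - Real.exp (-(2 * s)) := by
      have h := Real.sinh_two_mul s
      have h2 := Real.sinh_eq (2 * s)
      linarith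
    rw [e, sub_mul, ← Real.exp_add, ← Real.exp_add]
    rw [show 2 * s + -(2 * s) = 0 from by ring, Real.exp_zero, show -(2 * s) + -(2 * s) = -(4 * s) from by ring]
  rw [← hden, ← mul_div_mul_right _ (4 * Real.sinh s * Real.cosh s) hE.ne']
  have r1 : Real.exp (2 * s / 3) * Real.exp (-(2 * s)) = Real.exp (-(4 * s / 3)) := by
    rw [← Real.exp_add]
    ring_nf
  have r2 : Real.exp (-(2 * s / 3)) * Real.exp (-(2 * s)) = Real.exp (-(4 * s / 3)) * Real.exp (-(4 * s / 3)) := by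
    rw [← Real.exp_add, ← Real.exp_add]
    ring_nf
  have c1 : ((Real.exp (2 * s / 3) : ℝ) : ℂ) * ((Real.exp (-(2 * s)) : ℝ) : ℂ) = ((Real.exp (-(4 * s / 3)) : ℝ) : ℂ) := by
    rw [← Complex.ofReal_mul, r1]
  have c2 : ((Real.exp (-(2 * s / 3)) : ℝ) : ℂ) * ((Real.exp (-(2 * s)) : ℝ) : ℂ) =
      ((Real.exp (-(4 * s / 3)) : ℝ) : ℂ) * ((Real.exp (-(4 * s / 3)) : ℝ) : ℂ) := by
    rw [← Complex.ofReal_mul, r2, Complex.ofReal_mul]
  have him : ∀ z : ℂ, z.im * Real.exp (-(2 * s)) = (z * ((Real.exp (-(2 * s)) : ℝ) : ℂ)).im := by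
    intro z
    rw [Complex.mul_im, Complex.ofReal_re, Complex.ofReal_im]
    ring
  rw [him]
  congr 2
  generalize ((Real.exp (2 * s / 3) : ℝ) : ℂ) = x1 at *
  generalize ((Real.exp (-(2 * s / 3)) : ℝ) : ℂ) = x2 at *
  generalize ((Real.exp (-(2 * s)) : ℝ) : ℂ) = x3 at *
  generalize ((Real.exp (-(4 * s / 3)) : ℝ) : ℂ) = x4 at *
  linear_combination (1 / 2 * (Fr 1 (-th) (-th⁻¹) k n s - Fr (-th⁻¹) 1 (-th) k n s)) * c1 +
    (1 / 2 * (Fr 1 (-th) (-th⁻¹) k n s * th - Fr (-th⁻¹) 1 (-th) k n s * th⁻¹)) * c2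

theorem DDn_lim {ι : Type} (l : Filter ι) (k n : ι → ℕ) (hL : Tendsto (fun j => (k j : ℝ) + 2 * n j + 3) l atTop)
    {a : ℝ} (ha : Tendsto (fun j => ((k j : ℝ) + 1) / ((k j : ℝ) + 2 * n j + 3)) l (𝓝 a)) (t : ℝ) :
    Tendsto (fun j => DDn (k j + 1) (n j + 1) (Real.log ((k j : ℝ) + 2 * n j + 3) + t)) l
      (𝓝 (DD a ((1 - a) / 2) (Real.exp (-t)))) := by
  have A1 := LimB_Fr l k n hL ha t 1 (-th) (-th⁻¹)
  have A2 := LimB_Fr l k n hL ha t (-th⁻¹) 1 (-th)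
  have hs : Tendsto (fun j => Real.log ((k j : ℝ) + 2 * n j + 3) + t) l atTop :=
    tendsto_atTop_add_const_right l t (Real.tendsto_log_atTop.comp hL)
  have he : Tendsto (fun j => Real.exp (-(4 * (Real.log ((k j : ℝ) + 2 * n j + 3) + t) / 3))) l (𝓝 0) := by
    apply Real.tendsto_exp_neg_atTop_nhds_zero.comp
    have h := hs.const_mul_atTop (by norm_num : (0 : ℝ) < 4 / 3)
    refine h.congr fun j => ?_
    ring
  have he4 : Tendsto (fun j => Real.exp (-(4 * (Real.log ((k j : ℝ) + 2 * n j + 3) + t)))) l (𝓝 0) := by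
    apply Real.tendsto_exp_neg_atTop_nhds_zero.comp
    exact hs.const_mul_atTop (by norm_num : (0 : ℝ) < 4)
  have hec : Tendsto (fun j => ((Real.exp (-(4 * (Real.log ((k j : ℝ) + 2 * n j + 3) + t) / 3)) : ℝ) : ℂ)) l (𝓝 0) := by
    have h := (Complex.continuous_ofReal.tendsto 0).comp he
    rw [Complex.ofReal_zero] at h
    exact h
  have B1 := A1.mul ((hec.const_mul th).const_add 1)
  have B2 := A2.mul ((hec.const_mul th⁻¹).const_add 1)
  have B := (B1.sub B2).const_mul (1 / 2)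
  have C := (Complex.continuous_im.tendsto _).comp B
  have D := C.div (he4.const_sub 1) (by norm_num)
  have hE : (1 / 2 * (F 1 (a * Real.exp (-t)) * F (-th) (Real.exp (-t)) * F (-th⁻¹) ((1 - a) / 2 * Real.exp (-t)) ^ 2 *
      (1 + th * 0) - F (-th⁻¹) (a * Real.exp (-t)) * F 1 (Real.exp (-t)) * F (-th) ((1 - a) / 2 * Real.exp (-t)) ^ 2 *
      (1 + th⁻¹ * 0))).im / (1 - 0) = DD a ((1 - a) / 2) (Real.exp (-t)) := by
    unfold DD
    rw [mul_zero, mul_zero, add_zero, mul_one, mul_one, sub_zero, div_one]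
    generalize F 1 (a * Real.exp (-t)) * F (-th) (Real.exp (-t)) * F (-th⁻¹) ((1 - a) / 2 * Real.exp (-t)) ^ 2 -
      F (-th⁻¹) (a * Real.exp (-t)) * F 1 (Real.exp (-t)) * F (-th) ((1 - a) / 2 * Real.exp (-t)) ^ 2 = z
    have h2 : (1 / 2 : ℂ) = ((1 / 2 : ℝ) : ℂ) := by push_cast; rfl
    rw [h2, Complex.im_ofReal_mul]
  rw [hE] at D
  refine D.congr' ?_
  filter_upwards [hs.eventually (eventually_gt_atTop 0)] with j hj
  rw [LimB_eq (k j) (n j) hj]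
  rfl

end SL
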