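import Pool.Agent.Lib.MP_216314_pr.SL.Aff
import Pool.Agent.Lib.MP_216314_pr.SL.D1

/-!
# SL/Main: Schramm's formula from the two boundary values (paper 7.4)
-/

set_option autoImplicit false

noncomputable section

namespace SL

open Filter Topology MeasureTheory

/-- the limit function is Schramm's function -/
theorem EI_schramm (e0 : EI 0 = 0) (e1 : EI 1 = 1) {a : ℝ} (h0 : 0 < a) (h1 : a < 1) :
    EI a = SH (2 * Real.sqrt a / (1 - a)) / SHinf := by
  obtain ⟨c, hc⟩ := Lam_aff
  set X : ℝ := 1 / 3 - 2 / (3 * Real.pi) * (Lam 1 - c * H 1) with hX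
  set Y : ℝ := -(2 / (3 * Real.pi) * c) with hY
  have key : ∀ a : ℝ, 0 < a → a < 1 → EI a = X + Y * SH (2 * Real.sqrt a / (1 - a)) := by
    intro a ha0 ha1
    have hA : 0 < 2 * a / (1 - a) := div_pos (by linarith) (by linarith)
    rw [EI_Lam ha0 ha1, hc _ hA, ← H_eq ha0 ha1, hX, hY]
    ring
  have hSHc : Continuous SH := continuous_iff_continuousAt.mpr fun v => (SH_hd v).continuousAt
  -- a -> 0
  have hX0 : X = 0 := by
    have t1 : Tendsto (fun a : ℝ => X + Y * SH (2 * Real.sqrt a / (1 - a))) (𝓝[>] 0) (𝓝 (X + Y * SH (2 * Real.sqrt 0 / (1 - 0)))) := by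
      have hcont : ContinuousAt (fun a : ℝ => X + Y * SH (2 * Real.sqrt a / (1 - a))) 0 := by
        refine continuousAt_const.add (continuousAt_const.mul ?_)
        refine ContinuousAt.comp (g := SH) hSHc.continuousAt ?_
        refine ContinuousAt.div (continuousAt_const.mul Real.continuous_sqrt.continuousAt) (continuousAt_const.sub continuousAt_id) (by norm_num)
      exact hcont.tendsto.mono_left nhdsWithin_le_nhds
    have t2 : Tendsto EI (𝓝[>] 0) (𝓝 (EI 0)) := by
      have h := (EI_cont 0 (by constructor <;> norm_num)).tendsto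
      refine h.mono_left ?_
      rw [← nhdsWithin_Ioo_eq_nhdsGT (show (0 : ℝ) < 1 by norm_num)]
      exact nhdsWithin_mono _ Set.Ioo_subset_Icc_self
    have t3 : Tendsto EI (𝓝[>] 0) (𝓝 (X + Y * SH (2 * Real.sqrt 0 / (1 - 0)))) := by
      refine t1.congr' ?_
      filter_upwards [Ioo_mem_nhdsGT (show (0 : ℝ) < 1 by norm_num)] with a ha
      exact (key a ha.1 ha.2).symm
    have h4 := tendsto_nhds_unique t2 t3
    rw [e0, Real.sqrt_zero, mul_zero, zero_div, SH_zero, mul_zero, add_zero] at h4
    exact h4.symm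
  have hY1 : Y * SHinf = 1 := by
    have t1 : Tendsto (fun a : ℝ => X + Y * SH (2 * Real.sqrt a / (1 - a))) (𝓝[<] 1) (𝓝 (X + Y * SHinf)) := by
      refine tendsto_const_nhds.add (tendsto_const_nhds.mul (SH_lim.comp ?_))
      have h1 : Tendsto (fun a : ℝ => 2 * Real.sqrt a) (𝓝[<] 1) (𝓝 2) := by
        have : ContinuousAt (fun a : ℝ => 2 * Real.sqrt a) 1 := continuousAt_const.mul Real.continuous_sqrt.continuousAt
        have h := this.tendsto
        simp only [Real.sqrt_one, mul_one] at h
        exact h.mono_left nhdsWithin_le_nhds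
      have h2 : Tendsto (fun a : ℝ => (1 - a)⁻¹) (𝓝[<] 1) atTop := by
        refine tendsto_inv_nhdsGT_zero.comp ?_
        refine tendsto_nhdsWithin_iff.mpr ⟨?_, ?_⟩
        · have : ContinuousAt (fun a : ℝ => 1 - a) 1 := continuousAt_const.sub continuousAt_id
          have h := this.tendsto
          simp only [sub_self] at h
          exact h.mono_left nhdsWithin_le_nhds
        · filter_upwards [self_mem_nhdsWithin] with a ha
          exact sub_pos.mpr (Set.mem_Iio.mp ha)
      have h3 := h1.pos_mul_atTop (by norm_num) h2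
      refine h3.congr fun a => ?_
      rw [div_eq_mul_inv]
    have t2 : Tendsto EI (𝓝[<] 1) (𝓝 (EI 1)) := by
      have h := (EI_cont 1 (by constructor <;> norm_num)).tendsto
      refine h.mono_left ?_
      rw [← nhdsWithin_Ioo_eq_nhdsLT (show (0 : ℝ) < 1 by norm_num)]
      exact nhdsWithin_mono _ Set.Ioo_subset_Icc_self
    have t3 : Tendsto EI (𝓝[<] 1) (𝓝 (X + Y * SHinf)) := by
      refine t1.congr' ?_
      filter_upwards [Ioo_mem_nhdsLT (show (0 : ℝ) < 1 by norm_num)] with a ha
      exact (key a ha.1 ha.2).symm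
    have h4 := tendsto_nhds_unique t2 t3
    rw [e1, hX0, zero_add] at h4
    exact h4.symm
  rw [key a h0 h1, hX0, zero_add]
  have hp := SHinf_pos
  have hYe : Y = 1 / SHinf := by
    rw [eq_div_iff hp.ne']
    exact hY1
  rw [hYe]
  ring

end SL
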