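import Pool.Agent.Lib.MP_216314_pr.SL.Def

/-!
# SL/Pair: the differential equations of `U` and `V`

Proof. Put `y = 9 x^2`. `U(x) = sum (-1)^i ar_i y^i`, `V0(x) = sum (-1)^j br_j y^j`: power series with infinite radius
(`ar_(i+1) = ar_i / (3 (i+1) (3 (i+1) - 1))`, so `0 < ar_i <= 1 / i!`, same for `br`), which can be differentiated term by term
(for instance `hasDerivAt_tsum_of_isPreconnected` on a ball, or `HasFPowerSeriesOnBall` / `FormalMultilinearSeries`, or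
`NormedSpace`-style lemmas: general lemma: if `|c_i| <= 1 / i!` then `x => sum c_i x^i` has derivative `sum (i+1) c_(i+1) x^i`).
`x d/dx (3x)^(2i) = 2 i (3x)^(2i)`: this gives `U_hd`. For `U1_hd`: `x U1' = sum (-1)^i ar_i (2i)^2 (3x)^(2i)`, and
`(2i)^2 - (2/3)(2i) = 4 i (i - 1/3)`, `ar_i 4 i (i - 1/3) (3x)^(2i) = ar_i * (4/9) * 3 i (3 i - 1) (3x)^(2i) = (4/9) * 9 x^2 * ar_(i-1) (3x)^(2(i-1))`
`= 4 x^2 ar_(i-1) (3x)^(2i-2)`, sign `-`: so `x U1' = (2/3) U1 - 4 x^2 U`. For `V = kap x^(2/3) V0`: `x d/dx (x^(2/3) (3x)^(2j)) = (2j + 2/3) ...`,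
`(2j+2/3)^2 - (2/3)(2j+2/3) = 4 j (j + 1/3)`, `br_j * (4/9) * 3 j (3 j + 1) = (4/9) br_(j-1)`: the same equation.
`F_hd`, `G_hd`: linear combinations (`HasDerivAt.ofReal_comp`).
-/

set_option autoImplicit false

noncomputable section

namespace SL

open Filter Topology

theorem ar_succ (i : ℕ) : ar (i + 1) = ar i / (3 * ((i : ℝ) + 1) * (3 * ((i : ℝ) + 1) - 1)) := by
  unfold ar
  rw [Finset.prod_range_succ, mul_one_div]

theorem br_succ (i : ℕ) : br (i + 1) = br i / (3 * ((i : ℝ) + 1) * (3 * ((i : ℝ) + 1) + 1)) := by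
  unfold br
  rw [Finset.prod_range_succ, mul_one_div]

theorem ar_pos (i : ℕ) : 0 < ar i := by
  unfold ar
  refine Finset.prod_pos fun j _ => ?_
  have hj : (0 : ℝ) ≤ j := Nat.cast_nonneg j
  have h1 : (0 : ℝ) < 3 * ((j : ℝ) + 1) := by linarith
  have h2 : (0 : ℝ) < 3 * ((j : ℝ) + 1) - 1 := by linarith
  exact one_div_pos.2 (mul_pos h1 h2)

theorem br_pos (i : ℕ) : 0 < br i := by
  unfold br
  refine Finset.prod_pos fun j _ => ?_
  have hj : (0 : ℝ) ≤ j := Nat.cast_nonneg j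
  have h1 : (0 : ℝ) < 3 * ((j : ℝ) + 1) := by linarith
  have h2 : (0 : ℝ) < 3 * ((j : ℝ) + 1) + 1 := by linarith
  exact one_div_pos.2 (mul_pos h1 h2)

private theorem Pair_fact {c : ℕ → ℝ} (h0 : c 0 ≤ 1)
    (hs : ∀ i, c (i + 1) ≤ c i / ((i : ℝ) + 1)) (i : ℕ) : c i ≤ 1 / (i.factorial : ℝ) := by
  induction i with
  | zero => simpa using h0
  | succ i ih =>
    have hj : (0 : ℝ) ≤ i := Nat.cast_nonneg i
    refine (hs i).trans ?_
    have h1 : (0 : ℝ) < (i : ℝ) + 1 := by linarith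
    have h2 : (0 : ℝ) < (i.factorial : ℝ) := by exact_mod_cast i.factorial_pos
    rw [Nat.factorial_succ]
    push_cast
    rw [div_le_div_iff₀ h1 (mul_pos h1 h2)]
    rw [le_div_iff₀ h2] at ih
    nlinarith

theorem ar_le (i : ℕ) : ar i ≤ 1 / (i.factorial : ℝ) := by
  refine Pair_fact (by simp [ar]) (fun i => ?_) i
  rw [ar_succ]
  have hj : (0 : ℝ) ≤ i := Nat.cast_nonneg i
  refine div_le_div_of_nonneg_left (ar_pos i).le (by linarith) ?_
  nlinarith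

theorem br_le (i : ℕ) : br i ≤ 1 / (i.factorial : ℝ) := by
  refine Pair_fact (by simp [br]) (fun i => ?_) i
  rw [br_succ]
  have hj : (0 : ℝ) ≤ i := Nat.cast_nonneg i
  refine div_le_div_of_nonneg_left (br_pos i).le (by linarith) ?_
  nlinarith

private theorem Pair_sum {d : ℕ → ℝ} {K A : ℝ} (hd : ∀ i, |d i| ≤ K * A ^ i / (i.factorial : ℝ))
    (y : ℝ) : Summable fun i => d i * y ^ (2 * i) := by
  have h1 : Summable fun i : ℕ => K * ((A * y ^ 2) ^ i / (i.factorial : ℝ)) :=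
    (Real.summable_pow_div_factorial (A * y ^ 2)).mul_left K
  refine Summable.of_norm_bounded h1 fun i => ?_
  have h2 : 0 ≤ y ^ (2 * i) := by
    rw [pow_mul]
    positivity
  rw [Real.norm_eq_abs, abs_mul, abs_of_nonneg h2]
  calc |d i| * y ^ (2 * i) ≤ (K * A ^ i / (i.factorial : ℝ)) * y ^ (2 * i) :=
        mul_le_mul_of_nonneg_right (hd i) h2
    _ = K * ((A * y ^ 2) ^ i / (i.factorial : ℝ)) := by
        rw [mul_pow, ← pow_mul]
        ring

private theorem Pair_two (i : ℕ) : 2 * (i : ℝ) + 1 ≤ 2 * 2 ^ i := by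
  have h : ((i + 1 : ℕ) : ℝ) ≤ ((2 ^ i : ℕ) : ℝ) := by
    exact_mod_cast Nat.lt_two_pow_self
  push_cast at h
  linarith

private theorem Pair_bd {d p : ℕ → ℝ} {K A : ℝ}
    (hd : ∀ i, |d i| ≤ K * A ^ i / (i.factorial : ℝ)) (hp : ∀ i, |p i| ≤ 2 * (i : ℝ) + 1) (i : ℕ) :
    |d i * p i| ≤ (2 * K) * (A * 2) ^ i / (i.factorial : ℝ) := by
  rw [abs_mul]
  have h0 : 0 ≤ K * A ^ i / (i.factorial : ℝ) := (abs_nonneg _).trans (hd i)
  calc |d i| * |p i| ≤ (K * A ^ i / (i.factorial : ℝ)) * (2 * 2 ^ i) :=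
        mul_le_mul (hd i) ((hp i).trans (Pair_two i)) (abs_nonneg _) h0
    _ = (2 * K) * (A * 2) ^ i / (i.factorial : ℝ) := by
        rw [mul_pow]
        ring

private theorem Pair_der {d : ℕ → ℝ} {K A : ℝ} (hd : ∀ i, |d i| ≤ K * A ^ i / (i.factorial : ℝ))
    {x : ℝ} (hx : 0 < x) :
    HasDerivAt (fun x : ℝ => ∑' i : ℕ, d i * (3 * x) ^ (2 * i))
      ((∑' i : ℕ, d i * (2 * i) * (3 * x) ^ (2 * i)) / x) x := by
  have hd2 : ∀ i, |d i * (2 * (i : ℝ))| ≤ (2 * K) * (A * 2) ^ i / (i.factorial : ℝ) :=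
    Pair_bd hd fun i => by
      have hj : (0 : ℝ) ≤ i := Nat.cast_nonneg i
      rw [abs_of_nonneg (by linarith)]
      linarith
  have hd3 : ∀ i, |(fun i : ℕ => |d i * (2 * (i : ℝ))|) i| ≤
      (2 * K) * (A * 2) ^ i / (i.factorial : ℝ) := fun i => by
    show |(|d i * (2 * (i : ℝ))|)| ≤ _
    rw [abs_abs]
    exact hd2 i
  have hu : Summable fun i : ℕ => |d i * (2 * (i : ℝ))| * (3 * (x + 1)) ^ (2 * i) * (2 / x) :=
    (Pair_sum hd3 (3 * (x + 1))).mul_right (2 / x)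
  have hmem : ∀ y ∈ Set.Ioo (x / 2) (x + 1), 0 < y := fun y hy => by
    have := hy.1
    linarith
  have hxm : x ∈ Set.Ioo (x / 2) (x + 1) := ⟨by linarith, by linarith⟩
  have hp : ∀ (i : ℕ) (y : ℝ), y ∈ Set.Ioo (x / 2) (x + 1) →
      HasDerivAt (fun y : ℝ => d i * (3 * y) ^ (2 * i))
        (d i * (2 * (i : ℝ)) * (3 * y) ^ (2 * i) / y) y := by
    intro i y hy
    have hy0 := hmem y hy
    have h1 : HasDerivAt (fun y : ℝ => 3 * y) (3 * 1) y := (hasDerivAt_id y).const_mul 3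
    have h2 := (h1.pow (2 * i)).const_mul (d i)
    refine h2.congr_deriv ?_
    rcases Nat.eq_zero_or_pos i with h0 | h0
    · subst h0
      simp
    · have h3 : (3 * y) ^ (2 * i) = (3 * y) ^ (2 * i - 1) * (3 * y) := by
        rw [← pow_succ]
        congr 1
        omega
      rw [h3]
      push_cast
      field_simp
  have hb : ∀ (i : ℕ) (y : ℝ), y ∈ Set.Ioo (x / 2) (x + 1) →
      ‖d i * (2 * (i : ℝ)) * (3 * y) ^ (2 * i) / y‖ ≤
        |d i * (2 * (i : ℝ))| * (3 * (x + 1)) ^ (2 * i) * (2 / x) := by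
    intro i y hy
    have hy0 := hmem y hy
    have h1 : 0 ≤ (3 * y) ^ (2 * i) := by positivity
    rw [Real.norm_eq_abs, abs_div, abs_mul, abs_of_nonneg h1, abs_of_pos hy0, div_eq_mul_inv]
    refine mul_le_mul (mul_le_mul_of_nonneg_left ?_ (abs_nonneg _)) ?_ (by positivity)
      (by positivity)
    · exact pow_le_pow_left₀ (by positivity) (by linarith [hy.2]) _
    · rw [inv_eq_one_div, div_le_div_iff₀ hy0 hx]
      linarith [hy.1]
  have h := hasDerivAt_tsum_of_isPreconnected hu isOpen_Ioo isPreconnected_Ioo hp hb hxm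
    (Pair_sum hd (3 * x)) hxm
  refine h.congr_deriv ?_
  rw [← tsum_div_const]

private theorem Pair_c {c : ℕ → ℝ} (hp : ∀ i, 0 < c i) (hl : ∀ i, c i ≤ 1 / (i.factorial : ℝ))
    (i : ℕ) : |(-1) ^ i * c i| ≤ 1 * 1 ^ i / (i.factorial : ℝ) := by
  rw [abs_mul, abs_pow, abs_neg, abs_one, one_pow, one_mul, abs_of_pos (hp i), one_mul]
  exact hl i

private theorem Pair_p (i : ℕ) : |(2 * (i : ℝ))| ≤ 2 * (i : ℝ) + 1 := by
  have hj : (0 : ℝ) ≤ i := Nat.cast_nonneg i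
  rw [abs_of_nonneg (by linarith)]
  linarith

private theorem Pair_q (i : ℕ) : |(2 * (i : ℝ) + 2 / 3)| ≤ 2 * (i : ℝ) + 1 := by
  have hj : (0 : ℝ) ≤ i := Nat.cast_nonneg i
  rw [abs_of_nonneg (by linarith)]
  linarith

theorem U_hd {x : ℝ} (hx : 0 < x) : HasDerivAt U (U1 x / x) x :=
  Pair_der (Pair_c ar_pos ar_le) hx

private theorem Pair_shift (f g : ℕ → ℝ) (s : ℝ) (h0 : f 0 = 0) (h1 : ∀ i, f (i + 1) = s * g i)
    (hf : Summable f) : ∑' i, f i = s * ∑' i, g i := by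
  rw [hf.tsum_eq_zero_add, h0, zero_add, ← tsum_mul_left]
  exact tsum_congr h1

theorem U1_hd {x : ℝ} (hx : 0 < x) : HasDerivAt U1 ((2 / 3 * U1 x - 4 * x ^ 2 * U x) / x) x := by
  have hb := Pair_bd (Pair_c ar_pos ar_le) Pair_p
  have h := Pair_der hb hx
  refine h.congr_deriv ?_
  congr 1
  have s1 := Pair_sum hb (3 * x)
  have s2 := Pair_sum (Pair_bd hb Pair_p) (3 * x)
  have h1 : (∑' i : ℕ, (-1) ^ i * ar i * (2 * (i : ℝ)) * (2 * (i : ℝ)) * (3 * x) ^ (2 * i)) -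
      2 / 3 * U1 x = (-(4 * x ^ 2)) * U x := by
    unfold U1 U
    rw [← tsum_mul_left, ← s2.tsum_sub (s1.mul_left (2 / 3))]
    refine Pair_shift _ _ _ (by simp) (fun i => ?_) (s2.sub (s1.mul_left (2 / 3)))
    have hi : ((i : ℝ) + 1) ≠ 0 := by positivity
    have hj : (0 : ℝ) ≤ i := Nat.cast_nonneg i
    have hi2 : (3 * ((i : ℝ) + 1) - 1) ≠ 0 := by
      have : (0 : ℝ) < 3 * ((i : ℝ) + 1) - 1 := by linarith
      exact this.ne'
    rw [ar_succ]
    have e1 : (3 * x) ^ (2 * (i + 1)) = (3 * x) ^ (2 * i) * (9 * x ^ 2) := by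
      rw [mul_add, pow_add]
      ring
    rw [e1]
    push_cast
    field_simp
    ring
  linarith

theorem V_hd {x : ℝ} (hx : 0 < x) : HasDerivAt V (V1 x / x) x := by
  have hc := Pair_c br_pos br_le
  have h0 := Pair_der hc hx
  have h1 : HasDerivAt (fun x : ℝ => x ^ (2 / 3 : ℝ)) (2 / 3 * x ^ (2 / 3 : ℝ) / x) x := by
    have := Real.hasDerivAt_rpow_const (x := x) (p := 2 / 3) (Or.inl hx.ne')
    refine this.congr_deriv ?_
    rw [Real.rpow_sub_one hx.ne']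
    ring
  have h2 := (h1.const_mul kap).mul h0
  refine h2.congr_deriv ?_
  have s1 := Pair_sum hc (3 * x)
  have s2 := Pair_sum (Pair_bd hc Pair_p) (3 * x)
  have h3 : V01 x = (∑' i : ℕ, (-1) ^ i * br i * (2 * (i : ℝ)) * (3 * x) ^ (2 * i)) +
      2 / 3 * ∑' i : ℕ, (-1) ^ i * br i * (3 * x) ^ (2 * i) := by
    unfold V01
    rw [← tsum_mul_left, ← s2.tsum_add (s1.mul_left (2 / 3))]
    exact tsum_congr fun i => by ring
  unfold V1
  rw [h3]
  ring

theorem V1_hd {x : ℝ} (hx : 0 < x) : HasDerivAt V1 ((2 / 3 * V1 x - 4 * x ^ 2 * V x) / x) x := by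
  have hc := Pair_c br_pos br_le
  have hb := Pair_bd hc Pair_q
  have h0 := Pair_der hb hx
  have h1 : HasDerivAt (fun x : ℝ => x ^ (2 / 3 : ℝ)) (2 / 3 * x ^ (2 / 3 : ℝ) / x) x := by
    have := Real.hasDerivAt_rpow_const (x := x) (p := 2 / 3) (Or.inl hx.ne')
    refine this.congr_deriv ?_
    rw [Real.rpow_sub_one hx.ne']
    ring
  have h2 := (h1.const_mul kap).mul h0
  refine h2.congr_deriv ?_
  have s2 := Pair_sum (Pair_bd hb Pair_p) (3 * x)
  have h3 : (∑' i : ℕ, (-1) ^ i * br i * (2 * (i : ℝ) + 2 / 3) * (2 * (i : ℝ)) *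
      (3 * x) ^ (2 * i)) = (-(4 * x ^ 2)) * V0 x := by
    unfold V0
    refine Pair_shift _ _ _ (by simp) (fun i => ?_) s2
    have hi : ((i : ℝ) + 1) ≠ 0 := by positivity
    have hi2 : (3 * ((i : ℝ) + 1) + 1) ≠ 0 := by positivity
    rw [br_succ]
    have e1 : (3 * x) ^ (2 * (i + 1)) = (3 * x) ^ (2 * i) * (9 * x ^ 2) := by
      rw [mul_add, pow_add]
      ring
    rw [e1]
    push_cast
    field_simp
    ring
  rw [h3]
  unfold V1 V V01
  ring

theorem F_hd (o : ℂ) {x : ℝ} (hx : 0 < x) : HasDerivAt (F o) (G o x / x) x := by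
  have h := (U_hd hx).ofReal_comp.add ((V_hd hx).ofReal_comp.const_mul o)
  refine h.congr_deriv ?_
  unfold G
  push_cast
  ring

theorem G_hd (o : ℂ) {x : ℝ} (hx : 0 < x) :
    HasDerivAt (G o) ((2 / 3 * G o x - 4 * (x : ℂ) ^ 2 * F o x) / x) x := by
  have h := (U1_hd hx).ofReal_comp.add ((V1_hd hx).ofReal_comp.const_mul o)
  refine h.congr_deriv ?_
  unfold G F
  push_cast
  ring

end SL
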