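import Pool.Agent.Lib.MP_216314_pr.SL.Pair

/-!
# SL/PairL: the amplitude bound for large `x` (paper 5.2)

Proof. Let `f, g` be a real pair: `f' = g / x`, `g' = ((2/3) g - 4 x^2 f) / x` for `x > 0`. Put `q(x) = x^(1/6) f(x)`,
`q1(x) = x^(-5/6) (f(x) / 6 + g(x))`. Then `q' = q1` and `q1' = -(4 + 5 / (36 x^2)) q`:
`q1' = -(5/6) x^(-11/6) (f/6 + g) + x^(-5/6) (g/(6x) + ((2/3) g - 4x^2 f)/x) = x^(-11/6) (-(5/36) f - 4 x^2 f)`.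
Hence `E(x) = q1^2 + (4 + 5/(36 x^2)) q^2` has derivative `-(5 / (18 x^3)) q^2 <= 0`, so `E(x) <= E(1)` for `x >= 1`
(`antitoneOn_of_deriv_nonpos` or `image_le_of_deriv_right_le_deriv_boundary`). So `|q| <= sqrt(E(1))/2`, `|q1| <= sqrt(E(1))`,
`|f| = x^(-1/6) |q|`, `|g| <= x^(5/6) |q1| + |f| / 6 <= x^(5/6) (sqrt E(1) + sqrt E(1))`.
-/

set_option autoImplicit false

noncomputable section

namespace SL

open Filter Topology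

theorem PairL_rpow1 {x : ℝ} (hx : 0 < x) : x ^ (1 / 6 : ℝ) = x ^ (-(5 / 6) : ℝ) * x := by
  have h1 : (1 / 6 : ℝ) = -(5 / 6) + 1 := by norm_num
  rw [h1, Real.rpow_add_one hx.ne']

theorem PairL_rpow2 {x : ℝ} (hx : 0 < x) : x ^ (-(5 / 6) - 1 : ℝ) = x ^ (-(5 / 6) : ℝ) / x :=
  Real.rpow_sub_one hx.ne' _

theorem PairL_q {f g : ℝ → ℝ} (hf : ∀ x, 0 < x → HasDerivAt f (g x / x) x) {x : ℝ} (hx : 0 < x) :
    HasDerivAt (fun x => x ^ (1 / 6 : ℝ) * f x) (x ^ (-(5 / 6) : ℝ) * (f x / 6 + g x)) x := by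
  have h1 : HasDerivAt (fun x : ℝ => x ^ (1 / 6 : ℝ)) (1 / 6 * x ^ (1 / 6 - 1 : ℝ)) x :=
    Real.hasDerivAt_rpow_const (Or.inl hx.ne')
  have h2 : (1 / 6 - 1 : ℝ) = -(5 / 6) := by norm_num
  rw [h2] at h1
  refine (h1.mul (hf x hx)).congr_deriv ?_
  rw [PairL_rpow1 hx]
  field_simp

theorem PairL_q1 {f g : ℝ → ℝ} (hf : ∀ x, 0 < x → HasDerivAt f (g x / x) x)
    (hg : ∀ x, 0 < x → HasDerivAt g ((2 / 3 * g x - 4 * x ^ 2 * f x) / x) x) {x : ℝ} (hx : 0 < x) :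
    HasDerivAt (fun x => x ^ (-(5 / 6) : ℝ) * (f x / 6 + g x))
      (-(4 + 5 / (36 * x ^ 2)) * (x ^ (1 / 6 : ℝ) * f x)) x := by
  have h1 : HasDerivAt (fun x : ℝ => x ^ (-(5 / 6) : ℝ)) (-(5 / 6) * x ^ (-(5 / 6) - 1 : ℝ)) x :=
    Real.hasDerivAt_rpow_const (Or.inl hx.ne')
  rw [PairL_rpow2 hx] at h1
  refine (h1.mul (((hf x hx).div_const 6).add (hg x hx))).congr_deriv ?_
  simp only [Pi.add_apply]
  rw [PairL_rpow1 hx]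
  field_simp
  ring

theorem PairL_E {f g : ℝ → ℝ} (hf : ∀ x, 0 < x → HasDerivAt f (g x / x) x)
    (hg : ∀ x, 0 < x → HasDerivAt g ((2 / 3 * g x - 4 * x ^ 2 * f x) / x) x) {x : ℝ} (hx : 0 < x) :
    HasDerivAt (fun x => (x ^ (-(5 / 6) : ℝ) * (f x / 6 + g x)) ^ 2 +
      (4 + 5 / (36 * x ^ 2)) * (x ^ (1 / 6 : ℝ) * f x) ^ 2)
      (-(5 / (18 * x ^ 3)) * (x ^ (1 / 6 : ℝ) * f x) ^ 2) x := by
  have h1 : HasDerivAt (fun x : ℝ => 4 + 5 / (36 * x ^ 2)) (-(5 / (18 * x ^ 3))) x := by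
    have h2 : HasDerivAt (fun x : ℝ => 36 * x ^ 2) (36 * (2 * x)) x := by
      have h3 := (hasDerivAt_pow 2 x).const_mul 36
      refine h3.congr_deriv ?_
      push_cast
      ring
    have h4 := ((hasDerivAt_const x (5 : ℝ)).div h2 (by positivity)).const_add 4
    refine h4.congr_deriv ?_
    field_simp
    ring
  have h5 := ((PairL_q1 hf hg hx).pow 2).add (h1.mul ((PairL_q hf hx).pow 2))
  refine h5.congr_deriv ?_
  simp only [Pi.pow_apply]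
  push_cast
  ring

theorem large_of {f g : ℝ → ℝ} (hf : ∀ x, 0 < x → HasDerivAt f (g x / x) x)
    (hg : ∀ x, 0 < x → HasDerivAt g ((2 / 3 * g x - 4 * x ^ 2 * f x) / x) x) :
    ∃ K : ℝ, 0 < K ∧ ∀ x : ℝ, 1 ≤ x → |f x| ≤ K * x ^ (-(1 / 6) : ℝ) ∧ |g x| ≤ K * x ^ (5 / 6 : ℝ) := by
  obtain ⟨E, hE⟩ : ∃ E : ℝ → ℝ, E = fun x => (x ^ (-(5 / 6) : ℝ) * (f x / 6 + g x)) ^ 2 +
      (4 + 5 / (36 * x ^ 2)) * (x ^ (1 / 6 : ℝ) * f x) ^ 2 := ⟨_, rfl⟩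
  have hd : ∀ x, 0 < x → HasDerivAt E (-(5 / (18 * x ^ 3)) * (x ^ (1 / 6 : ℝ) * f x) ^ 2) x := by
    intro x hx
    rw [hE]
    exact PairL_E hf hg hx
  have hanti : AntitoneOn E (Set.Ici 1) := by
    refine antitoneOn_of_deriv_nonpos (convex_Ici 1) ?_ ?_ ?_
    · intro x hx
      exact (hd x (lt_of_lt_of_le one_pos hx)).continuousAt.continuousWithinAt
    · intro x hx
      rw [interior_Ici] at hx
      exact (hd x (lt_trans one_pos hx)).differentiableAt.differentiableWithinAt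
    · intro x hx
      rw [interior_Ici] at hx
      have hx0 : 0 < x := lt_trans one_pos hx
      rw [(hd x hx0).deriv]
      have h1 : 0 ≤ 5 / (18 * x ^ 3) := by positivity
      nlinarith [mul_nonneg h1 (sq_nonneg (x ^ (1 / 6 : ℝ) * f x))]
  obtain ⟨S, hS⟩ : ∃ S : ℝ, S = Real.sqrt (E 1) := ⟨_, rfl⟩
  have hS0 : 0 ≤ S := by
    rw [hS]
    exact Real.sqrt_nonneg _
  refine ⟨2 * S + 1, by linarith, fun x hx => ?_⟩
  have hx0 : 0 < x := lt_of_lt_of_le one_pos hx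
  have hEx : E x ≤ E 1 := hanti (Set.mem_Ici.2 le_rfl) (Set.mem_Ici.2 hx) hx
  obtain ⟨q, hq⟩ : ∃ q : ℝ, q = x ^ (1 / 6 : ℝ) * f x := ⟨_, rfl⟩
  obtain ⟨r, hr⟩ : ∃ r : ℝ, r = x ^ (-(5 / 6) : ℝ) * (f x / 6 + g x) := ⟨_, rfl⟩
  have hEq : E x = r ^ 2 + (4 + 5 / (36 * x ^ 2)) * q ^ 2 := by rw [hE, hq, hr]
  have h5 : 0 ≤ 5 / (36 * x ^ 2) := by positivity
  have hpos : r ^ 2 + 4 * q ^ 2 ≤ E x := by
    rw [hEq]
    nlinarith [mul_nonneg h5 (sq_nonneg q)]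
  have hE1 : 0 ≤ E 1 := by nlinarith [sq_nonneg r, sq_nonneg q]
  have hSS : S ^ 2 = E 1 := by
    rw [hS]
    exact Real.sq_sqrt hE1
  have hr1 : |r| ≤ S := by
    refine abs_le_of_sq_le_sq ?_ hS0
    rw [hSS]
    nlinarith [sq_nonneg q]
  have hq1 : |q| ≤ S := by
    refine abs_le_of_sq_le_sq ?_ hS0
    rw [hSS]
    nlinarith [sq_nonneg r, sq_nonneg q]
  have hp1 : 0 < x ^ (-(1 / 6) : ℝ) := Real.rpow_pos_of_pos hx0 _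
  have hp2 : 0 < x ^ (5 / 6 : ℝ) := Real.rpow_pos_of_pos hx0 _
  have e1 : f x = x ^ (-(1 / 6) : ℝ) * q := by
    rw [hq, ← mul_assoc, ← Real.rpow_add hx0]
    norm_num
  have e2 : g x = x ^ (5 / 6 : ℝ) * r - f x / 6 := by
    rw [hr, ← mul_assoc, ← Real.rpow_add hx0]
    norm_num
  have hfx : |f x| ≤ S * x ^ (-(1 / 6) : ℝ) := by
    rw [e1, abs_mul, abs_of_pos hp1, mul_comm]
    exact mul_le_mul_of_nonneg_right hq1 hp1.le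
  have hle1 : x ^ (-(1 / 6) : ℝ) ≤ 1 := Real.rpow_le_one_of_one_le_of_nonpos hx (by norm_num)
  have hle2 : 1 ≤ x ^ (5 / 6 : ℝ) := Real.one_le_rpow hx (by norm_num)
  refine ⟨?_, ?_⟩
  · refine hfx.trans (mul_le_mul_of_nonneg_right ?_ hp1.le)
    linarith
  · have h6 : |g x| ≤ x ^ (5 / 6 : ℝ) * |r| + |f x| / 6 := by
      rw [e2]
      refine (abs_sub _ _).trans ?_
      rw [abs_mul, abs_of_pos hp2, abs_div, abs_of_pos (by norm_num : (0 : ℝ) < 6)]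
    have h7 : x ^ (5 / 6 : ℝ) * |r| ≤ x ^ (5 / 6 : ℝ) * S := mul_le_mul_of_nonneg_left hr1 hp2.le
    have h8 : |f x| ≤ S * x ^ (5 / 6 : ℝ) :=
      hfx.trans (mul_le_mul_of_nonneg_left (hle1.trans hle2) hS0)
    nlinarith [abs_nonneg (f x)]

theorem large : ∃ K : ℝ, 0 < K ∧ ∀ x : ℝ, 1 ≤ x →
    |U x| ≤ K * x ^ (-(1 / 6) : ℝ) ∧ |U1 x| ≤ K * x ^ (5 / 6 : ℝ) ∧
      |V x| ≤ K * x ^ (-(1 / 6) : ℝ) ∧ |V1 x| ≤ K * x ^ (5 / 6 : ℝ) := by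
  obtain ⟨K1, h1, h2⟩ := large_of (f := U) (g := U1) (fun x hx => U_hd hx) (fun x hx => U1_hd hx)
  obtain ⟨K2, h3, h4⟩ := large_of (f := V) (g := V1) (fun x hx => V_hd hx) (fun x hx => V1_hd hx)
  refine ⟨K1 + K2, by positivity, fun x hx => ?_⟩
  have hx0 : 0 < x := lt_of_lt_of_le one_pos hx
  have hp1 : 0 < x ^ (-(1 / 6) : ℝ) := Real.rpow_pos_of_pos hx0 _
  have hp2 : 0 < x ^ (5 / 6 : ℝ) := Real.rpow_pos_of_pos hx0 _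
  obtain ⟨a1, a2⟩ := h2 x hx
  obtain ⟨a3, a4⟩ := h4 x hx
  refine ⟨?_, ?_, ?_, ?_⟩
  · nlinarith [mul_pos h3 hp1]
  · nlinarith [mul_pos h3 hp2]
  · nlinarith [mul_pos h1 hp1]
  · nlinarith [mul_pos h1 hp2]

end SL
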