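import Pool.Agent.Lib.MP_216314_pr.SL.PairS
import Pool.Agent.Lib.MP_216314_pr.SL.PairL

/-!
# SL/PairB: uniform bounds for `F o (A e^{-t})`, `G o (A e^{-t})`

Proof. From `small` (for `y <= 1`) and `large` (for `y >= 1`): with `K` large, for ALL `y > 0`: `|F o y| <= K`, `|F o y| <= K y^(-1/6)` (for `y <= 1` because
`y^(-1/6) >= 1`), `|G o y| <= K y^(2/3)` for `y <= 1`, `|G o y| <= K y^(5/6)` for `y >= 1`; hence `|G o y| <= K y^(2/3)` when `y <= Y0` and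
`|G o y| <= K y^(5/6)` when `y >= y0 > 0` (constants depending on `Y0`, `y0`; on the compact interval between use `y^(2/3)`, `y^(5/6)` bounded above and below).
`y = A e^{-t}`, `A0 <= A <= A1`: for `t >= 0`: `y <= A1`; for `t <= 0`: `y >= A0`; `y^(2/3) = A^(2/3) e^{-2t/3}`, `y^(-1/6) = A^(-1/6) e^{t/6}`, `y^(5/6) = A^(5/6) e^{-5t/6}`.
-/

set_option autoImplicit false

noncomputable section

namespace SL

open Filter Topology

/-- all bounds for the real pair -/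
theorem PairB_all : ∃ K : ℝ, 0 < K ∧ ∀ y : ℝ, 0 < y →
    |U y| ≤ K ∧ |U y| ≤ K * y ^ (-(1 / 6) : ℝ) ∧ |V y| ≤ K ∧ |V y| ≤ K * y ^ (-(1 / 6) : ℝ) ∧
      |V y| ≤ K * y ^ (2 / 3 : ℝ) ∧
      (y ≤ 1 → |U1 y| ≤ K * y ^ (2 / 3 : ℝ) ∧ |V1 y| ≤ K * y ^ (2 / 3 : ℝ)) ∧
      (1 ≤ y → |U1 y| ≤ K * y ^ (5 / 6 : ℝ) ∧ |V1 y| ≤ K * y ^ (5 / 6 : ℝ)) := by
  obtain ⟨K, hK, h⟩ := small
  obtain ⟨K', hK', h'⟩ := large
  refine ⟨1 + K + K', by positivity, fun y hy => ?_⟩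
  rcases le_total y 1 with h1 | h1
  · obtain ⟨a1, a2, a3, a4, _⟩ := h y hy h1
    have b1 : y ^ 2 ≤ y ^ (2 / 3 : ℝ) := by
      rw [← Real.rpow_natCast]
      exact Real.rpow_le_rpow_of_exponent_ge hy h1 (by norm_num)
    have b2 : y ^ (2 / 3 : ℝ) ≤ 1 := Real.rpow_le_one hy.le h1 (by norm_num)
    have b3 : 1 ≤ y ^ (-(1 / 6) : ℝ) := Real.one_le_rpow_of_pos_of_le_one_of_nonpos hy h1 (by norm_num)
    have b4 : 0 ≤ y ^ (2 / 3 : ℝ) := Real.rpow_nonneg hy.le _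
    have b5 : 0 ≤ y ^ 2 := by positivity
    have c1 : |U y| ≤ 1 + K := by
      have e : U y = (U y - 1) + 1 := by ring
      have e2 : |U y| ≤ |U y - 1| + |(1 : ℝ)| := by
        calc |U y| = |(U y - 1) + 1| := by rw [← e]
          _ ≤ |U y - 1| + |(1 : ℝ)| := abs_add_le _ _
      rw [abs_one] at e2
      have e3 : K * y ^ 2 ≤ K := by nlinarith
      linarith
    have c2 : |V y| ≤ K := by nlinarith
    refine ⟨by linarith, ?_, by linarith, ?_, ?_, fun _ => ⟨?_, ?_⟩, fun h2 => ?_⟩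
    · nlinarith
    · nlinarith
    · nlinarith
    · nlinarith
    · nlinarith
    · have h3 : y = 1 := le_antisymm h1 h2
      subst h3
      rw [Real.one_rpow] at *
      constructor <;> linarith
  · obtain ⟨a1, a2, a3, a4⟩ := h' y h1
    have b1 : y ^ (-(1 / 6) : ℝ) ≤ 1 := Real.rpow_le_one_of_one_le_of_nonpos h1 (by norm_num)
    have b2 : 0 ≤ y ^ (-(1 / 6) : ℝ) := Real.rpow_nonneg hy.le _
    have b3 : 1 ≤ y ^ (2 / 3 : ℝ) := Real.one_le_rpow h1 (by norm_num)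
    have b4 : 0 ≤ y ^ (5 / 6 : ℝ) := Real.rpow_nonneg hy.le _
    have c1 : |U y| ≤ K' := by nlinarith
    have c2 : |V y| ≤ K' := by nlinarith
    refine ⟨by linarith, ?_, by linarith, ?_, ?_, fun h2 => ?_, fun _ => ⟨?_, ?_⟩⟩
    · nlinarith
    · nlinarith
    · nlinarith
    · have h3 : y = 1 := le_antisymm h2 h1
      subst h3
      rw [Real.one_rpow] at *
      constructor <;> linarith
    · nlinarith
    · nlinarith

theorem PairB_F (o : ℂ) (y : ℝ) : ‖F o y‖ ≤ |U y| + ‖o‖ * |V y| := by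
  unfold F
  refine (norm_add_le _ _).trans ?_
  rw [norm_mul, Complex.norm_real, Complex.norm_real, Real.norm_eq_abs, Real.norm_eq_abs]

theorem PairB_G (o : ℂ) (y : ℝ) : ‖G o y‖ ≤ |U1 y| + ‖o‖ * |V1 y| := by
  unfold G
  refine (norm_add_le _ _).trans ?_
  rw [norm_mul, Complex.norm_real, Complex.norm_real, Real.norm_eq_abs, Real.norm_eq_abs]

theorem PairB_rpow {A : ℝ} (hA : 0 ≤ A) (t r : ℝ) :
    (A * Real.exp (-t)) ^ r = A ^ r * Real.exp (-(r * t)) := by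
  rw [Real.mul_rpow hA (Real.exp_pos _).le, ← Real.exp_mul]
  congr 2
  ring

/-- `F` is bounded on `(0, oo)`, and decays like `y^(-1/6)` -/
theorem F_bd (o : ℂ) : ∃ K : ℝ, 0 < K ∧ ∀ y : ℝ, 0 < y → ‖F o y‖ ≤ K ∧ ‖F o y‖ ≤ K * y ^ (-(1 / 6) : ℝ) := by
  obtain ⟨K, hK, h⟩ := PairB_all
  refine ⟨(1 + ‖o‖) * K, by positivity, fun y hy => ?_⟩
  obtain ⟨a1, a2, a3, a4, _⟩ := h y hy
  have h1 := PairB_F o y
  have h2 := mul_le_mul_of_nonneg_left a3 (norm_nonneg o)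
  have h3 := mul_le_mul_of_nonneg_left a4 (norm_nonneg o)
  constructor
  · calc ‖F o y‖ ≤ |U y| + ‖o‖ * |V y| := h1
      _ ≤ K + ‖o‖ * K := by linarith
      _ = _ := by ring
  · calc ‖F o y‖ ≤ |U y| + ‖o‖ * |V y| := h1
      _ ≤ K * y ^ (-(1 / 6) : ℝ) + ‖o‖ * (K * y ^ (-(1 / 6) : ℝ)) := by linarith
      _ = _ := by ring

theorem PairB_Gb (o : ℂ) : ∃ K : ℝ, 0 < K ∧ ∀ y : ℝ, 0 < y →
    (y ≤ 1 → ‖G o y‖ ≤ K * y ^ (2 / 3 : ℝ)) ∧ (1 ≤ y → ‖G o y‖ ≤ K * y ^ (5 / 6 : ℝ)) := by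
  obtain ⟨K, hK, h⟩ := PairB_all
  refine ⟨(1 + ‖o‖) * K, by positivity, fun y hy => ?_⟩
  obtain ⟨_, _, _, _, _, a1, a2⟩ := h y hy
  have h1 := PairB_G o y
  constructor
  · intro hy1
    obtain ⟨b1, b2⟩ := a1 hy1
    have h3 := mul_le_mul_of_nonneg_left b2 (norm_nonneg o)
    calc ‖G o y‖ ≤ |U1 y| + ‖o‖ * |V1 y| := h1
      _ ≤ K * y ^ (2 / 3 : ℝ) + ‖o‖ * (K * y ^ (2 / 3 : ℝ)) := by linarith
      _ = _ := by ring
  · intro hy1
    obtain ⟨b1, b2⟩ := a2 hy1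
    have h3 := mul_le_mul_of_nonneg_left b2 (norm_nonneg o)
    calc ‖G o y‖ ≤ |U1 y| + ‖o‖ * |V1 y| := h1
      _ ≤ K * y ^ (5 / 6 : ℝ) + ‖o‖ * (K * y ^ (5 / 6 : ℝ)) := by linarith
      _ = _ := by ring

theorem FG_bd (o : ℂ) {A0 A1 : ℝ} (h0 : 0 < A0) : ∃ K : ℝ, 0 < K ∧ ∀ A ∈ Set.Icc A0 A1, ∀ t : ℝ,
    (0 ≤ t → ‖F o (A * Real.exp (-t))‖ ≤ K ∧ ‖G o (A * Real.exp (-t))‖ ≤ K * Real.exp (-(2 / 3 * t))) ∧
      (t ≤ 0 → ‖F o (A * Real.exp (-t))‖ ≤ K * Real.exp (1 / 6 * t) ∧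
        ‖G o (A * Real.exp (-t))‖ ≤ K * Real.exp (-(5 / 6 * t))) := by
  obtain ⟨KF, hKF, hF⟩ := F_bd o
  obtain ⟨KG, hKG, hG⟩ := PairB_Gb o
  have hA1 : 0 ≤ |A1| := abs_nonneg _
  have p1 : 0 ≤ |A1| ^ (2 / 3 : ℝ) := Real.rpow_nonneg hA1 _
  have p2 : 0 ≤ |A1| ^ (5 / 6 : ℝ) := Real.rpow_nonneg hA1 _
  have p3 : 0 < A0 ^ (-(1 / 6) : ℝ) := Real.rpow_pos_of_pos h0 _
  have p4 : 0 < 1 / A0 := by positivity
  refine ⟨KF + KF * A0 ^ (-(1 / 6) : ℝ) + KG * (1 + |A1|) * |A1| ^ (2 / 3 : ℝ) +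
    KG * (1 + 1 / A0) * |A1| ^ (5 / 6 : ℝ), by positivity, ?_⟩
  set K1 := KG * (1 + |A1|) * |A1| ^ (2 / 3 : ℝ) with hK1
  set K2 := KG * (1 + 1 / A0) * |A1| ^ (5 / 6 : ℝ) with hK2
  set K3 := KF * A0 ^ (-(1 / 6) : ℝ) with hK3
  have q1 : 0 ≤ K1 := by positivity
  have q2 : 0 ≤ K2 := by positivity
  have q3 : 0 ≤ K3 := by positivity
  intro A hA t
  have hA0 : 0 < A := lt_of_lt_of_le h0 hA.1
  have hAA : A ≤ |A1| := hA.2.trans (le_abs_self _)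
  have hy : 0 < A * Real.exp (-t) := mul_pos hA0 (Real.exp_pos _)
  obtain ⟨f1, f2⟩ := hF _ hy
  obtain ⟨g1, g2⟩ := hG _ hy
  constructor
  · intro ht
    have he : Real.exp (-t) ≤ 1 := Real.exp_le_one_iff.2 (by linarith)
    have hyA : A * Real.exp (-t) ≤ |A1| := by nlinarith
    refine ⟨by linarith, ?_⟩
    have k1 : ‖G o (A * Real.exp (-t))‖ ≤ KG * (1 + |A1|) * (A * Real.exp (-t)) ^ (2 / 3 : ℝ) := by
      have r0 : 0 ≤ (A * Real.exp (-t)) ^ (2 / 3 : ℝ) := Real.rpow_nonneg hy.le _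
      rcases le_total (A * Real.exp (-t)) 1 with h1 | h1
      · refine (g1 h1).trans ?_
        have : KG ≤ KG * (1 + |A1|) := by nlinarith
        exact mul_le_mul_of_nonneg_right this r0
      · refine (g2 h1).trans ?_
        have e1 : (A * Real.exp (-t)) ^ (5 / 6 : ℝ) =
            (A * Real.exp (-t)) ^ (2 / 3 : ℝ) * (A * Real.exp (-t)) ^ (1 / 6 : ℝ) := by
          rw [← Real.rpow_add hy]
          norm_num
        have e2 : (A * Real.exp (-t)) ^ (1 / 6 : ℝ) ≤ 1 + |A1| := by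
          calc (A * Real.exp (-t)) ^ (1 / 6 : ℝ) ≤ (A * Real.exp (-t)) ^ (1 : ℝ) :=
                Real.rpow_le_rpow_of_exponent_le h1 (by norm_num)
            _ = A * Real.exp (-t) := Real.rpow_one _
            _ ≤ 1 + |A1| := by linarith
        rw [e1]
        have e3 := mul_le_mul_of_nonneg_left e2 (mul_nonneg hKG.le r0)
        linarith
    refine k1.trans ?_
    rw [PairB_rpow hA0.le]
    have k2 : A ^ (2 / 3 : ℝ) ≤ |A1| ^ (2 / 3 : ℝ) := Real.rpow_le_rpow hA0.le hAA (by norm_num)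
    have k3 : KG * (1 + |A1|) * A ^ (2 / 3 : ℝ) ≤ K1 :=
      mul_le_mul_of_nonneg_left k2 (by positivity)
    have k4 : KG * (1 + |A1|) * A ^ (2 / 3 : ℝ) ≤ KF + K3 + K1 + K2 := by linarith
    have k5 := mul_le_mul_of_nonneg_right k4 (Real.exp_pos (-(2 / 3 * t))).le
    linarith
  · intro ht
    have he : 1 ≤ Real.exp (-t) := Real.one_le_exp (by linarith)
    have hyA : A0 ≤ A * Real.exp (-t) := by
      have := hA.1
      nlinarith
    constructor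
    · refine f2.trans ?_
      rw [PairB_rpow hA0.le]
      have k2 : A ^ (-(1 / 6) : ℝ) ≤ A0 ^ (-(1 / 6) : ℝ) :=
        Real.rpow_le_rpow_of_nonpos h0 hA.1 (by norm_num)
      have k3 : KF * A ^ (-(1 / 6) : ℝ) ≤ K3 := mul_le_mul_of_nonneg_left k2 hKF.le
      have k4 : KF * A ^ (-(1 / 6) : ℝ) ≤ KF + K3 + K1 + K2 := by linarith
      have k6 : -(-(1 / 6) * t) = 1 / 6 * t := by ring
      rw [k6]
      have k5 := mul_le_mul_of_nonneg_right k4 (Real.exp_pos (1 / 6 * t)).le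
      linarith
    · have k1 : ‖G o (A * Real.exp (-t))‖ ≤ KG * (1 + 1 / A0) * (A * Real.exp (-t)) ^ (5 / 6 : ℝ) := by
        have r0 : 0 ≤ (A * Real.exp (-t)) ^ (5 / 6 : ℝ) := Real.rpow_nonneg hy.le _
        rcases le_total (A * Real.exp (-t)) 1 with h1 | h1
        · refine (g1 h1).trans ?_
          have e1 : (A * Real.exp (-t)) ^ (2 / 3 : ℝ) =
              (A * Real.exp (-t)) ^ (5 / 6 : ℝ) * (A * Real.exp (-t)) ^ (-(1 / 6) : ℝ) := by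
            rw [← Real.rpow_add hy]
            norm_num
          have e2 : (A * Real.exp (-t)) ^ (-(1 / 6) : ℝ) ≤ 1 + 1 / A0 := by
            calc (A * Real.exp (-t)) ^ (-(1 / 6) : ℝ) ≤ (A * Real.exp (-t)) ^ (-1 : ℝ) :=
                  Real.rpow_le_rpow_of_exponent_ge hy h1 (by norm_num)
              _ = (A * Real.exp (-t))⁻¹ := Real.rpow_neg_one _
              _ ≤ A0⁻¹ := inv_anti₀ h0 hyA
              _ = 1 / A0 := (one_div _).symm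
              _ ≤ 1 + 1 / A0 := by linarith
          rw [e1]
          have e3 := mul_le_mul_of_nonneg_left e2 (mul_nonneg hKG.le r0)
          linarith
        · refine (g2 h1).trans ?_
          have : KG ≤ KG * (1 + 1 / A0) := by nlinarith
          exact mul_le_mul_of_nonneg_right this r0
      refine k1.trans ?_
      rw [PairB_rpow hA0.le]
      have k2 : A ^ (5 / 6 : ℝ) ≤ |A1| ^ (5 / 6 : ℝ) := Real.rpow_le_rpow hA0.le hAA (by norm_num)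
      have k3 : KG * (1 + 1 / A0) * A ^ (5 / 6 : ℝ) ≤ K2 :=
        mul_le_mul_of_nonneg_left k2 (by positivity)
      have k4 : KG * (1 + 1 / A0) * A ^ (5 / 6 : ℝ) ≤ KF + K3 + K1 + K2 := by linarith
      have k5 := mul_le_mul_of_nonneg_right k4 (Real.exp_pos (-(5 / 6 * t))).le
      linarith

/-- `F o y - 1 = O(y^(2/3))`, the part without `V` is real: `U y - 1 = O(y^2)` -/
theorem F_sub (o : ℂ) {A1 : ℝ} : ∃ K : ℝ, 0 < K ∧ ∀ A : ℝ, 0 ≤ A → A ≤ A1 → ∀ t : ℝ, 0 ≤ t →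
    ‖F o (A * Real.exp (-t)) - (U (A * Real.exp (-t)) : ℂ)‖ ≤ K * Real.exp (-(2 / 3 * t)) ∧
      |U (A * Real.exp (-t))| ≤ K ∧ ‖F o (A * Real.exp (-t))‖ ≤ K := by
  obtain ⟨K, hK, h⟩ := PairB_all
  have hA1 : 0 ≤ |A1| := abs_nonneg _
  have p1 : 0 ≤ |A1| ^ (2 / 3 : ℝ) := Real.rpow_nonneg hA1 _
  refine ⟨1 + (1 + ‖o‖) * K + ‖o‖ * K * |A1| ^ (2 / 3 : ℝ), by positivity, ?_⟩
  have q1 : 0 ≤ ‖o‖ * K * |A1| ^ (2 / 3 : ℝ) := by positivity
  have q2 : 0 ≤ ‖o‖ * K := by positivity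
  intro A hA hAA1 t ht
  have hAA : A ≤ |A1| := hAA1.trans (le_abs_self _)
  have hFU : F o (A * Real.exp (-t)) - (U (A * Real.exp (-t)) : ℂ) = o * (V (A * Real.exp (-t)) : ℂ) := by
    unfold F
    ring
  have hn : ‖F o (A * Real.exp (-t)) - (U (A * Real.exp (-t)) : ℂ)‖ = ‖o‖ * |V (A * Real.exp (-t))| := by
    rw [hFU, norm_mul, Complex.norm_real, Real.norm_eq_abs]
  have hF1 := PairB_F o (A * Real.exp (-t))
  rcases hA.eq_or_lt with h1 | h1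
  · have hz : A * Real.exp (-t) = 0 := by rw [← h1, zero_mul]
    rw [hn]
    rw [hz] at hF1 ⊢
    rw [V_zero, abs_zero, mul_zero] at hF1 ⊢
    rw [U_zero, abs_one] at hF1 ⊢
    refine ⟨by positivity, ?_, ?_⟩
    · nlinarith
    · nlinarith
  · have hy : 0 < A * Real.exp (-t) := mul_pos h1 (Real.exp_pos _)
    obtain ⟨a1, _, a3, _, a5, _⟩ := h _ hy
    rw [PairB_rpow hA] at a5
    have k2 : A ^ (2 / 3 : ℝ) ≤ |A1| ^ (2 / 3 : ℝ) := Real.rpow_le_rpow hA hAA (by norm_num)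
    have k3 : ‖o‖ * K * A ^ (2 / 3 : ℝ) ≤ ‖o‖ * K * |A1| ^ (2 / 3 : ℝ) :=
      mul_le_mul_of_nonneg_left k2 q2
    have k6 := mul_le_mul_of_nonneg_left a3 (norm_nonneg o)
    refine ⟨?_, ?_, ?_⟩
    · rw [hn]
      have k4 := mul_le_mul_of_nonneg_left a5 (norm_nonneg o)
      have k7 : ‖o‖ * K * A ^ (2 / 3 : ℝ) ≤ 1 + (1 + ‖o‖) * K + ‖o‖ * K * |A1| ^ (2 / 3 : ℝ) := by
        nlinarith
      have k5 := mul_le_mul_of_nonneg_right k7 (Real.exp_pos (-(2 / 3 * t))).le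
      linarith
    · nlinarith
    · nlinarith

end SL
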