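import Pool.Agent.Lib.MP_216314_pr.SL.Pair

/-!
# SL/PairS: behaviour of `U`, `V` near 0

Proof. `U(x) - 1 = sum_(i>=1) (-1)^i ar_i (3x)^(2i)`, for `0 <= x <= 1`: `|.| <= x^2 sum_(i>=1) 9^i / i!`; `U1`: factor `2i`, `sum 2 i 9^i / i!`;
`|V0(x)| <= sum 9^j / j!`, `|V01(x)| <= sum (2j+2/3) 9^j / j!`; `V01(x) -> 2/3` as `x -> 0` (continuity of the power series at 0, or
`|V01(x) - 2/3| <= x^2 sum_(j>=1) (2j+2/3) 9^j/j!`). All bounds follow from `ar_le`, `br_le` and `(3x)^(2i) <= 9^i x^2` for `i >= 1`, `0 <= x <= 1`.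
-/

set_option autoImplicit false

noncomputable section

namespace SL

open Filter Topology

theorem kap_pos : 0 < kap := by
  unfold kap
  exact div_pos (Real.Gamma_pos_of_pos (by norm_num)) (Real.Gamma_pos_of_pos (by norm_num))

private theorem PairS_bd (i : ℕ) : (2 * (i : ℝ) + 1) / (i.factorial : ℝ) * 9 ^ i ≤
    2 * (18 ^ i / (i.factorial : ℝ)) := by
  have h1 : (i : ℝ) + 1 ≤ 2 ^ i := by
    have := @Nat.lt_two_pow_self i
    have h2 : i + 1 ≤ 2 ^ i := this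
    exact_mod_cast h2
  have hf : (0 : ℝ) < (i.factorial : ℝ) := by exact_mod_cast i.factorial_pos
  have e : (18 : ℝ) ^ i = 2 ^ i * 9 ^ i := by rw [← mul_pow]; norm_num
  rw [e, div_mul_eq_mul_div, ← mul_div_assoc]
  apply div_le_div_of_nonneg_right _ hf.le
  have h9 : (0 : ℝ) < 9 ^ i := by positivity
  have : (2 * (i : ℝ) + 1) ≤ 2 * 2 ^ i := by linarith
  calc (2 * (i : ℝ) + 1) * 9 ^ i ≤ (2 * 2 ^ i) * 9 ^ i := mul_le_mul_of_nonneg_right this h9.le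
    _ = 2 * (2 ^ i * 9 ^ i) := by ring

private theorem PairS_sumS : Summable (fun i : ℕ => 2 * ((18 : ℝ) ^ i / (i.factorial : ℝ))) :=
  (Real.summable_pow_div_factorial 18).mul_left 2

private def SS : ℝ := ∑' i : ℕ, 2 * ((18 : ℝ) ^ i / (i.factorial : ℝ))

private theorem SS_nonneg : 0 ≤ SS := tsum_nonneg fun i => by positivity

private theorem PairS_tsum (c : ℕ → ℝ) (hc : ∀ i, |c i| ≤ (2 * (i : ℝ) + 1) / (i.factorial : ℝ)) {x : ℝ}
    (h0 : 0 ≤ x) (h1 : x ≤ 1) : |(∑' i : ℕ, c i * (3 * x) ^ (2 * i)) - c 0| ≤ SS * x ^ 2 := by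
  have hx2 : x ^ 2 ≤ 1 := by nlinarith
  have hpow : ∀ i : ℕ, (3 * x) ^ (2 * i) = 9 ^ i * (x ^ 2) ^ i := by
    intro i
    rw [pow_mul, mul_pow, mul_pow]; norm_num
  have hb : ∀ i, |c i * (3 * x) ^ (2 * i)| ≤ 2 * ((18 : ℝ) ^ i / (i.factorial : ℝ)) * (x ^ 2) ^ i := by
    intro i
    rw [hpow, abs_mul, abs_mul, abs_of_nonneg (by positivity : (0 : ℝ) ≤ 9 ^ i),
      abs_of_nonneg (by positivity : (0 : ℝ) ≤ (x ^ 2) ^ i), ← mul_assoc]
    apply mul_le_mul_of_nonneg_right _ (by positivity)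
    exact le_trans (mul_le_mul_of_nonneg_right (hc i) (by positivity)) (PairS_bd i)
  have hb1 : ∀ i, |c i * (3 * x) ^ (2 * i)| ≤ 2 * ((18 : ℝ) ^ i / (i.factorial : ℝ)) := by
    intro i
    refine (hb i).trans ?_
    have : (x ^ 2) ^ i ≤ 1 := pow_le_one₀ (sq_nonneg x) hx2
    exact mul_le_of_le_one_right (by positivity) this
  have hs : Summable (fun i : ℕ => c i * (3 * x) ^ (2 * i)) :=
    Summable.of_norm_bounded PairS_sumS (fun i => by rw [Real.norm_eq_abs]; exact hb1 i)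
  rw [hs.tsum_eq_zero_add]
  have e0 : c 0 * (3 * x) ^ (2 * 0) = c 0 := by simp
  rw [e0, add_sub_cancel_left]
  have hb2 : ∀ i, |c (i + 1) * (3 * x) ^ (2 * (i + 1))| ≤
      x ^ 2 * (2 * ((18 : ℝ) ^ (i + 1) / ((i + 1).factorial : ℝ))) := by
    intro i
    refine (hb (i + 1)).trans ?_
    rw [mul_comm]
    apply mul_le_mul_of_nonneg_right _ (by positivity)
    rw [pow_succ]
    exact mul_le_of_le_one_left (sq_nonneg x) (pow_le_one₀ (sq_nonneg x) hx2)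
  have hs2 : Summable (fun i : ℕ => 2 * ((18 : ℝ) ^ (i + 1) / ((i + 1).factorial : ℝ))) :=
    (summable_nat_add_iff (f := fun i : ℕ => 2 * ((18 : ℝ) ^ i / (i.factorial : ℝ))) 1).2 PairS_sumS
  have h3 := tsum_of_norm_bounded (hs2.mul_left (x ^ 2)).hasSum
    (fun i => by rw [Real.norm_eq_abs]; exact hb2 i)
  rw [Real.norm_eq_abs, tsum_mul_left] at h3
  refine h3.trans ?_
  rw [mul_comm]
  apply mul_le_mul_of_nonneg_right _ (sq_nonneg x)
  unfold SS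
  rw [PairS_sumS.tsum_eq_zero_add]
  have : (0 : ℝ) ≤ 2 * ((18 : ℝ) ^ 0 / (Nat.factorial 0 : ℝ)) := by positivity
  linarith

private theorem PairS_abs1 (i : ℕ) {a : ℝ} : |(-1) ^ i * a| = |a| := by
  rw [abs_mul, abs_pow, abs_neg, abs_one, one_pow, one_mul]

private theorem PairS_one_le (i : ℕ) : 1 / (i.factorial : ℝ) ≤ (2 * (i : ℝ) + 1) / (i.factorial : ℝ) := by
  apply div_le_div_of_nonneg_right _ (by positivity)
  have : (0 : ℝ) ≤ i := by positivity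
  linarith

private theorem PairS_U {x : ℝ} (h0 : 0 ≤ x) (h1 : x ≤ 1) : |U x - 1| ≤ SS * x ^ 2 := by
  have h := PairS_tsum (fun i => (-1) ^ i * ar i) (fun i => by
    rw [PairS_abs1, abs_of_pos (ar_pos i)]
    exact (ar_le i).trans (PairS_one_le i)) h0 h1
  have e : (-1 : ℝ) ^ 0 * ar 0 = (1 : ℝ) := by simp [ar]
  rw [e] at h
  exact h

private theorem PairS_V0 {x : ℝ} (h0 : 0 ≤ x) (h1 : x ≤ 1) : |V0 x - 1| ≤ SS * x ^ 2 := by
  have h := PairS_tsum (fun i => (-1) ^ i * br i) (fun i => by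
    rw [PairS_abs1, abs_of_pos (br_pos i)]
    exact (br_le i).trans (PairS_one_le i)) h0 h1
  have e : (-1 : ℝ) ^ 0 * br 0 = (1 : ℝ) := by simp [br]
  rw [e] at h
  exact h

private theorem PairS_U1 {x : ℝ} (h0 : 0 ≤ x) (h1 : x ≤ 1) : |U1 x| ≤ SS * x ^ 2 := by
  have h := PairS_tsum (fun i => (-1) ^ i * ar i * (2 * i)) (fun i => by
    have hi : (0 : ℝ) ≤ 2 * i := by positivity
    rw [mul_assoc, PairS_abs1, abs_mul, abs_of_pos (ar_pos i), abs_of_nonneg hi]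
    calc ar i * (2 * i) ≤ 1 / (i.factorial : ℝ) * (2 * i) := mul_le_mul_of_nonneg_right (ar_le i) hi
      _ ≤ 1 / (i.factorial : ℝ) * (2 * i + 1) := mul_le_mul_of_nonneg_left (by linarith) (by positivity)
      _ = (2 * (i : ℝ) + 1) / (i.factorial : ℝ) := by ring) h0 h1
  have e : (-1 : ℝ) ^ 0 * ar 0 * (2 * ((0 : ℕ) : ℝ)) = (0 : ℝ) := by simp
  rw [e, sub_zero] at h
  exact h

private theorem PairS_V01 {x : ℝ} (h0 : 0 ≤ x) (h1 : x ≤ 1) : |V01 x - 2 / 3| ≤ SS * x ^ 2 := by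
  have h := PairS_tsum (fun i => (-1) ^ i * br i * (2 * i + 2 / 3)) (fun i => by
    have hi : (0 : ℝ) ≤ 2 * i + 2 / 3 := by positivity
    rw [mul_assoc, PairS_abs1, abs_mul, abs_of_pos (br_pos i), abs_of_nonneg hi]
    calc br i * (2 * i + 2 / 3) ≤ 1 / (i.factorial : ℝ) * (2 * i + 2 / 3) :=
          mul_le_mul_of_nonneg_right (br_le i) hi
      _ ≤ 1 / (i.factorial : ℝ) * (2 * i + 1) := mul_le_mul_of_nonneg_left (by linarith) (by positivity)
      _ = (2 * (i : ℝ) + 1) / (i.factorial : ℝ) := by ring) h0 h1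
  have e : (-1 : ℝ) ^ 0 * br 0 * (2 * ((0 : ℕ) : ℝ) + 2 / 3) = (2 / 3 : ℝ) := by simp [br]
  rw [e] at h
  exact h

/-- all small `x` bounds -/
theorem small : ∃ K : ℝ, 0 < K ∧ ∀ x : ℝ, 0 < x → x ≤ 1 →
    |U x - 1| ≤ K * x ^ 2 ∧ |U1 x| ≤ K * x ^ 2 ∧ |V x| ≤ K * x ^ (2 / 3 : ℝ) ∧ |V1 x| ≤ K * x ^ (2 / 3 : ℝ) ∧
      |V1 x - 2 / 3 * kap * x ^ (2 / 3 : ℝ)| ≤ K * x ^ 2 := by
  have hk := kap_pos
  have hS := SS_nonneg
  have hkS : 0 ≤ kap * SS := mul_nonneg hk.le hS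
  refine ⟨(SS + 1) * (kap + 1), by positivity, fun x h0 h1 => ?_⟩
  have hKS : SS ≤ (SS + 1) * (kap + 1) := by nlinarith
  have hx2 : x ^ 2 ≤ 1 := by nlinarith
  have hr : 0 ≤ x ^ (2 / 3 : ℝ) := Real.rpow_nonneg h0.le _
  have hr1 : x ^ (2 / 3 : ℝ) ≤ 1 := Real.rpow_le_one h0.le h1 (by norm_num)
  have hq : 0 ≤ x ^ 2 := sq_nonneg x
  have u1 := PairS_U h0.le h1
  have u2 := PairS_U1 h0.le h1
  have v1 := PairS_V0 h0.le h1
  have v2 := PairS_V01 h0.le h1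
  have hV0 : |V0 x| ≤ 1 + SS := by
    have := abs_sub_abs_le_abs_sub (V0 x) 1
    rw [abs_one] at this
    nlinarith
  have hV1 : |V01 x| ≤ 1 + SS := by
    have := abs_sub_abs_le_abs_sub (V01 x) (2 / 3)
    rw [abs_of_pos (by norm_num : (0 : ℝ) < 2 / 3)] at this
    nlinarith
  have hK2 : kap * (1 + SS) ≤ (SS + 1) * (kap + 1) := by nlinarith
  refine ⟨u1.trans (mul_le_mul_of_nonneg_right hKS hq), u2.trans (mul_le_mul_of_nonneg_right hKS hq),
    ?_, ?_, ?_⟩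
  · unfold V
    rw [abs_mul, abs_mul, abs_of_pos hk, abs_of_nonneg hr]
    calc kap * x ^ (2 / 3 : ℝ) * |V0 x| ≤ kap * x ^ (2 / 3 : ℝ) * (1 + SS) :=
          mul_le_mul_of_nonneg_left hV0 (mul_nonneg hk.le hr)
      _ = kap * (1 + SS) * x ^ (2 / 3 : ℝ) := by ring
      _ ≤ (SS + 1) * (kap + 1) * x ^ (2 / 3 : ℝ) := mul_le_mul_of_nonneg_right hK2 hr
  · unfold V1
    rw [abs_mul, abs_mul, abs_of_pos hk, abs_of_nonneg hr]
    calc kap * x ^ (2 / 3 : ℝ) * |V01 x| ≤ kap * x ^ (2 / 3 : ℝ) * (1 + SS) :=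
          mul_le_mul_of_nonneg_left hV1 (mul_nonneg hk.le hr)
      _ = kap * (1 + SS) * x ^ (2 / 3 : ℝ) := by ring
      _ ≤ (SS + 1) * (kap + 1) * x ^ (2 / 3 : ℝ) := mul_le_mul_of_nonneg_right hK2 hr
  · have e : V1 x - 2 / 3 * kap * x ^ (2 / 3 : ℝ) = kap * x ^ (2 / 3 : ℝ) * (V01 x - 2 / 3) := by
      unfold V1; ring
    rw [e, abs_mul, abs_mul, abs_of_pos hk, abs_of_nonneg hr]
    calc kap * x ^ (2 / 3 : ℝ) * |V01 x - 2 / 3| ≤ kap * 1 * (SS * x ^ 2) :=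
          mul_le_mul (mul_le_mul_of_nonneg_left hr1 hk.le) v2 (abs_nonneg _) (by positivity)
      _ = kap * SS * x ^ 2 := by ring
      _ ≤ (SS + 1) * (kap + 1) * x ^ 2 := mul_le_mul_of_nonneg_right (by nlinarith) hq

private theorem PairS_cont (c : ℕ → ℝ) (hc : ∀ i, |c i| ≤ 1 / (i.factorial : ℝ)) :
    Continuous (fun x : ℝ => ∑' i : ℕ, c i * (3 * x) ^ (2 * i)) := by
  rw [continuous_iff_continuousAt]
  intro x
  have hR : x ∈ Metric.ball (0 : ℝ) (|x| + 1) := by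
    rw [Metric.mem_ball, Real.dist_eq, sub_zero]; linarith
  have h := continuousOn_tsum (f := fun (i : ℕ) (x : ℝ) => c i * (3 * x) ^ (2 * i))
    (u := fun i => (9 * (|x| + 1) ^ 2) ^ i / (i.factorial : ℝ)) (s := Metric.ball (0 : ℝ) (|x| + 1))
    (fun i => by fun_prop) (Real.summable_pow_div_factorial _) (fun i y hy => by
      rw [Metric.mem_ball, Real.dist_eq, sub_zero] at hy
      have e : (3 * y) ^ (2 * i) = (9 * |y| ^ 2) ^ i := by
        rw [pow_mul, sq_abs]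
        congr 1
        ring
      rw [Real.norm_eq_abs, abs_mul, e, abs_of_nonneg (by positivity : (0 : ℝ) ≤ (9 * |y| ^ 2) ^ i)]
      have h1 : (9 * |y| ^ 2) ^ i ≤ (9 * (|x| + 1) ^ 2) ^ i := by
        apply pow_le_pow_left₀ (by positivity)
        have : |y| ^ 2 ≤ (|x| + 1) ^ 2 := pow_le_pow_left₀ (abs_nonneg y) hy.le 2
        linarith
      calc |c i| * (9 * |y| ^ 2) ^ i ≤ 1 / (i.factorial : ℝ) * (9 * (|x| + 1) ^ 2) ^ i :=
            mul_le_mul (hc i) h1 (by positivity) (by positivity)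
        _ = (9 * (|x| + 1) ^ 2) ^ i / (i.factorial : ℝ) := by ring)
  exact h.continuousAt (Metric.isOpen_ball.mem_nhds hR)

theorem U_cont : Continuous U := by
  have h := PairS_cont (fun i => (-1) ^ i * ar i) (fun i => by
    rw [PairS_abs1, abs_of_pos (ar_pos i)]
    exact ar_le i)
  exact h

private theorem PairS_V0_cont : Continuous V0 := by
  have h := PairS_cont (fun i => (-1) ^ i * br i) (fun i => by
    rw [PairS_abs1, abs_of_pos (br_pos i)]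
    exact br_le i)
  exact h

/-- `V` is continuous on `[0, oo)`, `V 0 = 0` -/
theorem V_cont : ContinuousOn V (Set.Ici 0) := by
  have h1 : Continuous (fun x : ℝ => x ^ (2 / 3 : ℝ)) := Real.continuous_rpow_const (by norm_num)
  have h2 : Continuous V := (continuous_const.mul h1).mul PairS_V0_cont
  exact h2.continuousOn

theorem U_zero : U 0 = 1 := by
  have h := PairS_U (le_refl (0 : ℝ)) zero_le_one
  have h2 : |U 0 - 1| ≤ 0 := by simpa using h
  have h3 : U 0 - 1 = 0 := abs_nonpos_iff.1 h2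
  linarith

theorem V_zero : V 0 = 0 := by
  unfold V
  rw [Real.zero_rpow (by norm_num), mul_zero, zero_mul]

end SL
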