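import Pool.Agent.Lib.MP_216314_pr.SL.Kap

/-!
# SL/Pt: pointwise convergence (paper 4.1)

Let `s_j = log (L j) + t`, `e_j = exp (-2 s_j) = exp (-2t)/(L j)^2` (eventually `L j > 0`). By `pm_ser`:
`pm (m j) s_j * exp (-s_j/3) = ((1 + e_j)^(m j))⁻¹ * ∑_{i < m j + 1} (-1)^i ww (m j) i e_j^i`.
* `(1 + e_j)^(m j) → 1`: `1 ≤ (1+e)^m ≤ exp (m e)` and `m j e_j = (m j/L j) exp (-2t) / L j → 0`.
* the sum is `∑' i, (-1)^i ar i ∏_{q < i} (3 (m j - q)(3 (m j - q) + 1) e_j)` (`ww_prod`, `ww_prod_zero`: the product vanishes for `i > m j`);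
  for fixed `i` each factor tends to `9 mu^2 exp (-2t) = (3 mu exp (-t))^2`; domination (`tendsto_tsum_of_dominated_convergence`): with `M = mu + 1`, eventually `m j / L j ≤ M`
  and for `q ≤ m j`: `0 ≤ 3 (m-q)(3(m-q)+1) ≤ 12 m^2` (both `m-q` and `m-q+1/3` are `≤ 4m/3` when `m ≥ 1`; `m = 0`: all products with `i ≥ 1` vanish), so
  `|∏_{q<i} ..| ≤ (12 M^2 exp (-2t))^i` (for `i > m j` it is `0`); bound `ar i (12 M^2 exp (-2t))^i`, summable by `sum_ar`.
  The limit is `∑' i, (-1)^i ar i ((3 mu e^{-t})^2)^i = U (mu e^{-t})`.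
* `rm`: `rm_ser`: `rm m s * exp (-s/3) = exp (-2s/3) ((1+e)^m)⁻¹ (ar m/br m) ∑ (-1)^j br j ∏_{q<j} (3(m-q)(3(m-q)-1) e)` (`ww_rev`, `ww_rev_zero`),
  `exp (-2 s_j/3) = (L j)^(-2/3) exp (-2t/3)`, `kap_lim`, and `kap mu^(2/3) exp (-2t/3) = kap (mu e^{-t})^(2/3)`; the sum tends to `V0 (mu e^{-t})` in the same way (`0 ≤ 3(m-q)(3(m-q)-1) ≤ 9 m^2`
  for integers `q < m`, `= 0` for `q = m`; dominated by `br j (12 M^2 exp(-2t))^j`, `sum_br`).
-/

set_option autoImplicit false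

noncomputable section

namespace SL

open Filter Topology MeasureTheory

/-- the products in the coefficients are bounded by powers of `12 m^2` -/
private theorem Pt_bd {c : ℝ} (hc : |c| ≤ 1) {m i : ℕ} (h : i ≤ m) {a M : ℝ} (ha : 0 ≤ a)
    (hM : (m : ℝ) * a ≤ M) :
    |(∏ q ∈ Finset.range i, (3 * ((m : ℝ) - q) * (3 * ((m : ℝ) - q) + c))) * (a ^ 2) ^ i| ≤
      (12 * M ^ 2) ^ i := by
  have hma : 0 ≤ (m : ℝ) * a := mul_nonneg (Nat.cast_nonneg m) ha
  have h1 : (∏ q ∈ Finset.range i, (3 * ((m : ℝ) - q) * (3 * ((m : ℝ) - q) + c))) * (a ^ 2) ^ i =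
      ∏ q ∈ Finset.range i, (3 * ((m : ℝ) - q) * (3 * ((m : ℝ) - q) + c) * a ^ 2) := by
    have h0 : (a ^ 2) ^ i = ∏ _q ∈ Finset.range i, a ^ 2 := by
      rw [Finset.prod_const, Finset.card_range]
    rw [h0, ← Finset.prod_mul_distrib]
  rw [h1, Finset.abs_prod]
  have h2 : (12 * M ^ 2) ^ i = ∏ _q ∈ Finset.range i, (12 * M ^ 2) := by
    rw [Finset.prod_const, Finset.card_range]
  rw [h2]
  refine Finset.prod_le_prod (fun q _ => abs_nonneg _) fun q hq => ?_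
  have hq1 : q + 1 ≤ m := by
    have := Finset.mem_range.1 hq
    omega
  have hq2 : (q : ℝ) + 1 ≤ m := by exact_mod_cast hq1
  have hq0 : (0 : ℝ) ≤ q := Nat.cast_nonneg q
  have hc1 := (abs_le.1 hc).1
  have hc2 := (abs_le.1 hc).2
  have h3 : 0 ≤ 3 * ((m : ℝ) - q) := by linarith
  have h4 : 0 ≤ 3 * ((m : ℝ) - q) + c := by linarith
  rw [abs_of_nonneg (mul_nonneg (mul_nonneg h3 h4) (sq_nonneg a))]
  have h5 : 3 * ((m : ℝ) - q) * (3 * ((m : ℝ) - q) + c) ≤ (3 * m) * (4 * m) :=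
    mul_le_mul (by linarith) (by linarith) h4 (by linarith)
  have h6 : ((m : ℝ) * a) ^ 2 ≤ M ^ 2 := pow_le_pow_left₀ hma hM 2
  calc 3 * ((m : ℝ) - q) * (3 * ((m : ℝ) - q) + c) * a ^ 2 ≤ (3 * m) * (4 * m) * a ^ 2 :=
        mul_le_mul_of_nonneg_right h5 (sq_nonneg a)
    _ = 12 * ((m : ℝ) * a) ^ 2 := by ring
    _ ≤ 12 * M ^ 2 := by linarith

private theorem Pt_main {ι : Type} (l : Filter ι) (m : ι → ℕ) (a : ι → ℝ) (ha : ∀ j, 0 ≤ a j)
    (ha0 : Tendsto a l (𝓝 0)) {x : ℝ} (hx : Tendsto (fun j => (m j : ℝ) * a j) l (𝓝 x))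
    {c : ℝ} (hc : |c| ≤ 1) (cf : ℕ → ℝ) (hcf : ∀ i, 0 < cf i)
    (hsum : ∀ y : ℝ, Summable (fun i : ℕ => cf i * y ^ i))
    (hz : ∀ {m i : ℕ}, m < i → ∏ q ∈ Finset.range i, (3 * ((m : ℝ) - q) * (3 * ((m : ℝ) - q) + c)) = 0) :
    Tendsto (fun j => ∑ i ∈ Finset.range (m j + 1), (-1) ^ i * (cf i *
      ∏ q ∈ Finset.range i, (3 * ((m j : ℝ) - q) * (3 * ((m j : ℝ) - q) + c))) * (a j ^ 2) ^ i) l
      (𝓝 (∑' i : ℕ, (-1) ^ i * cf i * (3 * x) ^ (2 * i))) := by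
  have h1 : ∀ j, ∑ i ∈ Finset.range (m j + 1), (-1) ^ i * (cf i *
      ∏ q ∈ Finset.range i, (3 * ((m j : ℝ) - q) * (3 * ((m j : ℝ) - q) + c))) * (a j ^ 2) ^ i =
      ∑' i : ℕ, (-1) ^ i * (cf i *
      ∏ q ∈ Finset.range i, (3 * ((m j : ℝ) - q) * (3 * ((m j : ℝ) - q) + c))) * (a j ^ 2) ^ i := by
    intro j
    symm
    refine tsum_eq_sum fun i hi => ?_
    have h2 : m j < i := by
      rw [Finset.mem_range] at hi
      omega
    rw [hz h2, mul_zero, mul_zero, zero_mul]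
  have h0 : (fun j => ∑ i ∈ Finset.range (m j + 1), (-1) ^ i * (cf i *
      ∏ q ∈ Finset.range i, (3 * ((m j : ℝ) - q) * (3 * ((m j : ℝ) - q) + c))) * (a j ^ 2) ^ i) =
      fun j => ∑' i : ℕ, (-1) ^ i * (cf i *
      ∏ q ∈ Finset.range i, (3 * ((m j : ℝ) - q) * (3 * ((m j : ℝ) - q) + c))) * (a j ^ 2) ^ i :=
    funext h1
  rw [h0]
  refine tendsto_tsum_of_dominated_convergence (bound := fun i => cf i * (12 * (x + 1) ^ 2) ^ i)
    (hsum _) ?_ ?_
  · intro i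
    have hfac : ∀ q ∈ Finset.range i, Tendsto (fun j => 3 * ((m j : ℝ) - q) * (3 * ((m j : ℝ) - q) + c) * a j ^ 2) l
        (𝓝 ((3 * x) ^ 2)) := by
      intro q _
      have h3 : Tendsto (fun j => (3 * ((m j : ℝ) * a j) - 3 * q * a j) *
          (3 * ((m j : ℝ) * a j) - 3 * q * a j + c * a j)) l
          (𝓝 ((3 * x - 3 * q * 0) * (3 * x - 3 * q * 0 + c * 0))) :=
        ((hx.const_mul 3).sub (ha0.const_mul _)).mul
          (((hx.const_mul 3).sub (ha0.const_mul _)).add (ha0.const_mul c))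
      have h4 : (3 * x - 3 * (q : ℝ) * 0) * (3 * x - 3 * q * 0 + c * 0) = (3 * x) ^ 2 := by ring
      rw [h4] at h3
      refine h3.congr fun j => ?_
      ring
    have h5 := tendsto_finsetProd (Finset.range i) hfac
    have h6 := h5.const_mul ((-1) ^ i * cf i)
    have h7 : (-1) ^ i * cf i * ∏ _q ∈ Finset.range i, (3 * x) ^ 2 = (-1) ^ i * cf i * (3 * x) ^ (2 * i) := by
      rw [Finset.prod_const, Finset.card_range, ← pow_mul]
    rw [h7] at h6
    refine h6.congr fun j => ?_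
    rw [Finset.prod_mul_distrib, Finset.prod_const, Finset.card_range]
    ring
  · have h8 : ∀ᶠ j in l, (m j : ℝ) * a j < x + 1 := hx.eventually_lt_const (by linarith)
    filter_upwards [h8] with j hj
    intro i
    by_cases hi : i ≤ m j
    · rw [Real.norm_eq_abs]
      have h9 := Pt_bd hc hi (ha j) hj.le
      have h10 : (-1 : ℝ) ^ i * (cf i *
          ∏ q ∈ Finset.range i, (3 * ((m j : ℝ) - q) * (3 * ((m j : ℝ) - q) + c))) * (a j ^ 2) ^ i =
          (-1) ^ i * (cf i * ((∏ q ∈ Finset.range i, (3 * ((m j : ℝ) - q) * (3 * ((m j : ℝ) - q) + c))) * (a j ^ 2) ^ i)) := by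
        ring
      rw [h10, abs_mul, abs_pow, abs_neg, abs_one, one_pow, one_mul, abs_mul, abs_of_pos (hcf i)]
      exact mul_le_mul_of_nonneg_left h9 (hcf i).le
    · rw [hz (not_le.1 hi), mul_zero, mul_zero, zero_mul, norm_zero]
      exact mul_nonneg (hcf i).le (pow_nonneg (by positivity) i)

private theorem Pt_one {ι : Type} (l : Filter ι) (m : ι → ℕ) (a : ι → ℝ)
    (ha0 : Tendsto a l (𝓝 0)) {x : ℝ} (hx : Tendsto (fun j => (m j : ℝ) * a j) l (𝓝 x)) :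
    Tendsto (fun j => ((1 + a j ^ 2) ^ (m j))⁻¹) l (𝓝 1) := by
  have h1 : Tendsto (fun j => (m j : ℝ) * a j * a j) l (𝓝 (x * 0)) := hx.mul ha0
  rw [mul_zero] at h1
  have h2 : Tendsto (fun j => Real.exp ((m j : ℝ) * a j * a j)) l (𝓝 1) := by
    have := (Real.continuous_exp.tendsto 0).comp h1
    rw [Real.exp_zero] at this
    exact this
  have h3 : Tendsto (fun j => (1 + a j ^ 2) ^ (m j)) l (𝓝 1) := by
    refine tendsto_of_tendsto_of_tendsto_of_le_of_le tendsto_const_nhds h2 ?_ ?_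
    · intro j
      exact one_le_pow₀ (by nlinarith [sq_nonneg (a j)])
    · intro j
      show (1 + a j ^ 2) ^ (m j) ≤ Real.exp ((m j : ℝ) * a j * a j)
      have h4 : 1 + a j ^ 2 ≤ Real.exp (a j ^ 2) := by linarith [Real.add_one_le_exp (a j ^ 2)]
      have h5 : (1 + a j ^ 2) ^ (m j) ≤ Real.exp (a j ^ 2) ^ (m j) :=
        pow_le_pow_left₀ (by nlinarith [sq_nonneg (a j)]) h4 _
      rw [← Real.exp_nat_mul] at h5
      have h6 : (m j : ℝ) * a j * a j = (m j : ℝ) * a j ^ 2 := by ring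
      rw [h6]
      exact h5
  have h7 := h3.inv₀ one_ne_zero
  rw [inv_one] at h7
  exact h7

private theorem Pt_a {ι : Type} (l : Filter ι) (L : ι → ℝ) (hL : Tendsto L l atTop) (t : ℝ) :
    Tendsto (fun j => Real.exp (-(Real.log (L j) + t))) l (𝓝 0) := by
  refine Real.tendsto_exp_atBot.comp ?_
  refine tendsto_neg_atTop_atBot.comp ?_
  exact tendsto_atTop_add_const_right l t (Real.tendsto_log_atTop.comp hL)

private theorem Pt_ma {ι : Type} (l : Filter ι) (m : ι → ℕ) (L : ι → ℝ) (hL : Tendsto L l atTop) {mu : ℝ}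
    (hm : Tendsto (fun j => (m j : ℝ) / L j) l (𝓝 mu)) (t : ℝ) :
    Tendsto (fun j => (m j : ℝ) * Real.exp (-(Real.log (L j) + t))) l (𝓝 (mu * Real.exp (-t))) := by
  have h1 := hm.mul_const (Real.exp (-t))
  refine h1.congr' ?_
  filter_upwards [hL.eventually_gt_atTop 0] with j hj
  rw [neg_add, Real.exp_add, Real.exp_neg (Real.log (L j)), Real.exp_log hj]
  ring

private theorem Pt_e (s : ℝ) : Real.exp (-2 * s) = Real.exp (-s) ^ 2 := by
  rw [← Real.exp_nat_mul]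
  congr 1
  push_cast
  ring

theorem pt_p {ι : Type} (l : Filter ι) (m : ι → ℕ) (L : ι → ℝ) (hL : Tendsto L l atTop) {mu : ℝ}
    (hm : Tendsto (fun j => (m j : ℝ) / L j) l (𝓝 mu)) (t : ℝ) :
    Tendsto (fun j => pm (m j) (Real.log (L j) + t) * Real.exp (-((Real.log (L j) + t) / 3))) l
      (𝓝 (U (mu * Real.exp (-t)))) := by
  have ha0 := Pt_a l L hL t
  have hx := Pt_ma l m L hL hm t
  have h1 := Pt_main l m (fun j => Real.exp (-(Real.log (L j) + t))) (fun j => (Real.exp_pos _).le)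
    ha0 hx (c := 1) (by rw [abs_one]) ar arU_pos sum_ar (fun h => ww_prod_zero h)
  have h2 := Pt_one l m (fun j => Real.exp (-(Real.log (L j) + t))) ha0 hx
  have h3 := h2.mul h1
  rw [one_mul] at h3
  have h4 : U (mu * Real.exp (-t)) = ∑' i : ℕ, (-1) ^ i * ar i * (3 * (mu * Real.exp (-t))) ^ (2 * i) := rfl
  rw [h4]
  refine h3.congr fun j => ?_
  have h5 : ∑ i ∈ Finset.range (m j + 1), (-1) ^ i * ww (m j) i * Real.exp (-2 * (Real.log (L j) + t)) ^ i =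
      ∑ i ∈ Finset.range (m j + 1), (-1) ^ i * (ar i *
      ∏ q ∈ Finset.range i, (3 * ((m j : ℝ) - q) * (3 * ((m j : ℝ) - q) + 1))) *
      (Real.exp (-(Real.log (L j) + t)) ^ 2) ^ i := by
    refine Finset.sum_congr rfl fun i hi => ?_
    have h6 : i ≤ m j := by
      have := Finset.mem_range.1 hi
      omega
    rw [ww_prod h6, Pt_e]
  rw [pm_ser, h5, Pt_e]
  have h7 : Real.exp ((Real.log (L j) + t) / 3) * Real.exp (-((Real.log (L j) + t) / 3)) = 1 := by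
    rw [← Real.exp_add, add_neg_cancel, Real.exp_zero]
  generalize (∑ i ∈ Finset.range (m j + 1), (-1) ^ i * (ar i *
      ∏ q ∈ Finset.range i, (3 * ((m j : ℝ) - q) * (3 * ((m j : ℝ) - q) + 1))) *
      (Real.exp (-(Real.log (L j) + t)) ^ 2) ^ i) = S
  generalize ((1 + Real.exp (-(Real.log (L j) + t)) ^ 2) ^ (m j))⁻¹ = Q
  linear_combination (-(Q * S)) * h7

theorem pt_r {ι : Type} (l : Filter ι) (m : ι → ℕ) (L : ι → ℝ) (hL : Tendsto L l atTop) {mu : ℝ}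
    (hm : Tendsto (fun j => (m j : ℝ) / L j) l (𝓝 mu)) (t : ℝ) :
    Tendsto (fun j => rm (m j) (Real.log (L j) + t) * Real.exp (-((Real.log (L j) + t) / 3))) l
      (𝓝 (V (mu * Real.exp (-t)))) := by
  rcases l.eq_or_neBot with rfl | hne
  · exact tendsto_bot
  have hmu : 0 ≤ mu := by
    refine ge_of_tendsto hm ?_
    filter_upwards [hL.eventually_gt_atTop 0] with j hj
    exact div_nonneg (Nat.cast_nonneg _) hj.le
  have ha0 := Pt_a l L hL t
  have hx := Pt_ma l m L hL hm t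
  have h1 := Pt_main l m (fun j => Real.exp (-(Real.log (L j) + t))) (fun j => (Real.exp_pos _).le)
    ha0 hx (c := -1) (by rw [abs_neg, abs_one]) br brU_pos sum_br
    (fun h => by simpa only [← sub_eq_add_neg] using ww_rev_zero h)
  have h2 := Pt_one l m (fun j => Real.exp (-(Real.log (L j) + t))) ha0 hx
  have hk := (kap_lim l m L hL hm).mul_const (Real.exp (-(2 * t / 3)))
  have h3 := hk.mul (h2.mul h1)
  rw [one_mul] at h3
  have h4 : V (mu * Real.exp (-t)) = kap * mu ^ (2 / 3 : ℝ) * Real.exp (-(2 * t / 3)) *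
      ∑' i : ℕ, (-1) ^ i * br i * (3 * (mu * Real.exp (-t))) ^ (2 * i) := by
    show kap * (mu * Real.exp (-t)) ^ (2 / 3 : ℝ) * V0 (mu * Real.exp (-t)) = _
    have h8 : V0 (mu * Real.exp (-t)) = ∑' i : ℕ, (-1) ^ i * br i * (3 * (mu * Real.exp (-t))) ^ (2 * i) := rfl
    rw [h8, Real.mul_rpow hmu (Real.exp_pos _).le, ← Real.exp_mul]
    have h9 : -t * (2 / 3 : ℝ) = -(2 * t / 3) := by ring
    rw [h9]
    ring
  rw [h4]
  refine h3.congr' ?_
  filter_upwards [hL.eventually_gt_atTop 0] with j hj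
  have h5 : ∑ i ∈ Finset.range (m j + 1), (-1) ^ i * ww (m j) (m j - i) * Real.exp (-2 * (Real.log (L j) + t)) ^ i =
      ar (m j) / br (m j) * ∑ i ∈ Finset.range (m j + 1), (-1) ^ i * (br i *
      ∏ q ∈ Finset.range i, (3 * ((m j : ℝ) - q) * (3 * ((m j : ℝ) - q) + -1))) *
      (Real.exp (-(Real.log (L j) + t)) ^ 2) ^ i := by
    rw [Finset.mul_sum]
    refine Finset.sum_congr rfl fun i hi => ?_
    have h6 : i ≤ m j := by
      have := Finset.mem_range.1 hi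
      omega
    rw [ww_rev h6, Pt_e]
    simp only [← sub_eq_add_neg]
    ring
  rw [rm_ser, h5, Pt_e]
  have h7 : Real.exp (-(Real.log (L j) + t) / 3) * Real.exp (-((Real.log (L j) + t) / 3)) =
      L j ^ (-(2 / 3) : ℝ) * Real.exp (-(2 * t / 3)) := by
    rw [Real.rpow_def_of_pos hj, ← Real.exp_add, ← Real.exp_add]
    congr 1
    ring
  generalize (∑ i ∈ Finset.range (m j + 1), (-1) ^ i * (br i *
      ∏ q ∈ Finset.range i, (3 * ((m j : ℝ) - q) * (3 * ((m j : ℝ) - q) + -1))) *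
      (Real.exp (-(Real.log (L j) + t)) ^ 2) ^ i) = S
  generalize ((1 + Real.exp (-(Real.log (L j) + t)) ^ 2) ^ (m j))⁻¹ = Q
  linear_combination (-(ar (m j) / br (m j) * Q * S)) * h7

end SL
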