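import Pool.Agent.Lib.MP_216314_pr.SL.Def

/-!
# SL/Ra: an integrability

Proof. For `t >= 0`: `chi <= 1`, `e^{-2t/3} (1 + e^{-t}) <= 2 e^{-2t/3}`; for `t <= 0`, `y = e^{-t} >= 1`: `y^(2/3) (1 + y) exp(-e y) <= 2 y^2 exp (-e y) <= C y^(-1) = C e^t`
(`y^3 exp(-e y) <= 6 / e^3`: `(e y)^3 / 3! <= exp (e y)`, `Real.pow_div_factorial_le_exp`). Compare on the two half lines (`integrableOn_exp_...`), continuity for measurability.
-/

set_option autoImplicit false

noncomputable section

namespace SL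

open Filter Topology MeasureTheory

private theorem Ra_int_Ioi {e : ℝ} (he : 0 < e) :
    IntegrableOn (fun t : ℝ => chi e t * (Real.exp (-(2 / 3 * t)) * (1 + Real.exp (-t)))) (Set.Ioi 0) := by
  have h1 : IntegrableOn (fun t : ℝ => 2 * Real.exp (-(2 / 3) * t)) (Set.Ioi 0) :=
    (exp_neg_integrableOn_Ioi 0 (by norm_num : (0 : ℝ) < 2 / 3)).const_mul 2
  refine Integrable.mono' h1 ?_ ?_
  · refine Continuous.aestronglyMeasurable ?_
    unfold chi
    fun_prop
  · refine (ae_restrict_iff' measurableSet_Ioi).2 (Filter.Eventually.of_forall fun t ht => ?_)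
    have ht0 : (0 : ℝ) < t := ht
    have h2 : Real.exp (-t) ≤ 1 := by
      rw [Real.exp_le_one_iff]; linarith
    have h3 : 0 < Real.exp (-t) := Real.exp_pos _
    have h4 : 0 < Real.exp (-(2 / 3 * t)) := Real.exp_pos _
    have h5 : chi e t ≤ 1 := by
      unfold chi
      rw [Real.exp_le_one_iff]
      have := mul_pos he h3
      linarith
    have h6 : 0 < chi e t := Real.exp_pos _
    rw [Real.norm_eq_abs, abs_of_nonneg (by positivity)]
    have h7 : -(2 / 3) * t = -(2 / 3 * t) := by ring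
    rw [h7]
    calc chi e t * (Real.exp (-(2 / 3 * t)) * (1 + Real.exp (-t)))
        ≤ 1 * (Real.exp (-(2 / 3 * t)) * (1 + Real.exp (-t))) :=
          mul_le_mul_of_nonneg_right h5 (by positivity)
      _ = Real.exp (-(2 / 3 * t)) * (1 + Real.exp (-t)) := one_mul _
      _ ≤ Real.exp (-(2 / 3 * t)) * 2 := mul_le_mul_of_nonneg_left (by linarith) h4.le
      _ = 2 * Real.exp (-(2 / 3 * t)) := mul_comm _ _

private theorem Ra_int_Iic {e : ℝ} (he : 0 < e) :
    IntegrableOn (fun t : ℝ => chi e t * (Real.exp (-(2 / 3 * t)) * (1 + Real.exp (-t)))) (Set.Iic 0) := by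
  have h1 : IntegrableOn (fun t : ℝ => 12 / e ^ 3 * Real.exp t) (Set.Iic 0) :=
    (integrableOn_exp_Iic 0).const_mul _
  refine Integrable.mono' h1 ?_ ?_
  · refine Continuous.aestronglyMeasurable ?_
    unfold chi
    fun_prop
  · refine (ae_restrict_iff' measurableSet_Iic).2 (Filter.Eventually.of_forall fun t ht => ?_)
    have ht0 : t ≤ (0 : ℝ) := ht
    have hy : 1 ≤ Real.exp (-t) := Real.one_le_exp (by linarith)
    have hy0 : 0 < Real.exp (-t) := Real.exp_pos _
    have h4 : 0 < Real.exp (-(2 / 3 * t)) := Real.exp_pos _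
    have h4' : Real.exp (-(2 / 3 * t)) ≤ Real.exp (-t) := Real.exp_le_exp.2 (by linarith)
    have h6 : 0 < chi e t := Real.exp_pos _
    have hey : 0 < e * Real.exp (-t) := mul_pos he hy0
    have h7 : (e * Real.exp (-t)) ^ 3 / 6 ≤ Real.exp (e * Real.exp (-t)) := by
      have := Real.pow_div_factorial_le_exp (e * Real.exp (-t)) hey.le 3
      have h8 : ((Nat.factorial 3 : ℕ) : ℝ) = 6 := by norm_num [Nat.factorial]
      rw [h8] at this
      exact this
    have h9 : chi e t ≤ 6 / (e * Real.exp (-t)) ^ 3 := by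
      unfold chi
      rw [Real.exp_neg, le_div_iff₀ (by positivity)]
      have h10 : 0 < Real.exp (e * Real.exp (-t)) := Real.exp_pos _
      rw [inv_mul_le_iff₀ h10]
      have h11 : (e * Real.exp (-t)) ^ 3 ≤ 6 * Real.exp (e * Real.exp (-t)) := by
        have := (div_le_iff₀ (by norm_num : (0 : ℝ) < 6)).1 h7
        linarith
      linarith
    rw [Real.norm_eq_abs, abs_of_nonneg (by positivity)]
    have h12 : Real.exp t = 1 / Real.exp (-t) := by
      rw [Real.exp_neg, one_div, inv_inv]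
    rw [h12]
    calc chi e t * (Real.exp (-(2 / 3 * t)) * (1 + Real.exp (-t)))
        ≤ 6 / (e * Real.exp (-t)) ^ 3 * (Real.exp (-(2 / 3 * t)) * (1 + Real.exp (-t))) :=
          mul_le_mul_of_nonneg_right h9 (by positivity)
      _ ≤ 6 / (e * Real.exp (-t)) ^ 3 * (Real.exp (-t) * (2 * Real.exp (-t))) := by
          refine mul_le_mul_of_nonneg_left ?_ (by positivity)
          exact mul_le_mul h4' (by linarith) (by positivity) hy0.le
      _ = 12 / e ^ 3 * (1 / Real.exp (-t)) := by
          have hne : Real.exp (-t) ≠ 0 := hy0.ne'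
          have hne2 : e ≠ 0 := he.ne'
          field_simp
          ring

theorem int_chi {e : ℝ} (he : 0 < e) :
    Integrable (fun t : ℝ => chi e t * (Real.exp (-(2 / 3 * t)) * (1 + Real.exp (-t)))) := by
  rw [← integrableOn_univ, ← Set.Iic_union_Ioi (a := (0 : ℝ))]
  exact (Ra_int_Iic he).union (Ra_int_Ioi he)

theorem chi_hd (e t : ℝ) : HasDerivAt (chi e) (om e t) t := by
  have h1 : HasDerivAt (fun t : ℝ => -t) (-1) t := (hasDerivAt_id t).neg
  have h2 : HasDerivAt (fun t : ℝ => Real.exp (-t)) (Real.exp (-t) * (-1)) t := h1.exp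
  have h3 : HasDerivAt (fun t : ℝ => -(e * Real.exp (-t))) (-(e * (Real.exp (-t) * (-1)))) t :=
    (h2.const_mul e).neg
  have h4 : HasDerivAt (fun t : ℝ => Real.exp (-(e * Real.exp (-t))))
      (Real.exp (-(e * Real.exp (-t))) * (-(e * (Real.exp (-t) * (-1))))) t := h3.exp
  have h5 : om e t = Real.exp (-(e * Real.exp (-t))) * (-(e * (Real.exp (-t) * (-1)))) := by
    unfold om chi
    ring
  rw [h5]
  exact h4

theorem om_hd (e t : ℝ) : HasDerivAt (om e) (om e t * (e * Real.exp (-t) - 1)) t := by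
  have h1 : HasDerivAt (fun t : ℝ => -t) (-1) t := (hasDerivAt_id t).neg
  have h2 : HasDerivAt (fun t : ℝ => Real.exp (-t)) (Real.exp (-t) * (-1)) t := h1.exp
  have h3 : HasDerivAt (fun t : ℝ => e * Real.exp (-t) * chi e t)
      (e * (Real.exp (-t) * (-1)) * chi e t + e * Real.exp (-t) * om e t) t :=
    (h2.const_mul e).mul (chi_hd e t)
  have h5 : om e t * (e * Real.exp (-t) - 1) =
      e * (Real.exp (-t) * (-1)) * chi e t + e * Real.exp (-t) * om e t := by
    unfold om
    ring
  rw [h5]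
  exact h3

theorem chi_pos (e t : ℝ) : 0 < chi e t := by
  exact Real.exp_pos _

theorem chi_le {e : ℝ} (he : 0 ≤ e) (t : ℝ) : chi e t ≤ 1 := by
  unfold chi
  rw [Real.exp_le_one_iff]
  have := mul_nonneg he (Real.exp_pos (-t)).le
  linarith

/-- superexponential decay at `-oo` -/
theorem chi_decay {e : ℝ} (he : 0 < e) (k : ℝ) : Tendsto (fun t : ℝ => chi e t * Real.exp (-(k * t))) atBot (𝓝 0) := by
  have h1 : Tendsto (fun t : ℝ => Real.exp (-t)) atBot atTop :=
    Real.tendsto_exp_atTop.comp tendsto_neg_atBot_atTop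
  have h2 := (tendsto_rpow_mul_exp_neg_mul_atTop_nhds_zero k e he).comp h1
  refine h2.congr fun t => ?_
  show Real.exp (-t) ^ k * Real.exp (-e * Real.exp (-t)) = chi e t * Real.exp (-(k * t))
  unfold chi
  rw [← Real.exp_mul, mul_comm]
  congr 1
  · congr 1
    ring
  · congr 1
    ring

end SL
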