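import Pool.Agent.Lib.MP_216314_pr.SL.Def

/-!
# SL/UDef: the functions on the rays (paper sections 1, 2.6, 3)
-/

set_option autoImplicit false

noncomputable section

namespace SL

open Filter Topology MeasureTheory

/-- `w_{m,i} = al_i be_{m-i} / be_m` -/
def ww (m i : ℕ) : ℝ := ar i * br (m - i) / br m

/-- `u_m` on the ray -/
def um (m : ℕ) (s : ℝ) : ℝ :=
  ∑ i ∈ Finset.range (m + 1), (-1) ^ i * ww m i * Real.exp (((m : ℝ) - 2 * i + 1 / 3) * s)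

/-- `v_m(s) = (-1)^m u_m(-s)` -/
def vm (m : ℕ) (s : ℝ) : ℝ := (-1) ^ m * um m (-s)

/-- the integrand on the upper ray, circumference `2n`, strip `c`, `L = c + 2n` -/
def Fp (c n : ℕ) (s : ℝ) : ℂ :=
  1 / 2 * ((um c s : ℂ) + (vm c s : ℂ)) * ((um (c + 2 * n) s : ℂ) - th * (vm (c + 2 * n) s : ℂ)) *
    ((um n s : ℂ) - th⁻¹ * (vm n s : ℂ)) * ((um (n - 1) s : ℂ) - th⁻¹ * (vm (n - 1) s : ℂ)) *
    ((Real.exp (2 * s / 3) : ℂ) + th * (Real.exp (-(2 * s / 3)) : ℂ)) /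
    (((2 * Real.sinh s * (2 * Real.cosh s) ^ (2 * (c + 2 * n)) : ℝ)) : ℂ)

/-- the integrand on the lower ray -/
def Fm (c n : ℕ) (s : ℝ) : ℂ :=
  1 / 2 * ((um c s : ℂ) - th⁻¹ * (vm c s : ℂ)) * ((um (c + 2 * n) s : ℂ) + (vm (c + 2 * n) s : ℂ)) *
    ((um n s : ℂ) - th * (vm n s : ℂ)) * ((um (n - 1) s : ℂ) - th * (vm (n - 1) s : ℂ)) *
    ((Real.exp (2 * s / 3) : ℂ) + th⁻¹ * (Real.exp (-(2 * s / 3)) : ℂ)) /
    (((2 * Real.sinh s * (2 * Real.cosh s) ^ (2 * (c + 2 * n)) : ℝ)) : ℂ)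

/-- the integrand of the exact formula -/
def DDn (c n : ℕ) (s : ℝ) : ℝ := (Fp c n s - Fm c n s).im

/-- normalised functions -/
def pm (m : ℕ) (s : ℝ) : ℝ := um m s / (2 * Real.cosh s) ^ m

def rm (m : ℕ) (s : ℝ) : ℝ := vm m s / (2 * Real.cosh s) ^ m

/-- the normalised combination `p_m + o r_m` -/
def Fz (o : ℂ) (m : ℕ) (s : ℝ) : ℂ := (pm m s : ℂ) + o * (rm m s : ℂ)

/-- the product of four normalised factors, `c = k + 1`, circumference `2 (n + 1)`, `L = k + 2n + 3` -/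
def Fr (o1 o4 ob : ℂ) (k n : ℕ) (s : ℝ) : ℂ :=
  Fz o1 (k + 1) s * Fz o4 (k + 2 * n + 3) s * Fz ob (n + 1) s * Fz ob n s

end SL
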