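import Pool.Agent.Lib.MP_216314_pr.SL.An
import Pool.Agent.Lib.MP_216314_pr.SL.UDef

/-!
# The integrand on the two rays
-/

set_option autoImplicit false

noncomputable section

namespace SL

open Complex Polynomial

theorem th_eq : th = CDH.th := rfl

theorem al_cast (i : ℕ) : CDH.al i = (ar i : ℂ) := by
  unfold CDH.al ar
  push_cast
  rfl

theorem be_cast (i : ℕ) : CDH.be i = (br i : ℂ) := by
  unfold CDH.be br
  push_cast
  rfl

theorem wC_eq (m i : ℕ) : wC m i = (ww m i : ℂ) := by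
  unfold wC ww
  rw [al_cast, be_cast, be_cast]
  push_cast
  rfl

/-- values of `P_m` on a ray `x = y e^{-2s/3}`, `y^3 = -1` -/
theorem P_ray {y : ℂ} (hy : y ^ 3 = -1) (m : ℕ) (s : ℝ) : (Pm m).eval (y * (Real.exp (-(2 * s / 3)) : ℂ)) =
    (Real.exp (-(((m : ℝ) + 1 / 3) * s)) : ℂ) * (um m s : ℂ) := by
  unfold Pm um
  rw [eval_finsetSum]
  push_cast
  rw [Finset.mul_sum]
  refine Finset.sum_congr rfl (fun i _ => ?_)
  rw [eval_mul, eval_pow, eval_X, eval_C, wC_eq, mul_pow, pow_mul, hy, ← Complex.exp_nat_mul]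
  have e : cexp (((3 * i : ℕ) : ℂ) * -(2 * (s : ℂ) / 3)) =
      cexp (-(((m : ℂ) + 1 / 3) * s)) * cexp (((m : ℂ) - 2 * i + 1 / 3) * s) := by
    rw [← Complex.exp_add]
    congr 1
    push_cast
    ring
  rw [e]
  ring

theorem Q_ray {y : ℂ} (hy : y ^ 3 = -1) (m : ℕ) (s : ℝ) : (Qm m).eval (y * (Real.exp (-(2 * s / 3)) : ℂ)) =
    y * ((Real.exp (-(((m : ℝ) + 1 / 3) * s)) : ℂ) * (vm m s : ℂ)) := by
  unfold Qm vm um
  rw [eval_finsetSum]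
  push_cast
  rw [Finset.mul_sum, Finset.mul_sum, Finset.mul_sum]
  refine Finset.sum_congr rfl (fun i hi => ?_)
  have hi' : i ≤ m := Nat.lt_succ_iff.mp (Finset.mem_range.mp hi)
  rw [eval_mul, eval_pow, eval_X, eval_C, wC_eq, mul_pow, pow_succ, pow_mul, hy, ← Complex.exp_nat_mul]
  have e : cexp (((3 * (m - i) + 1 : ℕ) : ℂ) * -(2 * (s : ℂ) / 3)) =
      cexp (-(((m : ℂ) + 1 / 3) * s)) * cexp (((m : ℂ) - 2 * i + 1 / 3) * -s) := by
    rw [← Complex.exp_add]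
    congr 1
    push_cast [Nat.cast_sub hi']
    ring
  have h1 : (-1 : ℂ) ^ m = (-1) ^ (m - i) * (-1) ^ i := by rw [← pow_add, Nat.sub_add_cancel hi']
  have h2 : (-1 : ℂ) ^ i * (-1) ^ i = 1 := by rw [← mul_pow]; simp
  rw [e, h1]
  linear_combination (-(ww m i * (-1) ^ (m - i) * y * (cexp (-(((m : ℂ) + 1 / 3) * s)) *
    cexp (((m : ℂ) - 2 * i + 1 / 3) * -s)))) * h2

/-- the function under the integral -/
def FF (k n : ℕ) (h : ℂ) : ℂ := (NN (k + 1) (k + 1 + 2 * (n + 1)) n).eval (exp (-h)) /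
      (1 - exp (-(3 * h))) ^ (2 * (k + 1 + 2 * (n + 1)))

theorem NN_mul {c L : ℕ} (hc : Odd c) (hL : Odd L) (n : ℕ) (x : ℂ) : (NN c L n).eval x * (1 + x ^ 3) =
    -1 / 2 * ((N1 c).eval x * (N4 L).eval x * (NB (n + 1)).eval x * (NB n).eval x) * (1 - x ^ 2) := by
  have h1 : (N1 c).eval x = (x - CDH.th⁻¹) * (M1 c).eval x := by
    rw [← M1_eq hc, eval_mul, eval_sub, eval_X, eval_C]
  have h4 : (N4 L).eval x = (x - CDH.th) * (M4 L).eval x := by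
    rw [← M4_eq hL, eval_mul, eval_sub, eval_X, eval_C]
  have e : (x - CDH.th⁻¹) * (x - CDH.th) * (1 + x) = 1 + x ^ 3 := by
    have h2 : CDH.th⁻¹ * CDH.th = 1 := inv_mul_cancel₀ CDH.th_ne
    have h3 := th_inv
    linear_combination (1 + x) * h2 - x * (1 + x) * h3
  unfold NN
  rw [eval_mul, eval_C, eval_mul, eval_mul, eval_mul, eval_mul, eval_sub, eval_one, eval_X, h1, h4, ← e]
  ring

theorem exp_thp (s : ℝ) : exp (-((2 * s / 3 : ℝ) + (Real.pi / 3 : ℝ) * I)) = CDH.th⁻¹ * (Real.exp (-(2 * s / 3)) : ℂ) := by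
  unfold CDH.th
  rw [← Complex.exp_neg]
  push_cast
  rw [← Complex.exp_add]
  congr 1
  ring

theorem exp_thm (s : ℝ) : exp (-((2 * s / 3 : ℝ) - (Real.pi / 3 : ℝ) * I)) = CDH.th * (Real.exp (-(2 * s / 3)) : ℂ) := by
  unfold CDH.th
  push_cast
  rw [← Complex.exp_add]
  congr 1
  ring

/-- common part: the value at `x = y e^{-2s/3}`, `y^3 = -1` -/
theorem FF_ray {k n : ℕ} (hk : Even k) {y : ℂ} (hy : y ^ 3 = -1) {s : ℝ} (hs : s ≠ 0) {h : ℂ}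
    (hh : exp (-h) = y * (Real.exp (-(2 * s / 3)) : ℂ)) :
    FF k n h = -1 / 2 * ((CDH.th * (um (k + 1) s : ℂ) - CDH.th⁻¹ * y * (vm (k + 1) s : ℂ)) *
      (CDH.th ^ 2 * (um (k + 1 + 2 * (n + 1)) s : ℂ) - (CDH.th ^ 2)⁻¹ * y * (vm (k + 1 + 2 * (n + 1)) s : ℂ)) *
      ((um (n + 1) s : ℂ) - y * (vm (n + 1) s : ℂ)) * ((um n s : ℂ) - y * (vm n s : ℂ))) *
      ((Real.exp (2 * s / 3) : ℂ) - y ^ 2 * (Real.exp (-(2 * s / 3)) : ℂ)) /
      (((2 * Real.sinh s * (2 * Real.cosh s) ^ (2 * (k + 1 + 2 * (n + 1))) : ℝ)) : ℂ) := by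
  have hc : Odd (k + 1) := hk.add_one
  have hL : Odd (k + 1 + 2 * (n + 1)) := hc.add_even ⟨n + 1, by ring⟩
  have hx3 : exp (-(3 * h)) = -(Real.exp (-(2 * s)) : ℂ) := by
    have e1 : exp (-(3 * h)) = exp (-h) ^ 3 := by rw [← Complex.exp_nat_mul]; congr 1; push_cast; ring
    rw [e1, hh, mul_pow, hy]
    push_cast
    rw [← Complex.exp_nat_mul]
    push_cast
    rw [show (3 : ℂ) * -(2 * (s : ℂ) / 3) = -(2 * s) by ring]
    ring
  have hcosh : (1 - exp (-(3 * h))) = (Real.exp (-s) : ℂ) * ((2 * Real.cosh s : ℝ) : ℂ) := by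
    rw [hx3, ← Complex.ofReal_mul, Real.cosh_eq, show (1 : ℂ) - -(Real.exp (-(2 * s)) : ℂ) =
      ((1 + Real.exp (-(2 * s)) : ℝ) : ℂ) by push_cast; ring]
    congr 1
    have e1 : Real.exp (-s) * Real.exp s = 1 := by rw [← Real.exp_add]; simp
    have e2 : Real.exp (-s) * Real.exp (-s) = Real.exp (-(2 * s)) := by rw [← Real.exp_add]; congr 1; ring
    linear_combination -e1 - e2
  have hsinh : (1 + (y * (Real.exp (-(2 * s / 3)) : ℂ)) ^ 3) = (Real.exp (-s) : ℂ) * ((2 * Real.sinh s : ℝ) : ℂ) := by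
    have e0 : (y * (Real.exp (-(2 * s / 3)) : ℂ)) ^ 3 = -(Real.exp (-(2 * s)) : ℂ) := by
      rw [← hh, ← hx3, ← Complex.exp_nat_mul]; congr 1; push_cast; ring
    rw [e0, ← Complex.ofReal_mul, Real.sinh_eq, show (1 : ℂ) + -(Real.exp (-(2 * s)) : ℂ) =
      ((1 - Real.exp (-(2 * s)) : ℝ) : ℂ) by push_cast; ring]
    congr 1
    have e1 : Real.exp (-s) * Real.exp s = 1 := by rw [← Real.exp_add]; simp
    have e2 : Real.exp (-s) * Real.exp (-s) = Real.exp (-(2 * s)) := by rw [← Real.exp_add]; congr 1; ring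
    linear_combination -e1 + e2
  have hN := NN_mul hc hL n (y * (Real.exp (-(2 * s / 3)) : ℂ))
  rw [hsinh] at hN
  unfold N1 N4 NB at hN
  simp only [eval_sub, eval_mul, eval_C, P_ray hy, Q_ray hy] at hN
  have hs2 : ((2 * Real.sinh s : ℝ) : ℂ) ≠ 0 := by
    rw [Complex.ofReal_ne_zero]
    have : Real.sinh s ≠ 0 := Real.sinh_ne_zero.mpr hs
    positivity
  have hc2 : ((2 * Real.cosh s : ℝ) : ℂ) ≠ 0 := by
    rw [Complex.ofReal_ne_zero]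
    have := Real.cosh_pos s
    positivity
  have he : (Real.exp (-s) : ℂ) ≠ 0 := by
    rw [Complex.ofReal_ne_zero]
    exact (Real.exp_pos _).ne'
  have hden : (((2 * Real.sinh s * (2 * Real.cosh s) ^ (2 * (k + 1 + 2 * (n + 1))) : ℝ)) : ℂ) =
      ((2 * Real.sinh s : ℝ) : ℂ) * ((2 * Real.cosh s : ℝ) : ℂ) ^ (2 * (k + 1 + 2 * (n + 1))) := by
    rw [Complex.ofReal_mul, Complex.ofReal_pow]
  unfold FF
  rw [hh, hcosh, hden, mul_pow, div_eq_div_iff (mul_ne_zero (pow_ne_zero _ he) (pow_ne_zero _ hc2))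
    (mul_ne_zero hs2 (pow_ne_zero _ hc2))]
  have key : (Real.exp (-((((k + 1 : ℕ) : ℝ) + 1 / 3) * s)) : ℂ) * (Real.exp (-((((k + 1 + 2 * (n + 1) : ℕ) : ℝ) + 1 / 3) * s)) : ℂ) *
      (Real.exp (-((((n + 1 : ℕ) : ℝ) + 1 / 3) * s)) : ℂ) * (Real.exp (-((((n : ℕ) : ℝ) + 1 / 3) * s)) : ℂ) *
      (1 - (y * (Real.exp (-(2 * s / 3)) : ℂ)) ^ 2) =
      (Real.exp (-s) : ℂ) * (Real.exp (-s) : ℂ) ^ (2 * (k + 1 + 2 * (n + 1))) *
        ((Real.exp (2 * s / 3) : ℂ) - y ^ 2 * (Real.exp (-(2 * s / 3)) : ℂ)) := by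
    have e1 : (Real.exp (-((((k + 1 : ℕ) : ℝ) + 1 / 3) * s)) : ℂ) * (Real.exp (-((((k + 1 + 2 * (n + 1) : ℕ) : ℝ) + 1 / 3) * s)) : ℂ) *
      (Real.exp (-((((n + 1 : ℕ) : ℝ) + 1 / 3) * s)) : ℂ) * (Real.exp (-((((n : ℕ) : ℝ) + 1 / 3) * s)) : ℂ) =
      (Real.exp (-s) : ℂ) * (Real.exp (-s) : ℂ) ^ (2 * (k + 1 + 2 * (n + 1))) * (Real.exp (2 * s / 3) : ℂ) := by
      rw [← Complex.ofReal_pow, ← Complex.ofReal_mul, ← Complex.ofReal_mul, ← Complex.ofReal_mul, ← Complex.ofReal_mul,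
        ← Complex.ofReal_mul, ← Real.exp_nat_mul, ← Real.exp_add, ← Real.exp_add, ← Real.exp_add, ← Real.exp_add, ← Real.exp_add]
      congr 2
      push_cast
      ring
    have e2 : (Real.exp (2 * s / 3) : ℂ) * (Real.exp (-(2 * s / 3)) : ℂ) = 1 := by
      rw [← Complex.ofReal_mul, ← Real.exp_add]; simp
    rw [e1]
    linear_combination (-(y ^ 2 * (Real.exp (-(2 * s / 3)) : ℂ) * (Real.exp (-s) : ℂ) *
      (Real.exp (-s) : ℂ) ^ (2 * (k + 1 + 2 * (n + 1))))) * e2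
  generalize (Real.exp (-((((k + 1 : ℕ) : ℝ) + 1 / 3) * s)) : ℂ) = E1 at hN key
  generalize (Real.exp (-((((k + 1 + 2 * (n + 1) : ℕ) : ℝ) + 1 / 3) * s)) : ℂ) = E2 at hN key
  generalize (Real.exp (-((((n + 1 : ℕ) : ℝ) + 1 / 3) * s)) : ℂ) = E3 at hN key
  generalize (Real.exp (-((((n : ℕ) : ℝ) + 1 / 3) * s)) : ℂ) = E4 at hN key
  generalize (1 - (y * (Real.exp (-(2 * s / 3)) : ℂ)) ^ 2) = E5 at hN key
  generalize ((2 * Real.cosh s : ℝ) : ℂ) ^ (2 * (k + 1 + 2 * (n + 1))) = CH at *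
  generalize eval (y * (Real.exp (-(2 * s / 3)) : ℂ)) (NN (k + 1) (k + 1 + 2 * (n + 1)) n) = NV at hN ⊢
  apply mul_left_cancel₀ he
  linear_combination CH * hN + (-1 / 2 * ((CDH.th * (um (k + 1) s : ℂ) - CDH.th⁻¹ * y * (vm (k + 1) s : ℂ)) *
      (CDH.th ^ 2 * (um (k + 1 + 2 * (n + 1)) s : ℂ) - (CDH.th ^ 2)⁻¹ * y * (vm (k + 1 + 2 * (n + 1)) s : ℂ)) *
      ((um (n + 1) s : ℂ) - y * (vm (n + 1) s : ℂ)) * ((um n s : ℂ) - y * (vm n s : ℂ))) * CH) * key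

theorem FF_plus {k n : ℕ} (hk : Even k) {s : ℝ} (hs : s ≠ 0) :
    FF k n ((2 * s / 3 : ℝ) + (Real.pi / 3 : ℝ) * I) = Fp (k + 1) (n + 1) s := by
  rw [FF_ray hk th_inv3 hs (exp_thp s)]
  unfold Fp
  rw [th_eq, Nat.add_sub_cancel]
  congr 1
  have h1 : CDH.th⁻¹ * CDH.th⁻¹ = -CDH.th := by
    have := CDH.th_cube
    have h0 := CDH.th_ne
    field_simp
    linear_combination this
  have h2 : (CDH.th ^ 2)⁻¹ * CDH.th⁻¹ = -1 := by
    have := th_inv3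
    rw [inv_pow] at this
    rw [← mul_inv, ← pow_succ]
    exact this
  have h3 : CDH.th⁻¹ ^ 2 = -CDH.th := by rw [pow_two, h1]
  have h4 := CDH.th_cube
  rw [h1, h2, h3]
  linear_combination (-1 / 2 * ((um (k + 1) s : ℂ) + (vm (k + 1) s : ℂ)) * (um (k + 1 + 2 * (n + 1)) s : ℂ) *
    ((um (n + 1) s : ℂ) - CDH.th⁻¹ * (vm (n + 1) s : ℂ)) * ((um n s : ℂ) - CDH.th⁻¹ * (vm n s : ℂ)) *
    ((Real.exp (2 * s / 3) : ℂ) + CDH.th * (Real.exp (-(2 * s / 3)) : ℂ))) * h4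

theorem FF_minus {k n : ℕ} (hk : Even k) {s : ℝ} (hs : s ≠ 0) :
    FF k n ((2 * s / 3 : ℝ) - (Real.pi / 3 : ℝ) * I) = Fm (k + 1) (n + 1) s := by
  rw [FF_ray hk CDH.th_cube hs (exp_thm s)]
  unfold Fm
  rw [th_eq, Nat.add_sub_cancel]
  congr 1
  have h0 := CDH.th_ne
  have h4 := CDH.th_cube
  have h1 : CDH.th⁻¹ * CDH.th = 1 := inv_mul_cancel₀ h0
  have h2 : (CDH.th ^ 2)⁻¹ * CDH.th = CDH.th⁻¹ := by field_simp
  have h3 : CDH.th ^ 2 = -CDH.th⁻¹ := by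
    field_simp
    linear_combination h4
  rw [h1, h2, h3]
  linear_combination (1 / 2 * (um (k + 1) s : ℂ) * ((um (k + 1 + 2 * (n + 1)) s : ℂ) +
    (vm (k + 1 + 2 * (n + 1)) s : ℂ)) * ((um (n + 1) s : ℂ) - CDH.th * (vm (n + 1) s : ℂ)) *
    ((um n s : ℂ) - CDH.th * (vm n s : ℂ)) *
    ((Real.exp (2 * s / 3) : ℂ) + CDH.th⁻¹ * (Real.exp (-(2 * s / 3)) : ℂ))) * h1

end SL
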