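import Pool.Agent.Lib.MP_216314_pr.SL.IdB
import Pool.Agent.Lib.MP_216314_pr.SL.D1b
import Pool.Agent.Lib.MP_216314_pr.SL.Ra

/-!
# SL/Rb: domination and differentiation under the integral (paper 6.1)

Proof. `Z_bd`: `|ID Z| <= 1/2 (|Z 1 (-th) (-th^-1) A t| + |Z (-th^-1) 1 (-th) A t|)`; `t >= 0`: `Id_bd_pos`; `t <= 0`: `Id_bd_neg`, `e^{-t/3} <= e^{-2t/3}(1+e^{-t})` and `e^{-4t/3} <= e^{-2t/3} (1 + e^{-t})`
(because `-t >= 0`). `ID_dA`: `Ph_dA`, `PhA_dA` and `Complex.imCLM` (imaginary part of a complex valued function of a real variable).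
`l0_hd`: `hasDerivAt_integral_of_dominated_loc_of_deriv_le` with `F A t = chi e t * ID Ph A t`, `F' = chi e t * ID PhA A t`, ball `A` of radius `A/2`, `A0 = A/2`, `A1 = 3A/2`,
bound `K * (chi e t * (e^{-2t/3} (1 + e^{-t})))`, integrable by `int_chi`; `F A` integrable: `ID_Ph_bd`, `int_abs`, `chi_le`. Measurability: continuity in `t` (`cont_t`).
`l1_hd` the same. `l0_lim`: dominated convergence, `|chi e t * ID Ph A t| <= K e^{-2|t|/3}`, `chi e t -> 1` as `e -> 0`.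
-/

set_option autoImplicit false

noncomputable section

namespace SL

open Filter Topology MeasureTheory

theorem Rb_ID_le (Z : ℂ → ℂ → ℂ → ℝ → ℝ → ℂ) (A t : ℝ) :
    |ID Z A t| ≤ 1 / 2 * (‖Z 1 (-th) (-th⁻¹) A t‖ + ‖Z (-th⁻¹) 1 (-th) A t‖) := by
  unfold ID
  rw [abs_mul, abs_of_pos (by norm_num : (0 : ℝ) < 1 / 2)]
  have h1 := Complex.abs_im_le_norm (Z 1 (-th) (-th⁻¹) A t - Z (-th⁻¹) 1 (-th) A t)
  have h2 := norm_sub_le (Z 1 (-th) (-th⁻¹) A t) (Z (-th⁻¹) 1 (-th) A t)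
  linarith

theorem Rb_E3 (t : ℝ) : Real.exp (-(2 / 3 * t)) ≤ Real.exp (-(2 / 3 * t)) * (1 + Real.exp (-t)) := by
  have h1 := Real.exp_pos (-(2 / 3 * t))
  have h2 := Real.exp_pos (-t)
  nlinarith [mul_pos h1 h2]

theorem Rb_E1 {t : ℝ} (ht : t ≤ 0) :
    Real.exp (-(1 / 3 * t)) ≤ Real.exp (-(2 / 3 * t)) * (1 + Real.exp (-t)) := by
  refine le_trans (Real.exp_le_exp.2 ?_) (Rb_E3 t)
  linarith

theorem Rb_E2 {t : ℝ} (ht : t ≤ 0) :
    Real.exp (-(4 / 3 * t)) ≤ Real.exp (-(2 / 3 * t)) * (1 + Real.exp (-t)) := by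
  have h1 : Real.exp (-(4 / 3 * t)) ≤ Real.exp (-(2 / 3 * t)) * Real.exp (-t) := by
    rw [← Real.exp_add]
    refine Real.exp_le_exp.2 ?_
    linarith
  have h2 := Real.exp_pos (-(2 / 3 * t))
  nlinarith

/-- uniform domination -/
theorem Z_bd {A0 A1 : ℝ} (h0 : 0 < A0) : ∃ K : ℝ, 0 < K ∧ ∀ A ∈ Set.Icc A0 A1, ∀ t : ℝ,
    |ID PhA A t| ≤ K * (Real.exp (-(2 / 3 * t)) * (1 + Real.exp (-t))) ∧
      |ID PhAA A t| ≤ K * (Real.exp (-(2 / 3 * t)) * (1 + Real.exp (-t))) := by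
  obtain ⟨K1, hK1, b1⟩ := Id_bd_pos 1 (-th) (-th⁻¹) (A0 := A0) (A1 := A1) h0
  obtain ⟨K2, hK2, b2⟩ := Id_bd_pos (-th⁻¹) 1 (-th) (A0 := A0) (A1 := A1) h0
  obtain ⟨K3, hK3, b3⟩ := Id_bd_neg 1 (-th) (-th⁻¹) (A0 := A0) (A1 := A1) h0
  obtain ⟨K4, hK4, b4⟩ := Id_bd_neg (-th⁻¹) 1 (-th) (A0 := A0) (A1 := A1) h0
  refine ⟨K1 + K2 + K3 + K4, by positivity, fun A hA t => ?_⟩
  have hE : 0 < Real.exp (-(2 / 3 * t)) * (1 + Real.exp (-t)) := by positivity
  have m1 := mul_pos hK1 hE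
  have m2 := mul_pos hK2 hE
  have m3 := mul_pos hK3 hE
  have m4 := mul_pos hK4 hE
  have key : ∀ Z : ℂ → ℂ → ℂ → ℝ → ℝ → ℂ,
      (∃ u v : ℝ, 0 ≤ u ∧ 0 ≤ v ∧ u ≤ K1 + K3 ∧ v ≤ K2 + K4 ∧
        ‖Z 1 (-th) (-th⁻¹) A t‖ ≤ u * (Real.exp (-(2 / 3 * t)) * (1 + Real.exp (-t))) ∧
        ‖Z (-th⁻¹) 1 (-th) A t‖ ≤ v * (Real.exp (-(2 / 3 * t)) * (1 + Real.exp (-t)))) →
      |ID Z A t| ≤ (K1 + K2 + K3 + K4) * (Real.exp (-(2 / 3 * t)) * (1 + Real.exp (-t))) := by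
    rintro Z ⟨u, v, hu, hv, hu1, hv1, e1, e2⟩
    have h := Rb_ID_le Z A t
    have f1 := mul_le_mul_of_nonneg_right hu1 hE.le
    have f2 := mul_le_mul_of_nonneg_right hv1 hE.le
    have f3 : 0 ≤ (K1 + K3) * (Real.exp (-(2 / 3 * t)) * (1 + Real.exp (-t))) := by positivity
    have f4 : 0 ≤ (K2 + K4) * (Real.exp (-(2 / 3 * t)) * (1 + Real.exp (-t))) := by positivity
    calc |ID Z A t| ≤ 1 / 2 * (‖Z 1 (-th) (-th⁻¹) A t‖ + ‖Z (-th⁻¹) 1 (-th) A t‖) := h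
      _ ≤ (K1 + K3) * (Real.exp (-(2 / 3 * t)) * (1 + Real.exp (-t))) +
          (K2 + K4) * (Real.exp (-(2 / 3 * t)) * (1 + Real.exp (-t))) := by linarith
      _ = (K1 + K2 + K3 + K4) * (Real.exp (-(2 / 3 * t)) * (1 + Real.exp (-t))) := by ring
  rcases le_total 0 t with ht | ht
  · have c1 := b1 A hA t ht
    have c2 := b2 A hA t ht
    have e3 := Rb_E3 t
    constructor
    · exact key PhA ⟨K1, K2, hK1.le, hK2.le, by linarith, by linarith,
        c1.1.trans (mul_le_mul_of_nonneg_left e3 hK1.le), c2.1.trans (mul_le_mul_of_nonneg_left e3 hK2.le)⟩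
    · exact key PhAA ⟨K1, K2, hK1.le, hK2.le, by linarith, by linarith,
        c1.2.1.trans (mul_le_mul_of_nonneg_left e3 hK1.le), c2.2.1.trans (mul_le_mul_of_nonneg_left e3 hK2.le)⟩
  · have c1 := b3 A hA t ht
    have c2 := b4 A hA t ht
    have e1 := Rb_E1 ht
    have e2 := Rb_E2 ht
    constructor
    · exact key PhA ⟨K3, K4, hK3.le, hK4.le, by linarith, by linarith,
        c1.2.1.trans (mul_le_mul_of_nonneg_left e1 hK3.le), c2.2.1.trans (mul_le_mul_of_nonneg_left e1 hK4.le)⟩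
    · exact key PhAA ⟨K3, K4, hK3.le, hK4.le, by linarith, by linarith,
        c1.2.2.1.trans (mul_le_mul_of_nonneg_left e2 hK3.le), c2.2.2.1.trans (mul_le_mul_of_nonneg_left e2 hK4.le)⟩

theorem Rb_im_hd {f : ℝ → ℂ} {f' : ℂ} {A : ℝ} (h : HasDerivAt f f' A) :
    HasDerivAt (fun x => 1 / 2 * (f x).im) (1 / 2 * f'.im) A := by
  have h1 := (Complex.imCLM.hasFDerivAt (x := f A)).comp_hasDerivAt A h
  exact h1.const_mul (1 / 2 : ℝ)

theorem ID_dA {A : ℝ} (hA : 0 < A) (t : ℝ) : HasDerivAt (fun A => ID Ph A t) (ID PhA A t) A ∧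
    HasDerivAt (fun A => ID PhA A t) (ID PhAA A t) A := by
  constructor
  · exact Rb_im_hd ((Ph_dA 1 (-th) (-th⁻¹) hA t).sub (Ph_dA (-th⁻¹) 1 (-th) hA t))
  · exact Rb_im_hd ((PhA_dA 1 (-th) (-th⁻¹) hA t).sub (PhA_dA (-th⁻¹) 1 (-th) hA t))

theorem Rb_chi_cont (e : ℝ) : Continuous (chi e) := by
  unfold chi
  fun_prop

theorem Rb_ID_cont {A : ℝ} (hA : 0 < A) : Continuous (fun t => ID Ph A t) ∧ Continuous (fun t => ID PhA A t) ∧
    Continuous (fun t => ID PhAA A t) := by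
  have h1 := cont_t 1 (-th) (-th⁻¹) hA
  have h2 := cont_t (-th⁻¹) 1 (-th) hA
  refine ⟨?_, ?_, ?_⟩
  · exact continuous_const.mul (Complex.continuous_im.comp (h1.1.sub h2.1))
  · exact continuous_const.mul (Complex.continuous_im.comp (h1.2.1.sub h2.2.1))
  · exact continuous_const.mul (Complex.continuous_im.comp (h1.2.2.1.sub h2.2.2.1))

theorem Rb_int0 {e A : ℝ} (he : 0 ≤ e) (hA : 0 < A) : Integrable (fun t => chi e t * ID Ph A t) := by
  obtain ⟨K, hK, b⟩ := ID_Ph_bd (A0 := A) (A1 := A) hA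
  refine ((int_abs (k := 2 / 3) (by norm_num)).const_mul K).mono'
    ((Rb_chi_cont e).mul (Rb_ID_cont hA).1).aestronglyMeasurable ?_
  refine Eventually.of_forall (fun t => ?_)
  rw [Real.norm_eq_abs, abs_mul, abs_of_pos (chi_pos e t)]
  have h1 := b A ⟨le_rfl, le_rfl⟩ t
  have h2 := chi_le he t
  have h3 := abs_nonneg (ID Ph A t)
  calc chi e t * |ID Ph A t| ≤ 1 * |ID Ph A t| := mul_le_mul_of_nonneg_right h2 h3
    _ ≤ K * Real.exp (-(2 / 3 * |t|)) := by linarith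

theorem Rb_bdl {e K u E : ℝ} (t : ℝ) (h : |u| ≤ K * E) : ‖chi e t * u‖ ≤ K * (chi e t * E) := by
  have hc := chi_pos e t
  rw [Real.norm_eq_abs, abs_mul, abs_of_pos hc]
  calc chi e t * |u| ≤ chi e t * (K * E) := mul_le_mul_of_nonneg_left h hc.le
    _ = K * (chi e t * E) := by ring

theorem Rb_nhds {A : ℝ} (hA : 0 < A) : Set.Ioo (A / 2) (2 * A) ∈ 𝓝 A :=
  Ioo_mem_nhds (by linarith) (by linarith)

theorem l0_hd {e A : ℝ} (he : 0 < e) (hA : 0 < A) : HasDerivAt (l0 e) (l1 e A) A := by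
  obtain ⟨K, hK, b⟩ := Z_bd (A0 := A / 2) (A1 := 2 * A) (by positivity)
  have h := hasDerivAt_integral_of_dominated_loc_of_deriv_le (μ := (volume : Measure ℝ))
    (F := fun A t => chi e t * ID Ph A t) (F' := fun A t => chi e t * ID PhA A t)
    (bound := fun t => K * (chi e t * (Real.exp (-(2 / 3 * t)) * (1 + Real.exp (-t)))))
    (x₀ := A) (s := Set.Ioo (A / 2) (2 * A)) (Rb_nhds hA)
    (by
      filter_upwards [lt_mem_nhds hA] with x hx
      exact ((Rb_chi_cont e).mul (Rb_ID_cont hx).1).aestronglyMeasurable)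
    (Rb_int0 he.le hA)
    ((Rb_chi_cont e).mul (Rb_ID_cont hA).2.1).aestronglyMeasurable
    (Eventually.of_forall (fun t x hx => Rb_bdl t (b x ⟨hx.1.le, hx.2.le⟩ t).1))
    ((int_chi he).const_mul K)
    (Eventually.of_forall (fun t x hx => (ID_dA (lt_trans (by positivity) hx.1) t).1.const_mul (chi e t)))
  exact h.2

theorem l1_hd {e A : ℝ} (he : 0 < e) (hA : 0 < A) : HasDerivAt (l1 e) (l2 e A) A := by
  obtain ⟨K, hK, b⟩ := Z_bd (A0 := A / 2) (A1 := 2 * A) (by positivity)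
  have hi : Integrable (fun t => chi e t * ID PhA A t) := by
    refine ((int_chi he).const_mul K).mono'
      ((Rb_chi_cont e).mul (Rb_ID_cont hA).2.1).aestronglyMeasurable ?_
    exact Eventually.of_forall (fun t => Rb_bdl t (b A ⟨by linarith, by linarith⟩ t).1)
  have h := hasDerivAt_integral_of_dominated_loc_of_deriv_le (μ := (volume : Measure ℝ))
    (F := fun A t => chi e t * ID PhA A t) (F' := fun A t => chi e t * ID PhAA A t)
    (bound := fun t => K * (chi e t * (Real.exp (-(2 / 3 * t)) * (1 + Real.exp (-t)))))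
    (x₀ := A) (s := Set.Ioo (A / 2) (2 * A)) (Rb_nhds hA)
    (by
      filter_upwards [lt_mem_nhds hA] with x hx
      exact ((Rb_chi_cont e).mul (Rb_ID_cont hx).2.1).aestronglyMeasurable)
    hi
    ((Rb_chi_cont e).mul (Rb_ID_cont hA).2.2).aestronglyMeasurable
    (Eventually.of_forall (fun t x hx => Rb_bdl t (b x ⟨hx.1.le, hx.2.le⟩ t).2))
    ((int_chi he).const_mul K)
    (Eventually.of_forall (fun t x hx => (ID_dA (lt_trans (by positivity) hx.1) t).2.const_mul (chi e t)))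
  exact h.2

/-- `l0 e A -> Lam A` as `e -> 0+` -/
theorem l0_lim {A : ℝ} (hA : 0 < A) : Tendsto (fun e => l0 e A) (𝓝[>] 0) (𝓝 (Lam A)) := by
  obtain ⟨K, hK, b⟩ := ID_Ph_bd (A0 := A) (A1 := A) hA
  refine tendsto_integral_filter_of_dominated_convergence (μ := (volume : Measure ℝ))
    (F := fun e t => chi e t * ID Ph A t) (f := fun t => ID Ph A t)
    (fun t => K * Real.exp (-(2 / 3 * |t|))) ?_ ?_ ?_ ?_
  · exact Eventually.of_forall (fun e => ((Rb_chi_cont e).mul (Rb_ID_cont hA).1).aestronglyMeasurable)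
  · filter_upwards [self_mem_nhdsWithin] with e he
    have he1 : (0 : ℝ) < e := he
    refine Eventually.of_forall (fun t => ?_)
    rw [Real.norm_eq_abs, abs_mul, abs_of_pos (chi_pos e t)]
    have h1 := b A ⟨le_rfl, le_rfl⟩ t
    have h2 := chi_le he1.le t
    have h3 := abs_nonneg (ID Ph A t)
    calc chi e t * |ID Ph A t| ≤ 1 * |ID Ph A t| := mul_le_mul_of_nonneg_right h2 h3
      _ ≤ K * Real.exp (-(2 / 3 * |t|)) := by linarith
  · exact (int_abs (k := 2 / 3) (by norm_num)).const_mul K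
  · refine Eventually.of_forall (fun t => ?_)
    have hc : Continuous (fun e : ℝ => chi e t * ID Ph A t) := by
      unfold chi
      fun_prop
    have h1 := (hc.tendsto 0).mono_left (nhdsWithin_le_nhds (s := Set.Ioi (0 : ℝ)))
    have h2 : chi 0 t * ID Ph A t = ID Ph A t := by
      simp [chi]
    rw [h2] at h1
    exact h1

end SL
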