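import Pool.Agent.Lib.MP_216314_pr.SL.PairS

/-!
# SL/Xi0: the boundary term at `x = 0` vanishes (paper 5.5)

Proof. Let `t -> +oo`, `x = e^{-t} -> 0`, `k0 = (2/3) kap`. By `small`: `F p (A x) -> 1`, `G p (A x) / x^(2/3) -> p k0 A^(2/3)` (the `U1` part is `O(x^2)`),
so `G p (A x) -> 0`, `PhA -> 0`, `F G F F -> 0`, `Ph -> 1`,
`F G r(x) G p(Ax) G q(Lx) / (4 A L x^2) -> k0^3 p q r (A L)^(2/3) / (4 A L)` (as `(x^(2/3))^3 = x^2`),
`(G p(Ax) F /A + F G q(Lx)/L) (G r(x)^2 / (4x^2) + F^2) -> k0^3 (p A^(-1/3) + q L^(-1/3)) r^2 / 4` (the part with `F^2` tends to 0). Hence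
`Xi p q r A t -> 1/3 + k0^3 (p q r (A L)^(2/3) / (4 A L) - (p A^(-1/3) + q L^(-1/3)) r^2 / (8 (A + 1)))` =: `Xi0_lim`.
For `(p,q,r) = (1, -th, -th^-1)`: `p q r = 1`, `p r^2 = th^-2 = -th`, `q r^2 = -th * th^-2 = -th^-1`; for `(-th^-1, 1, -th)`: `p q r = 1`, `p r^2 = -th^-1 th^2 = -th`,
`q r^2 = th^2 = -th^-1` (use `th^3 = -1`). So both limits coincide and `ID Xi A t -> 1/2 Im(0) = 0`.
-/

set_option autoImplicit false

noncomputable section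

namespace SL

open Filter Topology

theorem th_cube : th ^ 3 = -1 := by
  unfold th
  rw [← Complex.exp_nat_mul]
  have h : ((3 : ℕ) : ℂ) * (Real.pi / 3 * Complex.I) = Real.pi * Complex.I := by
    push_cast
    ring
  rw [h, Complex.exp_pi_mul_I]

theorem th_ne : th ≠ 0 := Complex.exp_ne_zero _

/-- `e^{-2t/3}` -/
def Xi0_u (t : ℝ) : ℝ := Real.exp (-(2 / 3 * t))

theorem Xi0_upos (t : ℝ) : 0 < Xi0_u t := Real.exp_pos _

theorem Xi0_u3 (t : ℝ) : Real.exp (-t) ^ 2 = Xi0_u t ^ 3 := by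
  unfold Xi0_u
  rw [← Real.exp_nat_mul, ← Real.exp_nat_mul]
  push_cast
  ring_nf

theorem Xi0_ulim : Tendsto Xi0_u atTop (𝓝 0) := by
  unfold Xi0_u
  apply Real.tendsto_exp_neg_atTop_nhds_zero.comp
  exact tendsto_id.const_mul_atTop (by norm_num : (0 : ℝ) < 2 / 3)

theorem Xi0_elim {c : ℝ} : Tendsto (fun t => c * Real.exp (-t)) atTop (𝓝 0) := by
  have h := (Real.tendsto_exp_neg_atTop_nhds_zero).const_mul c
  rw [mul_zero] at h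
  exact h

theorem Xi0_rpow {c : ℝ} (hc : 0 < c) (t : ℝ) : (c * Real.exp (-t)) ^ (2 / 3 : ℝ) = c ^ (2 / 3 : ℝ) * Xi0_u t := by
  rw [Real.mul_rpow hc.le (Real.exp_pos _).le, ← Real.exp_mul]
  unfold Xi0_u
  ring_nf

/-- `F -> 1` -/
theorem Xi0_F (p : ℂ) {c : ℝ} (hc : 0 < c) : Tendsto (fun t => F p (c * Real.exp (-t))) atTop (𝓝 1) := by
  have hU : Tendsto (fun t => U (c * Real.exp (-t))) atTop (𝓝 1) := by
    have h := (U_cont.tendsto 0).comp (Xi0_elim (c := c))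
    rw [U_zero] at h
    exact h
  have hV : Tendsto (fun t => V (c * Real.exp (-t))) atTop (𝓝 0) := by
    have h0 : ContinuousWithinAt V (Set.Ici 0) 0 := V_cont 0 Set.self_mem_Ici
    have h1 : Tendsto (fun t => c * Real.exp (-t)) atTop (𝓝[Set.Ici 0] 0) :=
      tendsto_nhdsWithin_iff.mpr ⟨Xi0_elim, Eventually.of_forall fun t => (mul_pos hc (Real.exp_pos _)).le⟩
    have h := Tendsto.comp h0 h1
    rw [V_zero] at h
    exact h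
  have hU' : Tendsto (fun t => ((U (c * Real.exp (-t)) : ℝ) : ℂ)) atTop (𝓝 ((1 : ℝ) : ℂ)) :=
    (Complex.continuous_ofReal.tendsto _).comp hU
  have hV' : Tendsto (fun t => ((V (c * Real.exp (-t)) : ℝ) : ℂ)) atTop (𝓝 ((0 : ℝ) : ℂ)) :=
    (Complex.continuous_ofReal.tendsto _).comp hV
  have h := hU'.add (hV'.const_mul p)
  have e : ((1 : ℝ) : ℂ) + p * ((0 : ℝ) : ℂ) = 1 := by simp
  rw [e] at h
  exact h

/-- `G / x^(2/3) -> p k0 c^(2/3)` -/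
theorem Xi0_G (p : ℂ) {c : ℝ} (hc : 0 < c) : Tendsto (fun t => G p (c * Real.exp (-t)) / ((Xi0_u t : ℝ) : ℂ)) atTop
    (𝓝 (p * ((2 / 3 * kap * c ^ (2 / 3 : ℝ) : ℝ) : ℂ))) := by
  obtain ⟨K, hK, hs⟩ := small
  have hev : ∀ᶠ t in atTop, c * Real.exp (-t) ≤ 1 :=
    ((Xi0_elim (c := c)).eventually (gt_mem_nhds one_pos)).mono fun t ht => ht.le
  have hu2 : Tendsto (fun t => K * c ^ 2 * Xi0_u t ^ 2) atTop (𝓝 0) := by
    have h := (Xi0_ulim.pow 2).const_mul (K * c ^ 2)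
    rw [show K * c ^ 2 * 0 ^ 2 = (0 : ℝ) from by ring] at h
    exact h
  have hU : Tendsto (fun t => U1 (c * Real.exp (-t)) / Xi0_u t) atTop (𝓝 0) := by
    apply squeeze_zero_norm' _ hu2
    filter_upwards [hev] with t ht
    have h := (hs (c * Real.exp (-t)) (mul_pos hc (Real.exp_pos _)) ht).2.1
    have hu := Xi0_upos t
    rw [Real.norm_eq_abs, abs_div, abs_of_pos hu, div_le_iff₀ hu]
    calc |U1 (c * Real.exp (-t))| ≤ K * (c * Real.exp (-t)) ^ 2 := h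
      _ = K * c ^ 2 * Xi0_u t ^ 2 * Xi0_u t := by
        rw [mul_pow, Xi0_u3]
        ring
  have hV : Tendsto (fun t => V1 (c * Real.exp (-t)) / Xi0_u t) atTop (𝓝 (2 / 3 * kap * c ^ (2 / 3 : ℝ))) := by
    rw [tendsto_iff_norm_sub_tendsto_zero]
    apply squeeze_zero_norm' _ hu2
    filter_upwards [hev] with t ht
    have h := (hs (c * Real.exp (-t)) (mul_pos hc (Real.exp_pos _)) ht).2.2.2.2
    have hu := Xi0_upos t
    rw [norm_norm, Real.norm_eq_abs]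
    have e : V1 (c * Real.exp (-t)) / Xi0_u t - 2 / 3 * kap * c ^ (2 / 3 : ℝ) =
        (V1 (c * Real.exp (-t)) - 2 / 3 * kap * (c * Real.exp (-t)) ^ (2 / 3 : ℝ)) / Xi0_u t := by
      rw [Xi0_rpow hc]
      field_simp
    rw [e, abs_div, abs_of_pos hu, div_le_iff₀ hu]
    calc |V1 (c * Real.exp (-t)) - 2 / 3 * kap * (c * Real.exp (-t)) ^ (2 / 3 : ℝ)| ≤ K * (c * Real.exp (-t)) ^ 2 := h
      _ = K * c ^ 2 * Xi0_u t ^ 2 * Xi0_u t := by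
        rw [mul_pow, Xi0_u3]
        ring
  have hU' : Tendsto (fun t => ((U1 (c * Real.exp (-t)) / Xi0_u t : ℝ) : ℂ)) atTop (𝓝 ((0 : ℝ) : ℂ)) :=
    (Complex.continuous_ofReal.tendsto _).comp hU
  have hV' : Tendsto (fun t => ((V1 (c * Real.exp (-t)) / Xi0_u t : ℝ) : ℂ)) atTop
      (𝓝 ((2 / 3 * kap * c ^ (2 / 3 : ℝ) : ℝ) : ℂ)) :=
    (Complex.continuous_ofReal.tendsto _).comp hV
  have h := hU'.add (hV'.const_mul p)
  rw [Complex.ofReal_zero, zero_add] at h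
  refine h.congr fun t => ?_
  unfold G
  push_cast
  ring

/-- the limit of `Xi` -/
def Xi0_lim (p q r : ℂ) (A : ℝ) : ℂ :=
  1 / 3 + ((2 / 3 * kap : ℝ) : ℂ) ^ 3 * (p * q * r * (((A * (A + 2)) ^ (2 / 3 : ℝ) / (4 * (A * (A + 2))) : ℝ) : ℂ) -
    (p * ((A ^ (-(1 / 3) : ℝ) : ℝ) : ℂ) + q * (((A + 2) ^ (-(1 / 3) : ℝ) : ℝ) : ℂ)) * r ^ 2 / (8 * (A + 1)))

/-- algebra: `G = gam u`, `E^2 = u^3` -/
theorem Xi0_alg {f1 f4 f k1 k4 k u E a b m : ℂ} (ha : a ≠ 0) (hb : b ≠ 0) (hu : u ≠ 0) (hE : E ^ 2 = u ^ 3) :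
    f1 * f4 * f ^ 2 / 3 + m * ((k1 * u * f4 / a + f1 * (k4 * u) / b) * f ^ 2) - f * (k * u) * f1 * f4 +
      f * (k * u) * (k1 * u) * (k4 * u) / (4 * a * b * E ^ 2) -
      1 / (2 * m) * (k1 * u * f4 / a + f1 * (k4 * u) / b) * ((k * u) ^ 2 / (4 * E ^ 2) + f ^ 2) =
    f1 * f4 * f ^ 2 / 3 + m * (u * ((k1 * f4 / a + f1 * k4 / b) * f ^ 2)) - u * (f * k * f1 * f4) +
      f * k * k1 * k4 / (4 * a * b) -
      1 / (2 * m) * ((k1 * f4 / a + f1 * k4 / b) * (k ^ 2 / 4 + u * f ^ 2)) := by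
  rw [hE]
  have e1 : f * (k * u) * (k1 * u) * (k4 * u) / (4 * a * b * u ^ 3) = f * k * k1 * k4 / (4 * a * b) := by
    field_simp
  have e2 : (k1 * u * f4 / a + f1 * (k4 * u) / b) * ((k * u) ^ 2 / (4 * u ^ 3) + f ^ 2) =
      (k1 * f4 / a + f1 * k4 / b) * (k ^ 2 / 4 + u * f ^ 2) := by
    field_simp
  rw [e1, mul_assoc (1 / (2 * m)), e2]
  ring

theorem Xi_lim (p q r : ℂ) {A : ℝ} (hA : 0 < A) :
    Tendsto (fun t => Xi p q r A t) atTop (𝓝 (Xi0_lim p q r A)) := by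
  have hA2 : (0 : ℝ) < A + 2 := by linarith
  have hA1 : (0 : ℝ) < A + 1 := by linarith
  have F1 := Xi0_F p hA
  have F4 := Xi0_F q hA2
  have F0 := Xi0_F r one_pos
  have G1 := Xi0_G p hA
  have G4 := Xi0_G q hA2
  have G0 := Xi0_G r one_pos
  have hu : Tendsto (fun t => ((Xi0_u t : ℝ) : ℂ)) atTop (𝓝 0) := by
    have h := (Complex.continuous_ofReal.tendsto 0).comp Xi0_ulim
    rw [Complex.ofReal_zero] at h
    exact h
  simp only [one_mul] at F0 G0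
  have S := ((G1.mul F4).div_const (A : ℂ)).add ((F1.mul G4).div_const ((A : ℂ) + 2))
  have T1 := ((F1.mul F4).mul (F0.pow 2)).div_const (3 : ℂ)
  have T2 := (hu.mul (S.mul (F0.pow 2))).const_mul ((A : ℂ) + 1)
  have T3 := hu.mul (((F0.mul G0).mul F1).mul F4)
  have T4 := (((F0.mul G0).mul G1).mul G4).div_const (4 * (A : ℂ) * ((A : ℂ) + 2))
  have T5 := (S.mul (((G0.pow 2).div_const (4 : ℂ)).add (hu.mul (F0.pow 2)))).const_mul (1 / (2 * ((A : ℂ) + 1)))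
  have T := (((T1.add T2).sub T3).add T4).sub T5
  have cA : (A : ℂ) ≠ 0 := by
    exact_mod_cast hA.ne'
  have cA2 : (A : ℂ) + 2 ≠ 0 := by
    have : ((A + 2 : ℝ) : ℂ) ≠ 0 := by exact_mod_cast hA2.ne'
    simpa using this
  have cA1 : (A : ℂ) + 1 ≠ 0 := by
    have : ((A + 1 : ℝ) : ℂ) ≠ 0 := by exact_mod_cast hA1.ne'
    simpa using this
  have hlim : (1 * 1 * 1 ^ 2 / 3 + ((A : ℂ) + 1) * (0 * ((p * ((2 / 3 * kap * A ^ (2 / 3 : ℝ) : ℝ) : ℂ) * 1 / (A : ℂ) +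
      1 * (q * ((2 / 3 * kap * (A + 2) ^ (2 / 3 : ℝ) : ℝ) : ℂ)) / ((A : ℂ) + 2)) * 1 ^ 2)) -
      0 * (1 * (r * ((2 / 3 * kap * 1 ^ (2 / 3 : ℝ) : ℝ) : ℂ)) * 1 * 1) +
      1 * (r * ((2 / 3 * kap * 1 ^ (2 / 3 : ℝ) : ℝ) : ℂ)) * (p * ((2 / 3 * kap * A ^ (2 / 3 : ℝ) : ℝ) : ℂ)) *
        (q * ((2 / 3 * kap * (A + 2) ^ (2 / 3 : ℝ) : ℝ) : ℂ)) / (4 * (A : ℂ) * ((A : ℂ) + 2)) -
      1 / (2 * ((A : ℂ) + 1)) * ((p * ((2 / 3 * kap * A ^ (2 / 3 : ℝ) : ℝ) : ℂ) * 1 / (A : ℂ) +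
      1 * (q * ((2 / 3 * kap * (A + 2) ^ (2 / 3 : ℝ) : ℝ) : ℂ)) / ((A : ℂ) + 2)) *
        ((r * ((2 / 3 * kap * 1 ^ (2 / 3 : ℝ) : ℝ) : ℂ)) ^ 2 / 4 + 0 * 1 ^ 2))) = Xi0_lim p q r A := by
    unfold Xi0_lim
    have r1 : A ^ (-(1 / 3) : ℝ) = A ^ (2 / 3 : ℝ) / A := by
      rw [eq_div_iff hA.ne', ← Real.rpow_add_one hA.ne']
      norm_num
    have r2 : (A + 2) ^ (-(1 / 3) : ℝ) = (A + 2) ^ (2 / 3 : ℝ) / (A + 2) := by
      rw [eq_div_iff hA2.ne', ← Real.rpow_add_one hA2.ne']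
      norm_num
    have r3 : (A * (A + 2)) ^ (2 / 3 : ℝ) = A ^ (2 / 3 : ℝ) * (A + 2) ^ (2 / 3 : ℝ) :=
      Real.mul_rpow hA.le hA2.le
    rw [r1, r2, r3, Real.one_rpow]
    push_cast
    generalize ((A ^ (2 / 3 : ℝ) : ℝ) : ℂ) = X
    generalize (((A + 2) ^ (2 / 3 : ℝ) : ℝ) : ℂ) = Y
    field_simp
    ring
  rw [← hlim]
  refine T.congr fun t => ?_
  have hut : ((Xi0_u t : ℝ) : ℂ) ≠ 0 := by
    exact_mod_cast (Xi0_upos t).ne'
  have hE : ((Real.exp (-t) : ℝ) : ℂ) ^ 2 = ((Xi0_u t : ℝ) : ℂ) ^ 3 := by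
    exact_mod_cast Xi0_u3 t
  have key := Xi0_alg (f1 := F p (A * Real.exp (-t))) (f4 := F q ((A + 2) * Real.exp (-t))) (f := F r (Real.exp (-t)))
    (k1 := G p (A * Real.exp (-t)) / ((Xi0_u t : ℝ) : ℂ)) (k4 := G q ((A + 2) * Real.exp (-t)) / ((Xi0_u t : ℝ) : ℂ))
    (k := G r (Real.exp (-t)) / ((Xi0_u t : ℝ) : ℂ)) (m := (A : ℂ) + 1) cA cA2 hut hE
  rw [div_mul_cancel₀ _ hut, div_mul_cancel₀ _ hut, div_mul_cancel₀ _ hut] at key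
  exact key.symm

theorem Xi0 {A : ℝ} (hA : 0 < A) : Tendsto (fun t => ID Xi A t) atTop (𝓝 0) := by
  have h1 := Xi_lim 1 (-th) (-th⁻¹) hA
  have h2 := Xi_lim (-th⁻¹) 1 (-th) hA
  have hE : Xi0_lim 1 (-th) (-th⁻¹) A = Xi0_lim (-th⁻¹) 1 (-th) A := by
    unfold Xi0_lim
    have hne := th_ne
    have e1 : (1 : ℂ) * -th * -th⁻¹ = 1 := by field_simp
    have e2 : -th⁻¹ * 1 * -th = 1 := by field_simp
    have e3 : (-th⁻¹) ^ 2 = -th := by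
      have h := th_cube
      field_simp
      linear_combination h
    have e4 : th ^ 2 = -th⁻¹ := by
      have h := th_cube
      field_simp
      linear_combination h
    rw [e1, e2]
    generalize ((A ^ (-(1 / 3) : ℝ) : ℝ) : ℂ) = X
    generalize (((A + 2) ^ (-(1 / 3) : ℝ) : ℝ) : ℂ) = Y
    have e5 : (1 * X + -th * Y) * (-th⁻¹) ^ 2 = (-th⁻¹ * X + 1 * Y) * (-th) ^ 2 := by
      rw [e3, neg_sq, e4]
      have e6 : -th⁻¹ * -th⁻¹ = -th := by rw [← sq, e3]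
      have e7 : th * th = -th⁻¹ := by rw [← sq, e4]
      linear_combination (-X) * e6 + Y * e7
    rw [e5]
  have h := h1.sub h2
  rw [hE, sub_self] at h
  have h3 := (Complex.continuous_im.tendsto _).comp h
  have h4 := h3.const_mul (1 / 2)
  rw [Complex.zero_im, mul_zero] at h4
  exact h4

end SL
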