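import Pool.Agent.Lib.MP_216314_pr.SL.Rb
import Pool.Agent.Lib.MP_216314_pr.SL.Xi0

/-!
# SL/Rc: integration by parts (paper 6.2)

Proof. `Psi(t) = chi e t * ID Xi A t` has derivative `om e t * ID Xi A t - chi e t * (A (A+2) (ID PhAA A t + qq A * ID PhA A t))` (`Xi_dt`, imaginary part, `chi_hd`),
which is integrable: the second part by `Z_bd`, `int_chi`; the first: `om = e e^{-t} chi`, `|ID Xi| <= K` for `t >= 0` (`Id_bd_pos`): `<= K e e^{-t}`; `|ID Xi| <= K e^{-t/3}` for `t <= 0` (`Id_bd_neg`):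
`<= K e chi e^{-4t/3} <= K e chi e^{-2t/3} (1 + e^{-t})`. `Psi -> 0` at `+oo` (`Xi0`, `chi_le`) and at `-oo` (`|Psi| <= K chi e^{-t/3}`, `chi_decay`).
So the integral of the derivative over the line is 0 (`MeasureTheory.integral_of_hasDerivAt_of_tendsto`), which is the claim (split the integral).
-/

set_option autoImplicit false

noncomputable section

namespace SL

open Filter Topology MeasureTheory

theorem Rc_cont {A : ℝ} (hA : 0 < A) : Continuous (fun t => ID PhA A t) ∧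
    Continuous (fun t => ID PhAA A t) ∧ Continuous (fun t => ID Xi A t) := by
  have key : ∀ Z : ℂ → ℂ → ℂ → ℝ → ℝ → ℂ, (∀ p q r : ℂ, Continuous fun t => Z p q r A t) →
      Continuous (fun t => ID Z A t) := by
    intro Z hZ
    unfold ID
    exact continuous_const.mul (Complex.continuous_im.comp ((hZ _ _ _).sub (hZ _ _ _)))
  exact ⟨key _ fun p q r => (cont_t p q r hA).2.1, key _ fun p q r => (cont_t p q r hA).2.2.1,
    key _ fun p q r => (cont_t p q r hA).2.2.2.1⟩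

theorem Rc_chi_cont (e : ℝ) : Continuous (chi e) ∧ Continuous (om e) :=
  ⟨continuous_iff_continuousAt.2 fun t => (chi_hd e t).continuousAt,
    continuous_iff_continuousAt.2 fun t => (om_hd e t).continuousAt⟩

theorem Rc_ID_le (Z : ℂ → ℂ → ℂ → ℝ → ℝ → ℂ) (A t : ℝ) :
    |ID Z A t| ≤ 1 / 2 * (‖Z 1 (-th) (-th⁻¹) A t‖ + ‖Z (-th⁻¹) 1 (-th) A t‖) := by
  unfold ID
  rw [abs_mul, abs_of_pos (by norm_num : (0 : ℝ) < 1 / 2)]
  exact mul_le_mul_of_nonneg_left ((Complex.abs_im_le_norm _).trans (norm_sub_le _ _)) (by norm_num)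

theorem Rc_Xi_bd {A : ℝ} (hA : 0 < A) : ∃ K : ℝ, 0 < K ∧ (∀ t : ℝ, 0 ≤ t → |ID Xi A t| ≤ K) ∧
    ∀ t : ℝ, t ≤ 0 → |ID Xi A t| ≤ K * Real.exp (-(1 / 3 * t)) := by
  obtain ⟨K1, hK1, h1⟩ := Id_bd_pos 1 (-th) (-th⁻¹) (A0 := A) (A1 := A) hA
  obtain ⟨K2, hK2, h2⟩ := Id_bd_pos (-th⁻¹) 1 (-th) (A0 := A) (A1 := A) hA
  obtain ⟨K3, hK3, h3⟩ := Id_bd_neg 1 (-th) (-th⁻¹) (A0 := A) (A1 := A) hA
  obtain ⟨K4, hK4, h4⟩ := Id_bd_neg (-th⁻¹) 1 (-th) (A0 := A) (A1 := A) hA
  have hmem : A ∈ Set.Icc A A := ⟨le_rfl, le_rfl⟩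
  refine ⟨K1 + K2 + K3 + K4, by positivity, fun t ht => ?_, fun t ht => ?_⟩
  · have b1 := (h1 A hmem t ht).2.2
    have b2 := (h2 A hmem t ht).2.2
    have b3 := Rc_ID_le Xi A t
    linarith
  · have b1 := (h3 A hmem t ht).2.2.2
    have b2 := (h4 A hmem t ht).2.2.2
    have b3 := Rc_ID_le Xi A t
    have hp := Real.exp_pos (-(1 / 3 * t))
    nlinarith [mul_pos hK1 hp, mul_pos hK2 hp, mul_pos hK3 hp, mul_pos hK4 hp]

theorem ID_Xi_dt {A : ℝ} (hA : 0 < A) (t : ℝ) : HasDerivAt (fun t => ID Xi A t)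
    (-(A * (A + 2) * (ID PhAA A t + qq A * ID PhA A t))) t := by
  have h1 := (Xi_dt 1 (-th) (-th⁻¹) hA t).sub (Xi_dt (-th⁻¹) 1 (-th) hA t)
  have h2 := (Complex.imCLM.hasFDerivAt.comp_hasDerivAt t h1).const_mul (1 / 2 : ℝ)
  have e1 : (1 / 2 : ℝ) * Complex.imCLM (-(↑A * (↑A + 2) * (PhAA 1 (-th) (-th⁻¹) A t + ↑(qq A) *
      PhA 1 (-th) (-th⁻¹) A t)) - -(↑A * (↑A + 2) * (PhAA (-th⁻¹) 1 (-th) A t + ↑(qq A) *
      PhA (-th⁻¹) 1 (-th) A t))) = -(A * (A + 2) * (ID PhAA A t + qq A * ID PhA A t)) := by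
    have e2 : (-((A : ℂ) * (A + 2) * (PhAA 1 (-th) (-th⁻¹) A t + (qq A : ℂ) *
      PhA 1 (-th) (-th⁻¹) A t)) - -((A : ℂ) * (A + 2) * (PhAA (-th⁻¹) 1 (-th) A t + (qq A : ℂ) *
      PhA (-th⁻¹) 1 (-th) A t))) = ((-(A * (A + 2)) : ℝ) : ℂ) *
        ((PhAA 1 (-th) (-th⁻¹) A t - PhAA (-th⁻¹) 1 (-th) A t) +
          ((qq A : ℝ) : ℂ) * (PhA 1 (-th) (-th⁻¹) A t - PhA (-th⁻¹) 1 (-th) A t)) := by
      push_cast
      ring
    rw [e2, Complex.imCLM_apply, Complex.im_ofReal_mul, Complex.add_im, Complex.im_ofReal_mul]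
    unfold ID
    ring
  rw [e1] at h2
  exact h2

theorem int_omXi {e A : ℝ} (he : 0 < e) (hA : 0 < A) : Integrable (fun t => om e t * ID Xi A t) := by
  obtain ⟨K, hK, h1, h2⟩ := Rc_Xi_bd hA
  refine Integrable.mono' ((int_chi he).const_mul (e * K))
    (((Rc_chi_cont e).2.mul (Rc_cont hA).2.2).aestronglyMeasurable) (Filter.Eventually.of_forall fun t => ?_)
  rw [Real.norm_eq_abs, abs_mul]
  have hc := chi_pos e t
  have hom : |om e t| = e * (Real.exp (-t) * chi e t) := by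
    unfold om
    rw [mul_assoc, abs_of_pos (by positivity)]
  rw [hom]
  have hgoal : e * K * (chi e t * (Real.exp (-(2 / 3 * t)) * (1 + Real.exp (-t)))) =
      e * (chi e t * (K * (Real.exp (-(2 / 3 * t)) * (1 + Real.exp (-t))))) := by ring
  have hleft : e * (Real.exp (-t) * chi e t) * |ID Xi A t| =
      e * (chi e t * (Real.exp (-t) * |ID Xi A t|)) := by ring
  rw [hgoal, hleft]
  refine mul_le_mul_of_nonneg_left (mul_le_mul_of_nonneg_left ?_ hc.le) he.le
  have hp := Real.exp_pos (-t)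
  have hp2 := Real.exp_pos (-(2 / 3 * t))
  rcases le_total 0 t with ht | ht
  · have e1 : Real.exp (-t) ≤ Real.exp (-(2 / 3 * t)) := Real.exp_le_exp.2 (by linarith)
    calc Real.exp (-t) * |ID Xi A t| ≤ Real.exp (-(2 / 3 * t)) * K :=
          mul_le_mul e1 (h1 t ht) (abs_nonneg _) hp2.le
      _ ≤ K * (Real.exp (-(2 / 3 * t)) * (1 + Real.exp (-t))) := by
          nlinarith [mul_pos hK (mul_pos hp2 hp)]
  · have e1 : Real.exp (-t) * Real.exp (-(1 / 3 * t)) ≤ Real.exp (-(2 / 3 * t)) * Real.exp (-t) := by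
      rw [← Real.exp_add, ← Real.exp_add]
      exact Real.exp_le_exp.2 (by linarith)
    calc Real.exp (-t) * |ID Xi A t| ≤ Real.exp (-t) * (K * Real.exp (-(1 / 3 * t))) :=
          mul_le_mul_of_nonneg_left (h2 t ht) hp.le
      _ = K * (Real.exp (-t) * Real.exp (-(1 / 3 * t))) := by ring
      _ ≤ K * (Real.exp (-(2 / 3 * t)) * Real.exp (-t)) := mul_le_mul_of_nonneg_left e1 hK.le
      _ ≤ K * (Real.exp (-(2 / 3 * t)) * (1 + Real.exp (-t))) := by
          nlinarith [mul_pos hK hp2]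

theorem Rc_intZ {e A : ℝ} (he : 0 < e) (hA : 0 < A) : Integrable (fun t => chi e t * ID PhA A t) ∧
    Integrable (fun t => chi e t * ID PhAA A t) := by
  obtain ⟨K, hK, h⟩ := Z_bd (A0 := A) (A1 := A) hA
  have hb := h A ⟨le_rfl, le_rfl⟩
  have key : ∀ f : ℝ → ℝ, Continuous f →
      (∀ t, |f t| ≤ K * (Real.exp (-(2 / 3 * t)) * (1 + Real.exp (-t)))) →
      Integrable (fun t => chi e t * f t) := by
    intro f hf hb
    refine Integrable.mono' ((int_chi he).const_mul K)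
      (((Rc_chi_cont e).1.mul hf).aestronglyMeasurable) (Filter.Eventually.of_forall fun t => ?_)
    rw [Real.norm_eq_abs, abs_mul, abs_of_pos (chi_pos e t)]
    have h2 := mul_le_mul_of_nonneg_left (hb t) (chi_pos e t).le
    refine h2.trans (le_of_eq ?_)
    ring
  exact ⟨key _ (Rc_cont hA).1 fun t => (hb t).1, key _ (Rc_cont hA).2.1 fun t => (hb t).2⟩

theorem ibp1 {e A : ℝ} (he : 0 < e) (hA : 0 < A) :
    A * (A + 2) * (l2 e A + qq A * l1 e A) = ∫ t : ℝ, om e t * ID Xi A t := by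
  obtain ⟨K, hK, h1, h2⟩ := Rc_Xi_bd hA
  obtain ⟨i1, i2⟩ := Rc_intZ he hA
  have i3 := int_omXi he hA
  have hder : ∀ t : ℝ, HasDerivAt (fun t => chi e t * ID Xi A t)
      (om e t * ID Xi A t + (-(A * (A + 2))) * (chi e t * ID PhAA A t +
        qq A * (chi e t * ID PhA A t))) t := by
    intro t
    have h3 := (chi_hd e t).mul (ID_Xi_dt hA t)
    have e3 : om e t * ID Xi A t + chi e t * -(A * (A + 2) * (ID PhAA A t + qq A * ID PhA A t)) =
        om e t * ID Xi A t + (-(A * (A + 2))) * (chi e t * ID PhAA A t +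
        qq A * (chi e t * ID PhA A t)) := by ring
    rw [← e3]
    exact h3
  have i4 : Integrable (fun t => chi e t * ID PhAA A t + qq A * (chi e t * ID PhA A t)) :=
    i2.add (i1.const_mul (qq A))
  have i5 : Integrable (fun t => (-(A * (A + 2))) * (chi e t * ID PhAA A t +
      qq A * (chi e t * ID PhA A t))) := i4.const_mul _
  have htop : Tendsto (fun t => chi e t * ID Xi A t) atTop (𝓝 0) := by
    refine squeeze_zero_norm (a := fun t => |ID Xi A t|) (fun t => ?_) ?_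
    · rw [Real.norm_eq_abs, abs_mul, abs_of_pos (chi_pos e t)]
      have h3 := mul_le_mul_of_nonneg_right (chi_le he.le t) (abs_nonneg (ID Xi A t))
      rwa [one_mul] at h3
    · have h4 := (Xi0 hA).abs
      rwa [abs_zero] at h4
  have hbot : Tendsto (fun t => chi e t * ID Xi A t) atBot (𝓝 0) := by
    refine squeeze_zero_norm' (a := fun t => K * (chi e t * Real.exp (-(1 / 3 * t)))) ?_ ?_
    · filter_upwards [eventually_le_atBot (0 : ℝ)] with t ht
      rw [Real.norm_eq_abs, abs_mul, abs_of_pos (chi_pos e t)]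
      have h3 := mul_le_mul_of_nonneg_left (h2 t ht) (chi_pos e t).le
      refine h3.trans (le_of_eq ?_)
      ring
    · have h4 := (chi_decay he (1 / 3)).const_mul K
      rwa [mul_zero] at h4
  have hI := integral_of_hasDerivAt_of_tendsto hder (i3.add i5) hbot htop
  rw [sub_zero, integral_add i3 i5, integral_const_mul, integral_add i2 (i1.const_mul (qq A)),
    integral_const_mul] at hI
  unfold l2 l1
  linear_combination (-1 : ℝ) * hI

end SL
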