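import Pool.Agent.Lib.MP_216314_pr.SL.Rc

/-!
# SL/Rd: the error term tends to 0 (paper 6.3)

Proof of `om_bd`. Split the integral at 0 (`int_omXi`). `t >= 0`: `|om * ID Xi| <= e e^{-t} K`, integral `<= K e`. `t <= 0`: the function `om e t * ID mm A t` has derivative
`om' * ID mm - om * (ID Xi - ID nn)` (`om_hd`, `mm_dt`), `om' = om * (e e^{-t} - 1)`; it tends to 0 at `-oo` (`chi_decay`, `mn_bd_neg`); so by `MeasureTheory.integral_Iic_of_hasDerivAt_of_tendsto`
`int_{Iic 0} om * ID Xi = -om(e,0) * ID mm A 0 + int_{Iic 0} (om' ID mm + om ID nn)`, and `|om'| + |om| <= (2y + y^2) e^{-y}`, `y = e e^{-t}`,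
`|ID mm|, |ID nn| <= K e^{2t/3}`; `|om e 0| <= e`, `|ID mm A 0| <= K`.
`eta_int`: bounded by `2 e^{2t/3}` since `(2y+y^2) e^{-y} <= 2` (`1 + y + y^2/2 <= e^y`). `eta_lim`: dominated convergence on `Iic 0`.
-/

set_option autoImplicit false

noncomputable section

namespace SL

open Filter Topology MeasureTheory

/-- the integrand of `eta` -/
private def Rd_g (e t : ℝ) : ℝ :=
  (2 * (e * Real.exp (-t)) + (e * Real.exp (-t)) ^ 2) * Real.exp (-(e * Real.exp (-t))) *
    Real.exp (2 / 3 * t)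

private theorem Rd_g_cont (e : ℝ) : Continuous (Rd_g e) := by
  unfold Rd_g
  fun_prop

private theorem Rd_g_nonneg {e : ℝ} (he : 0 ≤ e) (t : ℝ) : 0 ≤ Rd_g e t := by
  unfold Rd_g
  positivity

private theorem Rd_g_le {e : ℝ} (he : 0 ≤ e) (t : ℝ) : Rd_g e t ≤ 2 * Real.exp (2 / 3 * t) := by
  unfold Rd_g
  have hy : 0 ≤ e * Real.exp (-t) := mul_nonneg he (Real.exp_pos _).le
  generalize e * Real.exp (-t) = y at hy ⊢
  have h1 := Real.quadratic_le_exp_of_nonneg hy
  have h2 : (2 * y + y ^ 2) * Real.exp (-y) ≤ 2 := by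
    rw [Real.exp_neg, ← div_eq_mul_inv, div_le_iff₀ (Real.exp_pos y)]
    linarith
  exact mul_le_mul_of_nonneg_right h2 (Real.exp_pos _).le

private theorem Rd_exp_int : IntegrableOn (fun t : ℝ => 2 * Real.exp (2 / 3 * t)) (Set.Iic 0) :=
  (integrableOn_exp_mul_Iic (by norm_num : (0 : ℝ) < 2 / 3) 0).const_mul 2

private theorem Rd_g_int {e : ℝ} (he : 0 < e) : IntegrableOn (Rd_g e) (Set.Iic 0) := by
  refine Rd_exp_int.mono' (Rd_g_cont e).aestronglyMeasurable.restrict ?_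
  refine Filter.Eventually.of_forall fun t => ?_
  rw [Real.norm_eq_abs, abs_of_nonneg (Rd_g_nonneg he.le t)]
  exact Rd_g_le he.le t

private theorem Rd_eta (e : ℝ) : eta e = ∫ t in Set.Iic (0 : ℝ), Rd_g e t := rfl

theorem eta_int {e : ℝ} (he : 0 < e) : IntegrableOn (fun t : ℝ =>
    (2 * (e * Real.exp (-t)) + (e * Real.exp (-t)) ^ 2) * Real.exp (-(e * Real.exp (-t))) * Real.exp (2 / 3 * t))
    (Set.Iic 0) :=
  Rd_g_int he

theorem eta_nonneg {e : ℝ} (he : 0 < e) : 0 ≤ eta e := by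
  rw [Rd_eta]
  exact setIntegral_nonneg measurableSet_Iic fun t _ => Rd_g_nonneg he.le t

theorem eta_lim : Tendsto eta (𝓝[>] 0) (𝓝 0) := by
  have h0 : (0 : ℝ) = ∫ t in Set.Iic (0 : ℝ), (0 : ℝ) := by simp
  have h1 : Tendsto (fun e => ∫ t in Set.Iic (0 : ℝ), Rd_g e t) (𝓝[>] 0)
      (𝓝 (∫ t in Set.Iic (0 : ℝ), (0 : ℝ))) := by
    refine tendsto_integral_filter_of_dominated_convergence
      (fun t => 2 * Real.exp (2 / 3 * t)) ?_ ?_ Rd_exp_int ?_
    · exact Filter.Eventually.of_forall fun e => (Rd_g_cont e).aestronglyMeasurable.restrict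
    · filter_upwards [self_mem_nhdsWithin] with e he
      refine Filter.Eventually.of_forall fun t => ?_
      rw [Real.norm_eq_abs, abs_of_nonneg (Rd_g_nonneg (le_of_lt he) t)]
      exact Rd_g_le (le_of_lt he) t
    · refine Filter.Eventually.of_forall fun t => ?_
      have hc : Continuous (fun e : ℝ => Rd_g e t) := by
        unfold Rd_g
        fun_prop
      have h2 : Tendsto (fun e : ℝ => Rd_g e t) (𝓝[>] 0) (𝓝 (Rd_g 0 t)) :=
        (hc.tendsto 0).mono_left nhdsWithin_le_nhds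
      have h3 : Rd_g 0 t = 0 := by
        unfold Rd_g
        simp
      rwa [h3] at h2
  rw [← h0] at h1
  exact h1

private theorem Rd_ID_le {Z : ℂ → ℂ → ℂ → ℝ → ℝ → ℂ} {A t k1 k2 : ℝ}
    (h1 : ‖Z 1 (-th) (-th⁻¹) A t‖ ≤ k1) (h2 : ‖Z (-th⁻¹) 1 (-th) A t‖ ≤ k2) :
    |ID Z A t| ≤ k1 + k2 := by
  unfold ID
  rw [abs_mul, abs_of_pos (by norm_num : (0 : ℝ) < 1 / 2)]
  have h3 := Complex.abs_im_le_norm (Z 1 (-th) (-th⁻¹) A t - Z (-th⁻¹) 1 (-th) A t)
  have h4 := norm_sub_le (Z 1 (-th) (-th⁻¹) A t) (Z (-th⁻¹) 1 (-th) A t)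
  have h5 := norm_nonneg (Z 1 (-th) (-th⁻¹) A t)
  have h6 := norm_nonneg (Z (-th⁻¹) 1 (-th) A t)
  linarith

private theorem Rd_ID_cont {Z : ℂ → ℂ → ℂ → ℝ → ℝ → ℂ} {A : ℝ}
    (hZ : ∀ p q r, Continuous (fun t => Z p q r A t)) : Continuous (fun t => ID Z A t) := by
  unfold ID
  exact continuous_const.mul (Complex.continuous_im.comp ((hZ _ _ _).sub (hZ _ _ _)))

private theorem Rd_om_cont (e : ℝ) : Continuous (om e) := by
  unfold om chi
  fun_prop

private theorem Rd_mm_hd {A : ℝ} (hA : 0 < A) (t : ℝ) :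
    HasDerivAt (fun t => ID mm A t) (-(ID Xi A t - ID nn A t)) t := by
  have h1 := (mm_dt 1 (-th) (-th⁻¹) hA t).sub (mm_dt (-th⁻¹) 1 (-th) hA t)
  have h2 := (Complex.imCLM.hasFDerivAt.comp_hasDerivAt t h1).const_mul (1 / 2 : ℝ)
  refine (h2.congr_deriv ?_)
  unfold ID
  simp only [Complex.imCLM_apply, Complex.sub_im, Complex.neg_im]
  ring

/-- the bound for the correction term -/
private theorem Rd_corr {e K a b t : ℝ} (he : 0 < e) (ha : |a| ≤ K * Real.exp (2 / 3 * t))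
    (hb : |b| ≤ K * Real.exp (2 / 3 * t)) :
    |om e t * (e * Real.exp (-t) - 1) * a + om e t * b| ≤ K * Rd_g e t := by
  have hy : 0 ≤ e * Real.exp (-t) := mul_nonneg he.le (Real.exp_pos _).le
  have hom : om e t = e * Real.exp (-t) * Real.exp (-(e * Real.exp (-t))) := rfl
  rw [hom]
  unfold Rd_g
  generalize e * Real.exp (-t) = y at hy ⊢
  have hE := (Real.exp_pos (-y)).le
  have h1 : |y * Real.exp (-y) * (y - 1) * a| ≤
      y * Real.exp (-y) * (y + 1) * (K * Real.exp (2 / 3 * t)) := by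
    rw [abs_mul, abs_mul, abs_of_nonneg (mul_nonneg hy hE)]
    have h2 : |y - 1| ≤ y + 1 := by
      rw [abs_le]
      constructor <;> linarith
    exact mul_le_mul (mul_le_mul_of_nonneg_left h2 (mul_nonneg hy hE)) ha (abs_nonneg _)
      (mul_nonneg (mul_nonneg hy hE) (by linarith))
  have h3 : |y * Real.exp (-y) * b| ≤ y * Real.exp (-y) * (K * Real.exp (2 / 3 * t)) := by
    rw [abs_mul, abs_of_nonneg (mul_nonneg hy hE)]
    exact mul_le_mul_of_nonneg_left hb (mul_nonneg hy hE)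
  calc |y * Real.exp (-y) * (y - 1) * a + y * Real.exp (-y) * b|
      ≤ |y * Real.exp (-y) * (y - 1) * a| + |y * Real.exp (-y) * b| := abs_add_le _ _
    _ ≤ y * Real.exp (-y) * (y + 1) * (K * Real.exp (2 / 3 * t)) +
        y * Real.exp (-y) * (K * Real.exp (2 / 3 * t)) := add_le_add h1 h3
    _ = _ := by ring

theorem om_bd {A0 A1 : ℝ} (h0 : 0 < A0) : ∃ K : ℝ, 0 < K ∧ ∀ e : ℝ, 0 < e → e ≤ 1 → ∀ A ∈ Set.Icc A0 A1,
    |∫ t : ℝ, om e t * ID Xi A t| ≤ K * (e + eta e) := by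
  obtain ⟨a1, ha1, b1⟩ := Id_bd_pos 1 (-th) (-th⁻¹) (A1 := A1) h0
  obtain ⟨a2, ha2, b2⟩ := Id_bd_pos (-th⁻¹) 1 (-th) (A1 := A1) h0
  obtain ⟨c1, hc1, d1⟩ := mn_bd_neg 1 (-th) (-th⁻¹) (A1 := A1) h0
  obtain ⟨c2, hc2, d2⟩ := mn_bd_neg (-th⁻¹) 1 (-th) (A1 := A1) h0
  refine ⟨(a1 + a2) + (c1 + c2), by positivity, fun e he _ A hA => ?_⟩
  have hA0 : 0 < A := lt_of_lt_of_le h0 hA.1
  have hpos : ∀ t : ℝ, 0 ≤ t → |ID Xi A t| ≤ a1 + a2 := fun t ht =>
    Rd_ID_le (b1 A hA t ht).2.2 (b2 A hA t ht).2.2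
  have hmm : ∀ t : ℝ, t ≤ 0 → |ID mm A t| ≤ (c1 + c2) * Real.exp (2 / 3 * t) := by
    intro t ht
    have := Rd_ID_le (d1 A hA t ht).1 (d2 A hA t ht).1
    rwa [← add_mul] at this
  have hnn : ∀ t : ℝ, t ≤ 0 → |ID nn A t| ≤ (c1 + c2) * Real.exp (2 / 3 * t) := by
    intro t ht
    have := Rd_ID_le (d1 A hA t ht).2 (d2 A hA t ht).2
    rwa [← add_mul] at this
  have hint := int_omXi he hA0
  have hcm : Continuous (fun t => ID mm A t) :=
    Rd_ID_cont fun p q r => (cont_t p q r hA0).2.2.2.2.1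
  have hcn : Continuous (fun t => ID nn A t) :=
    Rd_ID_cont fun p q r => (cont_t p q r hA0).2.2.2.2.2
  -- the correction term
  have hce : Continuous (fun t : ℝ => e * Real.exp (-t) - 1) := by fun_prop
  have hcorr : Continuous (fun t : ℝ => om e t * (e * Real.exp (-t) - 1) * ID mm A t +
      om e t * ID nn A t) :=
    (((Rd_om_cont e).mul hce).mul hcm).add ((Rd_om_cont e).mul hcn)
  have hcb : ∀ t : ℝ, t ≤ 0 → |om e t * (e * Real.exp (-t) - 1) * ID mm A t +
      om e t * ID nn A t| ≤ (c1 + c2) * Rd_g e t := fun t ht =>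
    Rd_corr he (hmm t ht) (hnn t ht)
  have hci : IntegrableOn (fun t : ℝ => om e t * (e * Real.exp (-t) - 1) * ID mm A t +
      om e t * ID nn A t) (Set.Iic 0) := by
    refine ((Rd_g_int he).const_mul (c1 + c2)).mono' hcorr.aestronglyMeasurable.restrict ?_
    refine (ae_restrict_iff' measurableSet_Iic).2 (Filter.Eventually.of_forall fun t ht => ?_)
    rw [Real.norm_eq_abs]
    exact hcb t ht
  have hchi0 : ∀ t, 0 ≤ om e t := fun t => by
    unfold om
    exact mul_nonneg (mul_nonneg he.le (Real.exp_pos _).le) (chi_pos e t).le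
  have homle : ∀ t, om e t ≤ e * Real.exp (-t) := fun t => by
    unfold om
    have h1 : 0 ≤ e * Real.exp (-t) := mul_nonneg he.le (Real.exp_pos _).le
    have h2 := mul_le_mul_of_nonneg_left (chi_le he.le t) h1
    linarith
  -- the left half line
  have hderiv : ∀ t ∈ Set.Iio (0 : ℝ), HasDerivAt (fun t => om e t * ID mm A t)
      (-(om e t * ID Xi A t) + (om e t * (e * Real.exp (-t) - 1) * ID mm A t +
        om e t * ID nn A t)) t := by
    intro t _
    refine ((om_hd e t).mul (Rd_mm_hd hA0 t)).congr_deriv ?_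
    ring
  have hlim : Tendsto (fun t => om e t * ID mm A t) atBot (𝓝 0) := by
    have h1 := (chi_decay he (1 / 3)).const_mul (e * (c1 + c2))
    rw [mul_zero] at h1
    refine squeeze_zero_norm' ?_ h1
    filter_upwards [Filter.Iic_mem_atBot (0 : ℝ)] with t ht
    rw [Real.norm_eq_abs, abs_mul, abs_of_nonneg (hchi0 t)]
    calc om e t * |ID mm A t| ≤ om e t * ((c1 + c2) * Real.exp (2 / 3 * t)) :=
          mul_le_mul_of_nonneg_left (hmm t ht) (hchi0 t)
      _ = e * (c1 + c2) * (chi e t * (Real.exp (-t) * Real.exp (2 / 3 * t))) := by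
          unfold om
          ring
      _ = e * (c1 + c2) * (chi e t * Real.exp (-(1 / 3 * t))) := by
          rw [← Real.exp_add]
          congr 3
          ring
  have hleft : ∫ t in Set.Iic (0 : ℝ), (-(om e t * ID Xi A t) +
      (om e t * (e * Real.exp (-t) - 1) * ID mm A t + om e t * ID nn A t)) =
      om e 0 * ID mm A 0 - 0 := by
    refine integral_Iic_of_hasDerivAt_of_tendsto (f := fun t => om e t * ID mm A t) ?_ hderiv
      (hint.neg.integrableOn.add hci) hlim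
    exact ((Rd_om_cont e).mul hcm).continuousWithinAt
  have hneg : IntegrableOn (fun t : ℝ => -(om e t * ID Xi A t)) (Set.Iic 0) :=
    hint.neg.integrableOn
  rw [integral_add hneg hci, integral_neg, sub_zero] at hleft
  have hcorrle : |∫ t in Set.Iic (0 : ℝ), (om e t * (e * Real.exp (-t) - 1) * ID mm A t +
      om e t * ID nn A t)| ≤ (c1 + c2) * eta e := by
    rw [Rd_eta, ← integral_const_mul, ← Real.norm_eq_abs]
    refine norm_integral_le_of_norm_le ((Rd_g_int he).const_mul (c1 + c2)) ?_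
    refine (ae_restrict_iff' measurableSet_Iic).2 (Filter.Eventually.of_forall fun t ht => ?_)
    rw [Real.norm_eq_abs]
    exact hcb t ht
  have h0le : |om e 0 * ID mm A 0| ≤ (c1 + c2) * e := by
    rw [abs_mul, abs_of_nonneg (hchi0 0)]
    have h1 := hmm 0 le_rfl
    rw [mul_zero, Real.exp_zero, mul_one] at h1
    have h2 := homle 0
    rw [neg_zero, Real.exp_zero, mul_one] at h2
    calc om e 0 * |ID mm A 0| ≤ e * (c1 + c2) :=
          mul_le_mul h2 h1 (abs_nonneg _) he.le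
      _ = _ := by ring
  -- the right half line
  have hright : |∫ t in Set.Ioi (0 : ℝ), om e t * ID Xi A t| ≤ (a1 + a2) * e := by
    have h1 : ∫ t in Set.Ioi (0 : ℝ), ((a1 + a2) * e) * Real.exp (-t) = (a1 + a2) * e := by
      rw [integral_const_mul, integral_exp_neg_Ioi_zero, mul_one]
    have h2 : IntegrableOn (fun t : ℝ => Real.exp (-t)) (Set.Ioi 0) := by
      have := exp_neg_integrableOn_Ioi 0 (by norm_num : (0 : ℝ) < 1)
      simpa using this
    rw [← Real.norm_eq_abs]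
    rw [← h1]
    refine norm_integral_le_of_norm_le (h2.const_mul ((a1 + a2) * e)) ?_
    refine (ae_restrict_iff' measurableSet_Ioi).2 (Filter.Eventually.of_forall fun t ht => ?_)
    rw [Real.norm_eq_abs, abs_mul, abs_of_nonneg (hchi0 t)]
    calc om e t * |ID Xi A t| ≤ (e * Real.exp (-t)) * (a1 + a2) :=
          mul_le_mul (homle t) (hpos t (le_of_lt ht)) (abs_nonneg _)
            (mul_nonneg he.le (Real.exp_pos _).le)
      _ = _ := by ring
  have hsplit := intervalIntegral.integral_Iic_add_Ioi (hint.integrableOn (s := Set.Iic (0 : ℝ)))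
    (hint.integrableOn (s := Set.Ioi (0 : ℝ)))
  rw [← hsplit]
  have heta := eta_nonneg he
  have hfin : |∫ t in Set.Iic (0 : ℝ), om e t * ID Xi A t| ≤ (c1 + c2) * e + (c1 + c2) * eta e := by
    have h1 : ∫ t in Set.Iic (0 : ℝ), om e t * ID Xi A t =
        (∫ t in Set.Iic (0 : ℝ), (om e t * (e * Real.exp (-t) - 1) * ID mm A t +
          om e t * ID nn A t)) - om e 0 * ID mm A 0 := by linarith
    rw [h1]
    calc _ ≤ |∫ t in Set.Iic (0 : ℝ), (om e t * (e * Real.exp (-t) - 1) * ID mm A t +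
          om e t * ID nn A t)| + |om e 0 * ID mm A 0| := abs_sub _ _
      _ ≤ _ := by linarith
  calc |(∫ t in Set.Iic (0 : ℝ), om e t * ID Xi A t) + ∫ t in Set.Ioi (0 : ℝ), om e t * ID Xi A t|
      ≤ |∫ t in Set.Iic (0 : ℝ), om e t * ID Xi A t| +
        |∫ t in Set.Ioi (0 : ℝ), om e t * ID Xi A t| := abs_add_le _ _
    _ ≤ ((c1 + c2) * e + (c1 + c2) * eta e) + (a1 + a2) * e := add_le_add hfin hright
    _ ≤ ((a1 + a2) + (c1 + c2)) * (e + eta e) := by
        have : 0 ≤ (a1 + a2) * eta e := mul_nonneg (by positivity) heta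
        linarith

end SL
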