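import Mathlib
import Pool.Agent.Lib.MP_216314_pr_CDH.Res

/-!
# The formal residue as an integral over the boundary of a rectangle
-/

set_option autoImplicit false

noncomputable section

namespace SL

open Complex intervalIntegral

/-- the integral over the boundary of `[-T,T] x [-Y,Y]`, counterclockwise -/
def RI (T Y : ℝ) (f : ℂ → ℂ) : ℂ :=
  (∫ x : ℝ in (-T)..T, f (x - Y * I)) - (∫ x : ℝ in (-T)..T, f (x + Y * I)) +
    I * (∫ y : ℝ in (-Y)..Y, f (T + y * I)) - I * (∫ y : ℝ in (-Y)..Y, f (-T + y * I))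

/-- the boundary of the rectangle -/
def Bd (T Y : ℝ) : Set ℂ := {h | (|h.re| ≤ T ∧ |h.im| = Y) ∨ (|h.re| = T ∧ |h.im| ≤ Y)}

theorem Bd_bot {T Y x : ℝ} (hT : 0 < T) (hY : 0 < Y) (hx : x ∈ Set.uIcc (-T) T) : (x - Y * I : ℂ) ∈ Bd T Y := by
  rw [Set.uIcc_of_le (by linarith)] at hx
  left
  simp [abs_of_pos hY, abs_le, hx.1, hx.2]

theorem Bd_top {T Y x : ℝ} (hT : 0 < T) (hY : 0 < Y) (hx : x ∈ Set.uIcc (-T) T) : (x + Y * I : ℂ) ∈ Bd T Y := by
  rw [Set.uIcc_of_le (by linarith)] at hx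
  left
  simp [abs_of_pos hY, abs_le, hx.1, hx.2]

theorem Bd_right {T Y y : ℝ} (hT : 0 < T) (hY : 0 < Y) (hy : y ∈ Set.uIcc (-Y) Y) : (T + y * I : ℂ) ∈ Bd T Y := by
  rw [Set.uIcc_of_le (by linarith)] at hy
  right
  simp [abs_of_pos hT, abs_le, hy.1, hy.2]

theorem Bd_left {T Y y : ℝ} (hT : 0 < T) (hY : 0 < Y) (hy : y ∈ Set.uIcc (-Y) Y) : (-T + y * I : ℂ) ∈ Bd T Y := by
  rw [Set.uIcc_of_le (by linarith)] at hy
  right
  simp [abs_of_pos hT, abs_le, hy.1, hy.2]

theorem ii_bot {T Y : ℝ} (hT : 0 < T) (hY : 0 < Y) {f : ℂ → ℂ} (hf : ContinuousOn f (Bd T Y)) :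
    IntervalIntegrable (fun x : ℝ => f (x - Y * I)) MeasureTheory.volume (-T) T := by
  apply ContinuousOn.intervalIntegrable
  exact hf.comp (by fun_prop) (fun x hx => Bd_bot hT hY hx)

theorem ii_top {T Y : ℝ} (hT : 0 < T) (hY : 0 < Y) {f : ℂ → ℂ} (hf : ContinuousOn f (Bd T Y)) :
    IntervalIntegrable (fun x : ℝ => f (x + Y * I)) MeasureTheory.volume (-T) T := by
  apply ContinuousOn.intervalIntegrable
  exact hf.comp (by fun_prop) (fun x hx => Bd_top hT hY hx)

theorem ii_right {T Y : ℝ} (hT : 0 < T) (hY : 0 < Y) {f : ℂ → ℂ} (hf : ContinuousOn f (Bd T Y)) :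
    IntervalIntegrable (fun y : ℝ => f (T + y * I)) MeasureTheory.volume (-Y) Y := by
  apply ContinuousOn.intervalIntegrable
  exact hf.comp (by fun_prop) (fun x hx => Bd_right hT hY hx)

theorem ii_left {T Y : ℝ} (hT : 0 < T) (hY : 0 < Y) {f : ℂ → ℂ} (hf : ContinuousOn f (Bd T Y)) :
    IntervalIntegrable (fun y : ℝ => f (-T + y * I)) MeasureTheory.volume (-Y) Y := by
  apply ContinuousOn.intervalIntegrable
  exact hf.comp (by fun_prop) (fun x hx => Bd_left hT hY hx)

theorem RI_add {T Y : ℝ} (hT : 0 < T) (hY : 0 < Y) {f g : ℂ → ℂ} (hf : ContinuousOn f (Bd T Y))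
    (hg : ContinuousOn g (Bd T Y)) : RI T Y (fun h => f h + g h) = RI T Y f + RI T Y g := by
  unfold RI
  rw [integral_add (ii_bot hT hY hf) (ii_bot hT hY hg), integral_add (ii_top hT hY hf) (ii_top hT hY hg),
    integral_add (ii_right hT hY hf) (ii_right hT hY hg), integral_add (ii_left hT hY hf) (ii_left hT hY hg)]
  ring

theorem RI_const_mul (T Y : ℝ) (c : ℂ) (f : ℂ → ℂ) : RI T Y (fun h => c * f h) = c * RI T Y f := by
  unfold RI
  simp only [intervalIntegral.integral_const_mul]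
  ring

theorem cm {T Y : ℝ} {f : ℂ → ℂ} (c : ℂ) (hf : ContinuousOn f (Bd T Y)) :
    ContinuousOn (fun h => c * f h) (Bd T Y) := continuousOn_const.mul hf

theorem RI_sum {T Y : ℝ} (hT : 0 < T) (hY : 0 < Y) {ι : Type*} (s : Finset ι) (f : ι → ℂ → ℂ)
    (hf : ∀ i ∈ s, ContinuousOn (f i) (Bd T Y)) : RI T Y (fun h => ∑ i ∈ s, f i h) = ∑ i ∈ s, RI T Y (f i) := by
  classical
  induction s using Finset.induction_on with
  | empty => unfold RI; simp
  | insert a s ha ih =>
    have h1 : (fun h => ∑ i ∈ insert a s, f i h) = fun h => f a h + ∑ i ∈ s, f i h := by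
      funext h; rw [Finset.sum_insert ha]
    rw [h1, RI_add hT hY (hf a (Finset.mem_insert_self a s)), Finset.sum_insert ha,
      ih (fun i hi => hf i (Finset.mem_insert_of_mem hi))]
    exact continuousOn_finsetSum s (fun i hi => hf i (Finset.mem_insert_of_mem hi))

theorem RI_congr {T Y : ℝ} (hT : 0 < T) (hY : 0 < Y) {f g : ℂ → ℂ} (h : ∀ z ∈ Bd T Y, f z = g z) :
    RI T Y f = RI T Y g := by
  unfold RI
  rw [integral_congr (fun x hx => h _ (Bd_bot hT hY hx)), integral_congr (fun x hx => h _ (Bd_top hT hY hx)),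
    integral_congr (fun x hx => h _ (Bd_right hT hY hx)), integral_congr (fun x hx => h _ (Bd_left hT hY hx))]

theorem RI_deriv {T Y : ℝ} (hT : 0 < T) (hY : 0 < Y) {G g : ℂ → ℂ} (hG : ∀ z ∈ Bd T Y, HasDerivAt G (g z) z)
    (hg : ContinuousOn g (Bd T Y)) : RI T Y g = 0 := by
  have h1 : ∫ x : ℝ in (-T)..T, g (x - Y * I) = G (T - Y * I) - G (-T - Y * I) := by
    have h := integral_eq_sub_of_hasDerivAt (f := fun x : ℝ => G (x - Y * I)) (f' := fun x : ℝ => g (x - Y * I))
      (a := -T) (b := T) (fun x hx => by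
        have h2 : HasDerivAt (fun x : ℝ => ((x : ℂ) - Y * I)) 1 x := (Complex.ofRealCLM.hasDerivAt (x := x)).sub_const _
        have h3 := (hG _ (Bd_bot hT hY hx)).comp x h2
        rw [mul_one] at h3
        exact h3) (ii_bot hT hY hg)
    rw [h]
    push_cast
    rfl
  have h2 : ∫ x : ℝ in (-T)..T, g (x + Y * I) = G (T + Y * I) - G (-T + Y * I) := by
    have h := integral_eq_sub_of_hasDerivAt (f := fun x : ℝ => G (x + Y * I)) (f' := fun x : ℝ => g (x + Y * I))
      (a := -T) (b := T) (fun x hx => by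
        have h2 : HasDerivAt (fun x : ℝ => ((x : ℂ) + Y * I)) 1 x := (Complex.ofRealCLM.hasDerivAt (x := x)).add_const _
        have h3 := (hG _ (Bd_top hT hY hx)).comp x h2
        rw [mul_one] at h3
        exact h3) (ii_top hT hY hg)
    rw [h]
    push_cast
    rfl
  have h3 : I * ∫ y : ℝ in (-Y)..Y, g (T + y * I) = G (T + Y * I) - G (T - Y * I) := by
    rw [← intervalIntegral.integral_const_mul]
    have h := integral_eq_sub_of_hasDerivAt (f := fun y : ℝ => G (T + y * I)) (f' := fun y : ℝ => I * g (T + y * I))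
      (a := -Y) (b := Y) (fun y hy => by
        have h2 : HasDerivAt (fun y : ℝ => ((T : ℂ) + y * I)) I y := by
          have h4 := ((Complex.ofRealCLM.hasDerivAt (x := y)).mul_const I).const_add (T : ℂ)
          simpa using h4
        have h3 := (hG _ (Bd_right hT hY hy)).comp y h2
        rw [mul_comm] at h3
        exact h3) ((ii_right hT hY hg).const_mul I)
    rw [h]
    push_cast
    rw [show (T : ℂ) + -Y * I = T - Y * I by ring]
  have h4 : I * ∫ y : ℝ in (-Y)..Y, g (-T + y * I) = G (-T + Y * I) - G (-T - Y * I) := by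
    rw [← intervalIntegral.integral_const_mul]
    have h := integral_eq_sub_of_hasDerivAt (f := fun y : ℝ => G (-T + y * I)) (f' := fun y : ℝ => I * g (-T + y * I))
      (a := -Y) (b := Y) (fun y hy => by
        have h2 : HasDerivAt (fun y : ℝ => (-(T : ℂ) + y * I)) I y := by
          have h4 := ((Complex.ofRealCLM.hasDerivAt (x := y)).mul_const I).const_add (-(T : ℂ))
          simpa using h4
        have h3 := (hG _ (Bd_left hT hY hy)).comp y h2
        rw [mul_comm] at h3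
        exact h3) ((ii_left hT hY hg).const_mul I)
    rw [h]
    push_cast
    rw [show -(T : ℂ) + -Y * I = -T - Y * I by ring]
  unfold RI
  rw [h1, h2, h3, h4]
  ring

/-- the open strip -/
def St (R : ℝ) : Set ℂ := {h | |h.im| < R}

theorem St_open (R : ℝ) : IsOpen (St R) := isOpen_lt (by fun_prop) continuous_const

theorem RI_hol {T Y R : ℝ} (hT : 0 < T) (hY : 0 < Y) (hR : Y < R) {f : ℂ → ℂ} (hf : DifferentiableOn ℂ f (St R)) :
    RI T Y f = 0 := by
  have h := integral_boundary_rect_eq_zero_of_differentiableOn f (-T - Y * I) (T + Y * I) (by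
    refine hf.mono ?_
    intro z hz
    rw [Complex.mem_reProdIm] at hz
    have h2 := hz.2
    simp only [sub_im, neg_im, ofReal_im, neg_zero, mul_im, ofReal_re, I_im, mul_one, I_re, mul_zero, add_zero,
      zero_sub, add_im, zero_add] at h2
    rw [Set.uIcc_of_le (by linarith)] at h2
    show |z.im| < R
    rw [abs_lt]
    constructor
    · linarith [h2.1]
    · linarith [h2.2])
  simp only [sub_re, neg_re, ofReal_re, mul_re, I_re, mul_zero, ofReal_im, I_im, mul_one, sub_self, sub_zero,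
    sub_im, neg_im, neg_zero, mul_im, add_zero, zero_sub, add_re, add_im, zero_add, ofReal_neg, smul_eq_mul] at h
  unfold RI
  rw [← h]
  congr 4
  congr 1
  funext x
  congr 1
  ring

theorem zero_notMem_Bd {T Y : ℝ} (hT : 0 < T) (hY : 0 < Y) {z : ℂ} (hz : z ∈ Bd T Y) : z ≠ 0 := by
  rintro rfl
  rcases hz with h | h
  · simp at h
    linarith [h.2]
  · simp at h
    linarith [h.1]

theorem RI_inv {T Y : ℝ} (hT : 0 < T) (hY : 0 < Y) : RI T Y (fun h => h⁻¹) = 2 * Real.pi * I := by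
  have cont : ContinuousOn (fun h : ℂ => h⁻¹) (Bd T Y) :=
    continuousOn_inv₀.mono (fun z hz => zero_notMem_Bd hT hY hz)
  have h1 : ∫ x : ℝ in (-T)..T, ((x - Y * I : ℂ))⁻¹ = log (T - Y * I) - log (-T - Y * I) := by
    have h := integral_eq_sub_of_hasDerivAt (f := fun x : ℝ => log (x - Y * I)) (f' := fun x : ℝ => ((x - Y * I : ℂ))⁻¹)
      (a := -T) (b := T) (fun x hx => by
        have h2 : HasDerivAt (fun x : ℝ => ((x : ℂ) - Y * I)) 1 x := (Complex.ofRealCLM.hasDerivAt (x := x)).sub_const _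
        have h3 := (hasDerivAt_log (z := (x : ℂ) - Y * I) (by
          rw [mem_slitPlane_iff]; right; simp; exact hY.ne')).comp x h2
        rw [mul_one] at h3
        exact h3) (ii_bot hT hY cont)
    rw [h]
    push_cast
    rfl
  have h2 : ∫ x : ℝ in (-T)..T, ((x + Y * I : ℂ))⁻¹ = log (T + Y * I) - log (-T + Y * I) := by
    have h := integral_eq_sub_of_hasDerivAt (f := fun x : ℝ => log (x + Y * I)) (f' := fun x : ℝ => ((x + Y * I : ℂ))⁻¹)
      (a := -T) (b := T) (fun x hx => by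
        have h2 : HasDerivAt (fun x : ℝ => ((x : ℂ) + Y * I)) 1 x := (Complex.ofRealCLM.hasDerivAt (x := x)).add_const _
        have h3 := (hasDerivAt_log (z := (x : ℂ) + Y * I) (by
          rw [mem_slitPlane_iff]; right; simp; exact hY.ne')).comp x h2
        rw [mul_one] at h3
        exact h3) (ii_top hT hY cont)
    rw [h]
    push_cast
    rfl
  have h3 : I * ∫ y : ℝ in (-Y)..Y, ((T + y * I : ℂ))⁻¹ = log (T + Y * I) - log (T - Y * I) := by
    rw [← intervalIntegral.integral_const_mul]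
    have h := integral_eq_sub_of_hasDerivAt (f := fun y : ℝ => log (T + y * I)) (f' := fun y : ℝ => I * ((T + y * I : ℂ))⁻¹)
      (a := -Y) (b := Y) (fun y hy => by
        have h2 : HasDerivAt (fun y : ℝ => ((T : ℂ) + y * I)) I y := by
          have h4 := ((Complex.ofRealCLM.hasDerivAt (x := y)).mul_const I).const_add (T : ℂ)
          simpa using h4
        have h3 := (hasDerivAt_log (z := (T : ℂ) + y * I) (by
          rw [mem_slitPlane_iff]; left; simp; exact hT)).comp y h2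
        rw [mul_comm] at h3
        exact h3) ((ii_right hT hY cont).const_mul I)
    rw [h]
    push_cast
    rw [show (T : ℂ) + -Y * I = T - Y * I by ring]
  have h4 : I * ∫ y : ℝ in (-Y)..Y, ((-T + y * I : ℂ))⁻¹ = log (T - Y * I) - log (T + Y * I) := by
    rw [← intervalIntegral.integral_const_mul]
    have h := integral_eq_sub_of_hasDerivAt (f := fun y : ℝ => log (T - y * I)) (f' := fun y : ℝ => I * ((-T + y * I : ℂ))⁻¹)
      (a := -Y) (b := Y) (fun y hy => by
        have h2 : HasDerivAt (fun y : ℝ => ((T : ℂ) - y * I)) (-I) y := by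
          have h4 := ((Complex.ofRealCLM.hasDerivAt (x := y)).mul_const I).const_sub (T : ℂ)
          simpa using h4
        have h3 := (hasDerivAt_log (z := (T : ℂ) - y * I) (by
          rw [mem_slitPlane_iff]; left; simp; exact hT)).comp y h2
        have h5 : ((T : ℂ) - y * I)⁻¹ * -I = I * (-T + y * I)⁻¹ := by
          rw [show (-T + y * I : ℂ) = -(T - y * I) by ring, inv_neg]
          ring
        rw [h5] at h3
        exact h3) ((ii_left hT hY cont).const_mul I)
    rw [h]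
    push_cast
    rw [show (T : ℂ) - -Y * I = T + Y * I by ring]
  have h5 : log (-T + Y * I) = log (T - Y * I) + Real.pi * I := by
    rw [show (-T + Y * I : ℂ) = -(T - Y * I) by ring]
    apply Complex.ext
    · rw [log_re, norm_neg, add_re, log_re]
      simp
    · rw [log_im, arg_neg_eq_arg_add_pi_of_im_neg (by simp; exact hY)]
      simp [log_im]
  have h6 : log (-T - Y * I) = log (T + Y * I) - Real.pi * I := by
    rw [show (-T - Y * I : ℂ) = -(T + Y * I) by ring]
    apply Complex.ext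
    · rw [log_re, norm_neg, sub_re, log_re]
      simp
    · rw [log_im, arg_neg_eq_arg_sub_pi_of_im_pos (by simp; exact hY)]
      simp [log_im]
  unfold RI
  rw [h1, h2, h3, h4, h5, h6]
  ring

/-- `δ` -/
def dC (h : ℂ) : ℂ := exp (3 * h / 2) - exp (-(3 * h / 2))

theorem dC_diff : Differentiable ℂ dC := by unfold dC; fun_prop

theorem dC_hasDerivAt (h : ℂ) : HasDerivAt dC (3 / 2 * (exp (3 * h / 2) + exp (-(3 * h / 2)))) h := by
  unfold dC
  have h1 : HasDerivAt (fun h : ℂ => 3 * h / 2) (3 / 2) h := by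
    have h2 := ((hasDerivAt_id h).const_mul (3 : ℂ)).div_const 2
    simpa using h2
  have h2 := h1.cexp.sub h1.neg.cexp
  refine h2.congr_deriv ?_
  show cexp (3 * h / 2) * (3 / 2) - cexp (-(3 * h / 2)) * -(3 / 2) = _
  ring

theorem dC_ne {h : ℂ} (h0 : h ≠ 0) (hS : h ∈ St (2 * Real.pi / 3)) : dC h ≠ 0 := by
  intro h1
  unfold dC at h1
  have h2 : exp (3 * h) = 1 := by
    have h3 : exp (3 * h) = exp (3 * h / 2) * exp (3 * h / 2) := by rw [← Complex.exp_add]; congr 1; ring
    have h4 : exp (3 * h / 2) * exp (-(3 * h / 2)) = 1 := by rw [← Complex.exp_add]; simp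
    rw [h3]
    linear_combination exp (3 * h / 2) * h1 + h4
  rw [Complex.exp_eq_one_iff] at h2
  obtain ⟨n, hn⟩ := h2
  have him : 3 * h.im = n * (2 * Real.pi) := by
    have h3 := congrArg Complex.im hn
    simpa using h3
  have hre : h.re = 0 := by
    have h3 := congrArg Complex.re hn
    simpa using h3
  have hpi := Real.pi_pos
  have hb : |h.im| < 2 * Real.pi / 3 := hS
  rw [abs_lt] at hb
  have hn0 : n = 0 := by
    have a1 : (n : ℝ) < 1 := by
      by_contra hc
      push Not at hc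
      nlinarith [hb.2]
    have a2 : (-1 : ℝ) < n := by
      by_contra hc
      push Not at hc
      nlinarith [hb.1]
    have a3 : n < 1 := by exact_mod_cast a1
    have a4 : -1 < n := by exact_mod_cast a2
    omega
  rw [hn0] at him
  apply h0
  apply Complex.ext
  · simpa using hre
  · simp at him
    simpa using him

theorem Bd_St {T Y : ℝ} (hY2 : Y < 2 * Real.pi / 3) {z : ℂ} (hz : z ∈ Bd T Y) : z ∈ St (2 * Real.pi / 3) := by
  show |z.im| < _
  rcases hz with h | h
  · rw [h.2]; exact hY2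
  · exact lt_of_le_of_lt h.2 hY2

theorem dC_ne_Bd {T Y : ℝ} (hT : 0 < T) (hY : 0 < Y) (hY2 : Y < 2 * Real.pi / 3) {z : ℂ} (hz : z ∈ Bd T Y) :
    dC z ≠ 0 := dC_ne (zero_notMem_Bd hT hY hz) (Bd_St hY2 hz)

/-- `e^{a h / 2} / δ^m` -/
def fe (a : ℤ) (m : ℕ) (h : ℂ) : ℂ := exp (a * h / 2) / dC h ^ m

theorem fe_cont {T Y : ℝ} (hT : 0 < T) (hY : 0 < Y) (hY2 : Y < 2 * Real.pi / 3) (a : ℤ) (m : ℕ) :
    ContinuousOn (fe a m) (Bd T Y) := by
  unfold fe
  refine ContinuousOn.div (by fun_prop) ?_ (fun z hz => pow_ne_zero _ (dC_ne_Bd hT hY hY2 hz))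
  exact (dC_diff.continuous.pow m).continuousOn

theorem fe_mul (a b : ℤ) (m : ℕ) (h : ℂ) : exp (b * h / 2) * fe a m h = fe (a + b) m h := by
  unfold fe
  rw [← mul_div_assoc, ← Complex.exp_add]
  congr 2
  push_cast
  ring

theorem fe_succ (a : ℤ) (m : ℕ) {h : ℂ} (h0 : dC h ≠ 0) : dC h * fe a (m + 1) h = fe a m h := by
  unfold fe
  rw [pow_succ]
  field_simp

theorem dC_eq (h : ℂ) : dC h = exp (((3 : ℤ) : ℂ) * h / 2) - exp (((-3 : ℤ) : ℂ) * h / 2) := by
  unfold dC
  push_cast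
  rw [show (-3 : ℂ) * h / 2 = -(3 * h / 2) by ring]

theorem fe_split (a : ℤ) (m : ℕ) {h : ℂ} (h0 : dC h ≠ 0) :
    fe a m h = fe (a + 3) (m + 1) h - fe (a - 3) (m + 1) h := by
  rw [← fe_succ a m h0]
  nth_rewrite 1 [dC_eq]
  rw [sub_mul, fe_mul, fe_mul]
  rfl

theorem fe_deriv (a : ℤ) (m : ℕ) {h : ℂ} (h0 : dC h ≠ 0) :
    HasDerivAt (fe a m) ((a : ℂ) / 2 * fe a m h -
      3 * (m : ℂ) / 2 * (fe (a + 3) (m + 1) h + fe (a - 3) (m + 1) h)) h := by
  have h1 : HasDerivAt (fun h : ℂ => (a : ℂ) * h / 2) ((a : ℂ) / 2) h := by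
    have h2 := ((hasDerivAt_id h).const_mul (a : ℂ)).div_const 2
    simpa using h2
  have h2 := h1.cexp.div ((dC_hasDerivAt h).pow m) (pow_ne_zero m h0)
  refine h2.congr_deriv ?_
  have e1 : fe (a + 3) (m + 1) h = exp (3 * h / 2) * (exp (a * h / 2) / dC h ^ (m + 1)) := by
    have := fe_mul a 3 (m + 1) h
    rw [← this]
    unfold fe
    push_cast
    rfl
  have e2 : fe (a - 3) (m + 1) h = exp (-(3 * h / 2)) * (exp (a * h / 2) / dC h ^ (m + 1)) := by
    have := fe_mul a (-3) (m + 1) h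
    rw [show a - 3 = a + -3 by ring, ← this]
    unfold fe
    push_cast
    rw [show (-3 : ℂ) * h / 2 = -(3 * h / 2) by ring]
  rw [e1, e2]
  unfold fe
  rcases m with _ | m
  · simp
    ring
  · have h3 : (dC ^ (m + 1)) h = dC h ^ (m + 1) := rfl
    rw [h3]
    simp only [Nat.add_sub_cancel]
    field_simp
    push_cast
    ring

theorem RI_step {T Y : ℝ} (hT : 0 < T) (hY : 0 < Y) (hY2 : Y < 2 * Real.pi / 3) (a : ℤ) (m : ℕ) (hm : 0 < m) :
    RI T Y (fe (a + 3) (m + 1)) = 1 / 2 * (1 + (a : ℂ) / (3 * m)) * RI T Y (fe a m) := by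
  have c1 := fe_cont hT hY hY2 a m
  have c2 := fe_cont hT hY hY2 (a + 3) (m + 1)
  have c3 := fe_cont hT hY hY2 (a - 3) (m + 1)
  have e1 : RI T Y (fe a m) = RI T Y (fe (a + 3) (m + 1)) - RI T Y (fe (a - 3) (m + 1)) := by
    have h1 := RI_congr hT hY (f := fe a m) (g := fun h => fe (a + 3) (m + 1) h + (-1) * fe (a - 3) (m + 1) h)
      (fun z hz => by rw [fe_split a m (dC_ne_Bd hT hY hY2 hz)]; ring)
    rw [h1, RI_add hT hY c2 (cm (-1) c3), RI_const_mul]
    ring
  have e2 : (a : ℂ) / 2 * RI T Y (fe a m) - 3 * (m : ℂ) / 2 *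
      (RI T Y (fe (a + 3) (m + 1)) + RI T Y (fe (a - 3) (m + 1))) = 0 := by
    have h1 := RI_deriv hT hY (G := fe a m) (g := fun h => (a : ℂ) / 2 * fe a m h +
        (-(3 * (m : ℂ) / 2)) * (fe (a + 3) (m + 1) h + fe (a - 3) (m + 1) h))
      (fun z hz => by
        have := fe_deriv a m (dC_ne_Bd hT hY hY2 hz)
        refine this.congr_deriv ?_
        ring)
      ((cm _ c1).add (cm _ (c2.add c3)))
    rw [RI_add hT hY (cm ((a : ℂ) / 2) c1) (cm (-(3 * (m : ℂ) / 2)) (f := fun h => fe (a + 3) (m + 1) h +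
      fe (a - 3) (m + 1) h) (c2.add c3)), RI_const_mul, RI_const_mul, RI_add hT hY c2 c3] at h1
    linear_combination h1
  have hm' : (m : ℂ) ≠ 0 := by exact_mod_cast hm.ne'
  have e3 : RI T Y (fe (a - 3) (m + 1)) = RI T Y (fe (a + 3) (m + 1)) - RI T Y (fe a m) := by
    linear_combination e1
  rw [e3] at e2
  field_simp
  linear_combination (-2) * e2

theorem RI_base {T Y : ℝ} (hT : 0 < T) (hY : 0 < Y) (hY2 : Y < 2 * Real.pi / 3) (a : ℤ) :
    RI T Y (fe a 1) = 2 * Real.pi * I / 3 := by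
  have hSo := St_open (2 * Real.pi / 3)
  have h0S : (0 : ℂ) ∈ St (2 * Real.pi / 3) := by
    show |(0 : ℂ).im| < _
    simp
    exact Real.pi_pos
  have hd0 : dC 0 = 0 := by unfold dC; simp
  have hdd : deriv dC 0 = 3 := by
    rw [(dC_hasDerivAt 0).deriv]
    simp
    norm_num
  have g1 : DifferentiableOn ℂ (dslope dC 0) (St (2 * Real.pi / 3)) := by
    rw [Complex.differentiableOn_dslope (hSo.mem_nhds h0S)]
    exact dC_diff.differentiableOn
  have g2 : ∀ z ∈ St (2 * Real.pi / 3), dslope dC 0 z ≠ 0 := by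
    intro z hz
    by_cases h : z = 0
    · rw [h, dslope_same, hdd]; norm_num
    · rw [dslope_of_ne _ h, slope_def_field, hd0, sub_zero, sub_zero]
      exact div_ne_zero (dC_ne h hz) h
  set ph : ℂ → ℂ := fun z => exp (a * z / 2) / dslope dC 0 z with hph
  have g3 : DifferentiableOn ℂ ph (St (2 * Real.pi / 3)) := by
    refine DifferentiableOn.div ?_ g1 g2
    fun_prop
  have g4 : DifferentiableOn ℂ (dslope ph 0) (St (2 * Real.pi / 3)) := by
    rw [Complex.differentiableOn_dslope (hSo.mem_nhds h0S)]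
    exact g3
  have hp0 : ph 0 = 1 / 3 := by
    simp only [hph, dslope_same, hdd]
    simp
  have e : RI T Y (fe a 1) = RI T Y (fun h => ph 0 * h⁻¹ + dslope ph 0 h) := by
    refine RI_congr hT hY (fun z hz => ?_)
    have hz0 := zero_notMem_Bd hT hY hz
    have hz1 := dC_ne_Bd hT hY hY2 hz
    rw [dslope_of_ne _ hz0, slope_def_field, sub_zero]
    have h2 : ph z = exp (a * z / 2) / (dC z / z) := by
      simp only [hph]
      rw [dslope_of_ne _ hz0, slope_def_field, hd0, sub_zero, sub_zero]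
    rw [h2]
    unfold fe
    field_simp
    ring
  have cinv : ContinuousOn (fun h : ℂ => h⁻¹) (Bd T Y) :=
    continuousOn_inv₀.mono (fun z hz => zero_notMem_Bd hT hY hz)
  rw [e, RI_add hT hY (cm (ph 0) cinv) (g4.continuousOn.mono (fun z hz => Bd_St hY2 hz)), RI_const_mul,
    RI_inv hT hY, RI_hol hT hY hY2 g4, hp0]
  ring

open CDH in
theorem rs_step (N : ℕ) (a : ℤ) : rs (N + 1) (CDH.E (a + 3)) = 1 / 2 * (1 + (a : ℂ) / (3 * ((N : ℂ) + 1))) * rs N (CDH.E a) := by
  have h1 := rs_ibp N (CDH.E a)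
  rw [D_E, rs_C] at h1
  have h2 : CDH.E a * D dl = PowerSeries.C 3 * (CDH.E (a + 3) + CDH.E (a - 3)) := by
    unfold dl
    rw [D_sub, D_E, D_E, mul_sub, show a - 3 = a + -3 by ring, ← E_mul, ← E_mul]
    push_cast
    rw [map_neg]
    ring
  have h3 : CDH.E a * dl = CDH.E (a + 3) - CDH.E (a - 3) := by
    unfold dl
    rw [mul_sub, E_mul, E_mul]
    rfl
  rw [h2, rs_C, rs_add] at h1
  have h4 := rs_dl N (CDH.E a)
  rw [h3, rs_sub] at h4
  have hN : ((N : ℂ) + 1) ≠ 0 := by exact_mod_cast Nat.succ_ne_zero N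
  have h5 : rs (N + 1) (CDH.E (a - 3)) = rs (N + 1) (CDH.E (a + 3)) - rs N (CDH.E a) := by linear_combination -h4
  rw [h5] at h1
  field_simp
  linear_combination -h1

open CDH in
theorem rs_base (a : ℤ) : rs 0 (CDH.E a) = 1 / 3 := by
  unfold rs
  rw [zero_add, pow_one, PowerSeries.coeff_zero_eq_constantCoeff_apply, map_mul, ← PowerSeries.coeff_zero_eq_constantCoeff_apply,
    coeff_E]
  unfold di
  rw [PowerSeries.constantCoeff_inv, const_dl1]
  simp

theorem RI_E {T Y : ℝ} (hT : 0 < T) (hY : 0 < Y) (hY2 : Y < 2 * Real.pi / 3) (N : ℕ) :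
    ∀ a : ℤ, RI T Y (fe a (N + 1)) = 2 * Real.pi * I * CDH.rs N (CDH.E a) := by
  induction N with
  | zero => intro a; rw [RI_base hT hY hY2, rs_base]; ring
  | succ N ih =>
    intro a
    have h1 := RI_step hT hY hY2 (a - 3) (N + 1) (Nat.succ_pos N)
    have h2 := rs_step N (a - 3)
    rw [show a - 3 + 3 = a by ring] at h1 h2
    rw [h1, h2, ih]
    push_cast
    ring

/-- MAIN: the formal residue of a polynomial in `x = e^{-h}` -/
theorem RI_poly {T Y : ℝ} (hT : 0 < T) (hY : 0 < Y) (hY2 : Y < 2 * Real.pi / 3) (L : ℕ) (hL : 0 < L) (N : Polynomial ℂ) :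
    RI T Y (fun h => N.eval (exp (-h)) / (1 - exp (-(3 * h))) ^ (2 * L)) =
      2 * Real.pi * I * CDH.rs (2 * L - 1) (Polynomial.aeval (CDH.E (-2)) N * CDH.E (6 * L)) := by
  have h1 : ∀ z ∈ Bd T Y, N.eval (exp (-z)) / (1 - exp (-(3 * z))) ^ (2 * L) =
      ∑ j ∈ Finset.range (N.natDegree + 1), N.coeff j * fe (6 * (L : ℤ) - 2 * j) (2 * L - 1 + 1) z := by
    intro z hz
    have hz1 := dC_ne_Bd hT hY hY2 hz
    have e1 : dC z = exp (3 * z / 2) * (1 - exp (-(3 * z))) := by
      unfold dC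
      rw [mul_sub, mul_one, ← Complex.exp_add]
      congr 2
      ring
    have e2 : (1 - exp (-(3 * z))) ≠ 0 := by
      intro h
      rw [e1, h, mul_zero] at hz1
      exact hz1 rfl
    rw [Polynomial.eval_eq_sum_range, Finset.sum_div]
    refine Finset.sum_congr rfl (fun j _ => ?_)
    unfold fe
    rw [Nat.sub_add_cancel (by omega), mul_div_assoc]
    congr 1
    rw [e1, mul_pow, ← Complex.exp_nat_mul, ← Complex.exp_nat_mul]
    have e3 : exp (((6 * (L : ℤ) - 2 * (j : ℤ) : ℤ) : ℂ) * z / 2) = exp ((j : ℂ) * -z) * exp (((2 * L : ℕ) : ℂ) * (3 * z / 2)) := by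
      rw [← Complex.exp_add]
      congr 1
      push_cast
      ring
    rw [e3]
    field_simp
  rw [RI_congr hT hY h1, RI_sum hT hY _ (fun j h => N.coeff j * fe (6 * (L : ℤ) - 2 * j) (2 * L - 1 + 1) h)
    (fun j _ => cm _ (fe_cont hT hY hY2 _ _))]
  simp only [RI_const_mul, RI_E hT hY hY2]
  rw [Polynomial.aeval_eq_sum_range, Finset.sum_mul]
  have h2 : CDH.rs (2 * L - 1) (∑ j ∈ Finset.range (N.natDegree + 1), N.coeff j • CDH.E (-2) ^ j * CDH.E (6 * L)) =
      ∑ j ∈ Finset.range (N.natDegree + 1), N.coeff j * CDH.rs (2 * L - 1) (CDH.E (6 * (L : ℤ) - 2 * j)) := by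
    have h3 : ∀ (s : Finset ℕ), CDH.rs (2 * L - 1) (∑ j ∈ s, N.coeff j • CDH.E (-2) ^ j * CDH.E (6 * L)) =
      ∑ j ∈ s, N.coeff j * CDH.rs (2 * L - 1) (CDH.E (6 * (L : ℤ) - 2 * j)) := by
      intro s
      classical
      induction s using Finset.induction_on with
      | empty => unfold CDH.rs; simp
      | insert a s ha ih =>
        rw [Finset.sum_insert ha, Finset.sum_insert ha, CDH.rs_add, ih]
        congr 1
        have h4 : ∀ j : ℕ, CDH.E (-2) ^ j = CDH.E (-2 * (j : ℤ)) := by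
          intro j
          induction j with
          | zero => rw [pow_zero, Nat.cast_zero, mul_zero, CDH.E_zero]
          | succ j ih => rw [pow_succ, ih, CDH.E_mul]; congr 1; push_cast; ring
        rw [h4, smul_mul_assoc, CDH.E_mul, PowerSeries.smul_eq_C_mul, CDH.rs_C]
        congr 3
        ring
    exact h3 _
  rw [h2, Finset.mul_sum]
  refine Finset.sum_congr rfl (fun j _ => ?_)
  ring

end SL
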