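import Pool.Agent.Lib.MP_216314_pr.SL.SonB

/-!
# SL/Ser: bounds from the series (paper 3.4, 3.5)

* `sum_ar`: `∑ ar i x^i` is summable for every `x` (ratio test: `ar (i+1) = ar i /(3(i+1)(3(i+1)-1))`, e.g. `0 < ar i ≤ 1/i!` because `3(i+1)(3(i+1)-1) ≥ i+1`, and
  `Real.summable_pow_div_factorial`); same for `br` (and `br i ≤ ar i`).
* `kap_bd`: `ar m / br m ≤ (2m+1)^(2/3)`: `ar (m+1)/br (m+1) = (ar m/br m) (3m+4)/(3m+2)` and `(3m+4)^3 (2m+1)^2 ≤ (3m+2)^3 (2m+3)^2`.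
* exact forms: with `e = exp (-2 s)`:
  `pm m s = exp (s/3) (1 + e)^(-m) ∑_{i<m+1} (-1)^i ww m i e^i`   (`(2 cosh s)^m = e^{ms} (1 + e^{-2s})^m`),
  `rm m s = exp (-s/3) (1 + e)^(-m) ∑_{j<m+1} (-1)^j ww m (m-j) e^j`   (`vm_eq`).
* (b2) `s ≥ 0`, `(m+1) e^{-s} ≤ 2`: `ww m i ≤ ar i (3m(3m+1))^i ≤ ar i (12 (m+1)^2)^i`, so `ww m i e^i ≤ ar i 48^i` (as `(m+1)^2 e^{-2s} ≤ 4`): `|pm m s| ≤ e^{s/3} ∑ ar i 48^i`.
  `ww m (m-j) ≤ (ar m/br m) br j (12 (m+1)^2)^j`, so `|rm m s| ≤ e^{-s/3} (2m+1)^(2/3) ∑ br j 48^j ≤ e^{-s/3} 2 (m+1)^(2/3) ∑ ar j 48^j`.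
  One constant `K2 := 2 ∑' ar i 48^i` works for both.
* (b3) all `s ≥ 0`: if `(m+1) e^{-s} ≤ 2` then by (b2): `|pm| ≤ K2 e^{s/3}`, `|rm| ≤ K2 (2 e^s)^(2/3) e^{-s/3} ≤ 2 K2 e^{s/3}`; if `(m+1) e^{-s} > 2 ≥ 1`, by `pm_b1`:
  `2 (m+1)^(-1/6) e^{s/2} ≤ 2 e^{-s/6} e^{s/2} = 2 e^{s/3}` (and `K2 ≥ 2`).
-/

set_option autoImplicit false

noncomputable section

namespace SL

open Filter Topology MeasureTheory

private theorem Ser_le_fact (a c : ℕ → ℝ) (h0 : a 0 = 1) (hp : ∀ i, 0 < a i)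
    (hs : ∀ i, a (i + 1) = a i * (1 / c i)) (hc : ∀ i : ℕ, (i : ℝ) + 1 ≤ c i) (i : ℕ) :
    a i ≤ 1 / (i.factorial : ℝ) := by
  induction i with
  | zero => rw [h0]; simp
  | succ i ih =>
    have h1 : (0 : ℝ) < (i : ℝ) + 1 := by positivity
    have h2 : 1 / c i ≤ 1 / ((i : ℝ) + 1) := one_div_le_one_div_of_le h1 (hc i)
    have h3 : (0 : ℝ) ≤ 1 / c i := one_div_nonneg.2 (h1.le.trans (hc i))
    rw [hs i, Nat.factorial_succ]
    refine (mul_le_mul ih h2 h3 (by positivity)).trans (le_of_eq ?_)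
    push_cast
    field_simp

private theorem Ser_summable (a : ℕ → ℝ) (hp : ∀ i, 0 < a i)
    (ha : ∀ i, a i ≤ 1 / (i.factorial : ℝ)) (x : ℝ) : Summable (fun i : ℕ => a i * x ^ i) := by
  refine Summable.of_norm_bounded (Real.summable_pow_div_factorial |x|) fun i => ?_
  rw [Real.norm_eq_abs, abs_mul, abs_pow, abs_of_pos (hp i)]
  refine (mul_le_mul_of_nonneg_right (ha i) (by positivity)).trans (le_of_eq ?_)
  ring

private theorem Ser_ar (i : ℕ) : ar i ≤ 1 / (i.factorial : ℝ) := by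
  refine Ser_le_fact ar (fun i => 3 * ((i : ℝ) + 1) * (3 * ((i : ℝ) + 1) - 1)) ar_zero arU_pos
    arU_succ (fun i => ?_) i
  have h : (0 : ℝ) ≤ i := Nat.cast_nonneg i
  nlinarith

private theorem Ser_br (i : ℕ) : br i ≤ 1 / (i.factorial : ℝ) := by
  refine Ser_le_fact br (fun i => 3 * ((i : ℝ) + 1) * (3 * ((i : ℝ) + 1) + 1)) br_zero brU_pos
    brU_succ (fun i => ?_) i
  have h : (0 : ℝ) ≤ i := Nat.cast_nonneg i
  nlinarith

theorem sum_ar (x : ℝ) : Summable (fun i : ℕ => ar i * x ^ i) :=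
  Ser_summable ar arU_pos Ser_ar x

theorem sum_br (x : ℝ) : Summable (fun i : ℕ => br i * x ^ i) :=
  Ser_summable br brU_pos Ser_br x

theorem kap_bd (m : ℕ) : ar m / br m ≤ (2 * (m : ℝ) + 1) ^ (2 / 3 : ℝ) := by
  induction m with
  | zero =>
    rw [ar_zero, br_zero]
    norm_num
  | succ m ih =>
    have hm : (0 : ℝ) ≤ m := Nat.cast_nonneg m
    have hb := brU_pos m
    have h1 : ar (m + 1) / br (m + 1) = ar m / br m * ((3 * (m : ℝ) + 4) / (3 * m + 2)) := by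
      have h2 : (3 * ((m : ℝ) + 1) - 1) = 3 * m + 2 := by ring
      have h3 : (3 * ((m : ℝ) + 1) + 1) = 3 * m + 4 := by ring
      rw [arU_succ, brU_succ, h2, h3]
      have h4 : (3 * (m : ℝ) + 2) ≠ 0 := by positivity
      have h5 : (3 * (m : ℝ) + 4) ≠ 0 := by positivity
      have h6 : ((m : ℝ) + 1) ≠ 0 := by positivity
      field_simp
    rw [h1]
    have h7 : (0 : ℝ) ≤ (3 * (m : ℝ) + 4) / (3 * m + 2) := by positivity
    refine (mul_le_mul_of_nonneg_right ih h7).trans ?_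
    have hcube : ∀ x : ℝ, 0 ≤ x → (x ^ (2 / 3 : ℝ)) ^ 3 = x ^ 2 := by
      intro x hx
      rw [← Real.rpow_natCast, ← Real.rpow_mul hx]
      norm_num
    have h8 : (0 : ℝ) ≤ (2 * (m : ℝ) + 1) ^ (2 / 3 : ℝ) * ((3 * (m : ℝ) + 4) / (3 * m + 2)) := by
      positivity
    have h9 : (0 : ℝ) ≤ (2 * ((m + 1 : ℕ) : ℝ) + 1) ^ (2 / 3 : ℝ) := by positivity
    rw [← pow_le_pow_iff_left₀ h8 h9 (by norm_num : (3 : ℕ) ≠ 0), mul_pow, hcube _ (by positivity),
      hcube _ (by positivity), div_pow, ← mul_div_assoc, div_le_iff₀ (by positivity)]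
    push_cast
    nlinarith [hm, mul_nonneg hm hm]

private theorem Ser_cosh (m : ℕ) (s : ℝ) : (2 * Real.cosh s) ^ m =
    Real.exp ((m : ℝ) * s) * (1 + Real.exp (-2 * s)) ^ m := by
  have h1 : 2 * Real.cosh s = Real.exp s * (1 + Real.exp (-2 * s)) := by
    rw [Real.cosh_eq, mul_add, mul_one, ← Real.exp_add]
    have : s + -2 * s = -s := by ring
    rw [this]
    ring
  rw [h1, mul_pow, ← Real.exp_nat_mul]

theorem pm_ser (m : ℕ) (s : ℝ) : pm m s = Real.exp (s / 3) * ((1 + Real.exp (-2 * s)) ^ m)⁻¹ *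
    ∑ i ∈ Finset.range (m + 1), (-1) ^ i * ww m i * Real.exp (-2 * s) ^ i := by
  have hE : Real.exp ((m : ℝ) * s) ≠ 0 := (Real.exp_pos _).ne'
  have hP : (1 + Real.exp (-2 * s)) ^ m ≠ 0 := by positivity
  have h1 : um m s = Real.exp ((m : ℝ) * s) * (Real.exp (s / 3) *
      ∑ i ∈ Finset.range (m + 1), (-1) ^ i * ww m i * Real.exp (-2 * s) ^ i) := by
    unfold um
    rw [Finset.mul_sum, Finset.mul_sum]
    refine Finset.sum_congr rfl fun i _ => ?_
    have h2 : Real.exp (((m : ℝ) - 2 * i + 1 / 3) * s) =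
        Real.exp ((m : ℝ) * s) * (Real.exp (s / 3) * Real.exp (-2 * s) ^ i) := by
      rw [← Real.exp_nat_mul, ← Real.exp_add, ← Real.exp_add]
      congr 1
      ring
    rw [h2]
    ring
  unfold pm
  rw [h1, Ser_cosh, mul_div_mul_left _ _ hE]
  field_simp

theorem rm_ser (m : ℕ) (s : ℝ) : rm m s = Real.exp (-s / 3) * ((1 + Real.exp (-2 * s)) ^ m)⁻¹ *
    ∑ j ∈ Finset.range (m + 1), (-1) ^ j * ww m (m - j) * Real.exp (-2 * s) ^ j := by
  have hE : Real.exp ((m : ℝ) * s) ≠ 0 := (Real.exp_pos _).ne'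
  have hP : (1 + Real.exp (-2 * s)) ^ m ≠ 0 := by positivity
  have h1 : vm m s = Real.exp ((m : ℝ) * s) * (Real.exp (-s / 3) *
      ∑ j ∈ Finset.range (m + 1), (-1) ^ j * ww m (m - j) * Real.exp (-2 * s) ^ j) := by
    rw [vm_eq, Finset.mul_sum, Finset.mul_sum]
    refine Finset.sum_congr rfl fun j _ => ?_
    have h2 : Real.exp (((m : ℝ) - 2 * j - 1 / 3) * s) =
        Real.exp ((m : ℝ) * s) * (Real.exp (-s / 3) * Real.exp (-2 * s) ^ j) := by
      rw [← Real.exp_nat_mul, ← Real.exp_add, ← Real.exp_add]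
      congr 1
      ring
    rw [h2]
    ring
  unfold rm
  rw [h1, Ser_cosh, mul_div_mul_left _ _ hE]
  field_simp

private theorem Ser_ww {m i : ℕ} (h : i ≤ m) :
    0 ≤ ww m i ∧ ww m i ≤ ar i * (12 * ((m : ℝ) + 1) ^ 2) ^ i := by
  have hm : (0 : ℝ) ≤ m := Nat.cast_nonneg m
  have hf : ∀ q ∈ Finset.range i, 0 ≤ 3 * ((m : ℝ) - q) * (3 * ((m : ℝ) - q) + 1) := by
    intro q hq
    have h1 : (q : ℝ) ≤ m := by exact_mod_cast ((Finset.mem_range.1 hq).le.trans h)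
    have h2 : (0 : ℝ) ≤ (m : ℝ) - q := by linarith
    positivity
  have hg : ∀ q ∈ Finset.range i, 3 * ((m : ℝ) - q) * (3 * ((m : ℝ) - q) + 1) ≤
      12 * ((m : ℝ) + 1) ^ 2 := by
    intro q hq
    have h1 : (q : ℝ) ≤ m := by exact_mod_cast ((Finset.mem_range.1 hq).le.trans h)
    have h2 : (0 : ℝ) ≤ (m : ℝ) - q := by linarith
    have h3 : (0 : ℝ) ≤ (q : ℝ) := Nat.cast_nonneg q
    have h4 : (m : ℝ) - q ≤ m := by linarith
    nlinarith [mul_le_mul h4 h4 h2 hm]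
  rw [ww_prod h]
  refine ⟨mul_nonneg (arU_pos i).le (Finset.prod_nonneg hf), ?_⟩
  refine mul_le_mul_of_nonneg_left ?_ (arU_pos i).le
  refine (Finset.prod_le_prod hf hg).trans (le_of_eq ?_)
  rw [Finset.prod_const, Finset.card_range]

private theorem Ser_wr {m j : ℕ} (h : j ≤ m) :
    0 ≤ ww m (m - j) ∧
      ww m (m - j) ≤ ar m / br m * (br j * (12 * ((m : ℝ) + 1) ^ 2) ^ j) := by
  have hm : (0 : ℝ) ≤ m := Nat.cast_nonneg m
  have hq1 : ∀ q ∈ Finset.range j, (1 : ℝ) ≤ (m : ℝ) - q := by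
    intro q hq
    have h1 : q + 1 ≤ m := (Finset.mem_range.1 hq).trans_le h
    have h2 : (q : ℝ) + 1 ≤ m := by exact_mod_cast h1
    linarith
  have hf : ∀ q ∈ Finset.range j, 0 ≤ 3 * ((m : ℝ) - q) * (3 * ((m : ℝ) - q) - 1) := by
    intro q hq
    have h1 := hq1 q hq
    exact mul_nonneg (by linarith) (by linarith)
  have hg : ∀ q ∈ Finset.range j, 3 * ((m : ℝ) - q) * (3 * ((m : ℝ) - q) - 1) ≤
      12 * ((m : ℝ) + 1) ^ 2 := by
    intro q hq
    have h1 := hq1 q hq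
    have h2 : (0 : ℝ) ≤ (m : ℝ) - q := by linarith
    have h3 : (0 : ℝ) ≤ (q : ℝ) := Nat.cast_nonneg q
    have h4 : (m : ℝ) - q ≤ m := by linarith
    nlinarith [mul_le_mul h4 h4 h2 hm]
  have hab : 0 ≤ ar m / br m := (div_pos (arU_pos m) (brU_pos m)).le
  rw [ww_rev h]
  refine ⟨mul_nonneg hab (mul_nonneg (brU_pos j).le (Finset.prod_nonneg hf)), ?_⟩
  refine mul_le_mul_of_nonneg_left (mul_le_mul_of_nonneg_left ?_ (brU_pos j).le) hab
  refine (Finset.prod_le_prod hf hg).trans (le_of_eq ?_)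
  rw [Finset.prod_const, Finset.card_range]

private theorem Ser_sum_le {a w : ℕ → ℝ} {B E C : ℝ} (ha : ∀ i, 0 < a i)
    (hsum : Summable fun i : ℕ => a i * 48 ^ i) (hE : 0 ≤ E) (hB : 0 ≤ B) (hC : 0 ≤ C)
    (hBE : B * E ≤ 48) (m : ℕ) (hw : ∀ i, i ≤ m → 0 ≤ w i ∧ w i ≤ C * (a i * B ^ i)) :
    |∑ i ∈ Finset.range (m + 1), (-1) ^ i * w i * E ^ i| ≤ C * ∑' i : ℕ, a i * 48 ^ i := by
  calc |∑ i ∈ Finset.range (m + 1), (-1) ^ i * w i * E ^ i|
      ≤ ∑ i ∈ Finset.range (m + 1), |(-1) ^ i * w i * E ^ i| := Finset.abs_sum_le_sum_abs _ _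
    _ ≤ ∑ i ∈ Finset.range (m + 1), C * (a i * 48 ^ i) := by
        refine Finset.sum_le_sum fun i hi => ?_
        obtain ⟨h1, h2⟩ := hw i (Nat.lt_succ_iff.1 (Finset.mem_range.1 hi))
        rw [abs_mul, abs_mul, abs_pow, abs_neg, abs_one, one_pow, one_mul, abs_of_nonneg h1,
          abs_of_nonneg (pow_nonneg hE i)]
        calc w i * E ^ i ≤ C * (a i * B ^ i) * E ^ i :=
              mul_le_mul_of_nonneg_right h2 (pow_nonneg hE i)
          _ = C * (a i * (B * E) ^ i) := by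
              rw [mul_pow]
              ring
          _ ≤ C * (a i * 48 ^ i) :=
              mul_le_mul_of_nonneg_left (mul_le_mul_of_nonneg_left
                (pow_le_pow_left₀ (mul_nonneg hB hE) hBE i) (ha i).le) hC
    _ = C * ∑ i ∈ Finset.range (m + 1), a i * 48 ^ i := by rw [← Finset.mul_sum]
    _ ≤ C * ∑' i : ℕ, a i * 48 ^ i :=
        mul_le_mul_of_nonneg_left (hsum.sum_le_tsum _ fun i _ =>
          mul_nonneg (ha i).le (by positivity)) hC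

private theorem Ser_inv (m : ℕ) (s : ℝ) :
    0 ≤ ((1 + Real.exp (-2 * s)) ^ m)⁻¹ ∧ ((1 + Real.exp (-2 * s)) ^ m)⁻¹ ≤ 1 := by
  have h : 1 ≤ (1 + Real.exp (-2 * s)) ^ m :=
    one_le_pow₀ (by linarith [Real.exp_pos (-2 * s)])
  exact ⟨by positivity, inv_le_one_of_one_le₀ h⟩

private theorem Ser_BE (m : ℕ) (s : ℝ) (h : ((m : ℝ) + 1) * Real.exp (-s) ≤ 2) :
    12 * ((m : ℝ) + 1) ^ 2 * Real.exp (-2 * s) ≤ 48 := by
  have h1 : Real.exp (-2 * s) = Real.exp (-s) ^ 2 := by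
    rw [← Real.exp_nat_mul]
    congr 1
    push_cast
    ring
  have h2 : (((m : ℝ) + 1) * Real.exp (-s)) ^ 2 ≤ 2 ^ 2 :=
    pow_le_pow_left₀ (by positivity) h 2
  rw [h1]
  nlinarith

theorem ser_b2 : ∃ K : ℝ, 0 < K ∧ ∀ (m : ℕ) (s : ℝ), 0 ≤ s → ((m : ℝ) + 1) * Real.exp (-s) ≤ 2 →
    |pm m s| ≤ K * Real.exp (s / 3) ∧ |rm m s| ≤ K * (((m : ℝ) + 1) ^ (2 / 3 : ℝ) * Real.exp (-s / 3)) := by
  have hA0 : 0 < ∑' i : ℕ, ar i * (48 : ℝ) ^ i :=
    (sum_ar 48).tsum_pos (fun i => mul_nonneg (arU_pos i).le (by positivity)) 0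
      (mul_pos (arU_pos 0) (by positivity))
  have hB0 : 0 < ∑' i : ℕ, br i * (48 : ℝ) ^ i :=
    (sum_br 48).tsum_pos (fun i => mul_nonneg (brU_pos i).le (by positivity)) 0
      (mul_pos (brU_pos 0) (by positivity))
  set A : ℝ := ∑' i : ℕ, ar i * (48 : ℝ) ^ i with hA
  set B : ℝ := ∑' i : ℕ, br i * (48 : ℝ) ^ i with hB
  refine ⟨A + 2 * B, by positivity, ?_⟩
  intro m s hs hms
  have hm : (0 : ℝ) ≤ m := Nat.cast_nonneg m
  have hE : 0 ≤ Real.exp (-2 * s) := (Real.exp_pos _).le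
  have hBE := Ser_BE m s hms
  obtain ⟨hi0, hi1⟩ := Ser_inv m s
  constructor
  · have h1 := Ser_sum_le (w := ww m) (C := 1) arU_pos (sum_ar 48) hE (by positivity) zero_le_one hBE m
      (fun i hi => by
        rw [one_mul]
        exact Ser_ww hi)
    rw [one_mul, ← hA] at h1
    rw [pm_ser, abs_mul, abs_mul, abs_of_pos (Real.exp_pos _), abs_of_nonneg hi0]
    calc Real.exp (s / 3) * ((1 + Real.exp (-2 * s)) ^ m)⁻¹ *
          |∑ i ∈ Finset.range (m + 1), (-1) ^ i * ww m i * Real.exp (-2 * s) ^ i|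
        ≤ Real.exp (s / 3) * 1 * A :=
          mul_le_mul (mul_le_mul_of_nonneg_left hi1 (Real.exp_pos _).le) h1 (abs_nonneg _)
            (by positivity)
      _ = A * Real.exp (s / 3) := by ring
      _ ≤ (A + 2 * B) * Real.exp (s / 3) :=
          mul_le_mul_of_nonneg_right (by linarith) (Real.exp_pos _).le
  · have hab : 0 ≤ ar m / br m := (div_pos (arU_pos m) (brU_pos m)).le
    have h1 := Ser_sum_le (w := fun j => ww m (m - j)) (C := ar m / br m) brU_pos (sum_br 48) hE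
      (by positivity) hab hBE m (fun i hi => Ser_wr hi)
    rw [← hB] at h1
    have h2 : ar m / br m ≤ 2 * ((m : ℝ) + 1) ^ (2 / 3 : ℝ) := by
      refine (kap_bd m).trans ?_
      have h3 : (2 * (m : ℝ) + 1) ^ (2 / 3 : ℝ) ≤ (2 * ((m : ℝ) + 1)) ^ (2 / 3 : ℝ) :=
        Real.rpow_le_rpow (by positivity) (by linarith) (by norm_num)
      refine h3.trans ?_
      rw [Real.mul_rpow (by norm_num) (by positivity)]
      refine mul_le_mul_of_nonneg_right ?_ (by positivity)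
      calc (2 : ℝ) ^ (2 / 3 : ℝ) ≤ 2 ^ (1 : ℝ) :=
            Real.rpow_le_rpow_of_exponent_le (by norm_num) (by norm_num)
        _ = 2 := Real.rpow_one 2
    rw [rm_ser, abs_mul, abs_mul, abs_of_pos (Real.exp_pos _), abs_of_nonneg hi0]
    have h4 : ar m / br m * B ≤ 2 * ((m : ℝ) + 1) ^ (2 / 3 : ℝ) * B :=
      mul_le_mul_of_nonneg_right h2 hB0.le
    calc Real.exp (-s / 3) * ((1 + Real.exp (-2 * s)) ^ m)⁻¹ *
          |∑ j ∈ Finset.range (m + 1), (-1) ^ j * ww m (m - j) * Real.exp (-2 * s) ^ j|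
        ≤ Real.exp (-s / 3) * 1 * (2 * ((m : ℝ) + 1) ^ (2 / 3 : ℝ) * B) :=
          mul_le_mul (mul_le_mul_of_nonneg_left hi1 (Real.exp_pos _).le) (h1.trans h4)
            (abs_nonneg _) (by positivity)
      _ = 2 * B * (((m : ℝ) + 1) ^ (2 / 3 : ℝ) * Real.exp (-s / 3)) := by ring
      _ ≤ (A + 2 * B) * (((m : ℝ) + 1) ^ (2 / 3 : ℝ) * Real.exp (-s / 3)) :=
          mul_le_mul_of_nonneg_right (by linarith) (by positivity)

theorem ser_b3 : ∃ K : ℝ, 0 < K ∧ ∀ (m : ℕ) (s : ℝ), 0 ≤ s →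
    |pm m s| ≤ K * Real.exp (s / 3) ∧ |rm m s| ≤ K * Real.exp (s / 3) := by
  obtain ⟨K, hK, hb⟩ := ser_b2
  refine ⟨2 * K + 2, by positivity, ?_⟩
  intro m s hs
  have hes := Real.exp_pos s
  have he3 := Real.exp_pos (s / 3)
  rcases le_or_gt (((m : ℝ) + 1) * Real.exp (-s)) 2 with h | h
  · obtain ⟨h1, h2⟩ := hb m s hs h
    constructor
    · refine h1.trans (mul_le_mul_of_nonneg_right (by linarith) he3.le)
    · refine h2.trans ?_
      have h3 : (m : ℝ) + 1 ≤ 2 * Real.exp s := by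
        rw [Real.exp_neg, ← div_eq_mul_inv, div_le_iff₀ hes] at h
        exact h
      have h4 : ((m : ℝ) + 1) ^ (2 / 3 : ℝ) ≤ 2 * Real.exp (2 * s / 3) := by
        calc ((m : ℝ) + 1) ^ (2 / 3 : ℝ) ≤ (2 * Real.exp s) ^ (2 / 3 : ℝ) :=
              Real.rpow_le_rpow (by positivity) h3 (by norm_num)
          _ = 2 ^ (2 / 3 : ℝ) * Real.exp (2 * s / 3) := by
              rw [Real.mul_rpow (by norm_num) hes.le, ← Real.exp_mul]
              congr 2
              ring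
          _ ≤ 2 * Real.exp (2 * s / 3) := by
              refine mul_le_mul_of_nonneg_right ?_ (Real.exp_pos _).le
              calc (2 : ℝ) ^ (2 / 3 : ℝ) ≤ 2 ^ (1 : ℝ) :=
                    Real.rpow_le_rpow_of_exponent_le (by norm_num) (by norm_num)
                _ = 2 := Real.rpow_one 2
      have h5 : Real.exp (2 * s / 3) * Real.exp (-s / 3) = Real.exp (s / 3) := by
        rw [← Real.exp_add]
        congr 1
        ring
      calc K * (((m : ℝ) + 1) ^ (2 / 3 : ℝ) * Real.exp (-s / 3))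
          ≤ K * (2 * Real.exp (2 * s / 3) * Real.exp (-s / 3)) :=
            mul_le_mul_of_nonneg_left (mul_le_mul_of_nonneg_right h4 (Real.exp_pos _).le) hK.le
        _ = 2 * K * (Real.exp (2 * s / 3) * Real.exp (-s / 3)) := by ring
        _ = 2 * K * Real.exp (s / 3) := by rw [h5]
        _ ≤ (2 * K + 2) * Real.exp (s / 3) :=
            mul_le_mul_of_nonneg_right (by linarith) he3.le
  · have h3 : Real.exp s ≤ (m : ℝ) + 1 := by
      rw [Real.exp_neg, ← div_eq_mul_inv, lt_div_iff₀ hes] at h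
      linarith
    have h4 : ((m : ℝ) + 1) ^ (-(1 / 6) : ℝ) ≤ Real.exp (-(s / 6)) := by
      have h5 : Real.exp (-(s / 6)) = Real.exp s ^ (-(1 / 6) : ℝ) := by
        rw [← Real.exp_mul]
        congr 1
        ring
      rw [h5]
      exact Real.rpow_le_rpow_of_nonpos hes h3 (by norm_num)
    have h6 : Real.exp (-(s / 6)) * Real.exp (s / 2) = Real.exp (s / 3) := by
      rw [← Real.exp_add]
      congr 1
      ring
    have h7 : 2 * ((m : ℝ) + 1) ^ (-(1 / 6) : ℝ) * Real.exp (s / 2) ≤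
        (2 * K + 2) * Real.exp (s / 3) := by
      calc 2 * ((m : ℝ) + 1) ^ (-(1 / 6) : ℝ) * Real.exp (s / 2)
          ≤ 2 * Real.exp (-(s / 6)) * Real.exp (s / 2) :=
            mul_le_mul_of_nonneg_right (mul_le_mul_of_nonneg_left h4 (by norm_num))
              (Real.exp_pos _).le
        _ = 2 * Real.exp (s / 3) := by rw [mul_assoc, h6]
        _ ≤ (2 * K + 2) * Real.exp (s / 3) :=
            mul_le_mul_of_nonneg_right (by linarith) he3.le
    exact ⟨(pm_b1 m hs).trans h7, (rm_b1 m hs).trans h7⟩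

end SL
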