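import Pool.Agent.Lib.MP_216314_pr.SL.Ub

/-!
# SL/Son: Sonine's monotonic function (paper 3.1)

Put `u = um (m+1)`, `w = um m`, `ν = m + 3/2`, `c = cosh s`, `h = sinh s`. By `um_A`: `u' = 2 (m+4/3) c w`, by `um_B m`:
`w' = ((2m+1) 2 h w - (m+2/3) u)/(2c)`. Put `Y = c u' - ν h u = 2 (m+4/3) c^2 w - ν h u`, `V = ν^2 + (5/36) c^2 > 0`,
`S = (u^2 + Y^2 / V) / c^(2m+3)`.
Claim: `S' = -(5/18) h c Y^2 / (V^2 c^(2m+3))` . (Sonine; with `H = u c^(-ν)`: `c (c H')' = -V H`, `c H' = Y c^(-ν)`.)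
Indeed `Y' = 4 (m+4/3) c h w + 2 (m+4/3) c^2 w' - ν c u - ν h u'` and, inserting, `Y' = ν (h/c) Y - V u / c`
 [because `c u'' = 2 (m+1) h u' - ((m+1)^2 - 1/9) c u`], `u' = (Y + ν h u)/c`, so
`(u^2 + Y^2/V)' = 2 u (Y + ν h u)/c + 2 Y (ν h Y - V u)/(c V) - Y^2 V'/V^2 = 2 ν (h/c)(u^2 + Y^2/V) - Y^2 V'/V^2`, `V' = (5/18) c h`, and
`(c^(-(2m+3)))' = -2 ν (h/c) c^(-(2m+3))` as `2 ν = 2m+3`. So `S` is antitone on `[0, oo)` and monotone on `(-oo, 0]`
(`antitoneOn_of_deriv_nonpos` / `monotoneOn_of_deriv_nonneg`, or `HasDerivAt` versions), hence `S s ≤ S 0` for all `s`.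
`S 0 = u(0)^2 + Y(0)^2/V(0)`, `Y(0) = 2 (m+4/3) w(0)`, `V(0) = ν^2 + 5/36 ≥ (m+4/3)^2`, so `S 0 ≤ u(0)^2 + 4 w(0)^2`.
Finally `u(s)^2 ≤ c^(2m+3) S(s)`.
-/

set_option autoImplicit false

noncomputable section

namespace SL

open Filter Topology MeasureTheory

/-- the second function -/
def Son_Y (m : ℕ) (s : ℝ) : ℝ :=
  2 * ((m : ℝ) + 4 / 3) * Real.cosh s ^ 2 * um m s - ((m : ℝ) + 3 / 2) * Real.sinh s * um (m + 1) s

/-- the weight -/
def Son_V (m : ℕ) (s : ℝ) : ℝ := ((m : ℝ) + 3 / 2) ^ 2 + 5 / 36 * Real.cosh s ^ 2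

/-- the monotone function -/
def Son_S (m : ℕ) (s : ℝ) : ℝ :=
  (um (m + 1) s ^ 2 + Son_Y m s ^ 2 / Son_V m s) / Real.cosh s ^ (2 * m + 3)

theorem Son_V_pos (m : ℕ) (s : ℝ) : 0 < Son_V m s := by
  unfold Son_V
  have h1 := Real.cosh_pos s
  positivity

theorem Son_Y_hd (m : ℕ) (s : ℝ) : HasDerivAt (Son_Y m)
    (((m : ℝ) + 3 / 2) * (Real.sinh s / Real.cosh s) * Son_Y m s -
      Son_V m s * um (m + 1) s / Real.cosh s) s := by
  have hc : Real.cosh s ≠ 0 := (Real.cosh_pos s).ne'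
  have h1 := ((((Real.hasDerivAt_cosh s).pow 2).const_mul (2 * ((m : ℝ) + 4 / 3))).mul
    (um_B m s)).sub (((Real.hasDerivAt_sinh s).const_mul ((m : ℝ) + 3 / 2)).mul (um_A m s))
  have h2 : HasDerivAt (Son_Y m) _ s := h1
  refine h2.congr_deriv ?_
  unfold Son_Y Son_V
  have hcs := Real.cosh_sq s
  simp only [Pi.pow_apply]
  field_simp
  set c := Real.cosh s with hcdef
  set h := Real.sinh s with hhdef
  set u := um (m + 1) s with hu
  set w := um m s with hw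
  push_cast
  linear_combination (-(1296 * ((m : ℝ) + 3 / 2) ^ 2) * u) * hcs

theorem Son_S_hd (m : ℕ) (s : ℝ) : HasDerivAt (Son_S m)
    (-(5 / 18) * Real.sinh s * Real.cosh s * Son_Y m s ^ 2 /
      (Son_V m s ^ 2 * Real.cosh s ^ (2 * m + 3))) s := by
  have hc : Real.cosh s ≠ 0 := (Real.cosh_pos s).ne'
  have hV : Son_V m s ≠ 0 := (Son_V_pos m s).ne'
  have hVd : HasDerivAt (Son_V m) (5 / 18 * Real.cosh s * Real.sinh s) s := by
    have h1 := (((Real.hasDerivAt_cosh s).pow 2).const_mul (5 / 36 : ℝ)).const_add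
      (((m : ℝ) + 3 / 2) ^ 2)
    have h2 : HasDerivAt (Son_V m) _ s := h1
    refine h2.congr_deriv ?_
    push_cast
    ring
  have h1 := ((((um_A m s).pow 2).add (((Son_Y_hd m s).pow 2).div hVd hV))).div
    ((Real.hasDerivAt_cosh s).pow (2 * m + 3)) (pow_ne_zero _ hc)
  have h2 : HasDerivAt (Son_S m) _ s := h1
  refine h2.congr_deriv ?_
  have hu' : ((m : ℝ) + 4 / 3) * (2 * Real.cosh s) * um m s =
      (Son_Y m s + ((m : ℝ) + 3 / 2) * Real.sinh s * um (m + 1) s) / Real.cosh s := by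
    unfold Son_Y
    field_simp
    ring
  rw [hu']
  simp only [Pi.pow_apply, Pi.add_apply, Pi.div_apply, Nat.add_one_sub_one, pow_one]
  have hpow : Real.cosh s ^ (2 * m + 3) = Real.cosh s ^ (2 * m + 2) * Real.cosh s := by
    rw [← pow_succ]
  have hC : Real.cosh s ^ (2 * m + 2) ≠ 0 := pow_ne_zero _ hc
  rw [hpow]
  set C := Real.cosh s ^ (2 * m + 2) with hCdef
  set c := Real.cosh s with hcdef
  set h := Real.sinh s with hhdef
  set u := um (m + 1) s with hu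
  set Y := Son_Y m s with hY
  set V := Son_V m s with hVdef
  push_cast
  field_simp
  ring

theorem Son_S_le (m : ℕ) (s : ℝ) : Son_S m s ≤ Son_S m 0 := by
  have hcont : Continuous (Son_S m) := by
    rw [continuous_iff_continuousAt]
    exact fun x => (Son_S_hd m x).continuousAt
  have hden : ∀ x : ℝ, 0 < Son_V m x ^ 2 * Real.cosh x ^ (2 * m + 3) := fun x =>
    mul_pos (pow_pos (Son_V_pos m x) 2) (pow_pos (Real.cosh_pos x) _)
  rcases le_total 0 s with h0 | h0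
  · have hanti : AntitoneOn (Son_S m) (Set.Ici 0) := by
      refine antitoneOn_of_deriv_nonpos (convex_Ici 0) hcont.continuousOn
        (fun x _ => (Son_S_hd m x).differentiableAt.differentiableWithinAt) ?_
      intro x hx
      rw [interior_Ici] at hx
      rw [(Son_S_hd m x).deriv]
      refine div_nonpos_of_nonpos_of_nonneg ?_ (hden x).le
      have h1 : 0 ≤ Real.sinh x := Real.sinh_nonneg_iff.2 (le_of_lt hx)
      have h2 : 0 ≤ Real.sinh x * Real.cosh x * Son_Y m x ^ 2 :=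
        mul_nonneg (mul_nonneg h1 (Real.cosh_pos x).le) (sq_nonneg _)
      nlinarith
    exact hanti (Set.mem_Ici.2 le_rfl) (Set.mem_Ici.2 h0) h0
  · have hmono : MonotoneOn (Son_S m) (Set.Iic 0) := by
      refine monotoneOn_of_deriv_nonneg (convex_Iic 0) hcont.continuousOn
        (fun x _ => (Son_S_hd m x).differentiableAt.differentiableWithinAt) ?_
      intro x hx
      rw [interior_Iic] at hx
      rw [(Son_S_hd m x).deriv]
      refine div_nonneg ?_ (hden x).le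
      have h1 : Real.sinh x ≤ 0 := Real.sinh_nonpos_iff.2 (le_of_lt hx)
      have h2 : Real.sinh x * Real.cosh x * Son_Y m x ^ 2 ≤ 0 :=
        mul_nonpos_of_nonpos_of_nonneg (mul_nonpos_of_nonpos_of_nonneg h1 (Real.cosh_pos x).le)
          (sq_nonneg _)
      nlinarith
    exact hmono (Set.mem_Iic.2 h0) (Set.mem_Iic.2 le_rfl) h0

theorem sonine (m : ℕ) (s : ℝ) :
    um (m + 1) s ^ 2 ≤ Real.cosh s ^ (2 * m + 3) * (um (m + 1) 0 ^ 2 + 4 * um m 0 ^ 2) := by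
  have h1 := Son_S_le m s
  have h0 : Son_S m 0 ≤ um (m + 1) 0 ^ 2 + 4 * um m 0 ^ 2 := by
    unfold Son_S
    rw [Real.cosh_zero, one_pow, div_one]
    have h2 : Son_Y m 0 = 2 * ((m : ℝ) + 4 / 3) * um m 0 := by
      unfold Son_Y
      rw [Real.cosh_zero, Real.sinh_zero]
      ring
    have hV0 : ((m : ℝ) + 4 / 3) ^ 2 ≤ Son_V m 0 := by
      unfold Son_V
      rw [Real.cosh_zero]
      have hm : (0 : ℝ) ≤ m := Nat.cast_nonneg m
      nlinarith
    have h3 : Son_Y m 0 ^ 2 / Son_V m 0 ≤ 4 * um m 0 ^ 2 := by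
      rw [div_le_iff₀ (Son_V_pos m 0), h2]
      have h4 : 0 ≤ 4 * um m 0 ^ 2 := by positivity
      have h5 := mul_le_mul_of_nonneg_left hV0 h4
      nlinarith
    linarith
  have hC : 0 < Real.cosh s ^ (2 * m + 3) := pow_pos (Real.cosh_pos s) _
  have h2 : um (m + 1) s ^ 2 ≤ Real.cosh s ^ (2 * m + 3) * Son_S m s := by
    unfold Son_S
    rw [mul_div_cancel₀ _ hC.ne']
    have h3 : 0 ≤ Son_Y m s ^ 2 / Son_V m s := div_nonneg (sq_nonneg _) (Son_V_pos m s).le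
    linarith
  exact h2.trans (mul_le_mul_of_nonneg_left (h1.trans h0) hC.le)

end SL
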