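import Pool.Agent.Lib.MP_216314_pr.SL.Son

/-!
# SL/SonB: uniform bounds of `p_m`, `r_m` (paper 3.2, 3.3)

1. `G m := um m 0 / 2^m`: `G 0 = 1`, `G 1 = -1/2`, `G (m+2) = -((3m+4)/(3m+5)) G m` (`um_at_zero`), hence `G m ^ 6 ≤ 2/(m+2)` by two-step induction:
 `(3m+4)^6 (m+4) ≤ (3m+5)^6 (m+2)` for all `m : ℕ` (with `x = 3m+4 ≥ 4`: `x^6 (x+8) ≤ (x+1)^6 (x+2)`, expand, all coefficients of the difference are nonnegative).
 So `G m ^ 2 ≤ (2/(m+2))^(1/3)` (real power; take the cube).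
2. `sonine`: `pm (m+1) s ^ 2 = um (m+1) s ^2 / (2 cosh s)^(2m+2) ≤ cosh s (G (m+1)^2 + G m^2) ≤ cosh s * 2 (2/(m+2))^(1/3) ≤ 4 (m+2)^(-1/3) cosh s`.
 `pm 0 s ^ 2 = e^(2s/3) ≤ (2 cosh s)^(2/3) ≤ 4 cosh s`. So for all `m`: `pm m s ^ 2 ≤ 4 (m+1)^(-1/3) cosh s`, i.e. `|pm m s| ≤ 2 (m+1)^(-1/6) sqrt (cosh s)`;
 for `s ≥ 0`, `sqrt (cosh s) ≤ e^(s/2)`. `rm m s = (-1)^m pm m (-s)`.
3. (small s) for `0 ≤ s ≤ 1`, `sqrt (cosh s) ≤ 2`: `|pm m s|, |rm m s| ≤ 4 (m+1)^(-1/6)`.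
4. `pm (m+1)` has the derivative `(m+4/3) pm m s - (m+1) (sinh s/cosh s) pm (m+1) s` (`um_A`); for `|s| ≤ 1` its absolute value is
 `≤ (m+4/3) 4 (m+1)^(-1/6) + (m+1) 4 (m+2)^(-1/6) ≤ 10 (m+2)^(5/6)` [(m+4/3)(m+1)^(-1/6) ≤ (4/3)(m+1)^(5/6)]. For `m+1` odd, `pm (m+1) s + rm (m+1) s = pm (m+1) s - pm (m+1) (-s)`,
 so by the mean value inequality on `[-s, s]` it is `≤ 20 (m+2)^(5/6) s`. With `|..| ≤ 8 (m+2)^(-1/6)`: `min(A, B) ≤ A^(5/6) B^(1/6)`: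
 `|pm m s + rm m s| ≤ 20 s^(1/6)` for odd `m`, `0 ≤ s ≤ 1`.
-/

set_option autoImplicit false

noncomputable section

namespace SL

open Filter Topology MeasureTheory

theorem rm_eq (m : ℕ) (s : ℝ) : rm m s = (-1) ^ m * pm m (-s) := by
  unfold rm vm pm
  rw [Real.cosh_neg, mul_div_assoc]

theorem SonB_step (m : ℕ) (h : (um m 0 / 2 ^ m) ^ 6 ≤ 2 / ((m : ℝ) + 2)) :
    (um (m + 2) 0 / 2 ^ (m + 2)) ^ 6 ≤ 2 / (((m + 2 : ℕ) : ℝ) + 2) := by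
  have hm : (0 : ℝ) ≤ m := Nat.cast_nonneg m
  set x : ℝ := 3 * (m : ℝ) + 4 with hx
  have hx0 : 0 < x := by rw [hx]; positivity
  have h1 : um (m + 2) 0 / 2 ^ (m + 2) = -(x / (x + 1)) * (um m 0 / 2 ^ m) := by
    have h2 := um_at_zero m
    have h3 : um (m + 2) 0 = -(4 * ((m : ℝ) + 4 / 3) * um m 0) / ((m : ℝ) + 5 / 3) := by
      rw [eq_div_iff (by positivity), mul_comm]
      exact h2
    rw [h3, pow_add, hx]
    have h4 : (m : ℝ) + 5 / 3 ≠ 0 := by positivity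
    have h5 : 3 * (m : ℝ) + 4 + 1 ≠ 0 := by positivity
    have h6 : 3 * (m : ℝ) + 5 ≠ 0 := by positivity
    field_simp
    ring
  have h2 : (um (m + 2) 0 / 2 ^ (m + 2)) ^ 6 = (x / (x + 1)) ^ 6 * (um m 0 / 2 ^ m) ^ 6 := by
    rw [h1]
    ring
  rw [h2]
  have h3 : (x / (x + 1)) ^ 6 * (um m 0 / 2 ^ m) ^ 6 ≤ (x / (x + 1)) ^ 6 * (2 / ((m : ℝ) + 2)) :=
    mul_le_mul_of_nonneg_left h (by positivity)
  refine h3.trans ?_
  have h4 : (m : ℝ) + 2 = (x + 2) / 3 := by rw [hx]; ring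
  have h5 : ((m + 2 : ℕ) : ℝ) + 2 = (x + 8) / 3 := by rw [hx]; push_cast; ring
  rw [h4, h5, div_pow, ← mul_div_assoc, div_mul_eq_mul_div, div_div, div_le_div_iff₀ (by positivity) (by positivity)]
  have h6 : 0 ≤ (x + 1) ^ 6 * (x + 2) - x ^ 6 * (x + 8) := by
    have h7 : (x + 1) ^ 6 * (x + 2) - x ^ 6 * (x + 8) =
        27 * x ^ 5 + 50 * x ^ 4 + 55 * x ^ 3 + 36 * x ^ 2 + 13 * x + 2 := by ring
    rw [h7]
    positivity
  nlinarith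

theorem um_zero_six (m : ℕ) : (um m 0 / 2 ^ m) ^ 6 ≤ 2 / ((m : ℝ) + 2) := by
  have h : ∀ m : ℕ, (um m 0 / 2 ^ m) ^ 6 ≤ 2 / ((m : ℝ) + 2) ∧
      (um (m + 1) 0 / 2 ^ (m + 1)) ^ 6 ≤ 2 / (((m + 1 : ℕ) : ℝ) + 2) := by
    intro m
    induction m with
    | zero =>
      refine ⟨?_, ?_⟩
      · rw [um_zero]
        norm_num
      · rw [um_one_zero]
        norm_num
    | succ m ih => exact ⟨ih.2, SonB_step m ih.1⟩
  exact (h m).1

theorem SonB_sq (m : ℕ) : (um m 0 / 2 ^ m) ^ 2 ≤ 2 * ((m : ℝ) + 2) ^ (-(1 / 3) : ℝ) := by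
  have hm : (0 : ℝ) ≤ m := Nat.cast_nonneg m
  set G : ℝ := um m 0 / 2 ^ m with hG
  have h1 : (G ^ 2) ^ 3 ≤ 2 / ((m : ℝ) + 2) := by
    have h2 := um_zero_six m
    rw [← hG] at h2
    calc (G ^ 2) ^ 3 = G ^ 6 := by ring
      _ ≤ _ := h2
  have h3 : G ^ 2 ≤ (2 / ((m : ℝ) + 2)) ^ (((3 : ℕ) : ℝ)⁻¹) := by
    have h4 := Real.pow_rpow_inv_natCast (sq_nonneg G) (three_ne_zero)
    rw [← h4]
    exact Real.rpow_le_rpow (by positivity) h1 (by positivity)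
  refine h3.trans ?_
  have h5 : (((3 : ℕ) : ℝ)⁻¹) = (1 / 3 : ℝ) := by norm_num
  rw [h5, Real.div_rpow (by norm_num) (by positivity), Real.rpow_neg (by positivity), div_eq_mul_inv]
  refine mul_le_mul_of_nonneg_right ?_ (by positivity)
  calc (2 : ℝ) ^ (1 / 3 : ℝ) ≤ (2 : ℝ) ^ (1 : ℝ) :=
        Real.rpow_le_rpow_of_exponent_le (by norm_num) (by norm_num)
    _ = 2 := Real.rpow_one 2

theorem pm_sq (m : ℕ) (s : ℝ) : pm m s ^ 2 ≤ 4 * ((m : ℝ) + 1) ^ (-(1 / 3) : ℝ) * Real.cosh s := by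
  have hc : 0 < Real.cosh s := Real.cosh_pos s
  cases m with
  | zero =>
    have h1 : pm 0 s = Real.exp (s / 3) := by
      unfold pm
      rw [um_zero, pow_zero, div_one]
    have h2 : pm 0 s ^ 2 = Real.exp (2 * s / 3) := by
      rw [h1, ← Real.exp_nat_mul]
      congr 1
      push_cast
      ring
    rw [h2]
    have h3 : (((0 : ℕ) : ℝ) + 1) ^ (-(1 / 3) : ℝ) = 1 := by
      rw [Nat.cast_zero, zero_add, Real.one_rpow]
    rw [h3, mul_one]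
    rcases le_total 0 s with h0 | h0
    · have h4 : Real.exp (2 * s / 3) ≤ Real.exp s := Real.exp_le_exp.2 (by linarith)
      have h5 : Real.exp s ≤ 2 * Real.cosh s := by
        rw [Real.cosh_eq]
        have := Real.exp_pos (-s)
        linarith
      linarith
    · have h4 : Real.exp (2 * s / 3) ≤ 1 := Real.exp_le_one_iff.2 (by linarith)
      have h5 := Real.one_le_cosh s
      linarith
  | succ m =>
    have hm : (0 : ℝ) ≤ m := Nat.cast_nonneg m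
    have h1 : pm (m + 1) s ^ 2 ≤
        Real.cosh s * ((um (m + 1) 0 / 2 ^ (m + 1)) ^ 2 + (um m 0 / 2 ^ m) ^ 2) := by
      unfold pm
      rw [div_pow, div_le_iff₀ (by positivity)]
      refine (sonine m s).trans (le_of_eq ?_)
      have e1 : ((2 * Real.cosh s) ^ (m + 1)) ^ 2 = (2 ^ m) ^ 2 * 4 * Real.cosh s ^ (2 * m + 2) := by
        rw [← pow_mul, mul_pow, ← pow_mul]
        have e2 : (m + 1) * 2 = 2 * m + 2 := by ring
        have e3 : m * 2 = 2 * m := by ring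
        rw [e2, e3, pow_add 2 (2 * m) 2]
        norm_num
      have e4 : Real.cosh s ^ (2 * m + 3) = Real.cosh s ^ (2 * m + 2) * Real.cosh s := by
        rw [← pow_succ]
      rw [e1, e4]
      have e5 : (2 : ℝ) ^ (m + 1) = 2 ^ m * 2 := pow_succ 2 m
      rw [e5]
      have e6 : (2 : ℝ) ^ m ≠ 0 := by positivity
      field_simp
      ring
    have h2 := SonB_sq m
    have h3 := SonB_sq (m + 1)
    have h4 : (((m + 1 : ℕ) : ℝ) + 2) ^ (-(1 / 3) : ℝ) ≤ ((m : ℝ) + 2) ^ (-(1 / 3) : ℝ) := by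
      refine Real.rpow_le_rpow_of_nonpos (by positivity) ?_ (by norm_num)
      push_cast
      linarith
    have h5 : ((m + 1 : ℕ) : ℝ) + 1 = (m : ℝ) + 2 := by push_cast; ring
    rw [h5]
    refine h1.trans ?_
    rw [mul_comm]
    refine mul_le_mul_of_nonneg_right ?_ hc.le
    linarith

theorem SonB_six (m : ℕ) : (((m : ℝ) + 1) ^ (-(1 / 6) : ℝ)) ^ 2 = ((m : ℝ) + 1) ^ (-(1 / 3) : ℝ) := by
  have hm : (0 : ℝ) ≤ (m : ℝ) + 1 := by positivity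
  rw [← Real.rpow_natCast, ← Real.rpow_mul hm]
  congr 1
  norm_num

theorem SonB_abs (m : ℕ) (s t : ℝ) {K : ℝ} (hK : 0 ≤ K) (h : Real.cosh t ≤ K ^ 2)
    (_hs : s = s) : |pm m t| ≤ 2 * ((m : ℝ) + 1) ^ (-(1 / 6) : ℝ) * K := by
  have hm : (0 : ℝ) ≤ (m : ℝ) + 1 := by positivity
  refine abs_le_of_sq_le_sq ?_ (by positivity)
  refine (pm_sq m t).trans ?_
  have h1 : (2 * ((m : ℝ) + 1) ^ (-(1 / 6) : ℝ) * K) ^ 2 =
      4 * ((m : ℝ) + 1) ^ (-(1 / 3) : ℝ) * K ^ 2 := by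
    rw [← SonB_six]
    ring
  rw [h1]
  exact mul_le_mul_of_nonneg_left h (by positivity)

theorem SonB_cosh {s : ℝ} (hs : 0 ≤ s) : Real.cosh s ≤ Real.exp (s / 2) ^ 2 := by
  rw [← Real.exp_nat_mul, Real.cosh_eq]
  have h1 : ((2 : ℕ) : ℝ) * (s / 2) = s := by push_cast; ring
  rw [h1]
  have h2 : Real.exp (-s) ≤ Real.exp s := Real.exp_le_exp.2 (by linarith)
  linarith

theorem SonB_cosh_one {s : ℝ} (hs : |s| ≤ 1) : Real.cosh s ≤ 2 ^ 2 := by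
  rw [← Real.cosh_abs]
  refine (SonB_cosh (abs_nonneg s)).trans ?_
  refine pow_le_pow_left₀ (Real.exp_pos _).le ?_ 2
  have h1 : Real.exp (|s| / 2) ≤ Real.exp (1 / 2) := Real.exp_le_exp.2 (by linarith)
  refine h1.trans ?_
  have h2 : Real.exp (1 / 2) ^ 2 ≤ 2 ^ 2 := by
    rw [← Real.exp_nat_mul]
    have h3 := Real.exp_one_lt_d9
    have h4 : ((2 : ℕ) : ℝ) * (1 / 2) = 1 := by norm_num
    rw [h4]
    linarith
  exact le_of_sq_le_sq h2 (by norm_num)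

theorem SonB_rabs (m : ℕ) (s : ℝ) : |rm m s| = |pm m (-s)| := by
  rw [rm_eq, abs_mul, abs_pow, abs_neg, abs_one, one_pow, one_mul]

theorem pm_b1 (m : ℕ) {s : ℝ} (hs : 0 ≤ s) : |pm m s| ≤ 2 * ((m : ℝ) + 1) ^ (-(1 / 6) : ℝ) * Real.exp (s / 2) :=
  SonB_abs m s s (Real.exp_pos _).le (SonB_cosh hs) rfl

theorem rm_b1 (m : ℕ) {s : ℝ} (hs : 0 ≤ s) : |rm m s| ≤ 2 * ((m : ℝ) + 1) ^ (-(1 / 6) : ℝ) * Real.exp (s / 2) := by
  rw [SonB_rabs]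
  refine SonB_abs m s (-s) (Real.exp_pos _).le ?_ rfl
  rw [Real.cosh_neg]
  exact SonB_cosh hs

theorem pm_small (m : ℕ) {s : ℝ} (hs : |s| ≤ 1) : |pm m s| ≤ 4 * ((m : ℝ) + 1) ^ (-(1 / 6) : ℝ) := by
  have h := SonB_abs m s s (by norm_num : (0 : ℝ) ≤ 2) (SonB_cosh_one hs) rfl
  linarith

theorem rm_small (m : ℕ) {s : ℝ} (hs : |s| ≤ 1) : |rm m s| ≤ 4 * ((m : ℝ) + 1) ^ (-(1 / 6) : ℝ) := by
  rw [SonB_rabs]
  exact pm_small m (by rwa [abs_neg])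

theorem pm_hd (m : ℕ) (s : ℝ) : HasDerivAt (pm (m + 1))
    (((m : ℝ) + 4 / 3) * pm m s - ((m : ℝ) + 1) * (Real.sinh s / Real.cosh s) * pm (m + 1) s) s := by
  have hc : Real.cosh s ≠ 0 := (Real.cosh_pos s).ne'
  have h2c : (2 * Real.cosh s) ^ (m + 1) ≠ 0 := pow_ne_zero _ (mul_ne_zero two_ne_zero hc)
  have h1 := (um_A m s).div (((Real.hasDerivAt_cosh s).const_mul 2).pow (m + 1)) h2c
  have h2 : HasDerivAt (pm (m + 1)) _ s := h1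
  refine h2.congr_deriv ?_
  unfold pm
  simp only [Pi.pow_apply, Nat.add_sub_cancel]
  rw [pow_succ (2 * Real.cosh s) m]
  have hP : (2 * Real.cosh s) ^ m ≠ 0 := pow_ne_zero _ (mul_ne_zero two_ne_zero hc)
  set P := (2 * Real.cosh s) ^ m with hPdef
  push_cast
  field_simp

theorem SonB_der (k : ℕ) {t : ℝ} (ht : |t| ≤ 1) :
    ‖((k : ℝ) + 4 / 3) * pm k t - ((k : ℝ) + 1) * (Real.sinh t / Real.cosh t) * pm (k + 1) t‖ ≤
      10 * ((k : ℝ) + 2) ^ (5 / 6 : ℝ) := by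
  have hk : (0 : ℝ) ≤ k := Nat.cast_nonneg k
  have h1 := pm_small k ht
  have h2 := pm_small (k + 1) ht
  have h5 : ((k + 1 : ℕ) : ℝ) + 1 = (k : ℝ) + 2 := by push_cast; ring
  rw [h5] at h2
  have hth : |Real.sinh t / Real.cosh t| ≤ 1 := by
    rw [abs_div, abs_of_pos (Real.cosh_pos t), div_le_one (Real.cosh_pos t)]
    refine abs_le_of_sq_le_sq ?_ (Real.cosh_pos t).le
    rw [Real.cosh_sq]
    linarith
  have e1 : ((k : ℝ) + 1) * ((k : ℝ) + 1) ^ (-(1 / 6) : ℝ) = ((k : ℝ) + 1) ^ (5 / 6 : ℝ) := by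
    nth_rewrite 1 [← Real.rpow_one ((k : ℝ) + 1)]
    rw [← Real.rpow_add (by positivity)]
    norm_num
  have e2 : ((k : ℝ) + 2) * ((k : ℝ) + 2) ^ (-(1 / 6) : ℝ) = ((k : ℝ) + 2) ^ (5 / 6 : ℝ) := by
    nth_rewrite 1 [← Real.rpow_one ((k : ℝ) + 2)]
    rw [← Real.rpow_add (by positivity)]
    norm_num
  have e3 : ((k : ℝ) + 1) ^ (5 / 6 : ℝ) ≤ ((k : ℝ) + 2) ^ (5 / 6 : ℝ) :=
    Real.rpow_le_rpow (by positivity) (by linarith) (by norm_num)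
  have b1 : ((k : ℝ) + 4 / 3) * |pm k t| ≤ 16 / 3 * ((k : ℝ) + 2) ^ (5 / 6 : ℝ) := by
    calc ((k : ℝ) + 4 / 3) * |pm k t| ≤
          (4 / 3 * ((k : ℝ) + 1)) * (4 * ((k : ℝ) + 1) ^ (-(1 / 6) : ℝ)) :=
          mul_le_mul (by linarith) h1 (abs_nonneg _) (by positivity)
      _ = 16 / 3 * (((k : ℝ) + 1) * ((k : ℝ) + 1) ^ (-(1 / 6) : ℝ)) := by ring
      _ ≤ 16 / 3 * ((k : ℝ) + 2) ^ (5 / 6 : ℝ) := by
          rw [e1]
          linarith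
  have b2 : ((k : ℝ) + 1) * |pm (k + 1) t| ≤ 4 * ((k : ℝ) + 2) ^ (5 / 6 : ℝ) := by
    calc ((k : ℝ) + 1) * |pm (k + 1) t| ≤
          ((k : ℝ) + 2) * (4 * ((k : ℝ) + 2) ^ (-(1 / 6) : ℝ)) :=
          mul_le_mul (by linarith) h2 (abs_nonneg _) (by positivity)
      _ = 4 * (((k : ℝ) + 2) * ((k : ℝ) + 2) ^ (-(1 / 6) : ℝ)) := by ring
      _ = 4 * ((k : ℝ) + 2) ^ (5 / 6 : ℝ) := by rw [e2]
  rw [Real.norm_eq_abs]
  refine (abs_sub _ _).trans ?_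
  rw [abs_mul, abs_mul, abs_mul, abs_of_nonneg (by positivity : (0 : ℝ) ≤ (k : ℝ) + 4 / 3),
    abs_of_nonneg (by positivity : (0 : ℝ) ≤ (k : ℝ) + 1)]
  have b3 : ((k : ℝ) + 1) * |Real.sinh t / Real.cosh t| * |pm (k + 1) t| ≤
      ((k : ℝ) + 1) * |pm (k + 1) t| := by
    have h6 : ((k : ℝ) + 1) * |Real.sinh t / Real.cosh t| ≤ (k : ℝ) + 1 := by
      nlinarith [abs_nonneg (Real.sinh t / Real.cosh t)]
    exact mul_le_mul_of_nonneg_right h6 (abs_nonneg _)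
  have h7 : (0 : ℝ) ≤ ((k : ℝ) + 2) ^ (5 / 6 : ℝ) := by positivity
  linarith

theorem pr_odd {m : ℕ} (hm : Odd m) {s : ℝ} (h0 : 0 ≤ s) (h1 : s ≤ 1) : |pm m s + rm m s| ≤ 20 * s ^ (1 / 6 : ℝ) := by
  obtain ⟨j, hj⟩ := hm
  have hr : rm m s = -pm m (-s) := by
    rw [rm_eq, hj, pow_succ, pow_mul]
    norm_num
  rcases eq_or_lt_of_le h0 with hs0 | hs0
  · rw [hr, ← hs0, neg_zero, add_neg_cancel, abs_zero]
    positivity
  set k : ℕ := 2 * j with hk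
  have hmk : m = k + 1 := hj
  have habs : |s| ≤ 1 := by rwa [abs_of_nonneg h0]
  have hx : (0 : ℝ) < (k : ℝ) + 2 := by positivity
  -- the bound by the mean value inequality
  have hA : |pm m s + rm m s| ≤ 20 * ((k : ℝ) + 2) ^ (5 / 6 : ℝ) * s := by
    rw [hr, ← sub_eq_add_neg, hmk]
    have h2 := Convex.norm_image_sub_le_of_norm_hasDerivWithin_le
      (f := pm (k + 1))
      (f' := fun t => ((k : ℝ) + 4 / 3) * pm k t -
        ((k : ℝ) + 1) * (Real.sinh t / Real.cosh t) * pm (k + 1) t)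
      (C := 10 * ((k : ℝ) + 2) ^ (5 / 6 : ℝ)) (s := Set.Icc (-1) 1) (x := -s) (y := s)
      (fun t _ => (pm_hd k t).hasDerivWithinAt)
      (fun t ht => SonB_der k (abs_le.2 ht)) (convex_Icc _ _)
      ⟨by linarith, by linarith⟩ ⟨by linarith, h1⟩
    rw [Real.norm_eq_abs, Real.norm_eq_abs] at h2
    have h3 : |s - -s| = 2 * s := by
      rw [sub_neg_eq_add, abs_of_nonneg (by linarith)]
      ring
    rw [h3] at h2
    linarith
  -- the bound by the absolute values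
  have hB : |pm m s + rm m s| ≤ 8 * ((k : ℝ) + 2) ^ (-(1 / 6) : ℝ) := by
    have h2 := pm_small m habs
    have h3 := rm_small m habs
    have h4 : (m : ℝ) + 1 = (k : ℝ) + 2 := by rw [hmk]; push_cast; ring
    rw [h4] at h2 h3
    have h5 := abs_add_le (pm m s) (rm m s)
    linarith
  rcases le_total (s * ((k : ℝ) + 2)) 1 with hsx | hsx
  · refine hA.trans ?_
    have h2 : (k : ℝ) + 2 ≤ s⁻¹ := by
      rw [← one_div, le_div_iff₀ hs0, mul_comm]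
      exact hsx
    have h3 : ((k : ℝ) + 2) ^ (5 / 6 : ℝ) ≤ s⁻¹ ^ (5 / 6 : ℝ) :=
      Real.rpow_le_rpow hx.le h2 (by norm_num)
    have h4 : s⁻¹ ^ (5 / 6 : ℝ) * s = s ^ (1 / 6 : ℝ) := by
      rw [Real.inv_rpow hs0.le, ← Real.rpow_neg hs0.le]
      nth_rewrite 2 [← Real.rpow_one s]
      rw [← Real.rpow_add hs0]
      norm_num
    calc 20 * ((k : ℝ) + 2) ^ (5 / 6 : ℝ) * s ≤ 20 * (s⁻¹ ^ (5 / 6 : ℝ)) * s := by
          refine mul_le_mul_of_nonneg_right ?_ h0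
          linarith
      _ = 20 * (s⁻¹ ^ (5 / 6 : ℝ) * s) := by ring
      _ = 20 * s ^ (1 / 6 : ℝ) := by rw [h4]
  · refine hB.trans ?_
    have h2 : s⁻¹ ≤ (k : ℝ) + 2 := by
      rw [← one_div, div_le_iff₀ hs0, mul_comm]
      exact hsx
    have h3 : ((k : ℝ) + 2) ^ (-(1 / 6) : ℝ) ≤ s⁻¹ ^ (-(1 / 6) : ℝ) :=
      Real.rpow_le_rpow_of_nonpos (by positivity) h2 (by norm_num)
    have h4 : s⁻¹ ^ (-(1 / 6) : ℝ) = s ^ (1 / 6 : ℝ) := by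
      rw [Real.inv_rpow hs0.le, Real.rpow_neg hs0.le, inv_inv]
    rw [h4] at h3
    have h5 : (0 : ℝ) ≤ s ^ (1 / 6 : ℝ) := by positivity
    linarith

end SL
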