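import Pool.Agent.Lib.MP_216314_pr.SL.UDef

/-!
# SL/U: the coefficients `w_{m,i}` (paper section 1)

`ww m i = ar i * br (m - i) / br m`, and `br (j + 1) = br j / (3 (j+1) (3 (j+1) + 1))`, so
`br (m - i) / br m = ∏_{j = m-i+1 .. m} 3 j (3 j + 1) = ∏_{q < i} 3 (m - q) (3 (m - q) + 1)` for `i ≤ m` (induction on `i`);
the product on the right vanishes for `i > m` (factor `q = m`). Same for `ar` with `3 j - 1`.
`vm_eq`: reflect the sum (`Finset.sum_range_reflect` or `Finset.sum_flip`), `(-1)^m (-1)^(m-j) = (-1)^j`, exponent `-(m - 2(m-j) + 1/3) = m - 2j - 1/3`.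
-/

set_option autoImplicit false

noncomputable section

namespace SL

open Filter Topology MeasureTheory

theorem ar_zero : ar 0 = 1 := by
  unfold ar
  rw [Finset.prod_range_zero]

theorem br_zero : br 0 = 1 := by
  unfold br
  rw [Finset.prod_range_zero]

theorem arU_succ (i : ℕ) : ar (i + 1) = ar i * (1 / (3 * ((i : ℝ) + 1) * (3 * ((i : ℝ) + 1) - 1))) := by
  unfold ar
  rw [Finset.prod_range_succ]

theorem brU_succ (i : ℕ) : br (i + 1) = br i * (1 / (3 * ((i : ℝ) + 1) * (3 * ((i : ℝ) + 1) + 1))) := by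
  unfold br
  rw [Finset.prod_range_succ]

theorem arU_pos (i : ℕ) : 0 < ar i := by
  unfold ar
  refine Finset.prod_pos fun j _ => ?_
  have h1 : (0 : ℝ) ≤ (j : ℝ) := Nat.cast_nonneg j
  refine one_div_pos.2 (mul_pos ?_ ?_)
  · linarith
  · linarith

theorem brU_pos (i : ℕ) : 0 < br i := by
  unfold br
  refine Finset.prod_pos fun j _ => ?_
  have h1 : (0 : ℝ) ≤ (j : ℝ) := Nat.cast_nonneg j
  refine one_div_pos.2 (mul_pos ?_ ?_)
  · linarith
  · linarith

theorem ww_zero (m : ℕ) : ww m 0 = 1 := by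
  unfold ww
  rw [ar_zero, Nat.sub_zero, one_mul, div_self (brU_pos m).ne']

theorem U_br {m i : ℕ} (h : i ≤ m) :
    br (m - i) = br m * ∏ q ∈ Finset.range i, (3 * ((m : ℝ) - q) * (3 * ((m : ℝ) - q) + 1)) := by
  induction i with
  | zero => rw [Nat.sub_zero, Finset.prod_range_zero, mul_one]
  | succ i ih =>
    have h1 : m - i = m - (i + 1) + 1 := by omega
    have h2 := ih (by omega)
    have h3 : ((m - (i + 1) : ℕ) : ℝ) + 1 = (m : ℝ) - i := by
      rw [Nat.cast_sub h]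
      push_cast
      ring
    rw [h1, brU_succ, h3] at h2
    have h4 : (0 : ℝ) < (m : ℝ) - i := by
      have : (i : ℝ) + 1 ≤ m := by exact_mod_cast h
      linarith
    have h5 : 3 * ((m : ℝ) - i) * (3 * ((m : ℝ) - i) + 1) ≠ 0 := by positivity
    rw [Finset.prod_range_succ, ← mul_assoc, ← h2, mul_assoc, one_div_mul_cancel h5, mul_one]

theorem U_ar {m i : ℕ} (h : i ≤ m) :
    ar (m - i) = ar m * ∏ q ∈ Finset.range i, (3 * ((m : ℝ) - q) * (3 * ((m : ℝ) - q) - 1)) := by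
  induction i with
  | zero => rw [Nat.sub_zero, Finset.prod_range_zero, mul_one]
  | succ i ih =>
    have h1 : m - i = m - (i + 1) + 1 := by omega
    have h2 := ih (by omega)
    have h3 : ((m - (i + 1) : ℕ) : ℝ) + 1 = (m : ℝ) - i := by
      rw [Nat.cast_sub h]
      push_cast
      ring
    rw [h1, arU_succ, h3] at h2
    have h4 : (1 : ℝ) ≤ (m : ℝ) - i := by
      have : (i : ℝ) + 1 ≤ m := by exact_mod_cast h
      linarith
    have h5 : 3 * ((m : ℝ) - i) * (3 * ((m : ℝ) - i) - 1) ≠ 0 := by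
      refine mul_ne_zero ?_ ?_
      · intro h0
        linarith
      · intro h0
        linarith
    rw [Finset.prod_range_succ, ← mul_assoc, ← h2, mul_assoc, one_div_mul_cancel h5, mul_one]

theorem ww_prod {m i : ℕ} (h : i ≤ m) :
    ww m i = ar i * ∏ q ∈ Finset.range i, (3 * ((m : ℝ) - q) * (3 * ((m : ℝ) - q) + 1)) := by
  unfold ww
  rw [mul_div_assoc, U_br h, mul_div_cancel_left₀ _ (brU_pos m).ne']

theorem ww_prod_zero {m i : ℕ} (h : m < i) :
    ∏ q ∈ Finset.range i, (3 * ((m : ℝ) - q) * (3 * ((m : ℝ) - q) + 1)) = 0 := by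
  refine Finset.prod_eq_zero (Finset.mem_range.2 h) ?_
  rw [sub_self, mul_zero, zero_mul]

theorem ww_rev {m j : ℕ} (h : j ≤ m) :
    ww m (m - j) = ar m / br m * (br j * ∏ q ∈ Finset.range j, (3 * ((m : ℝ) - q) * (3 * ((m : ℝ) - q) - 1))) := by
  unfold ww
  rw [U_ar h, Nat.sub_sub_self h]
  ring

theorem ww_rev_zero {m j : ℕ} (h : m < j) :
    ∏ q ∈ Finset.range j, (3 * ((m : ℝ) - q) * (3 * ((m : ℝ) - q) - 1)) = 0 := by
  refine Finset.prod_eq_zero (Finset.mem_range.2 h) ?_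
  rw [sub_self, mul_zero, zero_mul]

theorem vm_eq (m : ℕ) (s : ℝ) :
    vm m s = ∑ j ∈ Finset.range (m + 1), (-1) ^ j * ww m (m - j) * Real.exp (((m : ℝ) - 2 * j - 1 / 3) * s) := by
  unfold vm um
  rw [← Finset.sum_range_reflect, Finset.mul_sum]
  refine Finset.sum_congr rfl fun j hj => ?_
  have hj' : j ≤ m := by
    rw [Finset.mem_range] at hj
    omega
  have h1 : m + 1 - 1 - j = m - j := by omega
  have h2 : (-1 : ℝ) ^ m * (-1) ^ (m - j) = (-1) ^ j := by
    have h3 : (-1 : ℝ) ^ m = (-1) ^ (m - j) * (-1) ^ j := by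
      rw [← pow_add, Nat.sub_add_cancel hj']
    have h4 : (-1 : ℝ) ^ (m - j) * (-1) ^ (m - j) = 1 := by
      rw [← mul_pow, neg_one_mul, neg_neg, one_pow]
    rw [h3]
    linear_combination (-1 : ℝ) ^ j * h4
  have h5 : ((m : ℝ) - 2 * ((m - j : ℕ) : ℝ) + 1 / 3) * -s = ((m : ℝ) - 2 * j - 1 / 3) * s := by
    rw [Nat.cast_sub hj']
    ring
  rw [h1, h5, ← h2]
  ring

theorem um_zero (s : ℝ) : um 0 s = Real.exp (s / 3) := by
  unfold um
  rw [Finset.sum_range_one, ww_zero, pow_zero]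
  rw [one_mul, one_mul]
  congr 1
  push_cast
  ring

end SL
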