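import Pool.Agent.Lib.MP_216314_pr.SL.U

/-!
# SL/Ub: the two first order relations (paper (1.1), (1.2))

`um m s = ∑_{i ≤ m} (-1)^i w_{m,i} e^{(m - 2i + 1/3) s}`, so `um m` has the derivative
`∑_{i ≤ m} (-1)^i w_{m,i} (m - 2i + 1/3) e^{(m - 2i + 1/3) s}` (`HasDerivAt.fun_sum`).

(A) `um (m+1)` has the derivative `(m + 4/3) (2 cosh s) um m s`. With `2 cosh s = e^s + e^{-s}`:
`2 cosh s * um m s = ∑_{i ≤ m} (-1)^i w_{m,i} (e^{(m+1-2i+1/3)s} + e^{(m+1-2(i+1)+1/3)s})`; the coefficient of `e^{(m+1-2i+1/3)s}` is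
`(-1)^i (w_{m,i} - w_{m,i-1})` (with `w_{m,m+1} := 0`, `w_{m,-1} := 0`), so (A) is
`(m+1-2i+1/3) w_{m+1,i} = (m+4/3)(w_{m,i} - w_{m,i-1})` for `1 ≤ i ≤ m`, and at the ends
`i = 0`: `(m+4/3) w_{m+1,0} = (m+4/3) w_{m,0}` (both `w = 1`), `i = m+1`: `(m+1-2(m+1)+1/3) w_{m+1,m+1} = -(m+4/3) w_{m,m}`, i.e. `(m + 2/3) w_{m+1,m+1} = (m+4/3) w_{m,m}`.
Ratios: `w_{m,i} / w_{m,i-1} = (m-i+1)(3(m-i+1)+1)/(i(3i-1))`, `w_{m+1,i} / w_{m,i} = (m+1)(3m+4)/((m+1-i)(3(m+1-i)+1))`.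
(B) `um m` has the derivative `((2m+1)(2 sinh s) um m s - (m+2/3) um (m+1) s)/(2 cosh s)`, i.e.
`(m+2/3) um (m+1) s = (2m+1)(2 sinh s) um m s - (2 cosh s) um' m s`; coefficient of `e^{(m+1-2i+1/3)s}`, `e = m-2i+1/3` (the term `i` of `um m` times `e^s`, the term `i-1` times `e^{-s}`):
`(m+2/3)(-1)^i w_{m+1,i} = (-1)^i w_{m,i} ((2m+1) - e) + (-1)^{i-1} w_{m,i-1} (-(2m+1) - (e+2))`, i.e.
`(m+2/3) w_{m+1,i} = (2m+1-e) w_{m,i} + (2m+3+e) w_{m,i-1}` with `2m+1-e = m+2i+2/3`, `2m+3+e = 3m-2i+10/3`.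
A clean way in Lean: for both, multiply out and use `Finset.sum_range_succ` / `Finset.sum_range_succ'` to write every sum over `i ≤ m+1` as
(first or last term) + (sum over `i < m+1` resp. shifted), then compare coefficients with two lemmas on `ww` proved from `arU_succ`, `brU_succ`
(field_simp; ring). The lemmas are convenient in the form, for `i ≤ m`, with `j = m - i` (so `m = i + j`): `ww (i+j) i = ar i * br j / br (i+j)`.
-/

set_option autoImplicit false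

noncomputable section

namespace SL

open Filter Topology MeasureTheory

theorem Ub_ar_succ (i : ℕ) : ar (i + 1) = ar i * (1 / (3 * ((i : ℝ) + 1) * (3 * (i : ℝ) + 2))) := by
  unfold ar
  rw [Finset.prod_range_succ]
  have e : 3 * ((i : ℝ) + 1) - 1 = 3 * (i : ℝ) + 2 := by ring
  rw [e]

theorem Ub_br_succ (i : ℕ) : br (i + 1) = br i * (1 / (3 * ((i : ℝ) + 1) * (3 * ((i : ℝ) + 1) + 1))) := by
  unfold br
  rw [Finset.prod_range_succ]

theorem Ub_ar_zero : ar 0 = 1 := by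
  unfold ar
  rw [Finset.prod_range_zero]

theorem Ub_br_zero : br 0 = 1 := by
  unfold br
  rw [Finset.prod_range_zero]

theorem Ub_br_pos (i : ℕ) : 0 < br i := by
  induction i with
  | zero =>
    rw [Ub_br_zero]
    norm_num
  | succ i ih =>
    rw [Ub_br_succ]
    positivity

theorem Ub_ww_zero (m : ℕ) : ww m 0 = 1 := by
  unfold ww
  rw [Ub_ar_zero, Nat.sub_zero, one_mul, div_self (Ub_br_pos m).ne']

theorem Ub_ww_self (m : ℕ) : ww m m = ar m / br m := by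
  unfold ww
  rw [Nat.sub_self, Ub_br_zero, mul_one]

/-- the last coefficient -/
theorem Ub_last (m : ℕ) : ((m : ℝ) + 2 / 3) * ww (m + 1) (m + 1) = ((m : ℝ) + 4 / 3) * ww m m := by
  rw [Ub_ww_self, Ub_ww_self, Ub_ar_succ, Ub_br_succ]
  have h := (Ub_br_pos m).ne'
  have h1 : ((m : ℝ) + 1) ≠ 0 := by positivity
  have h2 : (3 * (m : ℝ) + 2) ≠ 0 := by positivity
  have h3 : (3 * ((m : ℝ) + 1) + 1) ≠ 0 := by positivity
  field_simp
  ring

theorem Ub_relA (k j : ℕ) :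
    (((k + 1 + j : ℕ) : ℝ) + 1 - 2 * ((k : ℝ) + 1) + 1 / 3) * ww (k + 1 + j + 1) (k + 1) =
      (((k + 1 + j : ℕ) : ℝ) + 4 / 3) * (ww (k + 1 + j) (k + 1) - ww (k + 1 + j) k) := by
  have e1 : k + 1 + j + 1 - (k + 1) = j + 1 := by omega
  have e2 : k + 1 + j - (k + 1) = j := by omega
  have e3 : k + 1 + j - k = j + 1 := by omega
  unfold ww
  rw [e1, e2, e3, Ub_br_succ (k + 1 + j), Ub_ar_succ k, Ub_br_succ j]
  have hM := (Ub_br_pos (k + 1 + j)).ne'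
  have hk : (0 : ℝ) ≤ k := Nat.cast_nonneg k
  have hj : (0 : ℝ) ≤ j := Nat.cast_nonneg j
  have h1 : ((k : ℝ) + 1) ≠ 0 := by positivity
  have h2 : (3 * (k : ℝ) + 2) ≠ 0 := by positivity
  have h3 : ((j : ℝ) + 1) ≠ 0 := by positivity
  have h4 : (3 * ((j : ℝ) + 1) + 1) ≠ 0 := by positivity
  have h5 : (((k + 1 + j : ℕ) : ℝ) + 1) ≠ 0 := by positivity
  have h6 : (3 * (((k + 1 + j : ℕ) : ℝ) + 1) + 1) ≠ 0 := by positivity
  push_cast at h5 h6 ⊢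
  field_simp
  ring

theorem Ub_relB (k j : ℕ) :
    (((k + 1 + j : ℕ) : ℝ) + 2 / 3) * ww (k + 1 + j + 1) (k + 1) =
      (((k + 1 + j : ℕ) : ℝ) + 2 * ((k : ℝ) + 1) + 2 / 3) * ww (k + 1 + j) (k + 1) +
      (3 * ((k + 1 + j : ℕ) : ℝ) - 2 * (k : ℝ) + 4 / 3) * ww (k + 1 + j) k := by
  have e1 : k + 1 + j + 1 - (k + 1) = j + 1 := by omega
  have e2 : k + 1 + j - (k + 1) = j := by omega
  have e3 : k + 1 + j - k = j + 1 := by omega
  unfold ww
  rw [e1, e2, e3, Ub_br_succ (k + 1 + j), Ub_ar_succ k, Ub_br_succ j]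
  have hM := (Ub_br_pos (k + 1 + j)).ne'
  have hk : (0 : ℝ) ≤ k := Nat.cast_nonneg k
  have hj : (0 : ℝ) ≤ j := Nat.cast_nonneg j
  have h1 : ((k : ℝ) + 1) ≠ 0 := by positivity
  have h2 : (3 * (k : ℝ) + 2) ≠ 0 := by positivity
  have h3 : ((j : ℝ) + 1) ≠ 0 := by positivity
  have h4 : (3 * ((j : ℝ) + 1) + 1) ≠ 0 := by positivity
  have h5 : (((k + 1 + j : ℕ) : ℝ) + 1) ≠ 0 := by positivity
  have h6 : (3 * (((k + 1 + j : ℕ) : ℝ) + 1) + 1) ≠ 0 := by positivity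
  push_cast at h5 h6 ⊢
  field_simp
  ring

/-- the derivative as a sum -/
theorem Ub_deriv (m : ℕ) (s : ℝ) :
    HasDerivAt (um m) (∑ i ∈ Finset.range (m + 1),
      (-1) ^ i * ww m i * (((m : ℝ) - 2 * i + 1 / 3) * Real.exp (((m : ℝ) - 2 * i + 1 / 3) * s))) s := by
  unfold um
  refine HasDerivAt.fun_sum ?_
  intro i _
  have h1 : HasDerivAt (fun s : ℝ => ((m : ℝ) - 2 * i + 1 / 3) * s) ((m : ℝ) - 2 * i + 1 / 3) s := by
    have := (hasDerivAt_id s).const_mul ((m : ℝ) - 2 * i + 1 / 3)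
    rwa [mul_one] at this
  have h2 := (h1.exp).const_mul ((-1) ^ i * ww m i)
  rw [mul_comm (Real.exp _)] at h2
  exact h2

theorem Ub_exp_up (m i : ℕ) (s : ℝ) :
    Real.exp s * Real.exp (((m : ℝ) - 2 * i + 1 / 3) * s) =
      Real.exp (((m : ℝ) + 1 - 2 * i + 1 / 3) * s) := by
  rw [← Real.exp_add]
  refine congrArg Real.exp ?_
  ring

theorem Ub_exp_dn (m i : ℕ) (s : ℝ) :
    Real.exp (-s) * Real.exp (((m : ℝ) - 2 * i + 1 / 3) * s) =
      Real.exp (((m : ℝ) + 1 - 2 * ((i : ℝ) + 1) + 1 / 3) * s) := by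
  rw [← Real.exp_add]
  refine congrArg Real.exp ?_
  ring

theorem Ub_cosh (s : ℝ) : 2 * Real.cosh s = Real.exp s + Real.exp (-s) := by
  rw [Real.cosh_eq]
  ring

theorem Ub_sinh (s : ℝ) : 2 * Real.sinh s = Real.exp s - Real.exp (-s) := by
  rw [Real.sinh_eq]
  ring

/-- splitting of a sum over `i < m + 2` against two shifted sums over `i < m + 1` -/
theorem Ub_split (m : ℕ) (D P Q : ℕ → ℝ) (h0 : D 0 = P 0) (h1 : D (m + 1) = Q m)
    (h : ∀ k, k < m → D (k + 1) = P (k + 1) + Q k) :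
    ∑ i ∈ Finset.range (m + 2), D i = ∑ i ∈ Finset.range (m + 1), P i + ∑ i ∈ Finset.range (m + 1), Q i := by
  rw [Finset.sum_range_succ' D (m + 1), Finset.sum_range_succ (fun k => D (k + 1)) m,
    Finset.sum_range_succ' P m, Finset.sum_range_succ Q m, h0, h1]
  have : ∑ k ∈ Finset.range m, D (k + 1) = ∑ k ∈ Finset.range m, P (k + 1) + ∑ k ∈ Finset.range m, Q k := by
    rw [← Finset.sum_add_distrib]
    refine Finset.sum_congr rfl ?_
    intro k hk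
    exact h k (Finset.mem_range.1 hk)
  rw [this]
  ring

theorem Ub_A_sum (m : ℕ) (s : ℝ) :
    ∑ i ∈ Finset.range (m + 1 + 1), (-1) ^ i * ww (m + 1) i *
      ((((m + 1 : ℕ) : ℝ) - 2 * i + 1 / 3) * Real.exp ((((m + 1 : ℕ) : ℝ) - 2 * i + 1 / 3) * s)) =
      ((m : ℝ) + 4 / 3) * (2 * Real.cosh s) * um m s := by
  have hR : ((m : ℝ) + 4 / 3) * (2 * Real.cosh s) * um m s =
      ∑ i ∈ Finset.range (m + 1), (((m : ℝ) + 4 / 3) * ((-1) ^ i * ww m i)) *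
        Real.exp (((m : ℝ) + 1 - 2 * i + 1 / 3) * s) +
      ∑ i ∈ Finset.range (m + 1), (((m : ℝ) + 4 / 3) * ((-1) ^ i * ww m i)) *
        Real.exp (((m : ℝ) + 1 - 2 * ((i : ℝ) + 1) + 1 / 3) * s) := by
    unfold um
    rw [Ub_cosh, ← Finset.sum_add_distrib, Finset.mul_sum]
    refine Finset.sum_congr rfl ?_
    intro i _
    rw [← Ub_exp_up, ← Ub_exp_dn]
    ring
  rw [hR]
  refine Ub_split m _ _ _ ?_ ?_ ?_
  · rw [Ub_ww_zero, Ub_ww_zero]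
    push_cast
    ring_nf
  · have h := Ub_last m
    have e : ((-1 : ℝ)) ^ (m + 1) * ww (m + 1) (m + 1) *
        ((((m + 1 : ℕ) : ℝ) - 2 * ((m + 1 : ℕ) : ℝ) + 1 / 3) *
          Real.exp ((((m + 1 : ℕ) : ℝ) - 2 * ((m + 1 : ℕ) : ℝ) + 1 / 3) * s)) =
        (-1 : ℝ) ^ m * (((m : ℝ) + 2 / 3) * ww (m + 1) (m + 1)) *
          Real.exp (((m : ℝ) + 1 - 2 * ((m : ℝ) + 1) + 1 / 3) * s) := by
      push_cast
      rw [pow_succ]
      ring
    rw [e, h]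
    ring
  · intro k hk
    obtain ⟨j, rfl⟩ : ∃ j, m = k + 1 + j := ⟨m - (k + 1), by omega⟩
    have h := Ub_relA k j
    have e : ((-1 : ℝ)) ^ (k + 1) * ww (k + 1 + j + 1) (k + 1) *
        ((((k + 1 + j + 1 : ℕ) : ℝ) - 2 * ((k + 1 : ℕ) : ℝ) + 1 / 3) *
          Real.exp ((((k + 1 + j + 1 : ℕ) : ℝ) - 2 * ((k + 1 : ℕ) : ℝ) + 1 / 3) * s)) =
        (-1 : ℝ) ^ (k + 1) * ((((k + 1 + j : ℕ) : ℝ) + 1 - 2 * ((k : ℝ) + 1) + 1 / 3) * ww (k + 1 + j + 1) (k + 1)) *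
          Real.exp ((((k + 1 + j : ℕ) : ℝ) + 1 - 2 * ((k : ℝ) + 1) + 1 / 3) * s) := by
      push_cast
      ring
    rw [e, h]
    push_cast
    rw [pow_succ]
    ring

theorem Ub_B_sum (m : ℕ) (s : ℝ) :
    ((m : ℝ) + 2 / 3) * um (m + 1) s = (2 * (m : ℝ) + 1) * (2 * Real.sinh s) * um m s -
      (∑ i ∈ Finset.range (m + 1),
        (-1) ^ i * ww m i * (((m : ℝ) - 2 * i + 1 / 3) * Real.exp (((m : ℝ) - 2 * i + 1 / 3) * s))) *
        (2 * Real.cosh s) := by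
  have hR : (2 * (m : ℝ) + 1) * (2 * Real.sinh s) * um m s -
      (∑ i ∈ Finset.range (m + 1),
        (-1) ^ i * ww m i * (((m : ℝ) - 2 * i + 1 / 3) * Real.exp (((m : ℝ) - 2 * i + 1 / 3) * s))) *
        (2 * Real.cosh s) =
      ∑ i ∈ Finset.range (m + 1), ((-1) ^ i * (((m : ℝ) + 2 * i + 2 / 3) * ww m i)) *
        Real.exp (((m : ℝ) + 1 - 2 * i + 1 / 3) * s) +
      ∑ i ∈ Finset.range (m + 1), (-((-1) ^ i * ((3 * (m : ℝ) - 2 * i + 4 / 3) * ww m i))) *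
        Real.exp (((m : ℝ) + 1 - 2 * ((i : ℝ) + 1) + 1 / 3) * s) := by
    unfold um
    rw [Ub_cosh, Ub_sinh, ← Finset.sum_add_distrib, Finset.mul_sum, Finset.sum_mul, ← Finset.sum_sub_distrib]
    refine Finset.sum_congr rfl ?_
    intro i _
    rw [← Ub_exp_up, ← Ub_exp_dn]
    ring
  have hL : ((m : ℝ) + 2 / 3) * um (m + 1) s =
      ∑ i ∈ Finset.range (m + 2), ((-1) ^ i * (((m : ℝ) + 2 / 3) * ww (m + 1) i)) *
        Real.exp (((m : ℝ) + 1 - 2 * i + 1 / 3) * s) := by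
    unfold um
    rw [Finset.mul_sum]
    refine Finset.sum_congr rfl ?_
    intro i _
    push_cast
    ring
  rw [hR, hL]
  refine Ub_split m _ _ _ ?_ ?_ ?_
  · rw [Ub_ww_zero, Ub_ww_zero]
    push_cast
    ring_nf
  · have h := Ub_last m
    rw [h]
    push_cast
    rw [pow_succ]
    ring
  · intro k hk
    obtain ⟨j, rfl⟩ : ∃ j, m = k + 1 + j := ⟨m - (k + 1), by omega⟩
    have h := Ub_relB k j
    rw [h]
    push_cast
    rw [pow_succ]
    ring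

theorem um_A (m : ℕ) (s : ℝ) :
    HasDerivAt (um (m + 1)) (((m : ℝ) + 4 / 3) * (2 * Real.cosh s) * um m s) s := by
  have h := Ub_deriv (m + 1) s
  rw [Ub_A_sum] at h
  exact h

theorem um_B (m : ℕ) (s : ℝ) :
    HasDerivAt (um m) (((2 * (m : ℝ) + 1) * (2 * Real.sinh s) * um m s - ((m : ℝ) + 2 / 3) * um (m + 1) s) /
      (2 * Real.cosh s)) s := by
  have h := Ub_deriv m s
  have hc : (2 * Real.cosh s) ≠ 0 := by
    have := Real.cosh_pos s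
    positivity
  have e : ((2 * (m : ℝ) + 1) * (2 * Real.sinh s) * um m s - ((m : ℝ) + 2 / 3) * um (m + 1) s) /
      (2 * Real.cosh s) = ∑ i ∈ Finset.range (m + 1),
        (-1) ^ i * ww m i * (((m : ℝ) - 2 * i + 1 / 3) * Real.exp (((m : ℝ) - 2 * i + 1 / 3) * s)) := by
    rw [div_eq_iff hc, Ub_B_sum]
    ring
  rw [e]
  exact h

/-- the two derivatives agree: value recursion at `0` -/
theorem um_at_zero (m : ℕ) : ((m : ℝ) + 5 / 3) * um (m + 2) 0 = -(4 * ((m : ℝ) + 4 / 3) * um m 0) := by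
  have h1 := um_A m 0
  have h2 := um_B (m + 1) 0
  have h3 := h1.unique h2
  rw [Real.cosh_zero, Real.sinh_zero] at h3
  push_cast at h3
  linarith

theorem um_one_zero : um 1 0 = -1 := by
  unfold um
  rw [Finset.sum_range_succ, Finset.sum_range_succ, Finset.sum_range_zero, Ub_ww_zero, Ub_ww_self,
    Ub_ar_succ 0, Ub_br_succ 0, Ub_ar_zero, Ub_br_zero]
  simp only [mul_zero, Real.exp_zero]
  norm_num

end SL
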